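import Pool.Agent.Run7.h774.B2D.Q00
import Pool.Agent.Run7.h774.B2D.Q01
import Pool.Agent.Run7.h774.B2D.Q02
import Pool.Agent.Run7.h774.B2D.Q03
import Pool.Agent.Run7.h774.B2D.Q04
import Pool.Agent.Run7.h774.B2D.Q05
import Pool.Agent.Run7.h774.B2D.Q06
import Pool.Agent.Run7.h774.B2D.Q07
import Pool.Agent.Run7.h774.B2D.Q08
import Pool.Agent.Run7.h774.B2D.Q09

/-! Assembly of the pieces of `B2` (generated). -/

set_option autoImplicit false

namespace Run7.h774.B2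

theorem s0 : BoxOK ⟨(-26008), 0, 0, 0, 0, (-3954), 3954, 3716, 12860, 12860, 13337, 13337, 3954, 3954⟩ :=
  boxOK_split (v := 4) p1 p2 (by decide +kernel)

theorem s1 : BoxOK ⟨(-26008), 0, 0, 0, 0, (-3954), 0, 3716, 12860, 12860, 13337, 13337, 3954, 7907⟩ :=
  boxOK_split (v := 6) p0 s0 (by decide +kernel)

theorem s2 : BoxOK ⟨(-18576), 0, 0, 0, (-6669), (-3954), 0, 3716, 12860, 12860, 13337, 6669, 3954, 7907⟩ :=
  boxOK_split (v := 4) p3 p4 (by decide +kernel)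

theorem s3 : BoxOK ⟨(-18576), 0, 0, 0, 0, (-3954), 0, 3716, 12860, 12860, 13337, 13337, 3954, 7907⟩ :=
  boxOK_split (v := 4) s2 p5 (by decide +kernel)

theorem s4 : BoxOK ⟨(-22292), 0, 0, 0, 0, (-3954), 0, 7431, 12860, 12860, 13337, 13337, 3954, 7907⟩ :=
  boxOK_split (v := 0) s1 s3 (by decide +kernel)

theorem s5 : BoxOK ⟨(-7430), 0, 0, 6669, (-6669), (-3954), 0, 7431, 12860, 12860, 6669, 6669, 3954, 7907⟩ :=
  boxOK_split (v := 4) p7 p8 (by decide +kernel)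

theorem s6 : BoxOK ⟨(-7430), 0, 0, 6669, 0, (-3954), 0, 7431, 12860, 12860, 6669, 13337, 3954, 7907⟩ :=
  boxOK_split (v := 4) s5 p9 (by decide +kernel)

theorem s7 : BoxOK ⟨(-7430), 0, 0, 0, 0, (-3954), 0, 7431, 12860, 12860, 13337, 13337, 3954, 7907⟩ :=
  boxOK_split (v := 3) p6 s6 (by decide +kernel)

theorem s8 : BoxOK ⟨(-14861), 0, 0, 0, 0, (-3954), 0, 14861, 12860, 12860, 13337, 13337, 3954, 7907⟩ :=
  boxOK_split (v := 0) s4 s7 (by decide +kernel)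

theorem s9 : BoxOK ⟨3714, 6430, (-3215), 3334, (-3334), (-1977), 0, 3716, 6430, 3215, 3335, 3335, 1977, 7907⟩ :=
  boxOK_split (v := 1) p15 p16 (by decide +kernel)

theorem s10 : BoxOK ⟨3714, 6430, (-6430), 3334, (-3334), (-1977), 0, 3716, 6430, 6430, 3335, 3335, 1977, 7907⟩ :=
  boxOK_split (v := 2) p14 s9 (by decide +kernel)

theorem s11 : BoxOK ⟨3714, 0, (-6430), 3334, (-3334), (-1977), 0, 3716, 12860, 6430, 3335, 3335, 1977, 7907⟩ :=
  boxOK_split (v := 1) p13 s10 (by decide +kernel)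

theorem s12 : BoxOK ⟨3714, 0, 0, 3334, (-3334), (-1977), 0, 3716, 12860, 12860, 3335, 3335, 1977, 7907⟩ :=
  boxOK_split (v := 2) s11 p17 (by decide +kernel)

theorem s13 : BoxOK ⟨3714, 0, 0, 3334, (-6669), (-1977), 0, 3716, 12860, 12860, 3335, 6669, 1977, 7907⟩ :=
  boxOK_split (v := 4) p12 s12 (by decide +kernel)

theorem s14 : BoxOK ⟨11146, 0, (-6430), 3334, (-3334), (-1977), 0, 3716, 12860, 6430, 3335, 3335, 1977, 7907⟩ :=
  boxOK_split (v := 1) p19 p20 (by decide +kernel)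

theorem s15 : BoxOK ⟨9288, (-3215), 3215, 3334, (-3334), (-1977), 0, 1858, 3215, 3215, 3335, 3335, 1977, 7907⟩ :=
  boxOK_split (v := 6) p22 p23 (by decide +kernel)

theorem s16 : BoxOK ⟨11146, (-3215), 3215, 3334, (-3334), (-1977), 0, 3716, 3215, 3215, 3335, 3335, 1977, 7907⟩ :=
  boxOK_split (v := 0) s15 p24 (by decide +kernel)

theorem s17 : BoxOK ⟨11146, (-6430), 3215, 3334, (-3334), (-1977), 0, 3716, 6430, 3215, 3335, 3335, 1977, 7907⟩ :=
  boxOK_split (v := 1) p21 s16 (by decide +kernel)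

theorem s18 : BoxOK ⟨11146, (-6430), 6430, 3334, (-3334), (-1977), 0, 3716, 6430, 6430, 3335, 3335, 1977, 7907⟩ :=
  boxOK_split (v := 2) s17 p25 (by decide +kernel)

theorem s19 : BoxOK ⟨11146, 0, 6430, 3334, (-3334), (-1977), 0, 3716, 12860, 6430, 3335, 3335, 1977, 7907⟩ :=
  boxOK_split (v := 1) s18 p26 (by decide +kernel)

theorem s20 : BoxOK ⟨11146, 0, 0, 3334, (-3334), (-1977), 0, 3716, 12860, 12860, 3335, 3335, 1977, 7907⟩ :=
  boxOK_split (v := 2) s14 s19 (by decide +kernel)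

theorem s21 : BoxOK ⟨11146, 0, 0, 3334, (-6669), (-1977), 0, 3716, 12860, 12860, 3335, 6669, 1977, 7907⟩ :=
  boxOK_split (v := 4) p18 s20 (by decide +kernel)

theorem s22 : BoxOK ⟨7430, 0, 0, 3334, (-6669), (-1977), 0, 7431, 12860, 12860, 3335, 6669, 1977, 7907⟩ :=
  boxOK_split (v := 0) s13 s21 (by decide +kernel)

theorem s23 : BoxOK ⟨7430, 0, 0, 3334, (-6669), (-3954), 0, 7431, 12860, 12860, 3335, 6669, 3954, 7907⟩ :=
  boxOK_split (v := 5) p11 s22 (by decide +kernel)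

theorem s24 : BoxOK ⟨7430, 0, 0, 3334, 0, (-3954), 0, 7431, 12860, 12860, 3335, 13337, 3954, 7907⟩ :=
  boxOK_split (v := 4) s23 p27 (by decide +kernel)

theorem s25 : BoxOK ⟨7430, 0, 0, 10004, (-6669), (-3954), 0, 7431, 12860, 12860, 3335, 6669, 3954, 7907⟩ :=
  boxOK_split (v := 5) p28 p29 (by decide +kernel)

theorem s26 : BoxOK ⟨7430, 0, 0, 10004, 0, (-3954), 0, 7431, 12860, 12860, 3335, 13337, 3954, 7907⟩ :=
  boxOK_split (v := 4) s25 p30 (by decide +kernel)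

theorem s27 : BoxOK ⟨7430, 0, 0, 6669, 0, (-3954), 0, 7431, 12860, 12860, 6669, 13337, 3954, 7907⟩ :=
  boxOK_split (v := 3) s24 s26 (by decide +kernel)

theorem s28 : BoxOK ⟨7430, 0, 0, 0, 0, (-3954), 0, 7431, 12860, 12860, 13337, 13337, 3954, 7907⟩ :=
  boxOK_split (v := 3) p10 s27 (by decide +kernel)

theorem s29 : BoxOK ⟨27866, (-3215), 9645, (-10004), (-11672), (-1977), 1977, 1858, 3215, 3215, 3335, 1668, 1977, 1977⟩ :=
  boxOK_split (v := 6) p38 p39 (by decide +kernel)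

theorem s30 : BoxOK ⟨26008, (-3215), 9645, (-10004), (-11672), (-1977), 1977, 3716, 3215, 3215, 3335, 1668, 1977, 1977⟩ :=
  boxOK_split (v := 0) p37 s29 (by decide +kernel)

theorem s31 : BoxOK ⟨26008, (-3215), 9645, (-10004), (-10004), (-1977), 1977, 3716, 3215, 3215, 3335, 3335, 1977, 1977⟩ :=
  boxOK_split (v := 4) s30 p40 (by decide +kernel)

theorem s32 : BoxOK ⟨26008, (-3215), 6430, (-10004), (-10004), (-1977), 1977, 3716, 3215, 6430, 3335, 3335, 1977, 1977⟩ :=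
  boxOK_split (v := 2) p36 s31 (by decide +kernel)

theorem s33 : BoxOK ⟨26008, (-3215), 6430, (-10004), (-10004), (-1977), 3954, 3716, 3215, 6430, 3335, 3335, 1977, 3954⟩ :=
  boxOK_split (v := 6) s32 p41 (by decide +kernel)

theorem s34 : BoxOK ⟨26008, (-3215), 6430, (-10004), (-10004), (-1977), 0, 3716, 3215, 6430, 3335, 3335, 1977, 7907⟩ :=
  boxOK_split (v := 6) p35 s33 (by decide +kernel)

theorem s35 : BoxOK ⟨26008, (-3215), 0, (-10004), (-10004), (-1977), 0, 3716, 3215, 12860, 3335, 3335, 1977, 7907⟩ :=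
  boxOK_split (v := 2) p34 s34 (by decide +kernel)

theorem s36 : BoxOK ⟨26008, (-6430), 0, (-10004), (-10004), (-1977), 0, 3716, 6430, 12860, 3335, 3335, 1977, 7907⟩ :=
  boxOK_split (v := 1) p33 s35 (by decide +kernel)

theorem s37 : BoxOK ⟨26008, 0, 0, (-10004), (-10004), (-1977), 0, 3716, 12860, 12860, 3335, 3335, 1977, 7907⟩ :=
  boxOK_split (v := 1) s36 p42 (by decide +kernel)

theorem s38 : BoxOK ⟨26008, 0, 0, (-10004), (-6669), (-1977), 0, 3716, 12860, 12860, 3335, 6669, 1977, 7907⟩ :=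
  boxOK_split (v := 4) s37 p43 (by decide +kernel)

theorem s39 : BoxOK ⟨26008, 0, 0, (-10004), (-6669), (-3954), 0, 3716, 12860, 12860, 3335, 6669, 3954, 7907⟩ :=
  boxOK_split (v := 5) p32 s38 (by decide +kernel)

theorem s40 : BoxOK ⟨26008, 0, 0, (-6669), (-6669), (-3954), 0, 3716, 12860, 12860, 6669, 6669, 3954, 7907⟩ :=
  boxOK_split (v := 3) s39 p44 (by decide +kernel)

theorem s41 : BoxOK ⟨26008, 0, 0, (-6669), 0, (-3954), 0, 3716, 12860, 12860, 6669, 13337, 3954, 7907⟩ :=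
  boxOK_split (v := 4) s40 p45 (by decide +kernel)

theorem s42 : BoxOK ⟨22292, 0, 0, (-6669), 0, (-3954), 0, 7431, 12860, 12860, 6669, 13337, 3954, 7907⟩ :=
  boxOK_split (v := 0) p31 s41 (by decide +kernel)

theorem s43 : BoxOK ⟨18576, (-6430), 0, 6669, 0, (-3954), 0, 3716, 6430, 12860, 6669, 13337, 3954, 7907⟩ :=
  boxOK_split (v := 1) p46 p47 (by decide +kernel)

theorem s44 : BoxOK ⟨22292, (-6430), 0, 6669, 0, (-3954), 0, 7431, 6430, 12860, 6669, 13337, 3954, 7907⟩ :=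
  boxOK_split (v := 0) s43 p48 (by decide +kernel)

theorem s45 : BoxOK ⟨18576, 6430, 0, 6669, 0, (-3954), 0, 3716, 6430, 12860, 6669, 13337, 3954, 7907⟩ :=
  boxOK_split (v := 2) p49 p50 (by decide +kernel)

theorem s46 : BoxOK ⟨26008, 3215, 0, 6669, 0, (-3954), 0, 3716, 3215, 12860, 6669, 13337, 3954, 7907⟩ :=
  boxOK_split (v := 3) p51 p52 (by decide +kernel)

theorem s47 : BoxOK ⟨26008, 6430, 0, 6669, 0, (-3954), 0, 3716, 6430, 12860, 6669, 13337, 3954, 7907⟩ :=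
  boxOK_split (v := 1) s46 p53 (by decide +kernel)

theorem s48 : BoxOK ⟨22292, 6430, 0, 6669, 0, (-3954), 0, 7431, 6430, 12860, 6669, 13337, 3954, 7907⟩ :=
  boxOK_split (v := 0) s45 s47 (by decide +kernel)

theorem s49 : BoxOK ⟨22292, 0, 0, 6669, 0, (-3954), 0, 7431, 12860, 12860, 6669, 13337, 3954, 7907⟩ :=
  boxOK_split (v := 1) s44 s48 (by decide +kernel)

theorem s50 : BoxOK ⟨22292, 0, 0, 0, 0, (-3954), 0, 7431, 12860, 12860, 13337, 13337, 3954, 7907⟩ :=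
  boxOK_split (v := 3) s42 s49 (by decide +kernel)

theorem s51 : BoxOK ⟨14861, 0, 0, 0, 0, (-3954), 0, 14861, 12860, 12860, 13337, 13337, 3954, 7907⟩ :=
  boxOK_split (v := 0) s28 s50 (by decide +kernel)

theorem s52 : BoxOK ⟨0, 0, 0, 0, 0, (-3954), 0, 29722, 12860, 12860, 13337, 13337, 3954, 7907⟩ :=
  boxOK_split (v := 0) s8 s51 (by decide +kernel)

theorem s53 : BoxOK ⟨(-26008), (-6430), 0, (-6669), 0, 3954, 0, 3716, 6430, 12860, 6669, 13337, 3954, 7907⟩ :=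
  boxOK_split (v := 2) p54 p55 (by decide +kernel)

theorem s54 : BoxOK ⟨(-26008), 6430, 0, (-6669), 0, 3954, 0, 3716, 6430, 12860, 6669, 13337, 3954, 7907⟩ :=
  boxOK_split (v := 2) p56 p57 (by decide +kernel)

theorem s55 : BoxOK ⟨(-26008), 0, 0, (-6669), 0, 3954, 0, 3716, 12860, 12860, 6669, 13337, 3954, 7907⟩ :=
  boxOK_split (v := 1) s53 s54 (by decide +kernel)

theorem s56 : BoxOK ⟨(-18576), 0, 0, (-6669), 0, 3954, 0, 3716, 12860, 12860, 6669, 13337, 3954, 7907⟩ :=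
  boxOK_split (v := 2) p58 p59 (by decide +kernel)

theorem s57 : BoxOK ⟨(-22292), 0, 0, (-6669), 0, 3954, 0, 7431, 12860, 12860, 6669, 13337, 3954, 7907⟩ :=
  boxOK_split (v := 0) s55 s56 (by decide +kernel)

theorem s58 : BoxOK ⟨(-14861), 0, 0, (-6669), 0, 3954, 0, 14861, 12860, 12860, 6669, 13337, 3954, 7907⟩ :=
  boxOK_split (v := 0) s57 p60 (by decide +kernel)

theorem s59 : BoxOK ⟨26008, 0, 0, (-6669), (-6669), 3954, 0, 3716, 12860, 12860, 6669, 6669, 3954, 7907⟩ :=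
  boxOK_split (v := 6) p63 p64 (by decide +kernel)

theorem s60 : BoxOK ⟨22292, 0, 0, (-6669), (-6669), 3954, 0, 7431, 12860, 12860, 6669, 6669, 3954, 7907⟩ :=
  boxOK_split (v := 0) p62 s59 (by decide +kernel)

theorem s61 : BoxOK ⟨22292, 0, 0, (-6669), 0, 3954, 0, 7431, 12860, 12860, 6669, 13337, 3954, 7907⟩ :=
  boxOK_split (v := 4) s60 p65 (by decide +kernel)

theorem s62 : BoxOK ⟨14861, 0, 0, (-6669), 0, 3954, 0, 14861, 12860, 12860, 6669, 13337, 3954, 7907⟩ :=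
  boxOK_split (v := 0) p61 s61 (by decide +kernel)

theorem s63 : BoxOK ⟨0, 0, 0, (-6669), 0, 3954, 0, 29722, 12860, 12860, 6669, 13337, 3954, 7907⟩ :=
  boxOK_split (v := 0) s58 s62 (by decide +kernel)

theorem s64 : BoxOK ⟨(-7430), 0, (-6430), 6669, 0, 3954, 0, 7431, 12860, 6430, 6669, 13337, 3954, 7907⟩ :=
  boxOK_split (v := 0) p67 p68 (by decide +kernel)

theorem s65 : BoxOK ⟨(-7430), 0, 0, 6669, 0, 3954, 0, 7431, 12860, 12860, 6669, 13337, 3954, 7907⟩ :=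
  boxOK_split (v := 2) s64 p69 (by decide +kernel)

theorem s66 : BoxOK ⟨(-14861), 0, 0, 6669, 0, 3954, 0, 14861, 12860, 12860, 6669, 13337, 3954, 7907⟩ :=
  boxOK_split (v := 0) p66 s65 (by decide +kernel)

theorem s67 : BoxOK ⟨3714, 0, 0, 3334, (-6669), 3954, (-1977), 3716, 12860, 12860, 3335, 6669, 3954, 1977⟩ :=
  boxOK_split (v := 2) p71 p72 (by decide +kernel)

theorem s68 : BoxOK ⟨9288, (-3215), 6430, 3334, (-3334), 1977, (-1977), 1858, 3215, 6430, 3335, 3335, 1977, 1977⟩ :=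
  boxOK_split (v := 6) p76 p77 (by decide +kernel)

theorem s69 : BoxOK ⟨9288, (-6430), 6430, 3334, (-3334), 1977, (-1977), 1858, 6430, 6430, 3335, 3335, 1977, 1977⟩ :=
  boxOK_split (v := 1) p75 s68 (by decide +kernel)

theorem s70 : BoxOK ⟨11146, (-6430), 6430, 3334, (-3334), 1977, (-1977), 3716, 6430, 6430, 3335, 3335, 1977, 1977⟩ :=
  boxOK_split (v := 0) s69 p78 (by decide +kernel)

theorem s71 : BoxOK ⟨11146, (-6430), 6430, 3334, (-6669), 1977, (-1977), 3716, 6430, 6430, 3335, 6669, 1977, 1977⟩ :=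
  boxOK_split (v := 4) p74 s70 (by decide +kernel)

theorem s72 : BoxOK ⟨11146, 0, 6430, 3334, (-6669), 1977, (-1977), 3716, 12860, 6430, 3335, 6669, 1977, 1977⟩ :=
  boxOK_split (v := 1) s71 p79 (by decide +kernel)

theorem s73 : BoxOK ⟨11146, 0, 0, 3334, (-6669), 1977, (-1977), 3716, 12860, 12860, 3335, 6669, 1977, 1977⟩ :=
  boxOK_split (v := 2) p73 s72 (by decide +kernel)

theorem s74 : BoxOK ⟨11146, 0, 0, 3334, (-6669), 3954, (-1977), 3716, 12860, 12860, 3335, 6669, 3954, 1977⟩ :=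
  boxOK_split (v := 5) s73 p80 (by decide +kernel)

theorem s75 : BoxOK ⟨7430, 0, 0, 3334, (-6669), 3954, (-1977), 7431, 12860, 12860, 3335, 6669, 3954, 1977⟩ :=
  boxOK_split (v := 0) s67 s74 (by decide +kernel)

theorem s76 : BoxOK ⟨7430, 0, 0, 6669, (-6669), 3954, (-1977), 7431, 12860, 12860, 6669, 6669, 3954, 1977⟩ :=
  boxOK_split (v := 3) s75 p81 (by decide +kernel)

theorem s77 : BoxOK ⟨7430, 0, 0, 6669, (-6669), 3954, (-3954), 7431, 12860, 12860, 6669, 6669, 3954, 3954⟩ :=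
  boxOK_split (v := 6) p70 s76 (by decide +kernel)

theorem s78 : BoxOK ⟨7430, 0, 0, 6669, 0, 3954, (-3954), 7431, 12860, 12860, 6669, 13337, 3954, 3954⟩ :=
  boxOK_split (v := 4) s77 p82 (by decide +kernel)

theorem s79 : BoxOK ⟨3714, 0, 0, 3334, (-6669), 1977, 3954, 3716, 12860, 12860, 3335, 6669, 1977, 3954⟩ :=
  boxOK_split (v := 2) p83 p84 (by decide +kernel)

theorem s80 : BoxOK ⟨11146, 0, 0, 3334, (-6669), 1977, 3954, 3716, 12860, 12860, 3335, 6669, 1977, 3954⟩ :=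
  boxOK_split (v := 2) p85 p86 (by decide +kernel)

theorem s81 : BoxOK ⟨7430, 0, 0, 3334, (-6669), 1977, 3954, 7431, 12860, 12860, 3335, 6669, 1977, 3954⟩ :=
  boxOK_split (v := 0) s79 s80 (by decide +kernel)

theorem s82 : BoxOK ⟨7430, 0, 0, 3334, (-6669), 3954, 3954, 7431, 12860, 12860, 3335, 6669, 3954, 3954⟩ :=
  boxOK_split (v := 5) s81 p87 (by decide +kernel)

theorem s83 : BoxOK ⟨7430, 0, 0, 3334, 0, 3954, 3954, 7431, 12860, 12860, 3335, 13337, 3954, 3954⟩ :=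
  boxOK_split (v := 4) s82 p88 (by decide +kernel)

theorem s84 : BoxOK ⟨7430, 0, 0, 6669, 0, 3954, 3954, 7431, 12860, 12860, 6669, 13337, 3954, 3954⟩ :=
  boxOK_split (v := 3) s83 p89 (by decide +kernel)

theorem s85 : BoxOK ⟨7430, 0, 0, 6669, 0, 3954, 0, 7431, 12860, 12860, 6669, 13337, 3954, 7907⟩ :=
  boxOK_split (v := 6) s78 s84 (by decide +kernel)

theorem s86 : BoxOK ⟨22292, (-6430), 0, 3334, 0, 3954, 0, 7431, 6430, 12860, 3335, 13337, 3954, 7907⟩ :=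
  boxOK_split (v := 0) p90 p91 (by decide +kernel)

theorem s87 : BoxOK ⟨22292, (-6430), 0, 6669, 0, 3954, 0, 7431, 6430, 12860, 6669, 13337, 3954, 7907⟩ :=
  boxOK_split (v := 3) s86 p92 (by decide +kernel)

theorem s88 : BoxOK ⟨22292, 6430, 0, 6669, 0, 3954, 0, 7431, 6430, 12860, 6669, 13337, 3954, 7907⟩ :=
  boxOK_split (v := 0) p93 p94 (by decide +kernel)

theorem s89 : BoxOK ⟨22292, 0, 0, 6669, 0, 3954, 0, 7431, 12860, 12860, 6669, 13337, 3954, 7907⟩ :=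
  boxOK_split (v := 1) s87 s88 (by decide +kernel)

theorem s90 : BoxOK ⟨14861, 0, 0, 6669, 0, 3954, 0, 14861, 12860, 12860, 6669, 13337, 3954, 7907⟩ :=
  boxOK_split (v := 0) s85 s89 (by decide +kernel)

theorem s91 : BoxOK ⟨0, 0, 0, 6669, 0, 3954, 0, 29722, 12860, 12860, 6669, 13337, 3954, 7907⟩ :=
  boxOK_split (v := 0) s66 s90 (by decide +kernel)

theorem s92 : BoxOK ⟨0, 0, 0, 0, 0, 3954, 0, 29722, 12860, 12860, 13337, 13337, 3954, 7907⟩ :=
  boxOK_split (v := 3) s63 s91 (by decide +kernel)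

theorem s93 : BoxOK ⟨0, 0, 0, 0, 0, 0, 0, 29722, 12860, 12860, 13337, 13337, 7907, 7907⟩ :=
  boxOK_split (v := 5) s52 s92 (by decide +kernel)

theorem root : BoxOK ⟨0, 0, 0, 0, 0, 0, 0, 29722, 12860, 12860, 13337, 13337, 7907, 7907⟩ := s93

end Run7.h774.B2
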