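import Pool.Agent.Run7.h774.CoreDefs
import Pool.Agent.Run7.h774.B2Root

/-! The annulus theorem, from the branch and bound `B2`. -/

set_option autoImplicit false

namespace Run7.h774

open B2

theorem conj_bound {t a b : ℝ} {n : ℤ × ℤ × ℤ} (h1 : |n.1| ≤ 128) (h2 : |n.2.1| ≤ 32) (h3 : |n.2.2| ≤ 32)
    (ha : |t| ≤ a) (hb : |t ^ 2| ≤ b) :
    |(n.1 : ℝ) + n.2.1 * t + n.2.2 * t ^ 2| ≤ 128 + 32 * a + 32 * b := by
  have h1' : |(n.1 : ℝ)| ≤ 128 := by exact_mod_cast h1
  have h2' : |(n.2.1 : ℝ)| ≤ 32 := by exact_mod_cast h2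
  have h3' : |(n.2.2 : ℝ)| ≤ 32 := by exact_mod_cast h3
  have p1 : |(n.2.1 : ℝ) * t| ≤ 32 * a := by
    rw [abs_mul]; exact mul_le_mul h2' ha (abs_nonneg _) (by norm_num)
  have p2 : |(n.2.2 : ℝ) * t ^ 2| ≤ 32 * b := by
    rw [abs_mul]; exact mul_le_mul h3' hb (abs_nonneg _) (by norm_num)
  have q1 := abs_add_le ((n.1 : ℝ) + n.2.1 * t) (n.2.2 * t ^ 2)
  have q2 := abs_add_le (n.1 : ℝ) (n.2.1 * t)
  linarith

theorem e1_bound {n : ℤ × ℤ × ℤ} (h1 : |n.1| ≤ 128) (h2 : |n.2.1| ≤ 32) (h3 : |n.2.2| ≤ 32) :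
    |e1 n| ≤ 300 := by
  have a := t1_lo; have b := t1_hi
  have := conj_bound (t := t1) (a := 2) (b := 3) h1 h2 h3 (by rw [abs_le]; constructor <;> linarith)
    (by rw [sq1, abs_le]; have := t2_lo; have := t2_hi; constructor <;> linarith)
  unfold e1; linarith

theorem e2_bound {n : ℤ × ℤ × ℤ} (h1 : |n.1| ≤ 128) (h2 : |n.2.1| ≤ 32) (h3 : |n.2.2| ≤ 32) :
    |e2 n| ≤ 300 := by
  have a := t2_lo; have b := t2_hi
  have := conj_bound (t := t2) (a := 2) (b := 3) h1 h2 h3 (by rw [abs_le]; constructor <;> linarith)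
    (by rw [sq2, abs_le]; have := t3_lo; have := t3_hi; constructor <;> linarith)
  unfold e2; linarith

theorem e3_bound {n : ℤ × ℤ × ℤ} (h1 : |n.1| ≤ 128) (h2 : |n.2.1| ≤ 32) (h3 : |n.2.2| ≤ 32) :
    |e3 n| ≤ 300 := by
  have a := t3_lo; have b := t3_hi
  have := conj_bound (t := t3) (a := 1.9) (b := 3.3) h1 h2 h3 (by rw [abs_le]; constructor <;> linarith)
    (by rw [sq3, abs_le]; have := t1_lo; have := t1_hi; constructor <;> linarith)
  unfold e3; linarith

theorem annulus : AnnulusStmt := by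
  intro m11 m12 m13 m21 m22 m23 m31 m32 m33 T hE
  by_contra hcon
  push Not at hcon
  have d1 := T.d1; have d2 := T.d2; have d3 := T.d3
  set sc := (m11 + m22) / 2 with hsc
  have hsc0 : 0 < sc := by rw [hsc]; linarith
  have hne : sc ≠ 0 := ne_of_gt hsc0
  have hne3 : m33 ≠ 0 := ne_of_gt d3
  obtain ⟨z, hz⟩ : ∃ z : B2.Z, z = ⟨m11 / sc - 1, m12 / sc, m21 / sc, m13 / sc, m23 / sc, m31 / m33, m32 / m33⟩ :=
    ⟨_, rfl⟩
  have zs : z.s = m11 / sc - 1 := by rw [hz]
  have zh : z.h = m12 / sc := by rw [hz]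
  have zk : z.k = m21 / sc := by rw [hz]
  have zf1 : z.f1 = m13 / sc := by rw [hz]
  have zf2 : z.f2 = m23 / sc := by rw [hz]
  have zg1 : z.g1 = m31 / m33 := by rw [hz]
  have zg2 : z.g2 = m32 / m33 := by rw [hz]
  have k1 : m11 = sc * (1 + z.s) := by rw [zs]; field_simp; ring
  have k2 : m22 = sc * (1 - z.s) := by
    have : m22 = 2 * sc - m11 := by rw [hsc]; ring
    rw [this]
    nth_rewrite 1 [k1]
    ring
  have k12 : m12 = sc * z.h := by rw [zh]; field_simp
  have k21 : m21 = sc * z.k := by rw [zk]; field_simp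
  have k13 : m13 = sc * z.f1 := by rw [zf1]; field_simp
  have k23 : m23 = sc * z.f2 := by rw [zf2]; field_simp
  have k31 : m31 = m33 * z.g1 := by rw [zg1]; field_simp
  have k32 : m32 = m33 * z.g2 := by rw [zg2]; field_simp
  have asc : ∀ x : ℝ, |sc * x| = sc * |x| := by intro x; rw [abs_mul, abs_of_pos hsc0]
  have a33 : ∀ x : ℝ, |m33 * x| = m33 * |x| := by intro x; rw [abs_mul, abs_of_pos d3]
  have ts : |z.s| ≤ 4535 / 10000 := by
    have s1 := T.s1; have s2 := T.s2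
    rw [k1, k2] at s1 s2
    have s1' : sc * z.s ≤ sc * (4535 / 10000) := by linarith
    have s2' : sc * (-z.s) ≤ sc * (4535 / 10000) := by linarith
    have s1'' := le_of_mul_le_mul_left s1' hsc0
    have s2'' := le_of_mul_le_mul_left s2' hsc0
    rw [abs_le]; constructor <;> linarith
  have ts' := abs_le.1 ts
  have th : |z.h| ≤ 135 / 1000 * (1 - z.s) := by
    have := T.h12
    rw [k12, k2, asc] at this
    refine le_of_mul_le_mul_left (a := sc) ?_ hsc0
    linarith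
  have tk : |z.k| ≤ 135 / 1000 * (1 + z.s) := by
    have := T.h21
    rw [k21, k1, asc] at this
    refine le_of_mul_le_mul_left (a := sc) ?_ hsc0
    linarith
  have t1' : |z.g1| ≤ 83 / 1000 * (1 + z.s) := by
    have := T.c1
    rw [← hsc, k31, a33, k1] at this
    refine le_of_mul_le_mul_left (a := m33 * sc) ?_ (mul_pos d3 hsc0)
    linarith
  have t2' : |z.g2| ≤ 83 / 1000 * (1 - z.s) := by
    have := T.c2
    rw [← hsc, k32, a33, k2] at this
    refine le_of_mul_le_mul_left (a := m33 * sc) ?_ (mul_pos d3 hsc0)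
    linarith
  have u1 : |z.f1| ≤ 2035 / 10000 := by
    have := T.e1
    rw [← hsc, k13, asc] at this
    refine le_of_mul_le_mul_left (a := sc) ?_ hsc0
    linarith
  have u2 : |z.f2| ≤ 2035 / 10000 := by
    have := T.e2
    rw [← hsc, k23, asc] at this
    refine le_of_mul_le_mul_left (a := sc) ?_ hsc0
    linarith
  have ann : 562 / 10000 ≤ max |z.f1| |z.f2| := by
    rw [k13, k23, asc, asc, ← mul_max_of_nonneg _ _ hsc0.le] at hE
    refine le_of_mul_le_mul_left (a := sc) ?_ hsc0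
    linarith
  have hy1 : ∀ n, m11 * e1 n + m12 * e2 n + m13 * e3 n = sc * z.y1 n := by
    intro n; unfold B2.Z.y1
    nth_rewrite 1 [k1]; rw [k12, k13]; ring
  have hy2 : ∀ n, m21 * e1 n + m22 * e2 n + m23 * e3 n = sc * z.y2 n := by
    intro n; unfold B2.Z.y2
    nth_rewrite 1 [k2]; rw [k21, k23]; ring
  have hy3 : ∀ n, m31 * e1 n + m32 * e2 n + m33 * e3 n = m33 * z.y3 n := by
    intro n; unfold B2.Z.y3
    rw [k31, k32]; ring
  have hdet : det9 m11 m12 m13 m21 m22 m23 m31 m32 m33 = m33 * sc ^ 2 * z.D := by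
    unfold det9 B2.Z.D
    have : m11 * (m22 * m33 - m23 * m32) - m12 * (m21 * m33 - m23 * m31) + m13 * (m21 * m32 - m22 * m31) =
      (sc * (1 + z.s)) * ((sc * (1 - z.s)) * m33 - (sc * z.f2) * (m33 * z.g2))
        - (sc * z.h) * ((sc * z.k) * m33 - (sc * z.f2) * (m33 * z.g1))
        + (sc * z.f1) * ((sc * z.k) * (m33 * z.g2) - (sc * (1 - z.s)) * (m33 * z.g1)) := by
      rw [← k1, ← k2, ← k12, ← k21, ← k13, ← k23, ← k31, ← k32]
    rw [this]; ring
  have H : B2.Hyp z := by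
    refine ⟨?_, th, tk, t1', t2', ts, u1, u2, ann⟩
    intro n hn b1 b2 b3
    have c1 := e1_bound b1 b2 b3
    have c2 := e2_bound b1 b2 b3
    have c3 := e3_bound b1 b2 b3
    have h := hcon n (fun p q r => hn ⟨p, q, r⟩)
    rw [hy1, hy2, hy3, hdet, asc, asc] at h
    have n1 : |z.y1 n| ≤ 600 := by
      unfold B2.Z.y1
      have p1 : |(1 + z.s) * e1 n| ≤ (1 + 4535 / 10000) * 300 := by
        rw [abs_mul]
        exact mul_le_mul (by rw [abs_le]; constructor <;> linarith [ts'.1, ts'.2]) c1 (abs_nonneg _) (by norm_num)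
      have p2 : |z.h * e2 n| ≤ 2 / 10 * 300 := by
        rw [abs_mul]
        exact mul_le_mul (by linarith [ts'.1, ts'.2]) c2 (abs_nonneg _) (by norm_num)
      have p3 : |z.f1 * e3 n| ≤ 2035 / 10000 * 300 := by
        rw [abs_mul]; exact mul_le_mul u1 c3 (abs_nonneg _) (by norm_num)
      have q1 := abs_add_le ((1 + z.s) * e1 n + z.h * e2 n) (z.f1 * e3 n)
      have q2 := abs_add_le ((1 + z.s) * e1 n) (z.h * e2 n)
      linarith
    have n2 : |z.y2 n| ≤ 600 := by
      unfold B2.Z.y2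
      have p1 : |(1 - z.s) * e2 n| ≤ (1 + 4535 / 10000) * 300 := by
        rw [abs_mul]
        exact mul_le_mul (by rw [abs_le]; constructor <;> linarith [ts'.1, ts'.2]) c2 (abs_nonneg _) (by norm_num)
      have p2 : |z.k * e1 n| ≤ 2 / 10 * 300 := by
        rw [abs_mul]
        exact mul_le_mul (by linarith [ts'.1, ts'.2]) c1 (abs_nonneg _) (by norm_num)
      have p3 : |z.f2 * e3 n| ≤ 2035 / 10000 * 300 := by
        rw [abs_mul]; exact mul_le_mul u2 c3 (abs_nonneg _) (by norm_num)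
      have q1 := abs_add_le (z.k * e1 n + (1 - z.s) * e2 n) (z.f2 * e3 n)
      have q2 := abs_add_le (z.k * e1 n) ((1 - z.s) * e2 n)
      linarith
    have h' := h (by nlinarith)
    unfold Gy at h'
    rw [a33, asc, asc] at h'
    have hpos : 0 < m33 * sc ^ 2 := by positivity
    refine le_of_mul_le_mul_left (a := m33 * sc ^ 2) ?_ hpos
    calc m33 * sc ^ 2 * z.D ≤ _ := h'
      _ = m33 * sc ^ 2 * (|z.y3 n| * ((|z.y1 n| + |z.y2 n|) / 2) ^ 2) := by ring
  refine B2.root z ?_ H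
  constructor
  all_goals push_cast
  all_goals rw [sub_zero, abs_mul, abs_of_pos (by norm_num : (0:ℝ) < 65536)]
  · linarith
  · linarith [ts'.1]
  · linarith [ts'.2]
  · linarith
  · linarith
  · linarith [ts'.2]
  · linarith [ts'.1]

end Run7.h774
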