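import Mathlib

/-!
Kernel-evaluable checker for the branch and bound `B1` of MP_be9f18_nt.

Variables `z = (a, x1, x2, x3, y1, y2, y3)`; lattice points `w = n P + i X + j Y`,
`P = (1, a, 1)`, `X = (x1,x2,x3)`, `Y = (y1,y2,y3)`.
Boxes: centres and radii in units of `1/8192`; centres of the `x`'s and `y`'s are biased by `65536`.
-/

set_option autoImplicit false

namespace Run7.h774.B1

/-- Box: centres (biased by 65536 except for `a`) and radii, units of 1/8192. -/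
structure Box where
  a : Nat
  x1 : Nat
  x2 : Nat
  x3 : Nat
  y1 : Nat
  y2 : Nat
  y3 : Nat
  ra : Nat
  r1 : Nat
  r2 : Nat
  r3 : Nat
  s1 : Nat
  s2 : Nat
  s3 : Nat

/-- `|p - n|` in natural numbers. -/
def absd (p n : Nat) : Nat := Nat.add (Nat.sub p n) (Nat.sub n p)

/-- `k + (i x + j y)`. -/
def comb (k i x j y : Nat) : Nat := Nat.add k (Nat.add (Nat.mul i x) (Nat.mul j y))

/-- `m3 m^2 ≤ T3`, where `T3 ≤ 8192^3 (1 - 10^-6)`. -/
def small (m3 m : Nat) : Bool := Nat.ble (Nat.mul m3 (Nat.mul m m)) 549755000000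

/-- A point: `n = np - nm`, `i = ip - im`, `j = jp - jm`. -/
structure Pt where
  np : Nat
  nm : Nat
  ip : Nat
  im : Nat
  jp : Nat
  jm : Nat

/-- positive part of the centre of a row, `c` the centre of the `P` entry. -/
def posr (q : Pt) (c x y : Nat) : Nat :=
  comb (Nat.add (Nat.mul 65536 (Nat.add q.im q.jm)) (Nat.mul q.np c)) q.ip x q.jp y
/-- negative part of the centre of a row. -/
def negr (q : Pt) (c x y : Nat) : Nat :=
  comb (Nat.add (Nat.mul 65536 (Nat.add q.ip q.jp)) (Nat.mul q.nm c)) q.im x q.jm y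
/-- radius of row 1 or 3 -/
def radr (q : Pt) (rx ry : Nat) : Nat :=
  Nat.add (Nat.mul (Nat.add q.ip q.im) rx) (Nat.mul (Nat.add q.jp q.jm) ry)
/-- radius of row 2 -/
def radr2 (q : Pt) (rc rx ry : Nat) : Nat :=
  Nat.add (Nat.mul (Nat.add q.np q.nm) rc) (radr q rx ry)

/-- F test. -/
def fcheck (b : Box) (q : Pt) : Bool :=
  cond (Nat.ble 1 (Nat.add (Nat.add q.ip q.im) (Nat.add q.jp q.jm)))
    ((fun m3 =>
      cond (small m3 (Nat.add (absd (posr q 8192 b.x1 b.y1) (negr q 8192 b.x1 b.y1)) (radr q b.r1 b.s1)))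
        (small m3 (Nat.add (absd (posr q b.a b.x2 b.y2) (negr q b.a b.x2 b.y2)) (radr2 q b.ra b.r2 b.s2)))
        false)
      (Nat.add (absd (posr q 8192 b.x3 b.y3) (negr q 8192 b.x3 b.y3)) (radr q b.r3 b.s3)))
    false

/-- Accumulated linear form `(cp - cn) + Σ_v (vp - vn) δ_v ≥ 0`. -/
structure Acc where
  cp : Nat
  cn : Nat
  ap : Nat
  an : Nat
  x1p : Nat
  x1n : Nat
  x2p : Nat
  x2n : Nat
  x3p : Nat
  x3n : Nat
  y1p : Nat
  y1n : Nat
  y2p : Nat
  y2n : Nat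
  y3p : Nat
  y3n : Nat

/-- AM-GM constant check: `4 R^3 ≤ 27 P Q^2 8192^3 (1 - 10^-6)` is implied. -/
def rok (P Q R : Nat) : Bool :=
  Nat.ble (Nat.mul 4000008 (Nat.mul R (Nat.mul R R)))
    (Nat.mul 14843406974976000000 (Nat.mul P (Nat.mul Q Q)))

/-- validity of one constraint, the main row having centre `pp - nn ≥ radp`, the other row bound
`mq`. -/
def okc (pp nn radp mq m3 P Q R : Nat) : Bool :=
  cond (Nat.ble (Nat.add nn radp) pp)
    (cond (cond (small m3 mq) true (Nat.ble (Nat.add (Nat.add mq radp) nn) pp)) (rok P Q R) false)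
    false

/-- one constraint of an LP leaf. `ks = 0,1,2,3`: row 1 with sign +, row 1 with sign -, row 2 with
sign +, row 2 with sign -. -/
def cstep (b : Box) (q : Pt) (ks P Q R : Nat) (acc : Acc) (k : Acc → Bool) : Bool :=
  (fun p1 n1 p2 n2 p3 n3 d1 d2 d3 =>
    cond (cond (Nat.ble (Nat.add n3 d3) p3)
        (Nat.ble 1 (Nat.add (Nat.add q.ip q.im) (Nat.add q.jp q.jm))) false)
      (cond (Nat.beq ks 0)
        (cond (okc p1 n1 d1 (Nat.add (absd p2 n2) d2) (Nat.add (Nat.sub p3 n3) d3) P Q R)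
          (k ⟨Nat.add acc.cp (Nat.add (Nat.mul P p3) (Nat.mul Q p1)),
              Nat.add acc.cn (Nat.add (Nat.add (Nat.mul P n3) (Nat.mul Q n1)) R),
              acc.ap, acc.an,
              Nat.add acc.x1p (Nat.mul Q q.ip), Nat.add acc.x1n (Nat.mul Q q.im),
              acc.x2p, acc.x2n,
              Nat.add acc.x3p (Nat.mul P q.ip), Nat.add acc.x3n (Nat.mul P q.im),
              Nat.add acc.y1p (Nat.mul Q q.jp), Nat.add acc.y1n (Nat.mul Q q.jm),
              acc.y2p, acc.y2n,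
              Nat.add acc.y3p (Nat.mul P q.jp), Nat.add acc.y3n (Nat.mul P q.jm)⟩)
          false)
      (cond (Nat.beq ks 1)
        (cond (okc n1 p1 d1 (Nat.add (absd p2 n2) d2) (Nat.add (Nat.sub p3 n3) d3) P Q R)
          (k ⟨Nat.add acc.cp (Nat.add (Nat.mul P p3) (Nat.mul Q n1)),
              Nat.add acc.cn (Nat.add (Nat.add (Nat.mul P n3) (Nat.mul Q p1)) R),
              acc.ap, acc.an,
              Nat.add acc.x1p (Nat.mul Q q.im), Nat.add acc.x1n (Nat.mul Q q.ip),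
              acc.x2p, acc.x2n,
              Nat.add acc.x3p (Nat.mul P q.ip), Nat.add acc.x3n (Nat.mul P q.im),
              Nat.add acc.y1p (Nat.mul Q q.jm), Nat.add acc.y1n (Nat.mul Q q.jp),
              acc.y2p, acc.y2n,
              Nat.add acc.y3p (Nat.mul P q.jp), Nat.add acc.y3n (Nat.mul P q.jm)⟩)
          false)
      (cond (Nat.beq ks 2)
        (cond (okc p2 n2 d2 (Nat.add (absd p1 n1) d1) (Nat.add (Nat.sub p3 n3) d3) P Q R)
          (k ⟨Nat.add acc.cp (Nat.add (Nat.mul P p3) (Nat.mul Q p2)),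
              Nat.add acc.cn (Nat.add (Nat.add (Nat.mul P n3) (Nat.mul Q n2)) R),
              Nat.add acc.ap (Nat.mul Q q.np), Nat.add acc.an (Nat.mul Q q.nm),
              acc.x1p, acc.x1n,
              Nat.add acc.x2p (Nat.mul Q q.ip), Nat.add acc.x2n (Nat.mul Q q.im),
              Nat.add acc.x3p (Nat.mul P q.ip), Nat.add acc.x3n (Nat.mul P q.im),
              acc.y1p, acc.y1n,
              Nat.add acc.y2p (Nat.mul Q q.jp), Nat.add acc.y2n (Nat.mul Q q.jm),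
              Nat.add acc.y3p (Nat.mul P q.jp), Nat.add acc.y3n (Nat.mul P q.jm)⟩)
          false)
        (cond (okc n2 p2 d2 (Nat.add (absd p1 n1) d1) (Nat.add (Nat.sub p3 n3) d3) P Q R)
          (k ⟨Nat.add acc.cp (Nat.add (Nat.mul P p3) (Nat.mul Q n2)),
              Nat.add acc.cn (Nat.add (Nat.add (Nat.mul P n3) (Nat.mul Q p2)) R),
              Nat.add acc.ap (Nat.mul Q q.nm), Nat.add acc.an (Nat.mul Q q.np),
              acc.x1p, acc.x1n,
              Nat.add acc.x2p (Nat.mul Q q.im), Nat.add acc.x2n (Nat.mul Q q.ip),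
              Nat.add acc.x3p (Nat.mul P q.ip), Nat.add acc.x3n (Nat.mul P q.im),
              acc.y1p, acc.y1n,
              Nat.add acc.y2p (Nat.mul Q q.jm), Nat.add acc.y2n (Nat.mul Q q.jp),
              Nat.add acc.y3p (Nat.mul P q.jp), Nat.add acc.y3n (Nat.mul P q.jm)⟩)
          false))))
      false)
    (posr q 8192 b.x1 b.y1) (negr q 8192 b.x1 b.y1)
    (posr q b.a b.x2 b.y2) (negr q b.a b.x2 b.y2)
    (posr q 8192 b.x3 b.y3) (negr q 8192 b.x3 b.y3)
    (radr q b.r1 b.s1) (radr2 q b.ra b.r2 b.s2) (radr q b.r3 b.s3)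

/-- Final check without the determinant. -/
def fin0 (b : Box) (acc : Acc) : Bool :=
  Nat.blt
    (Nat.add (Nat.add (Nat.add (Nat.add acc.cp (Nat.mul (absd acc.ap acc.an) b.ra))
      (Nat.add (Nat.mul (absd acc.x1p acc.x1n) b.r1) (Nat.mul (absd acc.x2p acc.x2n) b.r2)))
      (Nat.add (Nat.mul (absd acc.x3p acc.x3n) b.r3) (Nat.mul (absd acc.y1p acc.y1n) b.s1)))
      (Nat.add (Nat.mul (absd acc.y2p acc.y2n) b.s2) (Nat.mul (absd acc.y3p acc.y3n) b.s3)))
    acc.cn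

/-- one term of the final sum -/
def ft (ld vp vn gp gn r : Nat) : Nat :=
  Nat.mul (absd (Nat.add (Nat.mul 67108864 vp) (Nat.mul ld gn)) (Nat.add (Nat.mul 67108864 vn) (Nat.mul ld gp))) r

/-- core of the final check with the determinant: `(gp - gn)` are the parts of the gradient, `Dp - Dn` the
centre value. -/
def core (b : Box) (ld : Nat) (acc : Acc)
    (gap gan g1p g1n g2p g2n g3p g3n h1p h1n h2p h2n h3p h3n Dp Dn E : Nat) : Bool :=
  Nat.blt
    (Nat.add (Nat.add (Nat.mul 67108864 acc.cp) (Nat.mul ld (Nat.add (Nat.add 1924145348608 E) Dn)))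
      (Nat.add (Nat.add (Nat.add (ft ld acc.ap acc.an gap gan b.ra) (ft ld acc.x1p acc.x1n g1p g1n b.r1))
        (Nat.add (ft ld acc.x2p acc.x2n g2p g2n b.r2) (ft ld acc.x3p acc.x3n g3p g3n b.r3)))
        (Nat.add (ft ld acc.y1p acc.y1n h1p h1n b.s1)
          (Nat.add (ft ld acc.y2p acc.y2n h2p h2n b.s2) (ft ld acc.y3p acc.y3n h3p h3n b.s3)))))
    (Nat.add (Nat.mul 67108864 acc.cn) (Nat.mul ld Dp))

/-- the error term of the determinant -/
def eterm (b : Box) : Nat :=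
  (Nat.add (Nat.add (Nat.mul 8192 (Nat.add (Nat.add (Nat.mul b.r2 b.s3) (Nat.mul b.r3 b.s2))
          (Nat.add (Nat.mul b.r1 b.s2) (Nat.mul b.r2 b.s1))))
          (Nat.mul (Nat.add b.a b.ra) (Nat.add (Nat.mul b.r3 b.s1) (Nat.mul b.r1 b.s3))))
        (Nat.mul b.ra (Nat.add (Nat.add (Nat.mul b.r3 (absd b.y1 65536)) (Nat.mul (absd b.x3 65536) b.s1))
          (Nat.add (Nat.mul b.r1 (absd b.y3 65536)) (Nat.mul (absd b.x1 65536) b.s3)))))

/-- `x1 g1 + x2 g2 + x3 g3`, positive part -/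
def dterm (b : Box) (g1p g1n g2p g2n g3p g3n : Nat) : Nat :=
  (Nat.add (Nat.add (Nat.add (Nat.mul b.x1 g1p) (Nat.mul 65536 g1n))
        (Nat.add (Nat.mul b.x2 g2p) (Nat.mul 65536 g2n)))
        (Nat.add (Nat.mul b.x3 g3p) (Nat.mul 65536 g3n)))

/-- Final check with the determinant, orientation given by the flag `sd` (0: `det ≤ 7/2`,
otherwise `-det ≤ 7/2`), multiplier `ld`. -/
def fin1 (b : Box) (sd ld : Nat) (acc : Acc) : Bool :=
  (fun sx2 sx3a sy2 sy3a aO =>
    (fun g1p g1n g2p g2n g3p g3n h1p h1n h2p h2n h3p h3n gap gan =>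
      cond (Nat.beq sd 0)
        (core b ld acc gap gan g1p g1n g2p g2n g3p g3n h1p h1n h2p h2n h3p h3n
          (dterm b g1p g1n g2p g2n g3p g3n) (dterm b g1n g1p g2n g2p g3n g3p) (eterm b))
        (core b ld acc gan gap g1n g1p g2n g2p g3n g3p h1n h1p h2n h2p h3n h3p
          (dterm b g1n g1p g2n g2p g3n g3p) (dterm b g1p g1n g2p g2n g3p g3n) (eterm b)))
    -- g1 = S y2 - a y3
    (Nat.add sy2 aO) (Nat.add 536870912 sy3a)
    -- g2 = S (y3 - y1)
    (Nat.mul 8192 b.y3) (Nat.mul 8192 b.y1)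
    -- g3 = a y1 - S y2
    (Nat.add (Nat.mul b.a b.y1) 536870912) (Nat.add sy2 aO)
    -- h1 = a x3 - S x2
    (Nat.add sx3a 536870912) (Nat.add sx2 aO)
    -- h2 = S (x1 - x3)
    (Nat.mul 8192 b.x1) (Nat.mul 8192 b.x3)
    -- h3 = S x2 - a x1
    (Nat.add sx2 aO) (Nat.add (Nat.mul b.a b.x1) 536870912)
    -- ga = x3 y1 - x1 y3
    (Nat.add (Nat.add (Nat.mul b.x3 b.y1) (Nat.mul 65536 b.x1)) (Nat.mul 65536 b.y3))
    (Nat.add (Nat.add (Nat.mul b.x1 b.y3) (Nat.mul 65536 b.x3)) (Nat.mul 65536 b.y1)))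
  (Nat.mul 8192 b.x2) (Nat.mul b.a b.x3) (Nat.mul 8192 b.y2) (Nat.mul b.a b.y3)
  (Nat.mul b.a 65536)

/-- Reduction tests. `u = x1 - x3`, `v = 8192 x2 - a x3`. -/
def rtest (kind : Nat) (mu1 ru1 mv1 rv1 mu2 ru2 mv2 rv2 up un vp vn : Nat) : Bool :=
  cond (Nat.beq kind 0)
    -- Q2 upper < Q1 lower
    (Nat.blt
      (Nat.add (Nat.mul 67108864 (Nat.mul (Nat.add mu2 ru2) (Nat.add mu2 ru2)))
        (Nat.mul 2 (Nat.mul (Nat.add mv2 rv2) (Nat.add mv2 rv2))))
      (Nat.add (Nat.mul 67108864 (Nat.mul (Nat.sub mu1 ru1) (Nat.sub mu1 ru1)))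
        (Nat.mul 2 (Nat.mul (Nat.sub mv1 rv1) (Nat.sub mv1 rv1)))))
  (cond (Nat.beq kind 1)
    -- ip < 0
    (Nat.blt
      (Nat.add (Nat.mul 67108864 (Nat.add up (Nat.add (Nat.add (Nat.mul mu1 ru2) (Nat.mul ru1 mu2)) (Nat.mul ru1 ru2))))
        (Nat.mul 2 (Nat.add vp (Nat.add (Nat.add (Nat.mul mv1 rv2) (Nat.mul rv1 mv2)) (Nat.mul rv1 rv2)))))
      (Nat.add (Nat.mul 67108864 un) (Nat.mul 2 vn)))
  (cond (Nat.beq kind 2)
    -- 2 ip > Q1
    (Nat.blt
      (Nat.add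
        (Nat.add (Nat.mul 67108864 (Nat.mul (Nat.add mu1 ru1) (Nat.add mu1 ru1)))
          (Nat.mul 2 (Nat.mul (Nat.add mv1 rv1) (Nat.add mv1 rv1))))
        (Nat.mul 2 (Nat.add (Nat.mul 67108864 (Nat.add un (Nat.add (Nat.add (Nat.mul mu1 ru2) (Nat.mul ru1 mu2)) (Nat.mul ru1 ru2))))
          (Nat.mul 2 (Nat.add vn (Nat.add (Nat.add (Nat.mul mv1 rv2) (Nat.mul rv1 mv2)) (Nat.mul rv1 rv2)))))))
      (Nat.mul 2 (Nat.add (Nat.mul 67108864 up) (Nat.mul 2 vp))))
    -- 3 Q1 Q2 > 98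
    (Nat.blt 1987676141157863701546830626029568
      (Nat.mul 3 (Nat.mul
        (Nat.add (Nat.mul 67108864 (Nat.mul (Nat.sub mu1 ru1) (Nat.sub mu1 ru1)))
          (Nat.mul 2 (Nat.mul (Nat.sub mv1 rv1) (Nat.sub mv1 rv1))))
        (Nat.add (Nat.mul 67108864 (Nat.mul (Nat.sub mu2 ru2) (Nat.sub mu2 ru2)))
          (Nat.mul 2 (Nat.mul (Nat.sub mv2 rv2) (Nat.sub mv2 rv2)))))))))

/-- Reduction leaf. -/
def rcheck (b : Box) (kind : Nat) : Bool :=
  (fun v1p v1n v2p v2n =>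
    rtest kind (absd b.x1 b.x3) (Nat.add b.r1 b.r3) (absd v1p v1n)
      (Nat.add (Nat.add (Nat.mul 8192 b.r2) (Nat.mul b.a b.r3))
        (Nat.mul b.ra (Nat.add (absd b.x3 65536) b.r3)))
      (absd b.y1 b.y3) (Nat.add b.s1 b.s3) (absd v2p v2n)
      (Nat.add (Nat.add (Nat.mul 8192 b.s2) (Nat.mul b.a b.s3))
        (Nat.mul b.ra (Nat.add (absd b.y3 65536) b.s3)))
      (Nat.add (Nat.mul b.x1 b.y1) (Nat.mul b.x3 b.y3))
      (Nat.add (Nat.mul b.x1 b.y3) (Nat.mul b.x3 b.y1))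
      (Nat.add (Nat.mul v1p v2p) (Nat.mul v1n v2n))
      (Nat.add (Nat.mul v1p v2n) (Nat.mul v1n v2p)))
    (Nat.add (Nat.mul 8192 b.x2) (Nat.mul 65536 b.a)) (Nat.add 536870912 (Nat.mul b.a b.x3))
    (Nat.add (Nat.mul 8192 b.y2) (Nat.mul 65536 b.a)) (Nat.add 536870912 (Nat.mul b.a b.y3))

/-- Label of a critical leaf: `dl` = 0 for `δ = 1`, 1 for `δ = -1` (apply `x2 → -x2`); the new
basis vectors are `X' = u1 P + a1 X + b1 Y`, `Y' = u2 P + a2 X + b2 Y`; -/
structure Lab where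
  dl : Bool
  u1 : Int
  a1 : Int
  b1 : Int
  u2 : Int
  a2 : Int
  b2 : Int

/-- Wstd, first index row, second column (0-based), units 1/16384. -/
def W00 : Int := 2547
def W01 : Int := 16035
def W02 : Int := -2198
def W10 : Int := 7136
def W11 : Int := -3960
def W12 : Int := -3176
def W20 : Int := 3176
def W21 : Int := -7136
def W22 : Int := 3960

/-- centre of one entry of `M = B W`, column with entries `w0 w1 w2` of `W = U Wstd`. -/
def cen (c0 c1 c2 w0 w1 w2 : Int) : Int := c0 * w0 + c1 * w1 + c2 * w2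
/-- radius of one entry -/
def rdi (c0 c1 c2 : Nat) (w0 w1 w2 : Int) : Nat := c0 * w0.natAbs + c1 * w1.natAbs + c2 * w2.natAbs

/-- lower bound of a positive entry -/
def lob (c : Int) (r : Nat) : Nat := c.toNat - r
/-- upper bound of the absolute value of an entry -/
def upb (c : Int) (r : Nat) : Nat := c.natAbs + r

/-- the tube tests, `l` lower bounds, `u` upper bounds of the diagonal entries, `a` bounds of the
absolute values of the others -/
def tube9 (l1 l2 l3 u1 u2 a12 a21 a13 a23 a31 a32 : Nat) : Bool :=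
  (Nat.ble 26843545 l1 && (Nat.ble 26843545 l2 && Nat.ble 26843545 l3)) &&
  ((Nat.ble (1000 * a21) (130 * l1) && Nat.ble (1000 * a12) (130 * l2)) &&
  ((Nat.ble (2000 * a13) (200 * (l1 + l2)) && Nat.ble (2000 * a23) (200 * (l1 + l2))) &&
  ((Nat.ble (500 * a31 * (u1 + u2)) (80 * l1 * l3) && Nat.ble (500 * a32 * (u1 + u2)) (80 * l2 * l3)) &&
  (Nat.ble (550 * u1) (1450 * l2) && Nat.ble (550 * u2) (1450 * l1)))))

/-- all tests, rows of centres `f`, `g`, `h` and of radii `rf`, `rg`, `rh` -/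
def tubeTest (f0 f1 f2 g0 g1 g2 h0 h1 h2 : Int) (rf0 rf1 rf2 rh1 rh2 : Nat)
    (w00 w01 w02 w10 w11 w12 w20 w21 w22 : Int) : Bool :=
  tube9 (lob (cen f0 f1 f2 w00 w10 w20) (rdi rf0 rf1 rf2 w00 w10 w20))
    (lob (cen g0 g1 g2 w01 w11 w21) (rdi rf0 rf1 rf2 w01 w11 w21))
    (lob (cen h0 h1 h2 w02 w12 w22) (rdi 0 rh1 rh2 w02 w12 w22))
    (upb (cen f0 f1 f2 w00 w10 w20) (rdi rf0 rf1 rf2 w00 w10 w20))
    (upb (cen g0 g1 g2 w01 w11 w21) (rdi rf0 rf1 rf2 w01 w11 w21))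
    (upb (cen f0 f1 f2 w01 w11 w21) (rdi rf0 rf1 rf2 w01 w11 w21))
    (upb (cen g0 g1 g2 w00 w10 w20) (rdi rf0 rf1 rf2 w00 w10 w20))
    (upb (cen f0 f1 f2 w02 w12 w22) (rdi rf0 rf1 rf2 w02 w12 w22))
    (upb (cen g0 g1 g2 w02 w12 w22) (rdi rf0 rf1 rf2 w02 w12 w22))
    (upb (cen h0 h1 h2 w00 w10 w20) (rdi 0 rh1 rh2 w00 w10 w20))
    (upb (cen h0 h1 h2 w01 w11 w21) (rdi 0 rh1 rh2 w01 w11 w21))

/-- Critical leaf. -/
def ccheck (b : Box) (L : Lab) : Bool :=
  let ca : Int := b.a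
  let x1 : Int := (b.x1 : Int) - 65536
  let x2 : Int := (b.x2 : Int) - 65536
  let x3 : Int := (b.x3 : Int) - 65536
  let y1 : Int := (b.y1 : Int) - 65536
  let y2 : Int := (b.y2 : Int) - 65536
  let y3 : Int := (b.y3 : Int) - 65536
  let w00 := W00 + L.u1 * W10 + L.u2 * W20
  let w01 := W01 + L.u1 * W11 + L.u2 * W21
  let w02 := W02 + L.u1 * W12 + L.u2 * W22
  let w10 := L.a1 * W10 + L.a2 * W20
  let w11 := L.a1 * W11 + L.a2 * W21
  let w12 := L.a1 * W12 + L.a2 * W22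
  let w20 := L.b1 * W10 + L.b2 * W20
  let w21 := L.b1 * W11 + L.b2 * W21
  let w22 := L.b1 * W12 + L.b2 * W22
  (decide (L.a1 * L.b2 - L.a2 * L.b1 = 1) || decide (L.a1 * L.b2 - L.a2 * L.b1 = -1)) &&
  cond L.dl
    (tubeTest (8192 - ca) (x1 - x2) (y1 - y2) (8192 + ca) (x1 + x2) (y1 + y2) 8192 x3 y3
      b.ra (b.r1 + b.r2) (b.s1 + b.s2) b.r3 b.s3 w00 w01 w02 w10 w11 w12 w20 w21 w22)
    (tubeTest (8192 + ca) (x1 + x2) (y1 + y2) (8192 - ca) (x1 - x2) (y1 - y2) 8192 x3 y3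
      b.ra (b.r1 + b.r2) (b.s1 + b.s2) b.r3 b.s3 w00 w01 w02 w10 w11 w12 w20 w21 w22)

/-- decode a point from 16 bits -/
def decodePt (w : Nat) : Pt :=
  (fun n i j => ⟨Nat.sub n 32, Nat.sub 32 n, Nat.sub i 16, Nat.sub 16 i, Nat.sub j 16, Nat.sub 16 j⟩)
    (Nat.mod w 64) (Nat.mod (Nat.div w 64) 32) (Nat.mod (Nat.div w 2048) 32)

/-- the loop over the constraints of an LP leaf, 54 bits each: 16 point, 2 sign/row, 11 P, 11 Q,
14 R/2048. -/
noncomputable def lploop (b : Box) (K : Nat) : Nat → Acc → (Acc → Nat → Bool) → Bool :=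
  Nat.rec (motive := fun _ => Nat → Acc → (Acc → Nat → Bool) → Bool)
    (fun s acc k => k acc s)
    (fun _ ih s acc k =>
      cstep b (decodePt s) (Nat.mod (Nat.div s 65536) 4) (Nat.mod (Nat.div s 262144) 2048)
        (Nat.mod (Nat.div s 536870912) 2048)
        (Nat.mul 2048 (Nat.mod (Nat.div s 1099511627776) 16384)) acc
        (fun acc' => ih (Nat.div s 18014398509481984) acc' k))
    K

def acc0 : Acc := ⟨0, 0, 0, 0, 0, 0, 0, 0, 0, 0, 0, 0, 0, 0, 0, 0⟩

def half (r : Nat) : Nat := Nat.div (Nat.add r 1) 2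

/-- Split along variable `v`; `k` gets the two halves. -/
def split (b : Box) (v : Nat) (k : Box → Box → Bool) : Bool :=
  cond (Nat.beq v 0) ((fun h => cond (Nat.ble h b.a)
      (k { b with a := Nat.sub b.a h, ra := h } { b with a := Nat.add b.a h, ra := h }) false) (half b.ra))
  (cond (Nat.beq v 1) ((fun h => cond (Nat.ble h b.x1)
      (k { b with x1 := Nat.sub b.x1 h, r1 := h } { b with x1 := Nat.add b.x1 h, r1 := h }) false) (half b.r1))
  (cond (Nat.beq v 2) ((fun h => cond (Nat.ble h b.x2)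
      (k { b with x2 := Nat.sub b.x2 h, r2 := h } { b with x2 := Nat.add b.x2 h, r2 := h }) false) (half b.r2))
  (cond (Nat.beq v 3) ((fun h => cond (Nat.ble h b.x3)
      (k { b with x3 := Nat.sub b.x3 h, r3 := h } { b with x3 := Nat.add b.x3 h, r3 := h }) false) (half b.r3))
  (cond (Nat.beq v 4) ((fun h => cond (Nat.ble h b.y1)
      (k { b with y1 := Nat.sub b.y1 h, s1 := h } { b with y1 := Nat.add b.y1 h, s1 := h }) false) (half b.s1))
  (cond (Nat.beq v 5) ((fun h => cond (Nat.ble h b.y2)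
      (k { b with y2 := Nat.sub b.y2 h, s2 := h } { b with y2 := Nat.add b.y2 h, s2 := h }) false) (half b.s2))
  ((fun h => cond (Nat.ble h b.y3)
      (k { b with y3 := Nat.sub b.y3 h, s3 := h } { b with y3 := Nat.add b.y3 h, s3 := h }) false) (half b.s3)))))))

/-- the main loop -/
noncomputable def run (labs : List Lab) (fuel : Nat) :
    Box → Nat → List Nat → (Nat → List Nat → Bool) → Bool :=
  Nat.rec (motive := fun _ => Box → Nat → List Nat → (Nat → List Nat → Bool) → Bool)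
    (fun _ _ _ _ => false)
    (fun _ ih b s l k =>
      (fun t s1 =>
        cond (Nat.beq t 0)
          (split b (Nat.mod s1 8) (fun bl br =>
            ih bl (Nat.div s1 8) l (fun s' l' => ih br s' l' k)))
        (cond (Nat.beq t 1)
          (cond (fcheck b (decodePt s1)) (k (Nat.div s1 65536) l) false)
        (cond (Nat.beq t 2)
          (cond (rcheck b (Nat.mod s1 4)) (k (Nat.div s1 4) l) false)
        ((fun e s2 =>
          cond (Nat.beq e 0)
            (List.rec (motive := fun _ => Bool) false (fun c l' _ => ih b c l' k) l)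
          (cond (Nat.beq e 1)
            (lploop b (Nat.mod s2 16) (Nat.div s2 65536) acc0 (fun acc s4 =>
              cond (cond (Nat.beq (Nat.mod (Nat.div s2 32) 2048) 0) (fin0 b acc)
                  (fin1 b (Nat.mod (Nat.div s2 16) 2) (Nat.mod (Nat.div s2 32) 2048) acc))
                (k s4 l) false))
            (cond (ccheck b (labs.getD (Nat.mod s2 128) ⟨true, 0, 0, 0, 0, 0, 0⟩))
              (k (Nat.div s2 128) l) false)))
          (Nat.mod s1 4) (Nat.div s1 4)))))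
        (Nat.mod s 4) (Nat.div s 4))
    fuel

end Run7.h774.B1
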