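import Pool.Agent.Run7.h774.B1Sound3

/-! Labels of the critical leaves of `B1`. -/

set_option autoImplicit false

namespace Run7.h774.B1

/-- the labels -/
def labs : List Lab := [⟨false, (-2), 0, (-1), 3, 1, 0⟩,
  ⟨false, (-1), (-1), 1, 3, 1, 0⟩,
  ⟨false, (-2), (-1), 1, 3, 1, 0⟩,
  ⟨false, (-2), (-1), (-1), 3, 1, 0⟩,
  ⟨false, (-1), (-1), (-1), 3, 1, 0⟩,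
  ⟨false, (-2), 0, 1, 3, 1, 0⟩,
  ⟨false, (-2), (-1), 0, 3, 0, 1⟩,
  ⟨false, (-2), (-1), 0, 4, 1, 1⟩,
  ⟨false, (-2), (-1), 0, 3, 1, 1⟩,
  ⟨false, (-2), (-1), 0, 3, 1, (-1)⟩,
  ⟨false, (-2), (-1), 0, 4, 1, (-1)⟩,
  ⟨false, (-2), (-1), 0, 3, 0, (-1)⟩,
  ⟨false, (-1), 1, (-1), 3, 0, 1⟩,
  ⟨false, (-2), 0, (-1), 4, 1, 1⟩,
  ⟨false, (-2), 0, 1, 4, 1, (-1)⟩,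
  ⟨false, (-1), 1, 1, 3, 0, (-1)⟩,
  ⟨false, (-2), 1, (-1), 3, 0, 1⟩,
  ⟨false, (-2), 0, (-1), 3, 1, 1⟩,
  ⟨false, (-2), 0, 1, 3, 1, (-1)⟩,
  ⟨false, (-2), 1, 1, 3, 0, (-1)⟩,
  ⟨false, (-2), (-1), (-1), 3, 0, 1⟩,
  ⟨false, (-2), 0, (-1), 3, (-1), 1⟩,
  ⟨false, (-2), 0, 1, 3, (-1), (-1)⟩,
  ⟨false, (-2), (-1), 1, 3, 0, (-1)⟩,
  ⟨false, (-1), (-1), (-1), 3, 0, 1⟩,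
  ⟨false, (-2), 0, (-1), 4, (-1), 1⟩,
  ⟨false, (-2), 0, 1, 4, (-1), (-1)⟩,
  ⟨false, (-1), (-1), 1, 3, 0, (-1)⟩,
  ⟨false, (-2), 1, 0, 3, 0, 1⟩,
  ⟨false, (-2), 1, 0, 4, (-1), 1⟩,
  ⟨false, (-2), 1, 0, 3, (-1), 1⟩,
  ⟨false, (-2), 1, 0, 3, (-1), (-1)⟩,
  ⟨false, (-2), 1, 0, 4, (-1), (-1)⟩,
  ⟨false, (-2), 1, 0, 3, 0, (-1)⟩,
  ⟨false, (-2), 0, (-1), 3, (-1), 0⟩,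
  ⟨false, (-1), 1, 1, 3, (-1), 0⟩,
  ⟨false, (-2), 1, 1, 3, (-1), 0⟩,
  ⟨false, (-2), 1, (-1), 3, (-1), 0⟩,
  ⟨false, (-1), 1, (-1), 3, (-1), 0⟩,
  ⟨false, (-2), 0, 1, 3, (-1), 0⟩,
  ⟨true, (-2), 0, (-1), 3, 1, 0⟩,
  ⟨true, (-1), (-1), 1, 3, 1, 0⟩,
  ⟨true, (-2), (-1), 1, 3, 1, 0⟩,
  ⟨true, (-2), (-1), (-1), 3, 1, 0⟩,
  ⟨true, (-1), (-1), (-1), 3, 1, 0⟩,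
  ⟨true, (-2), 0, 1, 3, 1, 0⟩,
  ⟨true, (-2), (-1), 0, 3, 0, 1⟩,
  ⟨true, (-2), (-1), 0, 4, 1, 1⟩,
  ⟨true, (-2), (-1), 0, 3, 1, 1⟩,
  ⟨true, (-2), (-1), 0, 3, 1, (-1)⟩,
  ⟨true, (-2), (-1), 0, 4, 1, (-1)⟩,
  ⟨true, (-2), (-1), 0, 3, 0, (-1)⟩,
  ⟨true, (-1), 1, (-1), 3, 0, 1⟩,
  ⟨true, (-2), 0, (-1), 4, 1, 1⟩,
  ⟨true, (-2), 0, 1, 4, 1, (-1)⟩,
  ⟨true, (-1), 1, 1, 3, 0, (-1)⟩,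
  ⟨true, (-2), 1, (-1), 3, 0, 1⟩,
  ⟨true, (-2), 0, (-1), 3, 1, 1⟩,
  ⟨true, (-2), 0, 1, 3, 1, (-1)⟩,
  ⟨true, (-2), 1, 1, 3, 0, (-1)⟩,
  ⟨true, (-2), (-1), (-1), 3, 0, 1⟩,
  ⟨true, (-2), 0, (-1), 3, (-1), 1⟩,
  ⟨true, (-2), 0, 1, 3, (-1), (-1)⟩,
  ⟨true, (-2), (-1), 1, 3, 0, (-1)⟩,
  ⟨true, (-1), (-1), (-1), 3, 0, 1⟩,
  ⟨true, (-2), 0, (-1), 4, (-1), 1⟩,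
  ⟨true, (-2), 0, 1, 4, (-1), (-1)⟩,
  ⟨true, (-1), (-1), 1, 3, 0, (-1)⟩,
  ⟨true, (-2), 1, 0, 3, 0, 1⟩,
  ⟨true, (-2), 1, 0, 4, (-1), 1⟩,
  ⟨true, (-2), 1, 0, 3, (-1), 1⟩,
  ⟨true, (-2), 1, 0, 3, (-1), (-1)⟩,
  ⟨true, (-2), 1, 0, 4, (-1), (-1)⟩,
  ⟨true, (-2), 1, 0, 3, 0, (-1)⟩,
  ⟨true, (-2), 0, (-1), 3, (-1), 0⟩,
  ⟨true, (-1), 1, 1, 3, (-1), 0⟩,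
  ⟨true, (-2), 1, 1, 3, (-1), 0⟩,
  ⟨true, (-2), 1, (-1), 3, (-1), 0⟩,
  ⟨true, (-1), 1, (-1), 3, (-1), 0⟩,
  ⟨true, (-2), 0, 1, 3, (-1), 0⟩]

end Run7.h774.B1
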