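import Pool.Agent.Run7.h774.B1D.P00
import Pool.Agent.Run7.h774.B1D.P01
import Pool.Agent.Run7.h774.B1D.P02
import Pool.Agent.Run7.h774.B1D.P03
import Pool.Agent.Run7.h774.B1D.P04
import Pool.Agent.Run7.h774.B1D.P05
import Pool.Agent.Run7.h774.B1D.P06
import Pool.Agent.Run7.h774.B1D.P07
import Pool.Agent.Run7.h774.B1D.P08
import Pool.Agent.Run7.h774.B1D.P09
import Pool.Agent.Run7.h774.B1D.P10
import Pool.Agent.Run7.h774.B1D.P11
import Pool.Agent.Run7.h774.B1D.P12
import Pool.Agent.Run7.h774.B1D.P13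
import Pool.Agent.Run7.h774.B1D.P14
import Pool.Agent.Run7.h774.B1D.P15
import Pool.Agent.Run7.h774.B1D.P16
import Pool.Agent.Run7.h774.B1D.P17
import Pool.Agent.Run7.h774.B1D.P18
import Pool.Agent.Run7.h774.B1D.P19
import Pool.Agent.Run7.h774.B1D.P20
import Pool.Agent.Run7.h774.B1D.P21
import Pool.Agent.Run7.h774.B1D.P22
import Pool.Agent.Run7.h774.B1D.P23
import Pool.Agent.Run7.h774.B1D.P24
import Pool.Agent.Run7.h774.B1D.P25
import Pool.Agent.Run7.h774.B1D.P26
import Pool.Agent.Run7.h774.B1D.P27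
import Pool.Agent.Run7.h774.B1D.P28
import Pool.Agent.Run7.h774.B1D.P29
import Pool.Agent.Run7.h774.B1D.P30

/-! Assembly of the pieces of `B1` (generated). -/

set_option autoImplicit false

namespace Run7.h774.B1

theorem s0_0 : BoxOK ⟨1024, 53248, 56320, 67584, 47104, 52224, 65536, 1024, 12288, 9216, 2048, 18432, 13312, 4096⟩ :=
  boxOK_split (v := 4) p0_0 p0_1 (by decide +kernel)

theorem s0_1 : BoxOK ⟨1024, 47104, 70144, 67584, 42496, 58880, 65536, 1024, 6144, 4608, 2048, 4608, 6656, 4096⟩ :=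
  boxOK_split (v := 5) p0_4 p0_5 (by decide +kernel)

theorem s0_2 : BoxOK ⟨1024, 47104, 70144, 67584, 37888, 58880, 65536, 1024, 6144, 4608, 2048, 9216, 6656, 4096⟩ :=
  boxOK_split (v := 4) p0_3 s0_1 (by decide +kernel)

theorem s0_3 : BoxOK ⟨1024, 47104, 74752, 67584, 37888, 58880, 65536, 1024, 6144, 9216, 2048, 9216, 6656, 4096⟩ :=
  boxOK_split (v := 2) s0_2 p0_6 (by decide +kernel)

theorem s0_4 : BoxOK ⟨1024, 53248, 74752, 67584, 37888, 58880, 65536, 1024, 12288, 9216, 2048, 9216, 6656, 4096⟩ :=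
  boxOK_split (v := 1) s0_3 p0_7 (by decide +kernel)

theorem s0_5 : BoxOK ⟨1024, 53248, 74752, 67584, 37888, 52224, 65536, 1024, 12288, 9216, 2048, 9216, 13312, 4096⟩ :=
  boxOK_split (v := 5) p0_2 s0_4 (by decide +kernel)

theorem s0_6 : BoxOK ⟨1024, 50176, 70144, 67584, 51712, 55552, 65536, 1024, 3072, 4608, 2048, 4608, 3328, 4096⟩ :=
  boxOK_split (v := 4) p0_10 p0_11 (by decide +kernel)

theorem s0_7 : BoxOK ⟨1024, 47104, 70144, 67584, 51712, 55552, 65536, 1024, 6144, 4608, 2048, 4608, 3328, 4096⟩ :=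
  boxOK_split (v := 1) p0_9 s0_6 (by decide +kernel)

theorem s0_8 : BoxOK ⟨1024, 47104, 70144, 67584, 51712, 58880, 65536, 1024, 6144, 4608, 2048, 4608, 6656, 4096⟩ :=
  boxOK_split (v := 5) s0_7 p0_12 (by decide +kernel)

theorem s0_9 : BoxOK ⟨1024, 47104, 70144, 67584, 56320, 58880, 65536, 1024, 6144, 4608, 2048, 9216, 6656, 4096⟩ :=
  boxOK_split (v := 4) s0_8 p0_13 (by decide +kernel)

theorem s0_10 : BoxOK ⟨1024, 47104, 74752, 67584, 56320, 58880, 65536, 1024, 6144, 9216, 2048, 9216, 6656, 4096⟩ :=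
  boxOK_split (v := 2) s0_9 p0_14 (by decide +kernel)

theorem s0_11 : BoxOK ⟨1024, 53248, 74752, 67584, 56320, 58880, 65536, 1024, 12288, 9216, 2048, 9216, 6656, 4096⟩ :=
  boxOK_split (v := 1) s0_10 p0_15 (by decide +kernel)

theorem s0_12 : BoxOK ⟨1024, 53248, 74752, 67584, 56320, 52224, 65536, 1024, 12288, 9216, 2048, 9216, 13312, 4096⟩ :=
  boxOK_split (v := 5) p0_8 s0_11 (by decide +kernel)

theorem s0_13 : BoxOK ⟨1024, 53248, 74752, 67584, 47104, 52224, 65536, 1024, 12288, 9216, 2048, 18432, 13312, 4096⟩ :=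
  boxOK_split (v := 4) s0_5 s0_12 (by decide +kernel)

theorem s0_14 : BoxOK ⟨1024, 53248, 65536, 67584, 47104, 52224, 65536, 1024, 12288, 18432, 2048, 18432, 13312, 4096⟩ :=
  boxOK_split (v := 2) s0_0 s0_13 (by decide +kernel)

theorem s0_15 : BoxOK ⟨1024, 71680, 51712, 67584, 42496, 55552, 65536, 1024, 6144, 4608, 2048, 4608, 3328, 4096⟩ :=
  boxOK_split (v := 1) p0_18 p0_19 (by decide +kernel)

theorem s0_16 : BoxOK ⟨1024, 71680, 51712, 67584, 42496, 58880, 65536, 1024, 6144, 4608, 2048, 4608, 6656, 4096⟩ :=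
  boxOK_split (v := 5) s0_15 p0_20 (by decide +kernel)

theorem s0_17 : BoxOK ⟨1024, 71680, 56320, 67584, 42496, 58880, 65536, 1024, 6144, 9216, 2048, 4608, 6656, 4096⟩ :=
  boxOK_split (v := 2) s0_16 p0_21 (by decide +kernel)

theorem s0_18 : BoxOK ⟨1024, 71680, 56320, 67584, 37888, 58880, 65536, 1024, 6144, 9216, 2048, 9216, 6656, 4096⟩ :=
  boxOK_split (v := 4) p0_17 s0_17 (by decide +kernel)

theorem s0_19 : BoxOK ⟨1024, 77824, 56320, 67584, 37888, 58880, 65536, 1024, 12288, 9216, 2048, 9216, 6656, 4096⟩ :=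
  boxOK_split (v := 1) s0_18 p0_22 (by decide +kernel)

theorem s0_20 : BoxOK ⟨1024, 77824, 56320, 67584, 37888, 52224, 65536, 1024, 12288, 9216, 2048, 9216, 13312, 4096⟩ :=
  boxOK_split (v := 5) p0_16 s0_19 (by decide +kernel)

theorem s0_21 : BoxOK ⟨1024, 83968, 58624, 67584, 60928, 48896, 65536, 1024, 6144, 2304, 2048, 4608, 3328, 4096⟩ :=
  boxOK_split (v := 1) p0_27 p0_28 (by decide +kernel)

theorem s0_22 : BoxOK ⟨1024, 83968, 58624, 67584, 60928, 45568, 65536, 1024, 6144, 2304, 2048, 4608, 6656, 4096⟩ :=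
  boxOK_split (v := 5) p0_26 s0_21 (by decide +kernel)

theorem s0_23 : BoxOK ⟨1024, 83968, 63232, 67584, 60928, 50560, 65536, 1024, 6144, 2304, 2048, 4608, 1664, 4096⟩ :=
  boxOK_split (v := 1) p0_31 p0_32 (by decide +kernel)

theorem s0_24 : BoxOK ⟨1024, 83968, 63232, 67584, 60928, 48896, 65536, 1024, 6144, 2304, 2048, 4608, 3328, 4096⟩ :=
  boxOK_split (v := 5) p0_30 s0_23 (by decide +kernel)

theorem s0_25 : BoxOK ⟨1024, 83968, 63232, 67584, 60928, 45568, 65536, 1024, 6144, 2304, 2048, 4608, 6656, 4096⟩ :=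
  boxOK_split (v := 5) p0_29 s0_24 (by decide +kernel)

theorem s0_26 : BoxOK ⟨1024, 83968, 60928, 67584, 60928, 45568, 65536, 1024, 6144, 4608, 2048, 4608, 6656, 4096⟩ :=
  boxOK_split (v := 2) s0_22 s0_25 (by decide +kernel)

theorem s0_27 : BoxOK ⟨1024, 83968, 60928, 67584, 56320, 45568, 65536, 1024, 6144, 4608, 2048, 9216, 6656, 4096⟩ :=
  boxOK_split (v := 4) p0_25 s0_26 (by decide +kernel)

theorem s0_28 : BoxOK ⟨1024, 83968, 56320, 67584, 56320, 45568, 65536, 1024, 6144, 9216, 2048, 9216, 6656, 4096⟩ :=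
  boxOK_split (v := 2) p0_24 s0_27 (by decide +kernel)

theorem s0_29 : BoxOK ⟨1024, 77824, 56320, 67584, 56320, 45568, 65536, 1024, 12288, 9216, 2048, 9216, 6656, 4096⟩ :=
  boxOK_split (v := 1) p0_23 s0_28 (by decide +kernel)

theorem s0_30 : BoxOK ⟨1024, 71680, 51712, 67584, 51712, 55552, 65536, 1024, 6144, 4608, 2048, 4608, 3328, 4096⟩ :=
  boxOK_split (v := 1) p0_33 p0_34 (by decide +kernel)

theorem s0_31 : BoxOK ⟨1024, 71680, 51712, 67584, 51712, 58880, 65536, 1024, 6144, 4608, 2048, 4608, 6656, 4096⟩ :=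
  boxOK_split (v := 5) s0_30 p0_35 (by decide +kernel)

theorem s0_32 : BoxOK ⟨1024, 71680, 51712, 67584, 56320, 58880, 65536, 1024, 6144, 4608, 2048, 9216, 6656, 4096⟩ :=
  boxOK_split (v := 4) s0_31 p0_36 (by decide +kernel)

theorem s0_33 : BoxOK ⟨1024, 71680, 56320, 67584, 56320, 58880, 65536, 1024, 6144, 9216, 2048, 9216, 6656, 4096⟩ :=
  boxOK_split (v := 2) s0_32 p0_37 (by decide +kernel)

theorem s0_34 : BoxOK ⟨1024, 82432, 58624, 67584, 63232, 53056, 69120, 1024, 1536, 2304, 2048, 2304, 832, 512⟩ :=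
  boxOK_split (v := 6) p0_45 p0_46 (by decide +kernel)

theorem s0_35 : BoxOK ⟨1024, 82432, 58624, 67584, 60928, 53056, 69120, 1024, 1536, 2304, 2048, 4608, 832, 512⟩ :=
  boxOK_split (v := 4) p0_44 s0_34 (by decide +kernel)

theorem s0_36 : BoxOK ⟨1024, 82432, 58624, 67584, 60928, 53888, 69120, 1024, 1536, 2304, 2048, 4608, 1664, 512⟩ :=
  boxOK_split (v := 5) s0_35 p0_47 (by decide +kernel)

theorem s0_37 : BoxOK ⟨1024, 82432, 58624, 67584, 60928, 53888, 68608, 1024, 1536, 2304, 2048, 4608, 1664, 1024⟩ :=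
  boxOK_split (v := 6) p0_43 s0_36 (by decide +kernel)

theorem s0_38 : BoxOK ⟨1024, 82432, 58624, 67584, 60928, 53888, 67584, 1024, 1536, 2304, 2048, 4608, 1664, 2048⟩ :=
  boxOK_split (v := 6) p0_42 s0_37 (by decide +kernel)

theorem s0_39 : BoxOK ⟨1024, 82432, 58624, 67584, 60928, 53888, 65536, 1024, 1536, 2304, 2048, 4608, 1664, 4096⟩ :=
  boxOK_split (v := 6) p0_41 s0_38 (by decide +kernel)

theorem s0_40 : BoxOK ⟨1024, 80896, 58624, 67584, 60928, 53888, 65536, 1024, 3072, 2304, 2048, 4608, 1664, 4096⟩ :=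
  boxOK_split (v := 1) p0_40 s0_39 (by decide +kernel)

theorem s0_41 : BoxOK ⟨1024, 80896, 60928, 67584, 60928, 53888, 65536, 1024, 3072, 4608, 2048, 4608, 1664, 4096⟩ :=
  boxOK_split (v := 2) s0_40 p0_48 (by decide +kernel)

theorem s0_42 : BoxOK ⟨1024, 83968, 60928, 67584, 60928, 53888, 65536, 1024, 6144, 4608, 2048, 4608, 1664, 4096⟩ :=
  boxOK_split (v := 1) s0_41 p0_49 (by decide +kernel)

theorem s0_43 : BoxOK ⟨1024, 83968, 56320, 67584, 60928, 53888, 65536, 1024, 6144, 9216, 2048, 4608, 1664, 4096⟩ :=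
  boxOK_split (v := 2) p0_39 s0_42 (by decide +kernel)

theorem s0_44 : BoxOK ⟨1024, 83968, 56320, 67584, 60928, 55552, 65536, 1024, 6144, 9216, 2048, 4608, 3328, 4096⟩ :=
  boxOK_split (v := 5) s0_43 p0_50 (by decide +kernel)

theorem s0_45 : BoxOK ⟨1024, 83968, 56320, 67584, 60928, 58880, 65536, 1024, 6144, 9216, 2048, 4608, 6656, 4096⟩ :=
  boxOK_split (v := 5) s0_44 p0_51 (by decide +kernel)

theorem s0_46 : BoxOK ⟨1024, 83968, 56320, 67584, 56320, 58880, 65536, 1024, 6144, 9216, 2048, 9216, 6656, 4096⟩ :=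
  boxOK_split (v := 4) p0_38 s0_45 (by decide +kernel)

theorem s0_47 : BoxOK ⟨1024, 77824, 56320, 67584, 56320, 58880, 65536, 1024, 12288, 9216, 2048, 9216, 6656, 4096⟩ :=
  boxOK_split (v := 1) s0_33 s0_46 (by decide +kernel)

theorem s0_48 : BoxOK ⟨1024, 77824, 56320, 67584, 56320, 52224, 65536, 1024, 12288, 9216, 2048, 9216, 13312, 4096⟩ :=
  boxOK_split (v := 5) s0_29 s0_47 (by decide +kernel)

theorem s0_49 : BoxOK ⟨1024, 77824, 56320, 67584, 47104, 52224, 65536, 1024, 12288, 9216, 2048, 18432, 13312, 4096⟩ :=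
  boxOK_split (v := 4) s0_20 s0_48 (by decide +kernel)

theorem s0_50 : BoxOK ⟨1024, 77824, 65536, 67584, 47104, 52224, 65536, 1024, 12288, 18432, 2048, 18432, 13312, 4096⟩ :=
  boxOK_split (v := 2) s0_49 p0_52 (by decide +kernel)

theorem s0_51 : BoxOK ⟨1024, 65536, 65536, 67584, 47104, 52224, 65536, 1024, 24576, 18432, 2048, 18432, 13312, 4096⟩ :=
  boxOK_split (v := 1) s0_14 s0_50 (by decide +kernel)

theorem s0_52 : BoxOK ⟨1024, 53248, 56320, 67584, 37888, 72192, 65536, 1024, 12288, 9216, 2048, 9216, 6656, 4096⟩ :=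
  boxOK_split (v := 1) p0_53 p0_54 (by decide +kernel)

theorem s0_53 : BoxOK ⟨1024, 53248, 56320, 67584, 37888, 78848, 65536, 1024, 12288, 9216, 2048, 9216, 13312, 4096⟩ :=
  boxOK_split (v := 5) s0_52 p0_55 (by decide +kernel)

theorem s0_54 : BoxOK ⟨1024, 53248, 56320, 67584, 56320, 78848, 65536, 1024, 12288, 9216, 2048, 9216, 13312, 4096⟩ :=
  boxOK_split (v := 5) p0_56 p0_57 (by decide +kernel)

theorem s0_55 : BoxOK ⟨1024, 53248, 56320, 67584, 47104, 78848, 65536, 1024, 12288, 9216, 2048, 18432, 13312, 4096⟩ :=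
  boxOK_split (v := 4) s0_53 s0_54 (by decide +kernel)

theorem s0_56 : BoxOK ⟨1024, 62464, 78208, 69120, 42496, 68864, 67584, 1024, 3072, 1152, 512, 4608, 3328, 2048⟩ :=
  boxOK_split (v := 2) p0_66 p0_67 (by decide +kernel)

theorem s0_57 : BoxOK ⟨1024, 62464, 78208, 69120, 42496, 68864, 65536, 1024, 3072, 1152, 512, 4608, 3328, 4096⟩ :=
  boxOK_split (v := 6) p0_65 s0_56 (by decide +kernel)

theorem s0_58 : BoxOK ⟨1024, 62464, 78208, 68608, 42496, 68864, 65536, 1024, 3072, 1152, 1024, 4608, 3328, 4096⟩ :=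
  boxOK_split (v := 3) p0_64 s0_57 (by decide +kernel)

theorem s0_59 : BoxOK ⟨1024, 62464, 77056, 68608, 42496, 68864, 65536, 1024, 3072, 2304, 1024, 4608, 3328, 4096⟩ :=
  boxOK_split (v := 2) p0_63 s0_58 (by decide +kernel)

theorem s0_60 : BoxOK ⟨1024, 62464, 79360, 68608, 42496, 68864, 65536, 1024, 3072, 4608, 1024, 4608, 3328, 4096⟩ :=
  boxOK_split (v := 2) s0_59 p0_68 (by decide +kernel)

theorem s0_61 : BoxOK ⟨1024, 62464, 79360, 67584, 42496, 68864, 65536, 1024, 3072, 4608, 2048, 4608, 3328, 4096⟩ :=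
  boxOK_split (v := 3) p0_62 s0_60 (by decide +kernel)

theorem s0_62 : BoxOK ⟨1024, 59392, 79360, 67584, 42496, 68864, 65536, 1024, 6144, 4608, 2048, 4608, 3328, 4096⟩ :=
  boxOK_split (v := 1) p0_61 s0_61 (by decide +kernel)

theorem s0_63 : BoxOK ⟨1024, 59392, 79360, 67584, 42496, 72192, 65536, 1024, 6144, 4608, 2048, 4608, 6656, 4096⟩ :=
  boxOK_split (v := 5) s0_62 p0_69 (by decide +kernel)

theorem s0_64 : BoxOK ⟨1024, 59392, 79360, 67584, 37888, 72192, 65536, 1024, 6144, 4608, 2048, 9216, 6656, 4096⟩ :=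
  boxOK_split (v := 4) p0_60 s0_63 (by decide +kernel)

theorem s0_65 : BoxOK ⟨1024, 59392, 74752, 67584, 37888, 72192, 65536, 1024, 6144, 9216, 2048, 9216, 6656, 4096⟩ :=
  boxOK_split (v := 2) p0_59 s0_64 (by decide +kernel)

theorem s0_66 : BoxOK ⟨1024, 53248, 74752, 67584, 37888, 72192, 65536, 1024, 12288, 9216, 2048, 9216, 6656, 4096⟩ :=
  boxOK_split (v := 1) p0_58 s0_65 (by decide +kernel)

theorem s0_67 : BoxOK ⟨1024, 53248, 74752, 67584, 37888, 78848, 65536, 1024, 12288, 9216, 2048, 9216, 13312, 4096⟩ :=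
  boxOK_split (v := 5) s0_66 p0_70 (by decide +kernel)

theorem s0_68 : BoxOK ⟨1024, 47104, 70144, 67584, 56320, 72192, 65536, 1024, 6144, 4608, 2048, 9216, 6656, 4096⟩ :=
  boxOK_split (v := 4) p0_71 p0_72 (by decide +kernel)

theorem s0_69 : BoxOK ⟨1024, 47104, 74752, 67584, 56320, 72192, 65536, 1024, 6144, 9216, 2048, 9216, 6656, 4096⟩ :=
  boxOK_split (v := 2) s0_68 p0_73 (by decide +kernel)

theorem s0_70 : BoxOK ⟨1024, 53248, 74752, 67584, 56320, 72192, 65536, 1024, 12288, 9216, 2048, 9216, 6656, 4096⟩ :=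
  boxOK_split (v := 1) s0_69 p0_74 (by decide +kernel)

theorem s0_71 : BoxOK ⟨1024, 53248, 74752, 67584, 56320, 78848, 65536, 1024, 12288, 9216, 2048, 9216, 13312, 4096⟩ :=
  boxOK_split (v := 5) s0_70 p0_75 (by decide +kernel)

theorem s0_72 : BoxOK ⟨1024, 53248, 74752, 67584, 47104, 78848, 65536, 1024, 12288, 9216, 2048, 18432, 13312, 4096⟩ :=
  boxOK_split (v := 4) s0_67 s0_71 (by decide +kernel)

theorem s0_73 : BoxOK ⟨1024, 53248, 65536, 67584, 47104, 78848, 65536, 1024, 12288, 18432, 2048, 18432, 13312, 4096⟩ :=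
  boxOK_split (v := 2) s0_55 s0_72 (by decide +kernel)

theorem s0_74 : BoxOK ⟨1024, 68608, 79360, 69120, 44800, 68864, 63488, 1024, 3072, 4608, 512, 2304, 3328, 2048⟩ :=
  boxOK_split (v := 1) p0_82 p0_83 (by decide +kernel)

theorem s0_75 : BoxOK ⟨1024, 68608, 79360, 68608, 44800, 68864, 63488, 1024, 3072, 4608, 1024, 2304, 3328, 2048⟩ :=
  boxOK_split (v := 3) p0_81 s0_74 (by decide +kernel)

theorem s0_76 : BoxOK ⟨1024, 68608, 79360, 68608, 44800, 68864, 65536, 1024, 3072, 4608, 1024, 2304, 3328, 4096⟩ :=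
  boxOK_split (v := 6) s0_75 p0_84 (by decide +kernel)

theorem s0_77 : BoxOK ⟨1024, 68608, 79360, 68608, 42496, 68864, 65536, 1024, 3072, 4608, 1024, 4608, 3328, 4096⟩ :=
  boxOK_split (v := 4) p0_80 s0_76 (by decide +kernel)

theorem s0_78 : BoxOK ⟨1024, 71680, 79360, 68608, 42496, 68864, 65536, 1024, 6144, 4608, 1024, 4608, 3328, 4096⟩ :=
  boxOK_split (v := 1) s0_77 p0_85 (by decide +kernel)

theorem s0_79 : BoxOK ⟨1024, 71680, 79360, 67584, 42496, 68864, 65536, 1024, 6144, 4608, 2048, 4608, 3328, 4096⟩ :=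
  boxOK_split (v := 3) p0_79 s0_78 (by decide +kernel)

theorem s0_80 : BoxOK ⟨1024, 71680, 79360, 67584, 42496, 72192, 65536, 1024, 6144, 4608, 2048, 4608, 6656, 4096⟩ :=
  boxOK_split (v := 5) s0_79 p0_86 (by decide +kernel)

theorem s0_81 : BoxOK ⟨1024, 71680, 74752, 67584, 42496, 72192, 65536, 1024, 6144, 9216, 2048, 4608, 6656, 4096⟩ :=
  boxOK_split (v := 2) p0_78 s0_80 (by decide +kernel)

theorem s0_82 : BoxOK ⟨1024, 71680, 74752, 67584, 37888, 72192, 65536, 1024, 6144, 9216, 2048, 9216, 6656, 4096⟩ :=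
  boxOK_split (v := 4) p0_77 s0_81 (by decide +kernel)

theorem s0_83 : BoxOK ⟨1024, 77824, 74752, 67584, 37888, 72192, 65536, 1024, 12288, 9216, 2048, 9216, 6656, 4096⟩ :=
  boxOK_split (v := 1) s0_82 p0_87 (by decide +kernel)

theorem s0_84 : BoxOK ⟨1024, 77824, 74752, 67584, 37888, 78848, 65536, 1024, 12288, 9216, 2048, 9216, 13312, 4096⟩ :=
  boxOK_split (v := 5) s0_83 p0_88 (by decide +kernel)

theorem s0_85 : BoxOK ⟨1536, 67072, 78784, 69120, 48256, 68032, 67328, 512, 1536, 576, 512, 1152, 832, 256⟩ :=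
  boxOK_split (v := 1) p0_99 p0_100 (by decide +kernel)

theorem s0_86 : BoxOK ⟨1536, 67072, 78784, 69120, 48256, 68032, 67072, 512, 1536, 576, 512, 1152, 832, 512⟩ :=
  boxOK_split (v := 6) p0_98 s0_85 (by decide +kernel)

theorem s0_87 : BoxOK ⟨1536, 67072, 78784, 69120, 48256, 68032, 66560, 512, 1536, 576, 512, 1152, 832, 1024⟩ :=
  boxOK_split (v := 6) p0_97 s0_86 (by decide +kernel)

theorem s0_88 : BoxOK ⟨1536, 67072, 78784, 69120, 48256, 68032, 67584, 512, 1536, 576, 512, 1152, 832, 2048⟩ :=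
  boxOK_split (v := 6) s0_87 p0_101 (by decide +kernel)

theorem s0_89 : BoxOK ⟨1536, 67072, 78208, 69120, 48256, 68032, 67584, 512, 1536, 1152, 512, 1152, 832, 2048⟩ :=
  boxOK_split (v := 2) p0_96 s0_88 (by decide +kernel)

theorem s0_90 : BoxOK ⟨1024, 67072, 78208, 69120, 48256, 68032, 67584, 1024, 1536, 1152, 512, 1152, 832, 2048⟩ :=
  boxOK_split (v := 0) p0_95 s0_89 (by decide +kernel)

theorem s0_91 : BoxOK ⟨1024, 67072, 78208, 68608, 48256, 68032, 67584, 1024, 1536, 1152, 1024, 1152, 832, 2048⟩ :=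
  boxOK_split (v := 3) p0_94 s0_90 (by decide +kernel)

theorem s0_92 : BoxOK ⟨1024, 67072, 77056, 68608, 48256, 68032, 67584, 1024, 1536, 2304, 1024, 1152, 832, 2048⟩ :=
  boxOK_split (v := 2) p0_93 s0_91 (by decide +kernel)

theorem s0_93 : BoxOK ⟨1024, 67072, 77056, 67584, 48256, 68032, 67584, 1024, 1536, 2304, 2048, 1152, 832, 2048⟩ :=
  boxOK_split (v := 3) p0_92 s0_92 (by decide +kernel)

theorem s0_94 : BoxOK ⟨1024, 67072, 79360, 67584, 48256, 68032, 67584, 1024, 1536, 4608, 2048, 1152, 832, 2048⟩ :=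
  boxOK_split (v := 2) s0_93 p0_102 (by decide +kernel)

theorem s0_95 : BoxOK ⟨1024, 68608, 79360, 67584, 48256, 68032, 67584, 1024, 3072, 4608, 2048, 1152, 832, 2048⟩ :=
  boxOK_split (v := 1) s0_94 p0_103 (by decide +kernel)

theorem s0_96 : BoxOK ⟨1024, 71680, 79360, 67584, 48256, 68032, 67584, 1024, 6144, 4608, 2048, 1152, 832, 2048⟩ :=
  boxOK_split (v := 1) s0_95 p0_104 (by decide +kernel)

theorem s0_97 : BoxOK ⟨1024, 71680, 79360, 67584, 48256, 68032, 65536, 1024, 6144, 4608, 2048, 1152, 832, 4096⟩ :=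
  boxOK_split (v := 6) p0_91 s0_96 (by decide +kernel)

theorem s0_98 : BoxOK ⟨1024, 71680, 79360, 67584, 49408, 68032, 65536, 1024, 6144, 4608, 2048, 2304, 832, 4096⟩ :=
  boxOK_split (v := 4) s0_97 p0_105 (by decide +kernel)

theorem s0_99 : BoxOK ⟨1024, 71680, 79360, 67584, 49408, 67200, 65536, 1024, 6144, 4608, 2048, 2304, 1664, 4096⟩ :=
  boxOK_split (v := 5) p0_90 s0_98 (by decide +kernel)

theorem s0_100 : BoxOK ⟨1024, 68608, 79360, 68608, 48256, 70528, 67072, 1024, 3072, 4608, 1024, 1152, 1664, 512⟩ :=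
  boxOK_split (v := 4) p0_109 p0_110 (by decide +kernel)

theorem s0_101 : BoxOK ⟨1024, 68608, 79360, 68608, 49408, 70528, 67072, 1024, 3072, 4608, 1024, 2304, 1664, 512⟩ :=
  boxOK_split (v := 4) s0_100 p0_111 (by decide +kernel)

theorem s0_102 : BoxOK ⟨1024, 68608, 79360, 68608, 49408, 70528, 66560, 1024, 3072, 4608, 1024, 2304, 1664, 1024⟩ :=
  boxOK_split (v := 6) p0_108 s0_101 (by decide +kernel)

theorem s0_103 : BoxOK ⟨1024, 68608, 79360, 69120, 48256, 70528, 68608, 1024, 3072, 4608, 512, 1152, 1664, 1024⟩ :=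
  boxOK_split (v := 1) p0_113 p0_114 (by decide +kernel)

theorem s0_104 : BoxOK ⟨1024, 68608, 79360, 69120, 49408, 70528, 68608, 1024, 3072, 4608, 512, 2304, 1664, 1024⟩ :=
  boxOK_split (v := 4) s0_103 p0_115 (by decide +kernel)

theorem s0_105 : BoxOK ⟨1024, 68608, 79360, 68608, 49408, 70528, 68608, 1024, 3072, 4608, 1024, 2304, 1664, 1024⟩ :=
  boxOK_split (v := 3) p0_112 s0_104 (by decide +kernel)

theorem s0_106 : BoxOK ⟨1024, 68608, 79360, 68608, 49408, 70528, 67584, 1024, 3072, 4608, 1024, 2304, 1664, 2048⟩ :=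
  boxOK_split (v := 6) s0_102 s0_105 (by decide +kernel)

theorem s0_107 : BoxOK ⟨1024, 68608, 79360, 67584, 49408, 70528, 67584, 1024, 3072, 4608, 2048, 2304, 1664, 2048⟩ :=
  boxOK_split (v := 3) p0_107 s0_106 (by decide +kernel)

theorem s0_108 : BoxOK ⟨1024, 68608, 79360, 67584, 49408, 70528, 65536, 1024, 3072, 4608, 2048, 2304, 1664, 4096⟩ :=
  boxOK_split (v := 6) p0_106 s0_107 (by decide +kernel)

theorem s0_109 : BoxOK ⟨1024, 71680, 79360, 67584, 49408, 70528, 65536, 1024, 6144, 4608, 2048, 2304, 1664, 4096⟩ :=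
  boxOK_split (v := 1) s0_108 p0_116 (by decide +kernel)

theorem s0_110 : BoxOK ⟨1024, 71680, 79360, 67584, 49408, 68864, 65536, 1024, 6144, 4608, 2048, 2304, 3328, 4096⟩ :=
  boxOK_split (v := 5) s0_99 s0_109 (by decide +kernel)

theorem s0_111 : BoxOK ⟨1024, 71680, 79360, 67584, 51712, 68864, 65536, 1024, 6144, 4608, 2048, 4608, 3328, 4096⟩ :=
  boxOK_split (v := 4) s0_110 p0_117 (by decide +kernel)

theorem s0_112 : BoxOK ⟨1024, 71680, 79360, 67584, 51712, 72192, 65536, 1024, 6144, 4608, 2048, 4608, 6656, 4096⟩ :=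
  boxOK_split (v := 5) s0_111 p0_118 (by decide +kernel)

theorem s0_113 : BoxOK ⟨1024, 71680, 79360, 67584, 56320, 72192, 65536, 1024, 6144, 4608, 2048, 9216, 6656, 4096⟩ :=
  boxOK_split (v := 4) s0_112 p0_119 (by decide +kernel)

theorem s0_114 : BoxOK ⟨1024, 71680, 74752, 67584, 56320, 72192, 65536, 1024, 6144, 9216, 2048, 9216, 6656, 4096⟩ :=
  boxOK_split (v := 2) p0_89 s0_113 (by decide +kernel)

theorem s0_115 : BoxOK ⟨1024, 83968, 70144, 67584, 60928, 77184, 65536, 1024, 6144, 4608, 2048, 4608, 1664, 4096⟩ :=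
  boxOK_split (v := 1) p0_123 p0_124 (by decide +kernel)

theorem s0_116 : BoxOK ⟨1024, 83968, 70144, 67584, 60928, 75520, 65536, 1024, 6144, 4608, 2048, 4608, 3328, 4096⟩ :=
  boxOK_split (v := 5) p0_122 s0_115 (by decide +kernel)

theorem s0_117 : BoxOK ⟨1024, 83968, 70144, 67584, 60928, 72192, 65536, 1024, 6144, 4608, 2048, 4608, 6656, 4096⟩ :=
  boxOK_split (v := 5) p0_121 s0_116 (by decide +kernel)

theorem s0_118 : BoxOK ⟨1024, 83968, 70144, 67584, 56320, 72192, 65536, 1024, 6144, 4608, 2048, 9216, 6656, 4096⟩ :=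
  boxOK_split (v := 4) p0_120 s0_117 (by decide +kernel)

theorem s0_119 : BoxOK ⟨1024, 83968, 74752, 67584, 56320, 72192, 65536, 1024, 6144, 9216, 2048, 9216, 6656, 4096⟩ :=
  boxOK_split (v := 2) s0_118 p0_125 (by decide +kernel)

theorem s0_120 : BoxOK ⟨1024, 77824, 74752, 67584, 56320, 72192, 65536, 1024, 12288, 9216, 2048, 9216, 6656, 4096⟩ :=
  boxOK_split (v := 1) s0_114 s0_119 (by decide +kernel)

theorem s0_121 : BoxOK ⟨1024, 83968, 74752, 67584, 56320, 85504, 65536, 1024, 6144, 9216, 2048, 9216, 6656, 4096⟩ :=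
  boxOK_split (v := 2) p0_127 p0_128 (by decide +kernel)

theorem s0_122 : BoxOK ⟨1024, 77824, 74752, 67584, 56320, 85504, 65536, 1024, 12288, 9216, 2048, 9216, 6656, 4096⟩ :=
  boxOK_split (v := 1) p0_126 s0_121 (by decide +kernel)

theorem s0_123 : BoxOK ⟨1024, 77824, 74752, 67584, 56320, 78848, 65536, 1024, 12288, 9216, 2048, 9216, 13312, 4096⟩ :=
  boxOK_split (v := 5) s0_120 s0_122 (by decide +kernel)

theorem s0_124 : BoxOK ⟨1024, 77824, 74752, 67584, 47104, 78848, 65536, 1024, 12288, 9216, 2048, 18432, 13312, 4096⟩ :=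
  boxOK_split (v := 4) s0_84 s0_123 (by decide +kernel)

theorem s0_125 : BoxOK ⟨1024, 77824, 65536, 67584, 47104, 78848, 65536, 1024, 12288, 18432, 2048, 18432, 13312, 4096⟩ :=
  boxOK_split (v := 2) p0_76 s0_124 (by decide +kernel)

theorem s0_126 : BoxOK ⟨1024, 65536, 65536, 67584, 47104, 78848, 65536, 1024, 24576, 18432, 2048, 18432, 13312, 4096⟩ :=
  boxOK_split (v := 1) s0_73 s0_125 (by decide +kernel)

theorem s0_127 : BoxOK ⟨1024, 65536, 65536, 67584, 47104, 65536, 65536, 1024, 24576, 18432, 2048, 18432, 26624, 4096⟩ :=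
  boxOK_split (v := 5) s0_51 s0_126 (by decide +kernel)

theorem s0_128 : BoxOK ⟨1024, 59392, 51712, 67584, 79360, 58880, 65536, 1024, 6144, 4608, 2048, 4608, 6656, 4096⟩ :=
  boxOK_split (v := 5) p0_132 p0_133 (by decide +kernel)

theorem s0_129 : BoxOK ⟨1024, 59392, 51712, 67584, 74752, 58880, 65536, 1024, 6144, 4608, 2048, 9216, 6656, 4096⟩ :=
  boxOK_split (v := 4) p0_131 s0_128 (by decide +kernel)

theorem s0_130 : BoxOK ⟨1024, 59392, 56320, 67584, 74752, 58880, 65536, 1024, 6144, 9216, 2048, 9216, 6656, 4096⟩ :=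
  boxOK_split (v := 2) s0_129 p0_134 (by decide +kernel)

theorem s0_131 : BoxOK ⟨1024, 53248, 56320, 67584, 74752, 58880, 65536, 1024, 12288, 9216, 2048, 9216, 6656, 4096⟩ :=
  boxOK_split (v := 1) p0_130 s0_130 (by decide +kernel)

theorem s0_132 : BoxOK ⟨1024, 53248, 56320, 67584, 74752, 52224, 65536, 1024, 12288, 9216, 2048, 9216, 13312, 4096⟩ :=
  boxOK_split (v := 5) p0_129 s0_131 (by decide +kernel)

theorem s0_133 : BoxOK ⟨1024, 53248, 56320, 67584, 83968, 52224, 65536, 1024, 12288, 9216, 2048, 18432, 13312, 4096⟩ :=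
  boxOK_split (v := 4) s0_132 p0_135 (by decide +kernel)

theorem s0_134 : BoxOK ⟨1024, 53248, 65536, 67584, 83968, 52224, 65536, 1024, 12288, 18432, 2048, 18432, 13312, 4096⟩ :=
  boxOK_split (v := 2) s0_133 p0_136 (by decide +kernel)

theorem s0_135 : BoxOK ⟨1024, 83968, 56320, 67584, 74752, 45568, 65536, 1024, 6144, 9216, 2048, 9216, 6656, 4096⟩ :=
  boxOK_split (v := 2) p0_138 p0_139 (by decide +kernel)

theorem s0_136 : BoxOK ⟨1024, 77824, 56320, 67584, 74752, 45568, 65536, 1024, 12288, 9216, 2048, 9216, 6656, 4096⟩ :=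
  boxOK_split (v := 1) p0_137 s0_135 (by decide +kernel)

theorem s0_137 : BoxOK ⟨1024, 71680, 51712, 67584, 81664, 62208, 65536, 1024, 6144, 4608, 2048, 2304, 3328, 4096⟩ :=
  boxOK_split (v := 5) p0_143 p0_144 (by decide +kernel)

theorem s0_138 : BoxOK ⟨1024, 71680, 51712, 67584, 79360, 62208, 65536, 1024, 6144, 4608, 2048, 4608, 3328, 4096⟩ :=
  boxOK_split (v := 4) p0_142 s0_137 (by decide +kernel)

theorem s0_139 : BoxOK ⟨1024, 71680, 51712, 67584, 79360, 58880, 65536, 1024, 6144, 4608, 2048, 4608, 6656, 4096⟩ :=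
  boxOK_split (v := 5) p0_141 s0_138 (by decide +kernel)

theorem s0_140 : BoxOK ⟨1024, 71680, 51712, 67584, 74752, 58880, 65536, 1024, 6144, 4608, 2048, 9216, 6656, 4096⟩ :=
  boxOK_split (v := 4) p0_140 s0_139 (by decide +kernel)

theorem s0_141 : BoxOK ⟨1024, 71680, 56320, 67584, 74752, 58880, 65536, 1024, 6144, 9216, 2048, 9216, 6656, 4096⟩ :=
  boxOK_split (v := 2) s0_140 p0_145 (by decide +kernel)

theorem s0_142 : BoxOK ⟨1024, 83968, 56320, 67584, 74752, 58880, 65536, 1024, 6144, 9216, 2048, 9216, 6656, 4096⟩ :=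
  boxOK_split (v := 2) p0_146 p0_147 (by decide +kernel)

theorem s0_143 : BoxOK ⟨1024, 77824, 56320, 67584, 74752, 58880, 65536, 1024, 12288, 9216, 2048, 9216, 6656, 4096⟩ :=
  boxOK_split (v := 1) s0_141 s0_142 (by decide +kernel)

theorem s0_144 : BoxOK ⟨1024, 77824, 56320, 67584, 74752, 52224, 65536, 1024, 12288, 9216, 2048, 9216, 13312, 4096⟩ :=
  boxOK_split (v := 5) s0_136 s0_143 (by decide +kernel)

theorem s0_145 : BoxOK ⟨1024, 68608, 53440, 69120, 86272, 62208, 67584, 1024, 3072, 576, 512, 2304, 3328, 2048⟩ :=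
  boxOK_split (v := 5) p0_155 p0_156 (by decide +kernel)

theorem s0_146 : BoxOK ⟨1024, 68608, 52864, 69120, 86272, 62208, 67584, 1024, 3072, 1152, 512, 2304, 3328, 2048⟩ :=
  boxOK_split (v := 2) p0_154 s0_145 (by decide +kernel)

theorem s0_147 : BoxOK ⟨1024, 68608, 52864, 69120, 86272, 62208, 65536, 1024, 3072, 1152, 512, 2304, 3328, 4096⟩ :=
  boxOK_split (v := 6) p0_153 s0_146 (by decide +kernel)

theorem s0_148 : BoxOK ⟨1024, 68608, 52864, 69120, 88576, 62208, 65536, 1024, 3072, 1152, 512, 4608, 3328, 4096⟩ :=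
  boxOK_split (v := 4) s0_147 p0_157 (by decide +kernel)

theorem s0_149 : BoxOK ⟨1024, 68608, 52864, 68608, 88576, 62208, 65536, 1024, 3072, 1152, 1024, 4608, 3328, 4096⟩ :=
  boxOK_split (v := 3) p0_152 s0_148 (by decide +kernel)

theorem s0_150 : BoxOK ⟨1024, 68608, 54016, 68608, 88576, 62208, 65536, 1024, 3072, 2304, 1024, 4608, 3328, 4096⟩ :=
  boxOK_split (v := 2) s0_149 p0_158 (by decide +kernel)

theorem s0_151 : BoxOK ⟨1024, 68608, 51712, 68608, 88576, 62208, 65536, 1024, 3072, 4608, 1024, 4608, 3328, 4096⟩ :=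
  boxOK_split (v := 2) p0_151 s0_150 (by decide +kernel)

theorem s0_152 : BoxOK ⟨1024, 68608, 51712, 67584, 88576, 62208, 65536, 1024, 3072, 4608, 2048, 4608, 3328, 4096⟩ :=
  boxOK_split (v := 3) p0_150 s0_151 (by decide +kernel)

theorem s0_153 : BoxOK ⟨1024, 71680, 51712, 67584, 88576, 62208, 65536, 1024, 6144, 4608, 2048, 4608, 3328, 4096⟩ :=
  boxOK_split (v := 1) s0_152 p0_159 (by decide +kernel)

theorem s0_154 : BoxOK ⟨1024, 71680, 51712, 67584, 88576, 58880, 65536, 1024, 6144, 4608, 2048, 4608, 6656, 4096⟩ :=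
  boxOK_split (v := 5) p0_149 s0_153 (by decide +kernel)

theorem s0_155 : BoxOK ⟨1024, 71680, 51712, 67584, 93184, 58880, 65536, 1024, 6144, 4608, 2048, 9216, 6656, 4096⟩ :=
  boxOK_split (v := 4) s0_154 p0_160 (by decide +kernel)

theorem s0_156 : BoxOK ⟨1024, 71680, 56320, 67584, 93184, 58880, 65536, 1024, 6144, 9216, 2048, 9216, 6656, 4096⟩ :=
  boxOK_split (v := 2) s0_155 p0_161 (by decide +kernel)

theorem s0_157 : BoxOK ⟨1024, 77824, 56320, 67584, 93184, 58880, 65536, 1024, 12288, 9216, 2048, 9216, 6656, 4096⟩ :=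
  boxOK_split (v := 1) s0_156 p0_162 (by decide +kernel)

theorem s0_158 : BoxOK ⟨1024, 77824, 56320, 67584, 93184, 52224, 65536, 1024, 12288, 9216, 2048, 9216, 13312, 4096⟩ :=
  boxOK_split (v := 5) p0_148 s0_157 (by decide +kernel)

theorem s0_159 : BoxOK ⟨1024, 77824, 56320, 67584, 83968, 52224, 65536, 1024, 12288, 9216, 2048, 18432, 13312, 4096⟩ :=
  boxOK_split (v := 4) s0_144 s0_158 (by decide +kernel)

theorem s0_160 : BoxOK ⟨1024, 71680, 79360, 67584, 81664, 62208, 65536, 1024, 6144, 4608, 2048, 2304, 3328, 4096⟩ :=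
  boxOK_split (v := 5) p0_168 p0_169 (by decide +kernel)

theorem s0_161 : BoxOK ⟨1024, 71680, 79360, 67584, 79360, 62208, 65536, 1024, 6144, 4608, 2048, 4608, 3328, 4096⟩ :=
  boxOK_split (v := 4) p0_167 s0_160 (by decide +kernel)

theorem s0_162 : BoxOK ⟨1024, 71680, 79360, 67584, 79360, 58880, 65536, 1024, 6144, 4608, 2048, 4608, 6656, 4096⟩ :=
  boxOK_split (v := 5) p0_166 s0_161 (by decide +kernel)

theorem s0_163 : BoxOK ⟨1024, 71680, 79360, 67584, 74752, 58880, 65536, 1024, 6144, 4608, 2048, 9216, 6656, 4096⟩ :=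
  boxOK_split (v := 4) p0_165 s0_162 (by decide +kernel)

theorem s0_164 : BoxOK ⟨1024, 71680, 74752, 67584, 74752, 58880, 65536, 1024, 6144, 9216, 2048, 9216, 6656, 4096⟩ :=
  boxOK_split (v := 2) p0_164 s0_163 (by decide +kernel)

theorem s0_165 : BoxOK ⟨1024, 83968, 70144, 67584, 79360, 58880, 65536, 1024, 6144, 4608, 2048, 4608, 6656, 4096⟩ :=
  boxOK_split (v := 5) p0_171 p0_172 (by decide +kernel)

theorem s0_166 : BoxOK ⟨1024, 83968, 70144, 67584, 74752, 58880, 65536, 1024, 6144, 4608, 2048, 9216, 6656, 4096⟩ :=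
  boxOK_split (v := 4) p0_170 s0_165 (by decide +kernel)

theorem s0_167 : BoxOK ⟨1024, 83968, 74752, 67584, 74752, 58880, 65536, 1024, 6144, 9216, 2048, 9216, 6656, 4096⟩ :=
  boxOK_split (v := 2) s0_166 p0_173 (by decide +kernel)

theorem s0_168 : BoxOK ⟨1024, 77824, 74752, 67584, 74752, 58880, 65536, 1024, 12288, 9216, 2048, 9216, 6656, 4096⟩ :=
  boxOK_split (v := 1) s0_164 s0_167 (by decide +kernel)

theorem s0_169 : BoxOK ⟨1024, 77824, 74752, 67584, 74752, 52224, 65536, 1024, 12288, 9216, 2048, 9216, 13312, 4096⟩ :=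
  boxOK_split (v := 5) p0_163 s0_168 (by decide +kernel)

theorem s0_170 : BoxOK ⟨1024, 77824, 74752, 67584, 93184, 58880, 65536, 1024, 12288, 9216, 2048, 9216, 6656, 4096⟩ :=
  boxOK_split (v := 1) p0_175 p0_176 (by decide +kernel)

theorem s0_171 : BoxOK ⟨1024, 77824, 74752, 67584, 93184, 52224, 65536, 1024, 12288, 9216, 2048, 9216, 13312, 4096⟩ :=
  boxOK_split (v := 5) p0_174 s0_170 (by decide +kernel)

theorem s0_172 : BoxOK ⟨1024, 77824, 74752, 67584, 83968, 52224, 65536, 1024, 12288, 9216, 2048, 18432, 13312, 4096⟩ :=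
  boxOK_split (v := 4) s0_169 s0_171 (by decide +kernel)

theorem s0_173 : BoxOK ⟨1024, 77824, 65536, 67584, 83968, 52224, 65536, 1024, 12288, 18432, 2048, 18432, 13312, 4096⟩ :=
  boxOK_split (v := 2) s0_159 s0_172 (by decide +kernel)

theorem s0_174 : BoxOK ⟨1024, 65536, 65536, 67584, 83968, 52224, 65536, 1024, 24576, 18432, 2048, 18432, 13312, 4096⟩ :=
  boxOK_split (v := 1) s0_134 s0_173 (by decide +kernel)

theorem s0_175 : BoxOK ⟨1024, 47104, 70144, 67584, 74752, 72192, 65536, 1024, 6144, 4608, 2048, 9216, 6656, 4096⟩ :=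
  boxOK_split (v := 4) p0_178 p0_179 (by decide +kernel)

theorem s0_176 : BoxOK ⟨1024, 47104, 74752, 67584, 74752, 72192, 65536, 1024, 6144, 9216, 2048, 9216, 6656, 4096⟩ :=
  boxOK_split (v := 2) s0_175 p0_180 (by decide +kernel)

theorem s0_177 : BoxOK ⟨1024, 62464, 78208, 69120, 79360, 75520, 67584, 1024, 3072, 1152, 512, 4608, 3328, 2048⟩ :=
  boxOK_split (v := 2) p0_189 p0_190 (by decide +kernel)

theorem s0_178 : BoxOK ⟨1024, 62464, 78208, 68608, 79360, 75520, 67584, 1024, 3072, 1152, 1024, 4608, 3328, 2048⟩ :=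
  boxOK_split (v := 3) p0_188 s0_177 (by decide +kernel)

theorem s0_179 : BoxOK ⟨1024, 62464, 77056, 68608, 79360, 75520, 67584, 1024, 3072, 2304, 1024, 4608, 3328, 2048⟩ :=
  boxOK_split (v := 2) p0_187 s0_178 (by decide +kernel)

theorem s0_180 : BoxOK ⟨1024, 62464, 77056, 67584, 79360, 75520, 67584, 1024, 3072, 2304, 2048, 4608, 3328, 2048⟩ :=
  boxOK_split (v := 3) p0_186 s0_179 (by decide +kernel)

theorem s0_181 : BoxOK ⟨1024, 62464, 79360, 67584, 79360, 75520, 67584, 1024, 3072, 4608, 2048, 4608, 3328, 2048⟩ :=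
  boxOK_split (v := 2) s0_180 p0_191 (by decide +kernel)

theorem s0_182 : BoxOK ⟨1024, 62464, 79360, 67584, 79360, 75520, 65536, 1024, 3072, 4608, 2048, 4608, 3328, 4096⟩ :=
  boxOK_split (v := 6) p0_185 s0_181 (by decide +kernel)

theorem s0_183 : BoxOK ⟨1024, 59392, 79360, 67584, 79360, 75520, 65536, 1024, 6144, 4608, 2048, 4608, 3328, 4096⟩ :=
  boxOK_split (v := 1) p0_184 s0_182 (by decide +kernel)

theorem s0_184 : BoxOK ⟨1024, 59392, 79360, 67584, 79360, 72192, 65536, 1024, 6144, 4608, 2048, 4608, 6656, 4096⟩ :=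
  boxOK_split (v := 5) p0_183 s0_183 (by decide +kernel)

theorem s0_185 : BoxOK ⟨1024, 59392, 79360, 67584, 74752, 72192, 65536, 1024, 6144, 4608, 2048, 9216, 6656, 4096⟩ :=
  boxOK_split (v := 4) p0_182 s0_184 (by decide +kernel)

theorem s0_186 : BoxOK ⟨1024, 59392, 74752, 67584, 74752, 72192, 65536, 1024, 6144, 9216, 2048, 9216, 6656, 4096⟩ :=
  boxOK_split (v := 2) p0_181 s0_185 (by decide +kernel)

theorem s0_187 : BoxOK ⟨1024, 53248, 74752, 67584, 74752, 72192, 65536, 1024, 12288, 9216, 2048, 9216, 6656, 4096⟩ :=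
  boxOK_split (v := 1) s0_176 s0_186 (by decide +kernel)

theorem s0_188 : BoxOK ⟨1024, 47104, 70144, 67584, 74752, 85504, 65536, 1024, 6144, 4608, 2048, 9216, 6656, 4096⟩ :=
  boxOK_split (v := 4) p0_192 p0_193 (by decide +kernel)

theorem s0_189 : BoxOK ⟨1024, 47104, 74752, 67584, 74752, 85504, 65536, 1024, 6144, 9216, 2048, 9216, 6656, 4096⟩ :=
  boxOK_split (v := 2) s0_188 p0_194 (by decide +kernel)

theorem s0_190 : BoxOK ⟨1024, 53248, 74752, 67584, 74752, 85504, 65536, 1024, 12288, 9216, 2048, 9216, 6656, 4096⟩ :=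
  boxOK_split (v := 1) s0_189 p0_195 (by decide +kernel)

theorem s0_191 : BoxOK ⟨1024, 53248, 74752, 67584, 74752, 78848, 65536, 1024, 12288, 9216, 2048, 9216, 13312, 4096⟩ :=
  boxOK_split (v := 5) s0_187 s0_190 (by decide +kernel)

theorem s0_192 : BoxOK ⟨1024, 53248, 74752, 67584, 83968, 78848, 65536, 1024, 12288, 9216, 2048, 18432, 13312, 4096⟩ :=
  boxOK_split (v := 4) s0_191 p0_196 (by decide +kernel)

theorem s0_193 : BoxOK ⟨1024, 53248, 65536, 67584, 83968, 78848, 65536, 1024, 12288, 18432, 2048, 18432, 13312, 4096⟩ :=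
  boxOK_split (v := 2) p0_177 s0_192 (by decide +kernel)

theorem s0_194 : BoxOK ⟨1024, 87040, 60928, 67584, 79360, 75520, 65536, 1024, 3072, 4608, 2048, 4608, 3328, 4096⟩ :=
  boxOK_split (v := 6) p0_202 p0_203 (by decide +kernel)

theorem s0_195 : BoxOK ⟨1024, 83968, 60928, 67584, 79360, 75520, 65536, 1024, 6144, 4608, 2048, 4608, 3328, 4096⟩ :=
  boxOK_split (v := 1) p0_201 s0_194 (by decide +kernel)

theorem s0_196 : BoxOK ⟨1024, 83968, 60928, 67584, 79360, 72192, 65536, 1024, 6144, 4608, 2048, 4608, 6656, 4096⟩ :=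
  boxOK_split (v := 5) p0_200 s0_195 (by decide +kernel)

theorem s0_197 : BoxOK ⟨1024, 83968, 56320, 67584, 79360, 72192, 65536, 1024, 6144, 9216, 2048, 4608, 6656, 4096⟩ :=
  boxOK_split (v := 2) p0_199 s0_196 (by decide +kernel)

theorem s0_198 : BoxOK ⟨1024, 83968, 56320, 67584, 74752, 72192, 65536, 1024, 6144, 9216, 2048, 9216, 6656, 4096⟩ :=
  boxOK_split (v := 4) p0_198 s0_197 (by decide +kernel)

theorem s0_199 : BoxOK ⟨1024, 77824, 56320, 67584, 74752, 72192, 65536, 1024, 12288, 9216, 2048, 9216, 6656, 4096⟩ :=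
  boxOK_split (v := 1) p0_197 s0_198 (by decide +kernel)

theorem s0_200 : BoxOK ⟨1024, 77824, 56320, 67584, 74752, 78848, 65536, 1024, 12288, 9216, 2048, 9216, 13312, 4096⟩ :=
  boxOK_split (v := 5) s0_199 p0_204 (by decide +kernel)

theorem s0_201 : BoxOK ⟨1024, 83968, 56320, 67584, 93184, 72192, 65536, 1024, 6144, 9216, 2048, 9216, 6656, 4096⟩ :=
  boxOK_split (v := 2) p0_206 p0_207 (by decide +kernel)

theorem s0_202 : BoxOK ⟨1024, 77824, 56320, 67584, 93184, 72192, 65536, 1024, 12288, 9216, 2048, 9216, 6656, 4096⟩ :=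
  boxOK_split (v := 1) p0_205 s0_201 (by decide +kernel)

theorem s0_203 : BoxOK ⟨1024, 77824, 56320, 67584, 93184, 78848, 65536, 1024, 12288, 9216, 2048, 9216, 13312, 4096⟩ :=
  boxOK_split (v := 5) s0_202 p0_208 (by decide +kernel)

theorem s0_204 : BoxOK ⟨1024, 77824, 56320, 67584, 83968, 78848, 65536, 1024, 12288, 9216, 2048, 18432, 13312, 4096⟩ :=
  boxOK_split (v := 4) s0_200 s0_203 (by decide +kernel)

theorem s0_205 : BoxOK ⟨1024, 68608, 79360, 67584, 79360, 75520, 65536, 1024, 3072, 4608, 2048, 4608, 3328, 4096⟩ :=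
  boxOK_split (v := 6) p0_212 p0_213 (by decide +kernel)

theorem s0_206 : BoxOK ⟨1024, 71680, 79360, 67584, 79360, 75520, 65536, 1024, 6144, 4608, 2048, 4608, 3328, 4096⟩ :=
  boxOK_split (v := 1) s0_205 p0_214 (by decide +kernel)

theorem s0_207 : BoxOK ⟨1024, 71680, 79360, 67584, 79360, 72192, 65536, 1024, 6144, 4608, 2048, 4608, 6656, 4096⟩ :=
  boxOK_split (v := 5) p0_211 s0_206 (by decide +kernel)

theorem s0_208 : BoxOK ⟨1024, 71680, 79360, 67584, 74752, 72192, 65536, 1024, 6144, 4608, 2048, 9216, 6656, 4096⟩ :=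
  boxOK_split (v := 4) p0_210 s0_207 (by decide +kernel)

theorem s0_209 : BoxOK ⟨1024, 71680, 74752, 67584, 74752, 72192, 65536, 1024, 6144, 9216, 2048, 9216, 6656, 4096⟩ :=
  boxOK_split (v := 2) p0_209 s0_208 (by decide +kernel)

theorem s0_210 : BoxOK ⟨1024, 77824, 74752, 67584, 74752, 72192, 65536, 1024, 12288, 9216, 2048, 9216, 6656, 4096⟩ :=
  boxOK_split (v := 1) s0_209 p0_215 (by decide +kernel)

theorem s0_211 : BoxOK ⟨1024, 77824, 74752, 67584, 74752, 78848, 65536, 1024, 12288, 9216, 2048, 9216, 13312, 4096⟩ :=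
  boxOK_split (v := 5) s0_210 p0_216 (by decide +kernel)

theorem s0_212 : BoxOK ⟨1024, 68608, 78208, 69120, 86272, 75520, 67584, 1024, 3072, 1152, 512, 2304, 3328, 2048⟩ :=
  boxOK_split (v := 2) p0_223 p0_224 (by decide +kernel)

theorem s0_213 : BoxOK ⟨1024, 68608, 78208, 68608, 86272, 75520, 67584, 1024, 3072, 1152, 1024, 2304, 3328, 2048⟩ :=
  boxOK_split (v := 3) p0_222 s0_212 (by decide +kernel)

theorem s0_214 : BoxOK ⟨1024, 68608, 77056, 68608, 86272, 75520, 67584, 1024, 3072, 2304, 1024, 2304, 3328, 2048⟩ :=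
  boxOK_split (v := 2) p0_221 s0_213 (by decide +kernel)

theorem s0_215 : BoxOK ⟨1024, 68608, 79360, 68608, 86272, 75520, 67584, 1024, 3072, 4608, 1024, 2304, 3328, 2048⟩ :=
  boxOK_split (v := 2) s0_214 p0_225 (by decide +kernel)

theorem s0_216 : BoxOK ⟨1024, 68608, 79360, 68608, 88576, 75520, 67584, 1024, 3072, 4608, 1024, 4608, 3328, 2048⟩ :=
  boxOK_split (v := 4) s0_215 p0_226 (by decide +kernel)

theorem s0_217 : BoxOK ⟨1024, 68608, 79360, 68608, 88576, 75520, 65536, 1024, 3072, 4608, 1024, 4608, 3328, 4096⟩ :=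
  boxOK_split (v := 6) p0_220 s0_216 (by decide +kernel)

theorem s0_218 : BoxOK ⟨1024, 68608, 79360, 67584, 88576, 75520, 65536, 1024, 3072, 4608, 2048, 4608, 3328, 4096⟩ :=
  boxOK_split (v := 3) p0_219 s0_217 (by decide +kernel)

theorem s0_219 : BoxOK ⟨1024, 71680, 79360, 67584, 88576, 75520, 65536, 1024, 6144, 4608, 2048, 4608, 3328, 4096⟩ :=
  boxOK_split (v := 1) s0_218 p0_227 (by decide +kernel)

theorem s0_220 : BoxOK ⟨1024, 71680, 79360, 67584, 88576, 72192, 65536, 1024, 6144, 4608, 2048, 4608, 6656, 4096⟩ :=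
  boxOK_split (v := 5) p0_218 s0_219 (by decide +kernel)

theorem s0_221 : BoxOK ⟨1024, 71680, 79360, 67584, 93184, 72192, 65536, 1024, 6144, 4608, 2048, 9216, 6656, 4096⟩ :=
  boxOK_split (v := 4) s0_220 p0_228 (by decide +kernel)

theorem s0_222 : BoxOK ⟨1024, 71680, 74752, 67584, 93184, 72192, 65536, 1024, 6144, 9216, 2048, 9216, 6656, 4096⟩ :=
  boxOK_split (v := 2) p0_217 s0_221 (by decide +kernel)

theorem s0_223 : BoxOK ⟨1024, 77824, 74752, 67584, 93184, 72192, 65536, 1024, 12288, 9216, 2048, 9216, 6656, 4096⟩ :=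
  boxOK_split (v := 1) s0_222 p0_229 (by decide +kernel)

theorem s0_224 : BoxOK ⟨1024, 77824, 74752, 67584, 93184, 78848, 65536, 1024, 12288, 9216, 2048, 9216, 13312, 4096⟩ :=
  boxOK_split (v := 5) s0_223 p0_230 (by decide +kernel)

theorem s0_225 : BoxOK ⟨1024, 77824, 74752, 67584, 83968, 78848, 65536, 1024, 12288, 9216, 2048, 18432, 13312, 4096⟩ :=
  boxOK_split (v := 4) s0_211 s0_224 (by decide +kernel)

theorem s0_226 : BoxOK ⟨1024, 77824, 65536, 67584, 83968, 78848, 65536, 1024, 12288, 18432, 2048, 18432, 13312, 4096⟩ :=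
  boxOK_split (v := 2) s0_204 s0_225 (by decide +kernel)

theorem s0_227 : BoxOK ⟨1024, 65536, 65536, 67584, 83968, 78848, 65536, 1024, 24576, 18432, 2048, 18432, 13312, 4096⟩ :=
  boxOK_split (v := 1) s0_193 s0_226 (by decide +kernel)

theorem s0_228 : BoxOK ⟨1024, 65536, 65536, 67584, 83968, 65536, 65536, 1024, 24576, 18432, 2048, 18432, 26624, 4096⟩ :=
  boxOK_split (v := 5) s0_174 s0_227 (by decide +kernel)

theorem s0_229 : BoxOK ⟨1024, 65536, 65536, 67584, 65536, 65536, 65536, 1024, 24576, 18432, 2048, 36864, 26624, 4096⟩ :=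
  boxOK_split (v := 4) s0_127 s0_228 (by decide +kernel)

theorem s1_230 : BoxOK ⟨3072, 48256, 64960, 67328, 54592, 51392, 61824, 1024, 384, 576, 256, 576, 832, 128⟩ :=
  boxOK_split (v := 5) p1_15 p1_16 (by decide +kernel)

theorem s1_231 : BoxOK ⟨3072, 48256, 64960, 67328, 55168, 51392, 61824, 1024, 384, 576, 256, 1152, 832, 128⟩ :=
  boxOK_split (v := 4) s1_230 p1_17 (by decide +kernel)

theorem s1_232 : BoxOK ⟨3072, 48256, 64384, 67328, 55168, 51392, 61824, 1024, 384, 1152, 256, 1152, 832, 128⟩ :=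
  boxOK_split (v := 2) p1_14 s1_231 (by decide +kernel)

theorem s1_233 : BoxOK ⟨3072, 47872, 64384, 67328, 55168, 51392, 61824, 1024, 768, 1152, 256, 1152, 832, 128⟩ :=
  boxOK_split (v := 1) p1_13 s1_232 (by decide +kernel)

theorem s1_234 : BoxOK ⟨3072, 47872, 64384, 67328, 55168, 51392, 61696, 1024, 768, 1152, 256, 1152, 832, 256⟩ :=
  boxOK_split (v := 6) p1_12 s1_233 (by decide +kernel)

theorem s1_235 : BoxOK ⟨3072, 47872, 64384, 67328, 55168, 51392, 61952, 1024, 768, 1152, 256, 1152, 832, 512⟩ :=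
  boxOK_split (v := 6) s1_234 p1_18 (by decide +kernel)

theorem s1_236 : BoxOK ⟨3072, 47872, 64384, 67328, 55168, 50560, 61952, 1024, 768, 1152, 256, 1152, 1664, 512⟩ :=
  boxOK_split (v := 5) p1_11 s1_235 (by decide +kernel)

theorem s1_237 : BoxOK ⟨3072, 47872, 64384, 67328, 55168, 50560, 62464, 1024, 768, 1152, 256, 1152, 1664, 1024⟩ :=
  boxOK_split (v := 6) s1_236 p1_19 (by decide +kernel)

theorem s1_238 : BoxOK ⟨3072, 47872, 64384, 67328, 54016, 50560, 62464, 1024, 768, 1152, 256, 2304, 1664, 1024⟩ :=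
  boxOK_split (v := 4) p1_10 s1_237 (by decide +kernel)

theorem s1_239 : BoxOK ⟨3072, 47872, 64384, 67328, 54016, 50560, 63488, 1024, 768, 1152, 256, 2304, 1664, 2048⟩ :=
  boxOK_split (v := 6) s1_238 p1_20 (by decide +kernel)

theorem s1_240 : BoxOK ⟨3072, 47872, 64384, 67072, 54016, 50560, 63488, 1024, 768, 1152, 512, 2304, 1664, 2048⟩ :=
  boxOK_split (v := 3) p1_9 s1_239 (by decide +kernel)

theorem s1_241 : BoxOK ⟨3072, 47872, 64384, 67072, 54016, 48896, 63488, 1024, 768, 1152, 512, 2304, 3328, 2048⟩ :=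
  boxOK_split (v := 5) p1_8 s1_240 (by decide +kernel)

theorem s1_242 : BoxOK ⟨3072, 47872, 64384, 66560, 54016, 48896, 63488, 1024, 768, 1152, 1024, 2304, 3328, 2048⟩ :=
  boxOK_split (v := 3) p1_7 s1_241 (by decide +kernel)

theorem s1_243 : BoxOK ⟨3072, 47872, 64384, 67584, 54016, 48896, 63488, 1024, 768, 1152, 2048, 2304, 3328, 2048⟩ :=
  boxOK_split (v := 3) s1_242 p1_21 (by decide +kernel)

theorem s1_244 : BoxOK ⟨3072, 47872, 64384, 67584, 51712, 48896, 63488, 1024, 768, 1152, 2048, 4608, 3328, 2048⟩ :=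
  boxOK_split (v := 4) p1_6 s1_243 (by decide +kernel)

theorem s1_245 : BoxOK ⟨3072, 47872, 63232, 67584, 51712, 48896, 63488, 1024, 768, 2304, 2048, 4608, 3328, 2048⟩ :=
  boxOK_split (v := 2) p1_5 s1_244 (by decide +kernel)

theorem s1_246 : BoxOK ⟨3072, 47872, 63232, 67584, 51712, 48896, 65536, 1024, 768, 2304, 2048, 4608, 3328, 4096⟩ :=
  boxOK_split (v := 6) s1_245 p1_22 (by decide +kernel)

theorem s1_247 : BoxOK ⟨3072, 48640, 63232, 67584, 51712, 48896, 65536, 1024, 1536, 2304, 2048, 4608, 3328, 4096⟩ :=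
  boxOK_split (v := 1) s1_246 p1_23 (by decide +kernel)

theorem s1_248 : BoxOK ⟨3072, 50176, 63232, 67584, 51712, 48896, 65536, 1024, 3072, 2304, 2048, 4608, 3328, 4096⟩ :=
  boxOK_split (v := 1) s1_247 p1_24 (by decide +kernel)

theorem s1_249 : BoxOK ⟨3072, 50176, 60928, 67584, 51712, 48896, 65536, 1024, 3072, 4608, 2048, 4608, 3328, 4096⟩ :=
  boxOK_split (v := 2) p1_4 s1_248 (by decide +kernel)

theorem s1_250 : BoxOK ⟨3072, 47104, 60928, 67584, 51712, 48896, 65536, 1024, 6144, 4608, 2048, 4608, 3328, 4096⟩ :=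
  boxOK_split (v := 1) p1_3 s1_249 (by decide +kernel)

theorem s1_251 : BoxOK ⟨3072, 47104, 60928, 67584, 51712, 45568, 65536, 1024, 6144, 4608, 2048, 4608, 6656, 4096⟩ :=
  boxOK_split (v := 5) p1_2 s1_250 (by decide +kernel)

theorem s1_252 : BoxOK ⟨3072, 48640, 63232, 67584, 58624, 51392, 62464, 1024, 1536, 2304, 2048, 2304, 832, 1024⟩ :=
  boxOK_split (v := 2) p1_30 p1_31 (by decide +kernel)

theorem s1_253 : BoxOK ⟨3072, 50176, 63232, 67584, 58624, 51392, 62464, 1024, 3072, 2304, 2048, 2304, 832, 1024⟩ :=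
  boxOK_split (v := 1) s1_252 p1_32 (by decide +kernel)

theorem s1_254 : BoxOK ⟨3072, 47104, 63232, 67584, 58624, 51392, 62464, 1024, 6144, 2304, 2048, 2304, 832, 1024⟩ :=
  boxOK_split (v := 1) p1_29 s1_253 (by decide +kernel)

theorem s1_255 : BoxOK ⟨3072, 47104, 63232, 67584, 58624, 51392, 63488, 1024, 6144, 2304, 2048, 2304, 832, 2048⟩ :=
  boxOK_split (v := 6) s1_254 p1_33 (by decide +kernel)

theorem s1_256 : BoxOK ⟨3072, 47104, 63232, 67584, 58624, 51392, 65536, 1024, 6144, 2304, 2048, 2304, 832, 4096⟩ :=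
  boxOK_split (v := 6) s1_255 p1_34 (by decide +kernel)

theorem s1_257 : BoxOK ⟨3072, 47104, 63232, 67584, 60928, 51392, 65536, 1024, 6144, 2304, 2048, 4608, 832, 4096⟩ :=
  boxOK_split (v := 4) s1_256 p1_35 (by decide +kernel)

theorem s1_258 : BoxOK ⟨3072, 47104, 63232, 67584, 60928, 50560, 65536, 1024, 6144, 2304, 2048, 4608, 1664, 4096⟩ :=
  boxOK_split (v := 5) p1_28 s1_257 (by decide +kernel)

theorem s1_259 : BoxOK ⟨3072, 47104, 63232, 67584, 60928, 48896, 65536, 1024, 6144, 2304, 2048, 4608, 3328, 4096⟩ :=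
  boxOK_split (v := 5) p1_27 s1_258 (by decide +kernel)

theorem s1_260 : BoxOK ⟨3072, 47104, 60928, 67584, 60928, 48896, 65536, 1024, 6144, 4608, 2048, 4608, 3328, 4096⟩ :=
  boxOK_split (v := 2) p1_26 s1_259 (by decide +kernel)

theorem s1_261 : BoxOK ⟨3072, 47104, 60928, 67584, 60928, 45568, 65536, 1024, 6144, 4608, 2048, 4608, 6656, 4096⟩ :=
  boxOK_split (v := 5) p1_25 s1_260 (by decide +kernel)

theorem s1_262 : BoxOK ⟨3072, 47104, 60928, 67584, 56320, 45568, 65536, 1024, 6144, 4608, 2048, 9216, 6656, 4096⟩ :=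
  boxOK_split (v := 4) s1_251 s1_261 (by decide +kernel)

theorem s1_263 : BoxOK ⟨3072, 47104, 56320, 67584, 56320, 45568, 65536, 1024, 6144, 9216, 2048, 9216, 6656, 4096⟩ :=
  boxOK_split (v := 2) p1_1 s1_262 (by decide +kernel)

theorem s1_264 : BoxOK ⟨3072, 53248, 56320, 67584, 56320, 45568, 65536, 1024, 12288, 9216, 2048, 9216, 6656, 4096⟩ :=
  boxOK_split (v := 1) s1_263 p1_36 (by decide +kernel)

theorem s1_265 : BoxOK ⟨3072, 53248, 56320, 67584, 56320, 52224, 65536, 1024, 12288, 9216, 2048, 9216, 13312, 4096⟩ :=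
  boxOK_split (v := 5) s1_264 p1_37 (by decide +kernel)

theorem s1_266 : BoxOK ⟨3072, 53248, 56320, 67584, 47104, 52224, 65536, 1024, 12288, 9216, 2048, 18432, 13312, 4096⟩ :=
  boxOK_split (v := 4) p1_0 s1_265 (by decide +kernel)

theorem s1_267 : BoxOK ⟨3072, 53248, 74752, 67584, 37888, 58880, 65536, 1024, 12288, 9216, 2048, 9216, 6656, 4096⟩ :=
  boxOK_split (v := 1) p1_39 p1_40 (by decide +kernel)

theorem s1_268 : BoxOK ⟨3072, 53248, 74752, 67584, 37888, 52224, 65536, 1024, 12288, 9216, 2048, 9216, 13312, 4096⟩ :=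
  boxOK_split (v := 5) p1_38 s1_267 (by decide +kernel)

theorem s1_269 : BoxOK ⟨3072, 47104, 70144, 67584, 60928, 45568, 65536, 1024, 6144, 4608, 2048, 4608, 6656, 4096⟩ :=
  boxOK_split (v := 3) p1_42 p1_43 (by decide +kernel)

theorem s1_270 : BoxOK ⟨3072, 47104, 70144, 67584, 56320, 45568, 65536, 1024, 6144, 4608, 2048, 9216, 6656, 4096⟩ :=
  boxOK_split (v := 4) p1_41 s1_269 (by decide +kernel)

theorem s1_271 : BoxOK ⟨3072, 47104, 74752, 67584, 56320, 45568, 65536, 1024, 6144, 9216, 2048, 9216, 6656, 4096⟩ :=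
  boxOK_split (v := 2) s1_270 p1_44 (by decide +kernel)

theorem s1_272 : BoxOK ⟨3072, 53248, 74752, 67584, 56320, 45568, 65536, 1024, 12288, 9216, 2048, 9216, 6656, 4096⟩ :=
  boxOK_split (v := 1) s1_271 p1_45 (by decide +kernel)

theorem s1_273 : BoxOK ⟨3072, 53248, 74752, 67584, 56320, 58880, 65536, 1024, 12288, 9216, 2048, 9216, 6656, 4096⟩ :=
  boxOK_split (v := 1) p1_46 p1_47 (by decide +kernel)

theorem s1_274 : BoxOK ⟨3072, 53248, 74752, 67584, 56320, 52224, 65536, 1024, 12288, 9216, 2048, 9216, 13312, 4096⟩ :=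
  boxOK_split (v := 5) s1_272 s1_273 (by decide +kernel)

theorem s1_275 : BoxOK ⟨3072, 53248, 74752, 67584, 47104, 52224, 65536, 1024, 12288, 9216, 2048, 18432, 13312, 4096⟩ :=
  boxOK_split (v := 4) s1_268 s1_274 (by decide +kernel)

theorem s1_276 : BoxOK ⟨3072, 53248, 65536, 67584, 47104, 52224, 65536, 1024, 12288, 18432, 2048, 18432, 13312, 4096⟩ :=
  boxOK_split (v := 2) s1_266 s1_275 (by decide +kernel)

theorem s1_277 : BoxOK ⟨3072, 80128, 55168, 68096, 55168, 50560, 61952, 1024, 768, 1152, 512, 1152, 1664, 512⟩ :=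
  boxOK_split (v := 5) p1_58 p1_59 (by decide +kernel)

theorem s1_278 : BoxOK ⟨3072, 80128, 55168, 68608, 55168, 50560, 61952, 1024, 768, 1152, 1024, 1152, 1664, 512⟩ :=
  boxOK_split (v := 3) s1_277 p1_60 (by decide +kernel)

theorem s1_279 : BoxOK ⟨3072, 80128, 55168, 68608, 55168, 50560, 62464, 1024, 768, 1152, 1024, 1152, 1664, 1024⟩ :=
  boxOK_split (v := 6) s1_278 p1_61 (by decide +kernel)

theorem s1_280 : BoxOK ⟨3072, 80128, 54016, 68608, 55168, 50560, 62464, 1024, 768, 2304, 1024, 1152, 1664, 1024⟩ :=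
  boxOK_split (v := 2) p1_57 s1_279 (by decide +kernel)

theorem s1_281 : BoxOK ⟨3072, 80128, 54016, 68608, 55168, 48896, 62464, 1024, 768, 2304, 1024, 1152, 3328, 1024⟩ :=
  boxOK_split (v := 5) p1_56 s1_280 (by decide +kernel)

theorem s1_282 : BoxOK ⟨3072, 80128, 54016, 68608, 55168, 48896, 63488, 1024, 768, 2304, 1024, 1152, 3328, 2048⟩ :=
  boxOK_split (v := 6) s1_281 p1_62 (by decide +kernel)

theorem s1_283 : BoxOK ⟨3072, 79360, 54016, 68608, 55168, 48896, 63488, 1024, 1536, 2304, 1024, 1152, 3328, 2048⟩ :=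
  boxOK_split (v := 1) p1_55 s1_282 (by decide +kernel)

theorem s1_284 : BoxOK ⟨3072, 79360, 54016, 68608, 55168, 48896, 65536, 1024, 1536, 2304, 1024, 1152, 3328, 4096⟩ :=
  boxOK_split (v := 6) s1_283 p1_63 (by decide +kernel)

theorem s1_285 : BoxOK ⟨3072, 79360, 54016, 67584, 55168, 48896, 65536, 1024, 1536, 2304, 2048, 1152, 3328, 4096⟩ :=
  boxOK_split (v := 3) p1_54 s1_284 (by decide +kernel)

theorem s1_286 : BoxOK ⟨3072, 79360, 51712, 67584, 55168, 48896, 65536, 1024, 1536, 4608, 2048, 1152, 3328, 4096⟩ :=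
  boxOK_split (v := 2) p1_53 s1_285 (by decide +kernel)

theorem s1_287 : BoxOK ⟨3072, 79360, 51712, 67584, 54016, 48896, 65536, 1024, 1536, 4608, 2048, 2304, 3328, 4096⟩ :=
  boxOK_split (v := 4) p1_52 s1_286 (by decide +kernel)

theorem s1_288 : BoxOK ⟨3072, 80896, 51712, 67584, 54016, 48896, 65536, 1024, 3072, 4608, 2048, 2304, 3328, 4096⟩ :=
  boxOK_split (v := 1) s1_287 p1_64 (by decide +kernel)

theorem s1_289 : BoxOK ⟨3072, 80896, 51712, 67584, 51712, 48896, 65536, 1024, 3072, 4608, 2048, 4608, 3328, 4096⟩ :=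
  boxOK_split (v := 4) p1_51 s1_288 (by decide +kernel)

theorem s1_290 : BoxOK ⟨3072, 83968, 51712, 67584, 51712, 48896, 65536, 1024, 6144, 4608, 2048, 4608, 3328, 4096⟩ :=
  boxOK_split (v := 1) s1_289 p1_65 (by decide +kernel)

theorem s1_291 : BoxOK ⟨3072, 83968, 51712, 67584, 51712, 45568, 65536, 1024, 6144, 4608, 2048, 4608, 6656, 4096⟩ :=
  boxOK_split (v := 5) p1_50 s1_290 (by decide +kernel)

theorem s1_292 : BoxOK ⟨3072, 83968, 51712, 67584, 56320, 45568, 65536, 1024, 6144, 4608, 2048, 9216, 6656, 4096⟩ :=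
  boxOK_split (v := 4) s1_291 p1_66 (by decide +kernel)

theorem s1_293 : BoxOK ⟨3072, 80896, 60928, 67584, 54016, 48896, 63488, 1024, 3072, 4608, 2048, 2304, 3328, 2048⟩ :=
  boxOK_split (v := 1) p1_69 p1_70 (by decide +kernel)

theorem s1_294 : BoxOK ⟨3072, 80896, 60928, 67584, 51712, 48896, 63488, 1024, 3072, 4608, 2048, 4608, 3328, 2048⟩ :=
  boxOK_split (v := 4) p1_68 s1_293 (by decide +kernel)

theorem s1_295 : BoxOK ⟨3072, 80896, 60928, 67584, 51712, 48896, 65536, 1024, 3072, 4608, 2048, 4608, 3328, 4096⟩ :=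
  boxOK_split (v := 6) s1_294 p1_71 (by decide +kernel)

theorem s1_296 : BoxOK ⟨3072, 83968, 60928, 67584, 51712, 48896, 65536, 1024, 6144, 4608, 2048, 4608, 3328, 4096⟩ :=
  boxOK_split (v := 1) s1_295 p1_72 (by decide +kernel)

theorem s1_297 : BoxOK ⟨3072, 83968, 60928, 67584, 51712, 45568, 65536, 1024, 6144, 4608, 2048, 4608, 6656, 4096⟩ :=
  boxOK_split (v := 5) p1_67 s1_296 (by decide +kernel)

theorem s1_298 : BoxOK ⟨3072, 80896, 60928, 67584, 60928, 48896, 63488, 1024, 3072, 4608, 2048, 4608, 3328, 2048⟩ :=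
  boxOK_split (v := 2) p1_74 p1_75 (by decide +kernel)

theorem s1_299 : BoxOK ⟨3072, 80896, 60928, 67584, 60928, 48896, 65536, 1024, 3072, 4608, 2048, 4608, 3328, 4096⟩ :=
  boxOK_split (v := 6) s1_298 p1_76 (by decide +kernel)

theorem s1_300 : BoxOK ⟨3072, 83968, 60928, 67584, 60928, 48896, 65536, 1024, 6144, 4608, 2048, 4608, 3328, 4096⟩ :=
  boxOK_split (v := 1) s1_299 p1_77 (by decide +kernel)

theorem s1_301 : BoxOK ⟨3072, 83968, 60928, 67584, 60928, 45568, 65536, 1024, 6144, 4608, 2048, 4608, 6656, 4096⟩ :=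
  boxOK_split (v := 5) p1_73 s1_300 (by decide +kernel)

theorem s1_302 : BoxOK ⟨3072, 83968, 60928, 67584, 56320, 45568, 65536, 1024, 6144, 4608, 2048, 9216, 6656, 4096⟩ :=
  boxOK_split (v := 4) s1_297 s1_301 (by decide +kernel)

theorem s1_303 : BoxOK ⟨3072, 83968, 56320, 67584, 56320, 45568, 65536, 1024, 6144, 9216, 2048, 9216, 6656, 4096⟩ :=
  boxOK_split (v := 2) s1_292 s1_302 (by decide +kernel)

theorem s1_304 : BoxOK ⟨3072, 77824, 56320, 67584, 56320, 45568, 65536, 1024, 12288, 9216, 2048, 9216, 6656, 4096⟩ :=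
  boxOK_split (v := 1) p1_49 s1_303 (by decide +kernel)

theorem s1_305 : BoxOK ⟨3072, 83968, 56320, 67584, 56320, 58880, 65536, 1024, 6144, 9216, 2048, 9216, 6656, 4096⟩ :=
  boxOK_split (v := 4) p1_79 p1_80 (by decide +kernel)

theorem s1_306 : BoxOK ⟨3072, 77824, 56320, 67584, 56320, 58880, 65536, 1024, 12288, 9216, 2048, 9216, 6656, 4096⟩ :=
  boxOK_split (v := 1) p1_78 s1_305 (by decide +kernel)

theorem s1_307 : BoxOK ⟨3072, 77824, 56320, 67584, 56320, 52224, 65536, 1024, 12288, 9216, 2048, 9216, 13312, 4096⟩ :=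
  boxOK_split (v := 5) s1_304 s1_306 (by decide +kernel)

theorem s1_308 : BoxOK ⟨3072, 77824, 56320, 67584, 47104, 52224, 65536, 1024, 12288, 9216, 2048, 18432, 13312, 4096⟩ :=
  boxOK_split (v := 4) p1_48 s1_307 (by decide +kernel)

theorem s1_309 : BoxOK ⟨3072, 77824, 65536, 67584, 47104, 52224, 65536, 1024, 12288, 18432, 2048, 18432, 13312, 4096⟩ :=
  boxOK_split (v := 2) s1_308 p1_81 (by decide +kernel)

theorem s1_310 : BoxOK ⟨3072, 65536, 65536, 67584, 47104, 52224, 65536, 1024, 24576, 18432, 2048, 18432, 13312, 4096⟩ :=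
  boxOK_split (v := 1) s1_276 s1_309 (by decide +kernel)

theorem s1_311 : BoxOK ⟨3072, 47872, 63232, 67584, 49408, 75520, 62976, 1024, 768, 2304, 2048, 2304, 3328, 512⟩ :=
  boxOK_split (v := 2) p1_88 p1_89 (by decide +kernel)

theorem s1_312 : BoxOK ⟨3072, 47872, 63232, 67584, 49408, 75520, 62464, 1024, 768, 2304, 2048, 2304, 3328, 1024⟩ :=
  boxOK_split (v := 6) p1_87 s1_311 (by decide +kernel)

theorem s1_313 : BoxOK ⟨3072, 47872, 63232, 67584, 49408, 75520, 63488, 1024, 768, 2304, 2048, 2304, 3328, 2048⟩ :=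
  boxOK_split (v := 6) s1_312 p1_90 (by decide +kernel)

theorem s1_314 : BoxOK ⟨3072, 47872, 63232, 67584, 49408, 75520, 65536, 1024, 768, 2304, 2048, 2304, 3328, 4096⟩ :=
  boxOK_split (v := 6) s1_313 p1_91 (by decide +kernel)

theorem s1_315 : BoxOK ⟨3072, 47872, 63232, 67584, 51712, 75520, 65536, 1024, 768, 2304, 2048, 4608, 3328, 4096⟩ :=
  boxOK_split (v := 4) s1_314 p1_92 (by decide +kernel)

theorem s1_316 : BoxOK ⟨3072, 49408, 63232, 67584, 51712, 75520, 65536, 1024, 768, 2304, 2048, 4608, 3328, 4096⟩ :=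
  boxOK_split (v := 3) p1_93 p1_94 (by decide +kernel)

theorem s1_317 : BoxOK ⟨3072, 48640, 63232, 67584, 51712, 75520, 65536, 1024, 1536, 2304, 2048, 4608, 3328, 4096⟩ :=
  boxOK_split (v := 1) s1_315 s1_316 (by decide +kernel)

theorem s1_318 : BoxOK ⟨3072, 50176, 63232, 67584, 51712, 75520, 65536, 1024, 3072, 2304, 2048, 4608, 3328, 4096⟩ :=
  boxOK_split (v := 1) s1_317 p1_95 (by decide +kernel)

theorem s1_319 : BoxOK ⟨3072, 50176, 60928, 67584, 51712, 75520, 65536, 1024, 3072, 4608, 2048, 4608, 3328, 4096⟩ :=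
  boxOK_split (v := 2) p1_86 s1_318 (by decide +kernel)

theorem s1_320 : BoxOK ⟨3072, 47104, 60928, 67584, 51712, 75520, 65536, 1024, 6144, 4608, 2048, 4608, 3328, 4096⟩ :=
  boxOK_split (v := 1) p1_85 s1_319 (by decide +kernel)

theorem s1_321 : BoxOK ⟨3072, 47104, 60928, 67584, 51712, 72192, 65536, 1024, 6144, 4608, 2048, 4608, 6656, 4096⟩ :=
  boxOK_split (v := 5) p1_84 s1_320 (by decide +kernel)

theorem s1_322 : BoxOK ⟨3072, 47104, 56320, 67584, 51712, 72192, 65536, 1024, 6144, 9216, 2048, 4608, 6656, 4096⟩ :=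
  boxOK_split (v := 2) p1_83 s1_321 (by decide +kernel)

theorem s1_323 : BoxOK ⟨3072, 47104, 56320, 67584, 56320, 72192, 65536, 1024, 6144, 9216, 2048, 9216, 6656, 4096⟩ :=
  boxOK_split (v := 4) s1_322 p1_96 (by decide +kernel)

theorem s1_324 : BoxOK ⟨3072, 53248, 56320, 67584, 56320, 72192, 65536, 1024, 12288, 9216, 2048, 9216, 6656, 4096⟩ :=
  boxOK_split (v := 1) s1_323 p1_97 (by decide +kernel)

theorem s1_325 : BoxOK ⟨3072, 53248, 56320, 67584, 56320, 78848, 65536, 1024, 12288, 9216, 2048, 9216, 13312, 4096⟩ :=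
  boxOK_split (v := 5) s1_324 p1_98 (by decide +kernel)

theorem s1_326 : BoxOK ⟨3072, 53248, 56320, 67584, 47104, 78848, 65536, 1024, 12288, 9216, 2048, 18432, 13312, 4096⟩ :=
  boxOK_split (v := 4) p1_82 s1_325 (by decide +kernel)

theorem s1_327 : BoxOK ⟨3072, 53248, 74752, 67584, 56320, 72192, 65536, 1024, 12288, 9216, 2048, 9216, 6656, 4096⟩ :=
  boxOK_split (v := 1) p1_100 p1_101 (by decide +kernel)

theorem s1_328 : BoxOK ⟨3072, 53248, 74752, 67584, 56320, 78848, 65536, 1024, 12288, 9216, 2048, 9216, 13312, 4096⟩ :=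
  boxOK_split (v := 5) s1_327 p1_102 (by decide +kernel)

theorem s1_329 : BoxOK ⟨3072, 53248, 74752, 67584, 47104, 78848, 65536, 1024, 12288, 9216, 2048, 18432, 13312, 4096⟩ :=
  boxOK_split (v := 4) p1_99 s1_328 (by decide +kernel)

theorem s1_330 : BoxOK ⟨3072, 53248, 65536, 67584, 47104, 78848, 65536, 1024, 12288, 18432, 2048, 18432, 13312, 4096⟩ :=
  boxOK_split (v := 2) s1_326 s1_329 (by decide +kernel)

theorem s1_331 : BoxOK ⟨3072, 77824, 56320, 67584, 56320, 72192, 65536, 1024, 12288, 9216, 2048, 9216, 6656, 4096⟩ :=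
  boxOK_split (v := 1) p1_104 p1_105 (by decide +kernel)

theorem s1_332 : BoxOK ⟨3072, 77824, 56320, 67584, 56320, 78848, 65536, 1024, 12288, 9216, 2048, 9216, 13312, 4096⟩ :=
  boxOK_split (v := 5) s1_331 p1_106 (by decide +kernel)

theorem s1_333 : BoxOK ⟨3072, 77824, 56320, 67584, 47104, 78848, 65536, 1024, 12288, 9216, 2048, 18432, 13312, 4096⟩ :=
  boxOK_split (v := 4) p1_103 s1_332 (by decide +kernel)

theorem s1_334 : BoxOK ⟨3072, 71680, 79360, 67584, 42496, 72192, 65536, 1024, 6144, 4608, 2048, 4608, 6656, 4096⟩ :=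
  boxOK_split (v := 5) p1_109 p1_110 (by decide +kernel)

theorem s1_335 : BoxOK ⟨3072, 71680, 74752, 67584, 42496, 72192, 65536, 1024, 6144, 9216, 2048, 4608, 6656, 4096⟩ :=
  boxOK_split (v := 2) p1_108 s1_334 (by decide +kernel)

theorem s1_336 : BoxOK ⟨3072, 71680, 74752, 67584, 37888, 72192, 65536, 1024, 6144, 9216, 2048, 9216, 6656, 4096⟩ :=
  boxOK_split (v := 4) p1_107 s1_335 (by decide +kernel)

theorem s1_337 : BoxOK ⟨3072, 77824, 74752, 67584, 37888, 72192, 65536, 1024, 12288, 9216, 2048, 9216, 6656, 4096⟩ :=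
  boxOK_split (v := 1) s1_336 p1_111 (by decide +kernel)

theorem s1_338 : BoxOK ⟨3072, 77824, 74752, 67584, 37888, 78848, 65536, 1024, 12288, 9216, 2048, 9216, 13312, 4096⟩ :=
  boxOK_split (v := 5) s1_337 p1_112 (by decide +kernel)

theorem s1_339 : BoxOK ⟨2560, 67072, 78784, 69120, 48256, 67200, 67328, 512, 1536, 576, 512, 1152, 1664, 256⟩ :=
  boxOK_split (v := 5) p1_121 p1_122 (by decide +kernel)

theorem s1_340 : BoxOK ⟨2560, 67072, 78784, 69120, 48256, 67200, 67072, 512, 1536, 576, 512, 1152, 1664, 512⟩ :=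
  boxOK_split (v := 6) p1_120 s1_339 (by decide +kernel)

theorem s1_341 : BoxOK ⟨2560, 67072, 78784, 69120, 49408, 67200, 67072, 512, 1536, 576, 512, 2304, 1664, 512⟩ :=
  boxOK_split (v := 4) s1_340 p1_123 (by decide +kernel)

theorem s1_342 : BoxOK ⟨2560, 67072, 78784, 69120, 49408, 67200, 66560, 512, 1536, 576, 512, 2304, 1664, 1024⟩ :=
  boxOK_split (v := 6) p1_119 s1_341 (by decide +kernel)

theorem s1_343 : BoxOK ⟨2560, 67072, 78784, 69120, 49408, 67200, 67584, 512, 1536, 576, 512, 2304, 1664, 2048⟩ :=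
  boxOK_split (v := 6) s1_342 p1_124 (by decide +kernel)

theorem s1_344 : BoxOK ⟨3072, 67072, 78784, 69120, 49408, 67200, 67584, 1024, 1536, 576, 512, 2304, 1664, 2048⟩ :=
  boxOK_split (v := 0) s1_343 p1_125 (by decide +kernel)

theorem s1_345 : BoxOK ⟨3072, 68608, 78784, 69120, 49408, 67200, 67584, 1024, 3072, 576, 512, 2304, 1664, 2048⟩ :=
  boxOK_split (v := 1) s1_344 p1_126 (by decide +kernel)

theorem s1_346 : BoxOK ⟨3072, 68608, 78784, 69120, 49408, 68864, 67584, 1024, 3072, 576, 512, 2304, 3328, 2048⟩ :=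
  boxOK_split (v := 5) s1_345 p1_127 (by decide +kernel)

theorem s1_347 : BoxOK ⟨3072, 68608, 78784, 69120, 51712, 68864, 67584, 1024, 3072, 576, 512, 4608, 3328, 2048⟩ :=
  boxOK_split (v := 4) s1_346 p1_128 (by decide +kernel)

theorem s1_348 : BoxOK ⟨3072, 68608, 78208, 69120, 51712, 68864, 67584, 1024, 3072, 1152, 512, 4608, 3328, 2048⟩ :=
  boxOK_split (v := 2) p1_118 s1_347 (by decide +kernel)

theorem s1_349 : BoxOK ⟨3072, 68608, 78208, 69120, 51712, 68864, 65536, 1024, 3072, 1152, 512, 4608, 3328, 4096⟩ :=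
  boxOK_split (v := 6) p1_117 s1_348 (by decide +kernel)

theorem s1_350 : BoxOK ⟨3072, 68608, 78208, 68608, 51712, 68864, 65536, 1024, 3072, 1152, 1024, 4608, 3328, 4096⟩ :=
  boxOK_split (v := 3) p1_116 s1_349 (by decide +kernel)

theorem s1_351 : BoxOK ⟨3072, 68608, 77056, 68608, 51712, 68864, 65536, 1024, 3072, 2304, 1024, 4608, 3328, 4096⟩ :=
  boxOK_split (v := 2) p1_115 s1_350 (by decide +kernel)

theorem s1_352 : BoxOK ⟨3072, 68608, 79360, 68608, 51712, 68864, 65536, 1024, 3072, 4608, 1024, 4608, 3328, 4096⟩ :=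
  boxOK_split (v := 2) s1_351 p1_129 (by decide +kernel)

theorem s1_353 : BoxOK ⟨3072, 68608, 79360, 67584, 51712, 68864, 65536, 1024, 3072, 4608, 2048, 4608, 3328, 4096⟩ :=
  boxOK_split (v := 3) p1_114 s1_352 (by decide +kernel)

theorem s1_354 : BoxOK ⟨3072, 71680, 79360, 67584, 51712, 68864, 65536, 1024, 6144, 4608, 2048, 4608, 3328, 4096⟩ :=
  boxOK_split (v := 1) s1_353 p1_130 (by decide +kernel)

theorem s1_355 : BoxOK ⟨3584, 76288, 79936, 69120, 50560, 73856, 62464, 512, 1536, 576, 512, 1152, 1664, 1024⟩ :=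
  boxOK_split (v := 3) p1_138 p1_139 (by decide +kernel)

theorem s1_356 : BoxOK ⟨3072, 76288, 79936, 69120, 50560, 73856, 62464, 1024, 1536, 576, 512, 1152, 1664, 1024⟩ :=
  boxOK_split (v := 0) p1_137 s1_355 (by decide +kernel)

theorem s1_357 : BoxOK ⟨3072, 74752, 79936, 69120, 50560, 73856, 62464, 1024, 3072, 576, 512, 1152, 1664, 1024⟩ :=
  boxOK_split (v := 1) p1_136 s1_356 (by decide +kernel)

theorem s1_358 : BoxOK ⟨3072, 74752, 79936, 69120, 50560, 73856, 63488, 1024, 3072, 576, 512, 1152, 1664, 2048⟩ :=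
  boxOK_split (v := 6) s1_357 p1_140 (by decide +kernel)

theorem s1_359 : BoxOK ⟨3072, 74752, 79936, 69120, 49408, 73856, 63488, 1024, 3072, 576, 512, 2304, 1664, 2048⟩ :=
  boxOK_split (v := 4) p1_135 s1_358 (by decide +kernel)

theorem s1_360 : BoxOK ⟨3072, 74752, 79936, 69120, 49408, 75520, 63488, 1024, 3072, 576, 512, 2304, 3328, 2048⟩ :=
  boxOK_split (v := 5) s1_359 p1_141 (by decide +kernel)

theorem s1_361 : BoxOK ⟨3072, 74752, 79936, 69120, 51712, 75520, 63488, 1024, 3072, 576, 512, 4608, 3328, 2048⟩ :=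
  boxOK_split (v := 4) s1_360 p1_142 (by decide +kernel)

theorem s1_362 : BoxOK ⟨3072, 74752, 80512, 69120, 51712, 75520, 63488, 1024, 3072, 1152, 512, 4608, 3328, 2048⟩ :=
  boxOK_split (v := 2) s1_361 p1_143 (by decide +kernel)

theorem s1_363 : BoxOK ⟨3072, 74752, 80512, 69120, 51712, 75520, 65536, 1024, 3072, 1152, 512, 4608, 3328, 4096⟩ :=
  boxOK_split (v := 6) s1_362 p1_144 (by decide +kernel)

theorem s1_364 : BoxOK ⟨3072, 74752, 80512, 68608, 51712, 75520, 65536, 1024, 3072, 1152, 1024, 4608, 3328, 4096⟩ :=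
  boxOK_split (v := 3) p1_134 s1_363 (by decide +kernel)

theorem s1_365 : BoxOK ⟨3072, 74752, 81664, 68608, 51712, 75520, 65536, 1024, 3072, 2304, 1024, 4608, 3328, 4096⟩ :=
  boxOK_split (v := 2) s1_364 p1_145 (by decide +kernel)

theorem s1_366 : BoxOK ⟨3072, 74752, 81664, 67584, 51712, 75520, 65536, 1024, 3072, 2304, 2048, 4608, 3328, 4096⟩ :=
  boxOK_split (v := 3) p1_133 s1_365 (by decide +kernel)

theorem s1_367 : BoxOK ⟨3072, 74752, 79360, 67584, 51712, 75520, 65536, 1024, 3072, 4608, 2048, 4608, 3328, 4096⟩ :=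
  boxOK_split (v := 2) p1_132 s1_366 (by decide +kernel)

theorem s1_368 : BoxOK ⟨3072, 71680, 79360, 67584, 51712, 75520, 65536, 1024, 6144, 4608, 2048, 4608, 3328, 4096⟩ :=
  boxOK_split (v := 1) p1_131 s1_367 (by decide +kernel)

theorem s1_369 : BoxOK ⟨3072, 71680, 79360, 67584, 51712, 72192, 65536, 1024, 6144, 4608, 2048, 4608, 6656, 4096⟩ :=
  boxOK_split (v := 5) s1_354 s1_368 (by decide +kernel)

theorem s1_370 : BoxOK ⟨3072, 71680, 79360, 67584, 56320, 72192, 65536, 1024, 6144, 4608, 2048, 9216, 6656, 4096⟩ :=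
  boxOK_split (v := 4) s1_369 p1_146 (by decide +kernel)

theorem s1_371 : BoxOK ⟨3072, 71680, 74752, 67584, 56320, 72192, 65536, 1024, 6144, 9216, 2048, 9216, 6656, 4096⟩ :=
  boxOK_split (v := 2) p1_113 s1_370 (by decide +kernel)

theorem s1_372 : BoxOK ⟨3072, 83968, 74752, 67584, 56320, 72192, 65536, 1024, 6144, 9216, 2048, 9216, 6656, 4096⟩ :=
  boxOK_split (v := 2) p1_147 p1_148 (by decide +kernel)

theorem s1_373 : BoxOK ⟨3072, 77824, 74752, 67584, 56320, 72192, 65536, 1024, 12288, 9216, 2048, 9216, 6656, 4096⟩ :=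
  boxOK_split (v := 1) s1_371 s1_372 (by decide +kernel)

theorem s1_374 : BoxOK ⟨3072, 77824, 74752, 67584, 56320, 85504, 65536, 1024, 12288, 9216, 2048, 9216, 6656, 4096⟩ :=
  boxOK_split (v := 1) p1_149 p1_150 (by decide +kernel)

theorem s1_375 : BoxOK ⟨3072, 77824, 74752, 67584, 56320, 78848, 65536, 1024, 12288, 9216, 2048, 9216, 13312, 4096⟩ :=
  boxOK_split (v := 5) s1_373 s1_374 (by decide +kernel)

theorem s1_376 : BoxOK ⟨3072, 77824, 74752, 67584, 47104, 78848, 65536, 1024, 12288, 9216, 2048, 18432, 13312, 4096⟩ :=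
  boxOK_split (v := 4) s1_338 s1_375 (by decide +kernel)

theorem s1_377 : BoxOK ⟨3072, 77824, 65536, 67584, 47104, 78848, 65536, 1024, 12288, 18432, 2048, 18432, 13312, 4096⟩ :=
  boxOK_split (v := 2) s1_333 s1_376 (by decide +kernel)

theorem s1_378 : BoxOK ⟨3072, 65536, 65536, 67584, 47104, 78848, 65536, 1024, 24576, 18432, 2048, 18432, 13312, 4096⟩ :=
  boxOK_split (v := 1) s1_330 s1_377 (by decide +kernel)

theorem s1_379 : BoxOK ⟨3072, 65536, 65536, 67584, 47104, 65536, 65536, 1024, 24576, 18432, 2048, 18432, 26624, 4096⟩ :=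
  boxOK_split (v := 5) s1_310 s1_378 (by decide +kernel)

theorem s1_380 : BoxOK ⟨3072, 53248, 56320, 67584, 83968, 52224, 65536, 1024, 12288, 9216, 2048, 18432, 13312, 4096⟩ :=
  boxOK_split (v := 4) p1_151 p1_152 (by decide +kernel)

theorem s1_381 : BoxOK ⟨3072, 53248, 65536, 67584, 83968, 52224, 65536, 1024, 12288, 18432, 2048, 18432, 13312, 4096⟩ :=
  boxOK_split (v := 2) s1_380 p1_153 (by decide +kernel)

theorem s1_382 : BoxOK ⟨3072, 83968, 60928, 67584, 74752, 45568, 65536, 1024, 6144, 4608, 2048, 9216, 6656, 4096⟩ :=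
  boxOK_split (v := 4) p1_156 p1_157 (by decide +kernel)

theorem s1_383 : BoxOK ⟨3072, 83968, 56320, 67584, 74752, 45568, 65536, 1024, 6144, 9216, 2048, 9216, 6656, 4096⟩ :=
  boxOK_split (v := 2) p1_155 s1_382 (by decide +kernel)

theorem s1_384 : BoxOK ⟨3072, 77824, 56320, 67584, 74752, 45568, 65536, 1024, 12288, 9216, 2048, 9216, 6656, 4096⟩ :=
  boxOK_split (v := 1) p1_154 s1_383 (by decide +kernel)

theorem s1_385 : BoxOK ⟨3072, 83968, 56320, 67584, 74752, 58880, 65536, 1024, 6144, 9216, 2048, 9216, 6656, 4096⟩ :=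
  boxOK_split (v := 2) p1_159 p1_160 (by decide +kernel)

theorem s1_386 : BoxOK ⟨3072, 77824, 56320, 67584, 74752, 58880, 65536, 1024, 12288, 9216, 2048, 9216, 6656, 4096⟩ :=
  boxOK_split (v := 1) p1_158 s1_385 (by decide +kernel)

theorem s1_387 : BoxOK ⟨3072, 77824, 56320, 67584, 74752, 52224, 65536, 1024, 12288, 9216, 2048, 9216, 13312, 4096⟩ :=
  boxOK_split (v := 5) s1_384 s1_386 (by decide +kernel)

theorem s1_388 : BoxOK ⟨3072, 77824, 56320, 67584, 83968, 52224, 65536, 1024, 12288, 9216, 2048, 18432, 13312, 4096⟩ :=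
  boxOK_split (v := 4) s1_387 p1_161 (by decide +kernel)

theorem s1_389 : BoxOK ⟨3072, 83968, 70144, 67584, 74752, 45568, 65536, 1024, 6144, 4608, 2048, 9216, 6656, 4096⟩ :=
  boxOK_split (v := 1) p1_163 p1_164 (by decide +kernel)

theorem s1_390 : BoxOK ⟨3072, 83968, 74752, 67584, 74752, 45568, 65536, 1024, 6144, 9216, 2048, 9216, 6656, 4096⟩ :=
  boxOK_split (v := 2) s1_389 p1_165 (by decide +kernel)

theorem s1_391 : BoxOK ⟨3072, 77824, 74752, 67584, 74752, 45568, 65536, 1024, 12288, 9216, 2048, 9216, 6656, 4096⟩ :=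
  boxOK_split (v := 1) p1_162 s1_390 (by decide +kernel)

theorem s1_392 : BoxOK ⟨3072, 68608, 79360, 68608, 79360, 62208, 65536, 1024, 3072, 4608, 1024, 4608, 3328, 4096⟩ :=
  boxOK_split (v := 2) p1_170 p1_171 (by decide +kernel)

theorem s1_393 : BoxOK ⟨3072, 68608, 79360, 67584, 79360, 62208, 65536, 1024, 3072, 4608, 2048, 4608, 3328, 4096⟩ :=
  boxOK_split (v := 3) p1_169 s1_392 (by decide +kernel)

theorem s1_394 : BoxOK ⟨3072, 76288, 78208, 69120, 79360, 62208, 65536, 1024, 1536, 1152, 512, 4608, 3328, 4096⟩ :=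
  boxOK_split (v := 1) p1_176 p1_177 (by decide +kernel)

theorem s1_395 : BoxOK ⟨3072, 74752, 78208, 69120, 79360, 62208, 65536, 1024, 3072, 1152, 512, 4608, 3328, 4096⟩ :=
  boxOK_split (v := 1) p1_175 s1_394 (by decide +kernel)

theorem s1_396 : BoxOK ⟨3072, 74752, 78208, 68608, 79360, 62208, 65536, 1024, 3072, 1152, 1024, 4608, 3328, 4096⟩ :=
  boxOK_split (v := 3) p1_174 s1_395 (by decide +kernel)

theorem s1_397 : BoxOK ⟨3072, 74752, 77056, 68608, 79360, 62208, 65536, 1024, 3072, 2304, 1024, 4608, 3328, 4096⟩ :=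
  boxOK_split (v := 2) p1_173 s1_396 (by decide +kernel)

theorem s1_398 : BoxOK ⟨3072, 74752, 77056, 67584, 79360, 62208, 65536, 1024, 3072, 2304, 2048, 4608, 3328, 4096⟩ :=
  boxOK_split (v := 3) p1_172 s1_397 (by decide +kernel)

theorem s1_399 : BoxOK ⟨3072, 74752, 79360, 67584, 79360, 62208, 65536, 1024, 3072, 4608, 2048, 4608, 3328, 4096⟩ :=
  boxOK_split (v := 2) s1_398 p1_178 (by decide +kernel)

theorem s1_400 : BoxOK ⟨3072, 71680, 79360, 67584, 79360, 62208, 65536, 1024, 6144, 4608, 2048, 4608, 3328, 4096⟩ :=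
  boxOK_split (v := 1) s1_393 s1_399 (by decide +kernel)

theorem s1_401 : BoxOK ⟨3072, 71680, 79360, 67584, 79360, 58880, 65536, 1024, 6144, 4608, 2048, 4608, 6656, 4096⟩ :=
  boxOK_split (v := 5) p1_168 s1_400 (by decide +kernel)

theorem s1_402 : BoxOK ⟨3072, 71680, 79360, 67584, 74752, 58880, 65536, 1024, 6144, 4608, 2048, 9216, 6656, 4096⟩ :=
  boxOK_split (v := 4) p1_167 s1_401 (by decide +kernel)

theorem s1_403 : BoxOK ⟨3072, 71680, 74752, 67584, 74752, 58880, 65536, 1024, 6144, 9216, 2048, 9216, 6656, 4096⟩ :=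
  boxOK_split (v := 2) p1_166 s1_402 (by decide +kernel)

theorem s1_404 : BoxOK ⟨3072, 83968, 74752, 67584, 74752, 58880, 65536, 1024, 6144, 9216, 2048, 9216, 6656, 4096⟩ :=
  boxOK_split (v := 2) p1_179 p1_180 (by decide +kernel)

theorem s1_405 : BoxOK ⟨3072, 77824, 74752, 67584, 74752, 58880, 65536, 1024, 12288, 9216, 2048, 9216, 6656, 4096⟩ :=
  boxOK_split (v := 1) s1_403 s1_404 (by decide +kernel)

theorem s1_406 : BoxOK ⟨3072, 77824, 74752, 67584, 74752, 52224, 65536, 1024, 12288, 9216, 2048, 9216, 13312, 4096⟩ :=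
  boxOK_split (v := 5) s1_391 s1_405 (by decide +kernel)

theorem s1_407 : BoxOK ⟨3072, 77824, 74752, 67584, 93184, 58880, 65536, 1024, 12288, 9216, 2048, 9216, 6656, 4096⟩ :=
  boxOK_split (v := 1) p1_182 p1_183 (by decide +kernel)

theorem s1_408 : BoxOK ⟨3072, 77824, 74752, 67584, 93184, 52224, 65536, 1024, 12288, 9216, 2048, 9216, 13312, 4096⟩ :=
  boxOK_split (v := 5) p1_181 s1_407 (by decide +kernel)

theorem s1_409 : BoxOK ⟨3072, 77824, 74752, 67584, 83968, 52224, 65536, 1024, 12288, 9216, 2048, 18432, 13312, 4096⟩ :=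
  boxOK_split (v := 4) s1_406 s1_408 (by decide +kernel)

theorem s1_410 : BoxOK ⟨3072, 77824, 65536, 67584, 83968, 52224, 65536, 1024, 12288, 18432, 2048, 18432, 13312, 4096⟩ :=
  boxOK_split (v := 2) s1_388 s1_409 (by decide +kernel)

theorem s1_411 : BoxOK ⟨3072, 65536, 65536, 67584, 83968, 52224, 65536, 1024, 24576, 18432, 2048, 18432, 13312, 4096⟩ :=
  boxOK_split (v := 1) s1_381 s1_410 (by decide +kernel)

theorem s1_412 : BoxOK ⟨3072, 47104, 74752, 67584, 74752, 85504, 65536, 1024, 6144, 9216, 2048, 9216, 6656, 4096⟩ :=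
  boxOK_split (v := 2) p1_186 p1_187 (by decide +kernel)

theorem s1_413 : BoxOK ⟨3072, 53248, 74752, 67584, 74752, 85504, 65536, 1024, 12288, 9216, 2048, 9216, 6656, 4096⟩ :=
  boxOK_split (v := 1) s1_412 p1_188 (by decide +kernel)

theorem s1_414 : BoxOK ⟨3072, 53248, 74752, 67584, 74752, 78848, 65536, 1024, 12288, 9216, 2048, 9216, 13312, 4096⟩ :=
  boxOK_split (v := 5) p1_185 s1_413 (by decide +kernel)

theorem s1_415 : BoxOK ⟨3072, 53248, 74752, 67584, 83968, 78848, 65536, 1024, 12288, 9216, 2048, 18432, 13312, 4096⟩ :=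
  boxOK_split (v := 4) s1_414 p1_189 (by decide +kernel)

theorem s1_416 : BoxOK ⟨3072, 53248, 65536, 67584, 83968, 78848, 65536, 1024, 12288, 18432, 2048, 18432, 13312, 4096⟩ :=
  boxOK_split (v := 2) p1_184 s1_415 (by decide +kernel)

theorem s1_417 : BoxOK ⟨3072, 83968, 51712, 67584, 82816, 67200, 63488, 1024, 6144, 4608, 2048, 1152, 1664, 2048⟩ :=
  boxOK_split (v := 6) p1_194 p1_195 (by decide +kernel)

theorem s1_418 : BoxOK ⟨3072, 83968, 51712, 67584, 82816, 67200, 65536, 1024, 6144, 4608, 2048, 1152, 1664, 4096⟩ :=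
  boxOK_split (v := 6) s1_417 p1_196 (by decide +kernel)

theorem s1_419 : BoxOK ⟨3072, 83968, 51712, 67584, 81664, 67200, 65536, 1024, 6144, 4608, 2048, 2304, 1664, 4096⟩ :=
  boxOK_split (v := 4) p1_193 s1_418 (by decide +kernel)

theorem s1_420 : BoxOK ⟨3072, 83968, 51712, 67584, 81664, 68864, 65536, 1024, 6144, 4608, 2048, 2304, 3328, 4096⟩ :=
  boxOK_split (v := 5) s1_419 p1_197 (by decide +kernel)

theorem s1_421 : BoxOK ⟨3072, 83968, 51712, 67584, 79360, 68864, 65536, 1024, 6144, 4608, 2048, 4608, 3328, 4096⟩ :=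
  boxOK_split (v := 4) p1_192 s1_420 (by decide +kernel)

theorem s1_422 : BoxOK ⟨3072, 83968, 51712, 67584, 79360, 72192, 65536, 1024, 6144, 4608, 2048, 4608, 6656, 4096⟩ :=
  boxOK_split (v := 5) s1_421 p1_198 (by decide +kernel)

theorem s1_423 : BoxOK ⟨3072, 83968, 60928, 67584, 82816, 67200, 63488, 1024, 6144, 4608, 2048, 1152, 1664, 2048⟩ :=
  boxOK_split (v := 5) p1_201 p1_202 (by decide +kernel)

theorem s1_424 : BoxOK ⟨3072, 83968, 60928, 67584, 82816, 67200, 65536, 1024, 6144, 4608, 2048, 1152, 1664, 4096⟩ :=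
  boxOK_split (v := 6) s1_423 p1_203 (by decide +kernel)

theorem s1_425 : BoxOK ⟨3072, 83968, 60928, 67584, 81664, 67200, 65536, 1024, 6144, 4608, 2048, 2304, 1664, 4096⟩ :=
  boxOK_split (v := 4) p1_200 s1_424 (by decide +kernel)

theorem s1_426 : BoxOK ⟨3072, 83968, 60928, 67584, 81664, 68864, 65536, 1024, 6144, 4608, 2048, 2304, 3328, 4096⟩ :=
  boxOK_split (v := 5) s1_425 p1_204 (by decide +kernel)

theorem s1_427 : BoxOK ⟨3072, 83968, 60928, 67584, 79360, 68864, 65536, 1024, 6144, 4608, 2048, 4608, 3328, 4096⟩ :=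
  boxOK_split (v := 4) p1_199 s1_426 (by decide +kernel)

theorem s1_428 : BoxOK ⟨3072, 83968, 60928, 67584, 79360, 72192, 65536, 1024, 6144, 4608, 2048, 4608, 6656, 4096⟩ :=
  boxOK_split (v := 5) s1_427 p1_205 (by decide +kernel)

theorem s1_429 : BoxOK ⟨3072, 83968, 56320, 67584, 79360, 72192, 65536, 1024, 6144, 9216, 2048, 4608, 6656, 4096⟩ :=
  boxOK_split (v := 2) s1_422 s1_428 (by decide +kernel)

theorem s1_430 : BoxOK ⟨3072, 83968, 56320, 67584, 74752, 72192, 65536, 1024, 6144, 9216, 2048, 9216, 6656, 4096⟩ :=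
  boxOK_split (v := 4) p1_191 s1_429 (by decide +kernel)

theorem s1_431 : BoxOK ⟨3072, 77824, 56320, 67584, 74752, 72192, 65536, 1024, 12288, 9216, 2048, 9216, 6656, 4096⟩ :=
  boxOK_split (v := 1) p1_190 s1_430 (by decide +kernel)

theorem s1_432 : BoxOK ⟨3072, 83968, 60928, 67584, 74752, 85504, 65536, 1024, 6144, 4608, 2048, 9216, 6656, 4096⟩ :=
  boxOK_split (v := 4) p1_208 p1_209 (by decide +kernel)

theorem s1_433 : BoxOK ⟨3072, 83968, 56320, 67584, 74752, 85504, 65536, 1024, 6144, 9216, 2048, 9216, 6656, 4096⟩ :=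
  boxOK_split (v := 2) p1_207 s1_432 (by decide +kernel)

theorem s1_434 : BoxOK ⟨3072, 77824, 56320, 67584, 74752, 85504, 65536, 1024, 12288, 9216, 2048, 9216, 6656, 4096⟩ :=
  boxOK_split (v := 1) p1_206 s1_433 (by decide +kernel)

theorem s1_435 : BoxOK ⟨3072, 77824, 56320, 67584, 74752, 78848, 65536, 1024, 12288, 9216, 2048, 9216, 13312, 4096⟩ :=
  boxOK_split (v := 5) s1_431 s1_434 (by decide +kernel)

theorem s1_436 : BoxOK ⟨3072, 83968, 56320, 67584, 93184, 72192, 65536, 1024, 6144, 9216, 2048, 9216, 6656, 4096⟩ :=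
  boxOK_split (v := 2) p1_211 p1_212 (by decide +kernel)

theorem s1_437 : BoxOK ⟨3072, 77824, 56320, 67584, 93184, 72192, 65536, 1024, 12288, 9216, 2048, 9216, 6656, 4096⟩ :=
  boxOK_split (v := 1) p1_210 s1_436 (by decide +kernel)

theorem s1_438 : BoxOK ⟨3072, 77824, 56320, 67584, 93184, 78848, 65536, 1024, 12288, 9216, 2048, 9216, 13312, 4096⟩ :=
  boxOK_split (v := 5) s1_437 p1_213 (by decide +kernel)

theorem s1_439 : BoxOK ⟨3072, 77824, 56320, 67584, 83968, 78848, 65536, 1024, 12288, 9216, 2048, 18432, 13312, 4096⟩ :=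
  boxOK_split (v := 4) s1_435 s1_438 (by decide +kernel)

theorem s1_440 : BoxOK ⟨3072, 68608, 81664, 68608, 82816, 67200, 63488, 1024, 3072, 2304, 1024, 1152, 1664, 2048⟩ :=
  boxOK_split (v := 6) p1_220 p1_221 (by decide +kernel)

theorem s1_441 : BoxOK ⟨3072, 76288, 79936, 68608, 82816, 66368, 63744, 1024, 1536, 576, 1024, 1152, 832, 256⟩ :=
  boxOK_split (v := 1) p1_224 p1_225 (by decide +kernel)

theorem s1_442 : BoxOK ⟨3072, 76288, 80512, 68608, 82816, 66368, 63744, 1024, 1536, 1152, 1024, 1152, 832, 256⟩ :=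
  boxOK_split (v := 2) s1_441 p1_226 (by decide +kernel)

theorem s1_443 : BoxOK ⟨3072, 76288, 80512, 68608, 82816, 67200, 63744, 1024, 1536, 1152, 1024, 1152, 1664, 256⟩ :=
  boxOK_split (v := 5) s1_442 p1_227 (by decide +kernel)

theorem s1_444 : BoxOK ⟨3072, 76288, 81664, 68608, 82816, 67200, 63744, 1024, 1536, 2304, 1024, 1152, 1664, 256⟩ :=
  boxOK_split (v := 2) s1_443 p1_228 (by decide +kernel)

theorem s1_445 : BoxOK ⟨3072, 76288, 81664, 68608, 82816, 67200, 64000, 1024, 1536, 2304, 1024, 1152, 1664, 512⟩ :=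
  boxOK_split (v := 6) s1_444 p1_229 (by decide +kernel)

theorem s1_446 : BoxOK ⟨3072, 76288, 81664, 68608, 82816, 67200, 64512, 1024, 1536, 2304, 1024, 1152, 1664, 1024⟩ :=
  boxOK_split (v := 6) s1_445 p1_230 (by decide +kernel)

theorem s1_447 : BoxOK ⟨3072, 76288, 81664, 68608, 82816, 67200, 63488, 1024, 1536, 2304, 1024, 1152, 1664, 2048⟩ :=
  boxOK_split (v := 6) p1_223 s1_446 (by decide +kernel)

theorem s1_448 : BoxOK ⟨3072, 74752, 81664, 68608, 82816, 67200, 63488, 1024, 3072, 2304, 1024, 1152, 1664, 2048⟩ :=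
  boxOK_split (v := 1) p1_222 s1_447 (by decide +kernel)

theorem s1_449 : BoxOK ⟨3072, 71680, 81664, 68608, 82816, 67200, 63488, 1024, 6144, 2304, 1024, 1152, 1664, 2048⟩ :=
  boxOK_split (v := 1) s1_440 s1_448 (by decide +kernel)

theorem s1_450 : BoxOK ⟨3072, 71680, 79360, 68608, 82816, 67200, 63488, 1024, 6144, 4608, 1024, 1152, 1664, 2048⟩ :=
  boxOK_split (v := 2) p1_219 s1_449 (by decide +kernel)

theorem s1_451 : BoxOK ⟨3072, 71680, 79360, 67584, 82816, 67200, 63488, 1024, 6144, 4608, 2048, 1152, 1664, 2048⟩ :=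
  boxOK_split (v := 3) p1_218 s1_450 (by decide +kernel)

theorem s1_452 : BoxOK ⟨3072, 71680, 79360, 67584, 82816, 67200, 65536, 1024, 6144, 4608, 2048, 1152, 1664, 4096⟩ :=
  boxOK_split (v := 6) s1_451 p1_231 (by decide +kernel)

theorem s1_453 : BoxOK ⟨3072, 71680, 79360, 67584, 81664, 67200, 65536, 1024, 6144, 4608, 2048, 2304, 1664, 4096⟩ :=
  boxOK_split (v := 4) p1_217 s1_452 (by decide +kernel)

theorem s1_454 : BoxOK ⟨3072, 71680, 79360, 67584, 81664, 68864, 65536, 1024, 6144, 4608, 2048, 2304, 3328, 4096⟩ :=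
  boxOK_split (v := 5) s1_453 p1_232 (by decide +kernel)

theorem s1_455 : BoxOK ⟨3072, 71680, 79360, 67584, 79360, 68864, 65536, 1024, 6144, 4608, 2048, 4608, 3328, 4096⟩ :=
  boxOK_split (v := 4) p1_216 s1_454 (by decide +kernel)

theorem s1_456 : BoxOK ⟨3072, 71680, 79360, 67584, 79360, 72192, 65536, 1024, 6144, 4608, 2048, 4608, 6656, 4096⟩ :=
  boxOK_split (v := 5) s1_455 p1_233 (by decide +kernel)

theorem s1_457 : BoxOK ⟨3072, 71680, 79360, 67584, 74752, 72192, 65536, 1024, 6144, 4608, 2048, 9216, 6656, 4096⟩ :=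
  boxOK_split (v := 4) p1_215 s1_456 (by decide +kernel)

theorem s1_458 : BoxOK ⟨3072, 71680, 74752, 67584, 74752, 72192, 65536, 1024, 6144, 9216, 2048, 9216, 6656, 4096⟩ :=
  boxOK_split (v := 2) p1_214 s1_457 (by decide +kernel)

theorem s1_459 : BoxOK ⟨3072, 83968, 70144, 67584, 74752, 72192, 65536, 1024, 6144, 4608, 2048, 9216, 6656, 4096⟩ :=
  boxOK_split (v := 1) p1_234 p1_235 (by decide +kernel)

theorem s1_460 : BoxOK ⟨3072, 83968, 74752, 67584, 74752, 72192, 65536, 1024, 6144, 9216, 2048, 9216, 6656, 4096⟩ :=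
  boxOK_split (v := 2) s1_459 p1_236 (by decide +kernel)

theorem s1_461 : BoxOK ⟨3072, 77824, 74752, 67584, 74752, 72192, 65536, 1024, 12288, 9216, 2048, 9216, 6656, 4096⟩ :=
  boxOK_split (v := 1) s1_458 s1_460 (by decide +kernel)

theorem s1_462 : BoxOK ⟨3072, 77824, 74752, 67584, 74752, 85504, 65536, 1024, 12288, 9216, 2048, 9216, 6656, 4096⟩ :=
  boxOK_split (v := 1) p1_237 p1_238 (by decide +kernel)

theorem s1_463 : BoxOK ⟨3072, 77824, 74752, 67584, 74752, 78848, 65536, 1024, 12288, 9216, 2048, 9216, 13312, 4096⟩ :=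
  boxOK_split (v := 5) s1_461 s1_462 (by decide +kernel)

theorem s1_464 : BoxOK ⟨3072, 77824, 74752, 67584, 83968, 78848, 65536, 1024, 12288, 9216, 2048, 18432, 13312, 4096⟩ :=
  boxOK_split (v := 4) s1_463 p1_239 (by decide +kernel)

theorem s1_465 : BoxOK ⟨3072, 77824, 65536, 67584, 83968, 78848, 65536, 1024, 12288, 18432, 2048, 18432, 13312, 4096⟩ :=
  boxOK_split (v := 2) s1_439 s1_464 (by decide +kernel)

theorem s1_466 : BoxOK ⟨3072, 65536, 65536, 67584, 83968, 78848, 65536, 1024, 24576, 18432, 2048, 18432, 13312, 4096⟩ :=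
  boxOK_split (v := 1) s1_416 s1_465 (by decide +kernel)

theorem s1_467 : BoxOK ⟨3072, 65536, 65536, 67584, 83968, 65536, 65536, 1024, 24576, 18432, 2048, 18432, 26624, 4096⟩ :=
  boxOK_split (v := 5) s1_411 s1_466 (by decide +kernel)

theorem s1_468 : BoxOK ⟨3072, 65536, 65536, 67584, 65536, 65536, 65536, 1024, 24576, 18432, 2048, 36864, 26624, 4096⟩ :=
  boxOK_split (v := 4) s1_379 s1_467 (by decide +kernel)

theorem s2_469 : BoxOK ⟨5120, 49408, 63232, 68608, 59776, 49728, 62464, 1024, 768, 2304, 1024, 1152, 832, 1024⟩ :=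
  boxOK_split (v := 2) p2_10 p2_11 (by decide +kernel)

theorem s2_470 : BoxOK ⟨5120, 48640, 63232, 68608, 59776, 49728, 62464, 1024, 1536, 2304, 1024, 1152, 832, 1024⟩ :=
  boxOK_split (v := 1) p2_9 s2_469 (by decide +kernel)

theorem s2_471 : BoxOK ⟨5120, 48640, 63232, 68608, 58624, 49728, 62464, 1024, 1536, 2304, 1024, 2304, 832, 1024⟩ :=
  boxOK_split (v := 4) p2_8 s2_470 (by decide +kernel)

theorem s2_472 : BoxOK ⟨5120, 48640, 63232, 67584, 58624, 49728, 62464, 1024, 1536, 2304, 2048, 2304, 832, 1024⟩ :=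
  boxOK_split (v := 3) p2_7 s2_471 (by decide +kernel)

theorem s2_473 : BoxOK ⟨5120, 48640, 63232, 67584, 58624, 50560, 62464, 1024, 1536, 2304, 2048, 2304, 1664, 1024⟩ :=
  boxOK_split (v := 5) s2_472 p2_12 (by decide +kernel)

theorem s2_474 : BoxOK ⟨5120, 48640, 63232, 67584, 58624, 50560, 63488, 1024, 1536, 2304, 2048, 2304, 1664, 2048⟩ :=
  boxOK_split (v := 6) s2_473 p2_13 (by decide +kernel)

theorem s2_475 : BoxOK ⟨5120, 48640, 63232, 67584, 58624, 50560, 65536, 1024, 1536, 2304, 2048, 2304, 1664, 4096⟩ :=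
  boxOK_split (v := 6) s2_474 p2_14 (by decide +kernel)

theorem s2_476 : BoxOK ⟨5120, 50176, 63232, 67584, 58624, 50560, 65536, 1024, 3072, 2304, 2048, 2304, 1664, 4096⟩ :=
  boxOK_split (v := 1) s2_475 p2_15 (by decide +kernel)

theorem s2_477 : BoxOK ⟨5120, 47104, 63232, 67584, 58624, 50560, 65536, 1024, 6144, 2304, 2048, 2304, 1664, 4096⟩ :=
  boxOK_split (v := 1) p2_6 s2_476 (by decide +kernel)

theorem s2_478 : BoxOK ⟨5120, 47104, 60928, 67584, 58624, 50560, 65536, 1024, 6144, 4608, 2048, 2304, 1664, 4096⟩ :=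
  boxOK_split (v := 2) p2_5 s2_477 (by decide +kernel)

theorem s2_479 : BoxOK ⟨5120, 47104, 60928, 67584, 60928, 50560, 65536, 1024, 6144, 4608, 2048, 4608, 1664, 4096⟩ :=
  boxOK_split (v := 4) s2_478 p2_16 (by decide +kernel)

theorem s2_480 : BoxOK ⟨5120, 47104, 60928, 67584, 60928, 48896, 65536, 1024, 6144, 4608, 2048, 4608, 3328, 4096⟩ :=
  boxOK_split (v := 5) p2_4 s2_479 (by decide +kernel)

theorem s2_481 : BoxOK ⟨5120, 47104, 60928, 67584, 60928, 45568, 65536, 1024, 6144, 4608, 2048, 4608, 6656, 4096⟩ :=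
  boxOK_split (v := 5) p2_3 s2_480 (by decide +kernel)

theorem s2_482 : BoxOK ⟨5120, 47104, 60928, 67584, 56320, 45568, 65536, 1024, 6144, 4608, 2048, 9216, 6656, 4096⟩ :=
  boxOK_split (v := 4) p2_2 s2_481 (by decide +kernel)

theorem s2_483 : BoxOK ⟨5120, 47104, 56320, 67584, 56320, 45568, 65536, 1024, 6144, 9216, 2048, 9216, 6656, 4096⟩ :=
  boxOK_split (v := 2) p2_1 s2_482 (by decide +kernel)

theorem s2_484 : BoxOK ⟨5120, 53248, 56320, 67584, 56320, 45568, 65536, 1024, 12288, 9216, 2048, 9216, 6656, 4096⟩ :=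
  boxOK_split (v := 1) s2_483 p2_17 (by decide +kernel)

theorem s2_485 : BoxOK ⟨5120, 53248, 56320, 67584, 56320, 52224, 65536, 1024, 12288, 9216, 2048, 9216, 13312, 4096⟩ :=
  boxOK_split (v := 5) s2_484 p2_18 (by decide +kernel)

theorem s2_486 : BoxOK ⟨5120, 53248, 56320, 67584, 47104, 52224, 65536, 1024, 12288, 9216, 2048, 18432, 13312, 4096⟩ :=
  boxOK_split (v := 4) p2_0 s2_485 (by decide +kernel)

theorem s2_487 : BoxOK ⟨5120, 62464, 81664, 68608, 42496, 62208, 65536, 1024, 3072, 2304, 1024, 4608, 3328, 4096⟩ :=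
  boxOK_split (v := 5) p2_27 p2_28 (by decide +kernel)

theorem s2_488 : BoxOK ⟨5120, 62464, 79360, 68608, 42496, 62208, 65536, 1024, 3072, 4608, 1024, 4608, 3328, 4096⟩ :=
  boxOK_split (v := 2) p2_26 s2_487 (by decide +kernel)

theorem s2_489 : BoxOK ⟨5120, 62464, 79360, 67584, 42496, 62208, 65536, 1024, 3072, 4608, 2048, 4608, 3328, 4096⟩ :=
  boxOK_split (v := 3) p2_25 s2_488 (by decide +kernel)

theorem s2_490 : BoxOK ⟨5120, 59392, 79360, 67584, 42496, 62208, 65536, 1024, 6144, 4608, 2048, 4608, 3328, 4096⟩ :=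
  boxOK_split (v := 1) p2_24 s2_489 (by decide +kernel)

theorem s2_491 : BoxOK ⟨5120, 59392, 79360, 67584, 42496, 58880, 65536, 1024, 6144, 4608, 2048, 4608, 6656, 4096⟩ :=
  boxOK_split (v := 5) p2_23 s2_490 (by decide +kernel)

theorem s2_492 : BoxOK ⟨5120, 59392, 74752, 67584, 42496, 58880, 65536, 1024, 6144, 9216, 2048, 4608, 6656, 4096⟩ :=
  boxOK_split (v := 2) p2_22 s2_491 (by decide +kernel)

theorem s2_493 : BoxOK ⟨5120, 59392, 74752, 67584, 37888, 58880, 65536, 1024, 6144, 9216, 2048, 9216, 6656, 4096⟩ :=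
  boxOK_split (v := 4) p2_21 s2_492 (by decide +kernel)

theorem s2_494 : BoxOK ⟨5120, 53248, 74752, 67584, 37888, 58880, 65536, 1024, 12288, 9216, 2048, 9216, 6656, 4096⟩ :=
  boxOK_split (v := 1) p2_20 s2_493 (by decide +kernel)

theorem s2_495 : BoxOK ⟨5120, 53248, 74752, 67584, 37888, 52224, 65536, 1024, 12288, 9216, 2048, 9216, 13312, 4096⟩ :=
  boxOK_split (v := 5) p2_19 s2_494 (by decide +kernel)

theorem s2_496 : BoxOK ⟨5120, 53248, 74752, 67584, 56320, 52224, 65536, 1024, 12288, 9216, 2048, 9216, 13312, 4096⟩ :=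
  boxOK_split (v := 5) p2_29 p2_30 (by decide +kernel)

theorem s2_497 : BoxOK ⟨5120, 53248, 74752, 67584, 47104, 52224, 65536, 1024, 12288, 9216, 2048, 18432, 13312, 4096⟩ :=
  boxOK_split (v := 4) s2_495 s2_496 (by decide +kernel)

theorem s2_498 : BoxOK ⟨5120, 53248, 65536, 67584, 47104, 52224, 65536, 1024, 12288, 18432, 2048, 18432, 13312, 4096⟩ :=
  boxOK_split (v := 2) s2_486 s2_497 (by decide +kernel)

theorem s2_499 : BoxOK ⟨5120, 80512, 57472, 68096, 55168, 49728, 61824, 1024, 384, 1152, 512, 1152, 832, 128⟩ :=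
  boxOK_split (v := 4) p2_42 p2_43 (by decide +kernel)

theorem s2_500 : BoxOK ⟨5120, 80512, 57472, 68096, 55168, 49728, 61696, 1024, 384, 1152, 512, 1152, 832, 256⟩ :=
  boxOK_split (v := 6) p2_41 s2_499 (by decide +kernel)

theorem s2_501 : BoxOK ⟨5120, 80512, 58624, 68096, 55168, 49728, 61696, 1024, 384, 2304, 512, 1152, 832, 256⟩ :=
  boxOK_split (v := 2) s2_500 p2_44 (by decide +kernel)

theorem s2_502 : BoxOK ⟨5120, 80128, 58624, 68096, 55168, 49728, 61696, 1024, 768, 2304, 512, 1152, 832, 256⟩ :=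
  boxOK_split (v := 1) p2_40 s2_501 (by decide +kernel)

theorem s2_503 : BoxOK ⟨5120, 80128, 58624, 68096, 55168, 49728, 61952, 1024, 768, 2304, 512, 1152, 832, 512⟩ :=
  boxOK_split (v := 6) s2_502 p2_45 (by decide +kernel)

theorem s2_504 : BoxOK ⟨5120, 80128, 58624, 68096, 55168, 50560, 61952, 1024, 768, 2304, 512, 1152, 1664, 512⟩ :=
  boxOK_split (v := 5) s2_503 p2_46 (by decide +kernel)

theorem s2_505 : BoxOK ⟨5120, 80128, 58624, 68096, 55168, 48896, 61952, 1024, 768, 2304, 512, 1152, 3328, 512⟩ :=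
  boxOK_split (v := 5) p2_39 s2_504 (by decide +kernel)

theorem s2_506 : BoxOK ⟨5120, 80128, 58624, 68096, 55168, 48896, 62464, 1024, 768, 2304, 512, 1152, 3328, 1024⟩ :=
  boxOK_split (v := 6) s2_505 p2_47 (by decide +kernel)

theorem s2_507 : BoxOK ⟨5120, 80128, 58624, 68096, 55168, 48896, 63488, 1024, 768, 2304, 512, 1152, 3328, 2048⟩ :=
  boxOK_split (v := 6) s2_506 p2_48 (by decide +kernel)

theorem s2_508 : BoxOK ⟨5120, 80128, 58624, 68096, 54016, 48896, 63488, 1024, 768, 2304, 512, 2304, 3328, 2048⟩ :=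
  boxOK_split (v := 4) p2_38 s2_507 (by decide +kernel)

theorem s2_509 : BoxOK ⟨5120, 79360, 58624, 68096, 54016, 48896, 63488, 1024, 1536, 2304, 512, 2304, 3328, 2048⟩ :=
  boxOK_split (v := 1) p2_37 s2_508 (by decide +kernel)

theorem s2_510 : BoxOK ⟨5120, 79360, 58624, 68608, 54016, 48896, 63488, 1024, 1536, 2304, 1024, 2304, 3328, 2048⟩ :=
  boxOK_split (v := 3) s2_509 p2_49 (by decide +kernel)

theorem s2_511 : BoxOK ⟨5120, 79360, 58624, 67584, 54016, 48896, 63488, 1024, 1536, 2304, 2048, 2304, 3328, 2048⟩ :=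
  boxOK_split (v := 3) p2_36 s2_510 (by decide +kernel)

theorem s2_512 : BoxOK ⟨5120, 81664, 57472, 68608, 55744, 49728, 62464, 1024, 768, 1152, 1024, 576, 832, 1024⟩ :=
  boxOK_split (v := 6) p2_54 p2_55 (by decide +kernel)

theorem s2_513 : BoxOK ⟨5120, 81664, 57472, 68608, 55168, 49728, 62464, 1024, 768, 1152, 1024, 1152, 832, 1024⟩ :=
  boxOK_split (v := 4) p2_53 s2_512 (by decide +kernel)

theorem s2_514 : BoxOK ⟨5120, 81664, 57472, 68608, 55168, 50560, 62464, 1024, 768, 1152, 1024, 1152, 1664, 1024⟩ :=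
  boxOK_split (v := 5) s2_513 p2_56 (by decide +kernel)

theorem s2_515 : BoxOK ⟨5120, 81664, 57472, 68608, 55168, 50560, 63488, 1024, 768, 1152, 1024, 1152, 1664, 2048⟩ :=
  boxOK_split (v := 6) s2_514 p2_57 (by decide +kernel)

theorem s2_516 : BoxOK ⟨5120, 81664, 57472, 67584, 55168, 50560, 63488, 1024, 768, 1152, 2048, 1152, 1664, 2048⟩ :=
  boxOK_split (v := 3) p2_52 s2_515 (by decide +kernel)

theorem s2_517 : BoxOK ⟨5120, 81664, 57472, 67584, 55168, 48896, 63488, 1024, 768, 1152, 2048, 1152, 3328, 2048⟩ :=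
  boxOK_split (v := 5) p2_51 s2_516 (by decide +kernel)

theorem s2_518 : BoxOK ⟨5120, 81664, 57472, 67584, 54016, 48896, 63488, 1024, 768, 1152, 2048, 2304, 3328, 2048⟩ :=
  boxOK_split (v := 4) p2_50 s2_517 (by decide +kernel)

theorem s2_519 : BoxOK ⟨5120, 82432, 57472, 67584, 54016, 48896, 63488, 1024, 1536, 1152, 2048, 2304, 3328, 2048⟩ :=
  boxOK_split (v := 1) s2_518 p2_58 (by decide +kernel)

theorem s2_520 : BoxOK ⟨5120, 81664, 59776, 68608, 55168, 48896, 63488, 1024, 768, 1152, 1024, 1152, 3328, 2048⟩ :=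
  boxOK_split (v := 5) p2_61 p2_62 (by decide +kernel)

theorem s2_521 : BoxOK ⟨5120, 81664, 59776, 68608, 54016, 48896, 63488, 1024, 768, 1152, 1024, 2304, 3328, 2048⟩ :=
  boxOK_split (v := 4) p2_60 s2_520 (by decide +kernel)

theorem s2_522 : BoxOK ⟨5120, 82432, 59776, 68608, 54016, 48896, 63488, 1024, 1536, 1152, 1024, 2304, 3328, 2048⟩ :=
  boxOK_split (v := 1) s2_521 p2_63 (by decide +kernel)

theorem s2_523 : BoxOK ⟨5120, 82432, 59776, 67584, 54016, 48896, 63488, 1024, 1536, 1152, 2048, 2304, 3328, 2048⟩ :=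
  boxOK_split (v := 3) p2_59 s2_522 (by decide +kernel)

theorem s2_524 : BoxOK ⟨5120, 82432, 58624, 67584, 54016, 48896, 63488, 1024, 1536, 2304, 2048, 2304, 3328, 2048⟩ :=
  boxOK_split (v := 2) s2_519 s2_523 (by decide +kernel)

theorem s2_525 : BoxOK ⟨5120, 80896, 58624, 67584, 54016, 48896, 63488, 1024, 3072, 2304, 2048, 2304, 3328, 2048⟩ :=
  boxOK_split (v := 1) s2_511 s2_524 (by decide +kernel)

theorem s2_526 : BoxOK ⟨5120, 80896, 58624, 67584, 51712, 48896, 63488, 1024, 3072, 2304, 2048, 4608, 3328, 2048⟩ :=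
  boxOK_split (v := 4) p2_35 s2_525 (by decide +kernel)

theorem s2_527 : BoxOK ⟨5120, 80896, 60928, 67584, 51712, 48896, 63488, 1024, 3072, 4608, 2048, 4608, 3328, 2048⟩ :=
  boxOK_split (v := 2) s2_526 p2_64 (by decide +kernel)

theorem s2_528 : BoxOK ⟨5120, 80896, 60928, 67584, 51712, 48896, 65536, 1024, 3072, 4608, 2048, 4608, 3328, 4096⟩ :=
  boxOK_split (v := 6) s2_527 p2_65 (by decide +kernel)

theorem s2_529 : BoxOK ⟨5120, 83968, 60928, 67584, 51712, 48896, 65536, 1024, 6144, 4608, 2048, 4608, 3328, 4096⟩ :=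
  boxOK_split (v := 1) s2_528 p2_66 (by decide +kernel)

theorem s2_530 : BoxOK ⟨5120, 83968, 60928, 67584, 51712, 45568, 65536, 1024, 6144, 4608, 2048, 4608, 6656, 4096⟩ :=
  boxOK_split (v := 5) p2_34 s2_529 (by decide +kernel)

theorem s2_531 : BoxOK ⟨5120, 82432, 58624, 67584, 58624, 48064, 61952, 1024, 1536, 2304, 2048, 2304, 832, 512⟩ :=
  boxOK_split (v := 4) p2_70 p2_71 (by decide +kernel)

theorem s2_532 : BoxOK ⟨5120, 80896, 58624, 67584, 58624, 48064, 61952, 1024, 3072, 2304, 2048, 2304, 832, 512⟩ :=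
  boxOK_split (v := 1) p2_69 s2_531 (by decide +kernel)

theorem s2_533 : BoxOK ⟨5120, 80896, 58624, 67584, 60928, 48064, 61952, 1024, 3072, 2304, 2048, 4608, 832, 512⟩ :=
  boxOK_split (v := 4) s2_532 p2_72 (by decide +kernel)

theorem s2_534 : BoxOK ⟨5120, 80896, 60928, 67584, 60928, 48064, 61952, 1024, 3072, 4608, 2048, 4608, 832, 512⟩ :=
  boxOK_split (v := 2) s2_533 p2_73 (by decide +kernel)

theorem s2_535 : BoxOK ⟨5120, 80896, 60928, 67584, 60928, 48064, 62464, 1024, 3072, 4608, 2048, 4608, 832, 1024⟩ :=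
  boxOK_split (v := 6) s2_534 p2_74 (by decide +kernel)

theorem s2_536 : BoxOK ⟨5120, 80896, 60928, 67584, 60928, 47232, 62464, 1024, 3072, 4608, 2048, 4608, 1664, 1024⟩ :=
  boxOK_split (v := 5) p2_68 s2_535 (by decide +kernel)

theorem s2_537 : BoxOK ⟨5120, 82432, 58624, 68608, 57472, 49312, 62464, 1024, 1536, 2304, 1024, 1152, 416, 1024⟩ :=
  boxOK_split (v := 2) p2_77 p2_78 (by decide +kernel)

theorem s2_538 : BoxOK ⟨5120, 83200, 58624, 68608, 59776, 49312, 62464, 1024, 768, 2304, 1024, 1152, 416, 1024⟩ :=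
  boxOK_split (v := 4) p2_80 p2_81 (by decide +kernel)

theorem s2_539 : BoxOK ⟨5120, 82432, 58624, 68608, 59776, 49312, 62464, 1024, 1536, 2304, 1024, 1152, 416, 1024⟩ :=
  boxOK_split (v := 1) p2_79 s2_538 (by decide +kernel)

theorem s2_540 : BoxOK ⟨5120, 82432, 58624, 68608, 58624, 49312, 62464, 1024, 1536, 2304, 1024, 2304, 416, 1024⟩ :=
  boxOK_split (v := 4) s2_537 s2_539 (by decide +kernel)

theorem s2_541 : BoxOK ⟨5120, 82432, 58624, 67584, 58624, 49312, 62464, 1024, 1536, 2304, 2048, 2304, 416, 1024⟩ :=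
  boxOK_split (v := 3) p2_76 s2_540 (by decide +kernel)

theorem s2_542 : BoxOK ⟨5120, 80896, 58624, 67584, 58624, 49312, 62464, 1024, 3072, 2304, 2048, 2304, 416, 1024⟩ :=
  boxOK_split (v := 1) p2_75 s2_541 (by decide +kernel)

theorem s2_543 : BoxOK ⟨4608, 82432, 57472, 68608, 58624, 50144, 61952, 512, 1536, 1152, 1024, 2304, 416, 512⟩ :=
  boxOK_split (v := 6) p2_84 p2_85 (by decide +kernel)

theorem s2_544 : BoxOK ⟨4608, 82432, 57472, 67584, 58624, 50144, 61952, 512, 1536, 1152, 2048, 2304, 416, 512⟩ :=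
  boxOK_split (v := 3) p2_83 s2_543 (by decide +kernel)

theorem s2_545 : BoxOK ⟨4608, 82432, 58624, 67584, 58624, 50144, 61952, 512, 1536, 2304, 2048, 2304, 416, 512⟩ :=
  boxOK_split (v := 2) s2_544 p2_86 (by decide +kernel)

theorem s2_546 : BoxOK ⟨5120, 82432, 58624, 67584, 58624, 50144, 61952, 1024, 1536, 2304, 2048, 2304, 416, 512⟩ :=
  boxOK_split (v := 0) s2_545 p2_87 (by decide +kernel)

theorem s2_547 : BoxOK ⟨5120, 80896, 58624, 67584, 58624, 50144, 61952, 1024, 3072, 2304, 2048, 2304, 416, 512⟩ :=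
  boxOK_split (v := 1) p2_82 s2_546 (by decide +kernel)

theorem s2_548 : BoxOK ⟨5120, 80896, 58624, 67584, 58624, 50144, 62464, 1024, 3072, 2304, 2048, 2304, 416, 1024⟩ :=
  boxOK_split (v := 6) s2_547 p2_88 (by decide +kernel)

theorem s2_549 : BoxOK ⟨5120, 80896, 58624, 67584, 58624, 49728, 62464, 1024, 3072, 2304, 2048, 2304, 832, 1024⟩ :=
  boxOK_split (v := 5) s2_542 s2_548 (by decide +kernel)

theorem s2_550 : BoxOK ⟨5120, 80896, 58624, 67584, 60928, 49728, 62464, 1024, 3072, 2304, 2048, 4608, 832, 1024⟩ :=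
  boxOK_split (v := 4) s2_549 p2_89 (by decide +kernel)

theorem s2_551 : BoxOK ⟨5120, 80896, 60928, 67584, 60928, 49728, 62464, 1024, 3072, 4608, 2048, 4608, 832, 1024⟩ :=
  boxOK_split (v := 2) s2_550 p2_90 (by decide +kernel)

theorem s2_552 : BoxOK ⟨5120, 80896, 60928, 67584, 60928, 50560, 62464, 1024, 3072, 4608, 2048, 4608, 1664, 1024⟩ :=
  boxOK_split (v := 5) s2_551 p2_91 (by decide +kernel)

theorem s2_553 : BoxOK ⟨5120, 80896, 60928, 67584, 60928, 48896, 62464, 1024, 3072, 4608, 2048, 4608, 3328, 1024⟩ :=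
  boxOK_split (v := 5) s2_536 s2_552 (by decide +kernel)

theorem s2_554 : BoxOK ⟨5120, 80896, 60928, 67584, 60928, 48896, 63488, 1024, 3072, 4608, 2048, 4608, 3328, 2048⟩ :=
  boxOK_split (v := 6) s2_553 p2_92 (by decide +kernel)

theorem s2_555 : BoxOK ⟨5120, 80896, 60928, 67584, 60928, 48896, 65536, 1024, 3072, 4608, 2048, 4608, 3328, 4096⟩ :=
  boxOK_split (v := 6) s2_554 p2_93 (by decide +kernel)

theorem s2_556 : BoxOK ⟨5120, 83968, 60928, 67584, 60928, 48896, 65536, 1024, 6144, 4608, 2048, 4608, 3328, 4096⟩ :=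
  boxOK_split (v := 1) s2_555 p2_94 (by decide +kernel)

theorem s2_557 : BoxOK ⟨5120, 83968, 60928, 67584, 60928, 45568, 65536, 1024, 6144, 4608, 2048, 4608, 6656, 4096⟩ :=
  boxOK_split (v := 5) p2_67 s2_556 (by decide +kernel)

theorem s2_558 : BoxOK ⟨5120, 83968, 60928, 67584, 56320, 45568, 65536, 1024, 6144, 4608, 2048, 9216, 6656, 4096⟩ :=
  boxOK_split (v := 4) s2_530 s2_557 (by decide +kernel)

theorem s2_559 : BoxOK ⟨5120, 83968, 56320, 67584, 56320, 45568, 65536, 1024, 6144, 9216, 2048, 9216, 6656, 4096⟩ :=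
  boxOK_split (v := 2) p2_33 s2_558 (by decide +kernel)

theorem s2_560 : BoxOK ⟨5120, 77824, 56320, 67584, 56320, 45568, 65536, 1024, 12288, 9216, 2048, 9216, 6656, 4096⟩ :=
  boxOK_split (v := 1) p2_32 s2_559 (by decide +kernel)

theorem s2_561 : BoxOK ⟨5120, 77824, 56320, 67584, 56320, 52224, 65536, 1024, 12288, 9216, 2048, 9216, 13312, 4096⟩ :=
  boxOK_split (v := 5) s2_560 p2_95 (by decide +kernel)

theorem s2_562 : BoxOK ⟨5120, 77824, 56320, 67584, 47104, 52224, 65536, 1024, 12288, 9216, 2048, 18432, 13312, 4096⟩ :=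
  boxOK_split (v := 4) p2_31 s2_561 (by decide +kernel)

theorem s2_563 : BoxOK ⟨5120, 77824, 74752, 67584, 56320, 52224, 65536, 1024, 12288, 9216, 2048, 9216, 13312, 4096⟩ :=
  boxOK_split (v := 5) p2_97 p2_98 (by decide +kernel)

theorem s2_564 : BoxOK ⟨5120, 77824, 74752, 67584, 47104, 52224, 65536, 1024, 12288, 9216, 2048, 18432, 13312, 4096⟩ :=
  boxOK_split (v := 4) p2_96 s2_563 (by decide +kernel)

theorem s2_565 : BoxOK ⟨5120, 77824, 65536, 67584, 47104, 52224, 65536, 1024, 12288, 18432, 2048, 18432, 13312, 4096⟩ :=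
  boxOK_split (v := 2) s2_562 s2_564 (by decide +kernel)

theorem s2_566 : BoxOK ⟨5120, 65536, 65536, 67584, 47104, 52224, 65536, 1024, 24576, 18432, 2048, 18432, 13312, 4096⟩ :=
  boxOK_split (v := 1) s2_498 s2_565 (by decide +kernel)

theorem s2_567 : BoxOK ⟨5120, 53248, 56320, 67584, 37888, 72192, 65536, 1024, 12288, 9216, 2048, 9216, 6656, 4096⟩ :=
  boxOK_split (v := 1) p2_99 p2_100 (by decide +kernel)

theorem s2_568 : BoxOK ⟨5120, 53248, 56320, 67584, 37888, 78848, 65536, 1024, 12288, 9216, 2048, 9216, 13312, 4096⟩ :=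
  boxOK_split (v := 5) s2_567 p2_101 (by decide +kernel)

theorem s2_569 : BoxOK ⟨5120, 49408, 60928, 68608, 49408, 75520, 63488, 1024, 768, 4608, 1024, 2304, 3328, 2048⟩ :=
  boxOK_split (v := 2) p2_107 p2_108 (by decide +kernel)

theorem s2_570 : BoxOK ⟨5120, 49408, 60928, 68608, 51712, 75520, 63488, 1024, 768, 4608, 1024, 4608, 3328, 2048⟩ :=
  boxOK_split (v := 4) s2_569 p2_109 (by decide +kernel)

theorem s2_571 : BoxOK ⟨5120, 49408, 60928, 68608, 51712, 75520, 65536, 1024, 768, 4608, 1024, 4608, 3328, 4096⟩ :=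
  boxOK_split (v := 6) s2_570 p2_110 (by decide +kernel)

theorem s2_572 : BoxOK ⟨5120, 48640, 60928, 68608, 51712, 75520, 65536, 1024, 1536, 4608, 1024, 4608, 3328, 4096⟩ :=
  boxOK_split (v := 1) p2_106 s2_571 (by decide +kernel)

theorem s2_573 : BoxOK ⟨5120, 48640, 60928, 68608, 51712, 72192, 65536, 1024, 1536, 4608, 1024, 4608, 6656, 4096⟩ :=
  boxOK_split (v := 5) p2_105 s2_572 (by decide +kernel)

theorem s2_574 : BoxOK ⟨5120, 48640, 60928, 67584, 51712, 72192, 65536, 1024, 1536, 4608, 2048, 4608, 6656, 4096⟩ :=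
  boxOK_split (v := 3) p2_104 s2_573 (by decide +kernel)

theorem s2_575 : BoxOK ⟨5120, 50176, 60928, 67584, 51712, 72192, 65536, 1024, 3072, 4608, 2048, 4608, 6656, 4096⟩ :=
  boxOK_split (v := 1) s2_574 p2_111 (by decide +kernel)

theorem s2_576 : BoxOK ⟨5120, 47104, 60928, 67584, 51712, 72192, 65536, 1024, 6144, 4608, 2048, 4608, 6656, 4096⟩ :=
  boxOK_split (v := 1) p2_103 s2_575 (by decide +kernel)

theorem s2_577 : BoxOK ⟨5120, 47104, 60928, 67584, 56320, 72192, 65536, 1024, 6144, 4608, 2048, 9216, 6656, 4096⟩ :=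
  boxOK_split (v := 4) s2_576 p2_112 (by decide +kernel)

theorem s2_578 : BoxOK ⟨5120, 47104, 56320, 67584, 56320, 72192, 65536, 1024, 6144, 9216, 2048, 9216, 6656, 4096⟩ :=
  boxOK_split (v := 2) p2_102 s2_577 (by decide +kernel)

theorem s2_579 : BoxOK ⟨5120, 53248, 56320, 67584, 56320, 72192, 65536, 1024, 12288, 9216, 2048, 9216, 6656, 4096⟩ :=
  boxOK_split (v := 1) s2_578 p2_113 (by decide +kernel)

theorem s2_580 : BoxOK ⟨5120, 53248, 56320, 67584, 56320, 78848, 65536, 1024, 12288, 9216, 2048, 9216, 13312, 4096⟩ :=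
  boxOK_split (v := 5) s2_579 p2_114 (by decide +kernel)

theorem s2_581 : BoxOK ⟨5120, 53248, 56320, 67584, 47104, 78848, 65536, 1024, 12288, 9216, 2048, 18432, 13312, 4096⟩ :=
  boxOK_split (v := 4) s2_568 s2_580 (by decide +kernel)

theorem s2_582 : BoxOK ⟨5120, 53248, 74752, 67584, 56320, 78848, 65536, 1024, 12288, 9216, 2048, 9216, 13312, 4096⟩ :=
  boxOK_split (v := 5) p2_116 p2_117 (by decide +kernel)

theorem s2_583 : BoxOK ⟨5120, 53248, 74752, 67584, 47104, 78848, 65536, 1024, 12288, 9216, 2048, 18432, 13312, 4096⟩ :=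
  boxOK_split (v := 4) p2_115 s2_582 (by decide +kernel)

theorem s2_584 : BoxOK ⟨5120, 53248, 65536, 67584, 47104, 78848, 65536, 1024, 12288, 18432, 2048, 18432, 13312, 4096⟩ :=
  boxOK_split (v := 2) s2_581 s2_583 (by decide +kernel)

theorem s2_585 : BoxOK ⟨5120, 71680, 79360, 67584, 37888, 72192, 65536, 1024, 6144, 4608, 2048, 9216, 6656, 4096⟩ :=
  boxOK_split (v := 1) p2_120 p2_121 (by decide +kernel)

theorem s2_586 : BoxOK ⟨5120, 71680, 74752, 67584, 37888, 72192, 65536, 1024, 6144, 9216, 2048, 9216, 6656, 4096⟩ :=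
  boxOK_split (v := 2) p2_119 s2_585 (by decide +kernel)

theorem s2_587 : BoxOK ⟨5120, 77824, 74752, 67584, 37888, 72192, 65536, 1024, 12288, 9216, 2048, 9216, 6656, 4096⟩ :=
  boxOK_split (v := 1) s2_586 p2_122 (by decide +kernel)

theorem s2_588 : BoxOK ⟨5120, 77824, 74752, 67584, 37888, 78848, 65536, 1024, 12288, 9216, 2048, 9216, 13312, 4096⟩ :=
  boxOK_split (v := 5) s2_587 p2_123 (by decide +kernel)

theorem s2_589 : BoxOK ⟨5120, 73216, 81088, 69120, 48256, 73024, 62464, 1024, 1536, 576, 512, 1152, 832, 1024⟩ :=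
  boxOK_split (v := 3) p2_131 p2_132 (by decide +kernel)

theorem s2_590 : BoxOK ⟨5120, 73216, 81088, 69120, 48256, 73024, 63488, 1024, 1536, 576, 512, 1152, 832, 2048⟩ :=
  boxOK_split (v := 6) s2_589 p2_133 (by decide +kernel)

theorem s2_591 : BoxOK ⟨5120, 74752, 81088, 69120, 48256, 73024, 63488, 1024, 3072, 576, 512, 1152, 832, 2048⟩ :=
  boxOK_split (v := 1) s2_590 p2_134 (by decide +kernel)

theorem s2_592 : BoxOK ⟨5120, 74752, 81088, 69120, 49408, 73024, 63488, 1024, 3072, 576, 512, 2304, 832, 2048⟩ :=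
  boxOK_split (v := 4) s2_591 p2_135 (by decide +kernel)

theorem s2_593 : BoxOK ⟨5120, 74752, 81088, 69120, 49408, 73856, 63488, 1024, 3072, 576, 512, 2304, 1664, 2048⟩ :=
  boxOK_split (v := 5) s2_592 p2_136 (by decide +kernel)

theorem s2_594 : BoxOK ⟨5120, 74752, 81088, 69120, 49408, 75520, 63488, 1024, 3072, 576, 512, 2304, 3328, 2048⟩ :=
  boxOK_split (v := 5) s2_593 p2_137 (by decide +kernel)

theorem s2_595 : BoxOK ⟨5120, 74752, 81088, 68608, 49408, 75520, 63488, 1024, 3072, 576, 1024, 2304, 3328, 2048⟩ :=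
  boxOK_split (v := 3) p2_130 s2_594 (by decide +kernel)

theorem s2_596 : BoxOK ⟨5120, 74752, 81088, 68608, 51712, 75520, 63488, 1024, 3072, 576, 1024, 4608, 3328, 2048⟩ :=
  boxOK_split (v := 4) s2_595 p2_138 (by decide +kernel)

theorem s2_597 : BoxOK ⟨5120, 74752, 80512, 68608, 51712, 75520, 63488, 1024, 3072, 1152, 1024, 4608, 3328, 2048⟩ :=
  boxOK_split (v := 2) p2_129 s2_596 (by decide +kernel)

theorem s2_598 : BoxOK ⟨5120, 74752, 80512, 68608, 51712, 75520, 65536, 1024, 3072, 1152, 1024, 4608, 3328, 4096⟩ :=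
  boxOK_split (v := 6) s2_597 p2_139 (by decide +kernel)

theorem s2_599 : BoxOK ⟨5120, 71680, 80512, 68608, 51712, 75520, 65536, 1024, 6144, 1152, 1024, 4608, 3328, 4096⟩ :=
  boxOK_split (v := 1) p2_128 s2_598 (by decide +kernel)

theorem s2_600 : BoxOK ⟨5120, 71680, 80512, 68608, 51712, 72192, 65536, 1024, 6144, 1152, 1024, 4608, 6656, 4096⟩ :=
  boxOK_split (v := 5) p2_127 s2_599 (by decide +kernel)

theorem s2_601 : BoxOK ⟨5120, 71680, 80512, 68608, 56320, 72192, 65536, 1024, 6144, 1152, 1024, 9216, 6656, 4096⟩ :=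
  boxOK_split (v := 4) s2_600 p2_140 (by decide +kernel)

theorem s2_602 : BoxOK ⟨5120, 71680, 82816, 68608, 51712, 72192, 65536, 1024, 6144, 1152, 1024, 4608, 6656, 4096⟩ :=
  boxOK_split (v := 5) p2_141 p2_142 (by decide +kernel)

theorem s2_603 : BoxOK ⟨5120, 71680, 82816, 68608, 56320, 72192, 65536, 1024, 6144, 1152, 1024, 9216, 6656, 4096⟩ :=
  boxOK_split (v := 4) s2_602 p2_143 (by decide +kernel)

theorem s2_604 : BoxOK ⟨5120, 71680, 81664, 68608, 56320, 72192, 65536, 1024, 6144, 2304, 1024, 9216, 6656, 4096⟩ :=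
  boxOK_split (v := 2) s2_601 s2_603 (by decide +kernel)

theorem s2_605 : BoxOK ⟨5120, 71680, 79360, 68608, 56320, 72192, 65536, 1024, 6144, 4608, 1024, 9216, 6656, 4096⟩ :=
  boxOK_split (v := 2) p2_126 s2_604 (by decide +kernel)

theorem s2_606 : BoxOK ⟨5120, 71680, 79360, 67584, 56320, 72192, 65536, 1024, 6144, 4608, 2048, 9216, 6656, 4096⟩ :=
  boxOK_split (v := 3) p2_125 s2_605 (by decide +kernel)

theorem s2_607 : BoxOK ⟨5120, 71680, 74752, 67584, 56320, 72192, 65536, 1024, 6144, 9216, 2048, 9216, 6656, 4096⟩ :=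
  boxOK_split (v := 2) p2_124 s2_606 (by decide +kernel)

theorem s2_608 : BoxOK ⟨5120, 83968, 74752, 67584, 56320, 72192, 65536, 1024, 6144, 9216, 2048, 9216, 6656, 4096⟩ :=
  boxOK_split (v := 2) p2_144 p2_145 (by decide +kernel)

theorem s2_609 : BoxOK ⟨5120, 77824, 74752, 67584, 56320, 72192, 65536, 1024, 12288, 9216, 2048, 9216, 6656, 4096⟩ :=
  boxOK_split (v := 1) s2_607 s2_608 (by decide +kernel)

theorem s2_610 : BoxOK ⟨5120, 87040, 70144, 67584, 60928, 82176, 65536, 1024, 3072, 4608, 2048, 4608, 3328, 4096⟩ :=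
  boxOK_split (v := 5) p2_149 p2_150 (by decide +kernel)

theorem s2_611 : BoxOK ⟨5120, 87040, 70144, 67584, 56320, 82176, 65536, 1024, 3072, 4608, 2048, 9216, 3328, 4096⟩ :=
  boxOK_split (v := 4) p2_148 s2_610 (by decide +kernel)

theorem s2_612 : BoxOK ⟨5120, 87040, 70144, 67584, 56320, 85504, 65536, 1024, 3072, 4608, 2048, 9216, 6656, 4096⟩ :=
  boxOK_split (v := 5) s2_611 p2_151 (by decide +kernel)

theorem s2_613 : BoxOK ⟨5120, 83968, 70144, 67584, 56320, 85504, 65536, 1024, 6144, 4608, 2048, 9216, 6656, 4096⟩ :=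
  boxOK_split (v := 1) p2_147 s2_612 (by decide +kernel)

theorem s2_614 : BoxOK ⟨5120, 83968, 74752, 67584, 56320, 85504, 65536, 1024, 6144, 9216, 2048, 9216, 6656, 4096⟩ :=
  boxOK_split (v := 2) s2_613 p2_152 (by decide +kernel)

theorem s2_615 : BoxOK ⟨5120, 77824, 74752, 67584, 56320, 85504, 65536, 1024, 12288, 9216, 2048, 9216, 6656, 4096⟩ :=
  boxOK_split (v := 1) p2_146 s2_614 (by decide +kernel)

theorem s2_616 : BoxOK ⟨5120, 77824, 74752, 67584, 56320, 78848, 65536, 1024, 12288, 9216, 2048, 9216, 13312, 4096⟩ :=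
  boxOK_split (v := 5) s2_609 s2_615 (by decide +kernel)

theorem s2_617 : BoxOK ⟨5120, 77824, 74752, 67584, 47104, 78848, 65536, 1024, 12288, 9216, 2048, 18432, 13312, 4096⟩ :=
  boxOK_split (v := 4) s2_588 s2_616 (by decide +kernel)

theorem s2_618 : BoxOK ⟨5120, 77824, 65536, 67584, 47104, 78848, 65536, 1024, 12288, 18432, 2048, 18432, 13312, 4096⟩ :=
  boxOK_split (v := 2) p2_118 s2_617 (by decide +kernel)

theorem s2_619 : BoxOK ⟨5120, 65536, 65536, 67584, 47104, 78848, 65536, 1024, 24576, 18432, 2048, 18432, 13312, 4096⟩ :=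
  boxOK_split (v := 1) s2_584 s2_618 (by decide +kernel)

theorem s2_620 : BoxOK ⟨5120, 65536, 65536, 67584, 47104, 65536, 65536, 1024, 24576, 18432, 2048, 18432, 26624, 4096⟩ :=
  boxOK_split (v := 5) s2_566 s2_619 (by decide +kernel)

theorem s2_621 : BoxOK ⟨5120, 53248, 56320, 67584, 74752, 52224, 65536, 1024, 12288, 9216, 2048, 9216, 13312, 4096⟩ :=
  boxOK_split (v := 5) p2_153 p2_154 (by decide +kernel)

theorem s2_622 : BoxOK ⟨5120, 53248, 56320, 67584, 83968, 52224, 65536, 1024, 12288, 9216, 2048, 18432, 13312, 4096⟩ :=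
  boxOK_split (v := 4) s2_621 p2_155 (by decide +kernel)

theorem s2_623 : BoxOK ⟨5120, 53248, 65536, 67584, 83968, 52224, 65536, 1024, 12288, 18432, 2048, 18432, 13312, 4096⟩ :=
  boxOK_split (v := 2) s2_622 p2_156 (by decide +kernel)

theorem s2_624 : BoxOK ⟨5120, 77824, 56320, 67584, 74752, 52224, 65536, 1024, 12288, 9216, 2048, 9216, 13312, 4096⟩ :=
  boxOK_split (v := 5) p2_157 p2_158 (by decide +kernel)

theorem s2_625 : BoxOK ⟨5120, 77824, 56320, 67584, 83968, 52224, 65536, 1024, 12288, 9216, 2048, 18432, 13312, 4096⟩ :=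
  boxOK_split (v := 4) s2_624 p2_159 (by decide +kernel)

theorem s2_626 : BoxOK ⟨5120, 82816, 67840, 67328, 72448, 50560, 62464, 1024, 384, 2304, 256, 2304, 1664, 1024⟩ :=
  boxOK_split (v := 4) p2_168 p2_169 (by decide +kernel)

theorem s2_627 : BoxOK ⟨5120, 82816, 67840, 67328, 72448, 50560, 63488, 1024, 384, 2304, 256, 2304, 1664, 2048⟩ :=
  boxOK_split (v := 6) s2_626 p2_170 (by decide +kernel)

theorem s2_628 : BoxOK ⟨5120, 83584, 68992, 67328, 73600, 51392, 62976, 1024, 384, 1152, 256, 1152, 832, 512⟩ :=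
  boxOK_split (v := 6) p2_175 p2_176 (by decide +kernel)

theorem s2_629 : BoxOK ⟨5120, 83584, 68992, 67328, 73600, 50560, 62976, 1024, 384, 1152, 256, 1152, 1664, 512⟩ :=
  boxOK_split (v := 5) p2_174 s2_628 (by decide +kernel)

theorem s2_630 : BoxOK ⟨5120, 83584, 68992, 67328, 72448, 50560, 62976, 1024, 384, 1152, 256, 2304, 1664, 512⟩ :=
  boxOK_split (v := 4) p2_173 s2_629 (by decide +kernel)

theorem s2_631 : BoxOK ⟨5120, 83584, 67840, 67328, 72448, 50560, 62976, 1024, 384, 2304, 256, 2304, 1664, 512⟩ :=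
  boxOK_split (v := 2) p2_172 s2_630 (by decide +kernel)

theorem s2_632 : BoxOK ⟨5120, 83584, 67840, 67328, 72448, 50560, 62464, 1024, 384, 2304, 256, 2304, 1664, 1024⟩ :=
  boxOK_split (v := 6) p2_171 s2_631 (by decide +kernel)

theorem s2_633 : BoxOK ⟨5120, 83584, 67840, 67328, 72448, 50560, 63488, 1024, 384, 2304, 256, 2304, 1664, 2048⟩ :=
  boxOK_split (v := 6) s2_632 p2_177 (by decide +kernel)

theorem s2_634 : BoxOK ⟨5120, 83200, 67840, 67328, 72448, 50560, 63488, 1024, 768, 2304, 256, 2304, 1664, 2048⟩ :=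
  boxOK_split (v := 1) s2_627 s2_633 (by decide +kernel)

theorem s2_635 : BoxOK ⟨5120, 83200, 67840, 67072, 72448, 50560, 63488, 1024, 768, 2304, 512, 2304, 1664, 2048⟩ :=
  boxOK_split (v := 3) p2_167 s2_634 (by decide +kernel)

theorem s2_636 : BoxOK ⟨5120, 83200, 67840, 67072, 72448, 48896, 63488, 1024, 768, 2304, 512, 2304, 3328, 2048⟩ :=
  boxOK_split (v := 5) p2_166 s2_635 (by decide +kernel)

theorem s2_637 : BoxOK ⟨5120, 83200, 67840, 67072, 70144, 48896, 63488, 1024, 768, 2304, 512, 4608, 3328, 2048⟩ :=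
  boxOK_split (v := 4) p2_165 s2_636 (by decide +kernel)

theorem s2_638 : BoxOK ⟨5120, 83200, 70144, 67072, 70144, 48896, 63488, 1024, 768, 4608, 512, 4608, 3328, 2048⟩ :=
  boxOK_split (v := 2) s2_637 p2_178 (by decide +kernel)

theorem s2_639 : BoxOK ⟨5120, 83200, 70144, 67072, 70144, 48896, 65536, 1024, 768, 4608, 512, 4608, 3328, 4096⟩ :=
  boxOK_split (v := 6) s2_638 p2_179 (by decide +kernel)

theorem s2_640 : BoxOK ⟨5120, 82432, 70144, 67072, 70144, 48896, 65536, 1024, 1536, 4608, 512, 4608, 3328, 4096⟩ :=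
  boxOK_split (v := 1) p2_164 s2_639 (by decide +kernel)

theorem s2_641 : BoxOK ⟨5120, 82432, 70144, 66560, 70144, 48896, 65536, 1024, 1536, 4608, 1024, 4608, 3328, 4096⟩ :=
  boxOK_split (v := 3) p2_163 s2_640 (by decide +kernel)

theorem s2_642 : BoxOK ⟨5120, 82432, 70144, 66560, 74752, 48896, 65536, 1024, 1536, 4608, 1024, 9216, 3328, 4096⟩ :=
  boxOK_split (v := 4) s2_641 p2_180 (by decide +kernel)

theorem s2_643 : BoxOK ⟨5120, 82432, 70144, 66560, 74752, 45568, 65536, 1024, 1536, 4608, 1024, 9216, 6656, 4096⟩ :=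
  boxOK_split (v := 5) p2_162 s2_642 (by decide +kernel)

theorem s2_644 : BoxOK ⟨5120, 82432, 70144, 67584, 74752, 45568, 65536, 1024, 1536, 4608, 2048, 9216, 6656, 4096⟩ :=
  boxOK_split (v := 3) s2_643 p2_181 (by decide +kernel)

theorem s2_645 : BoxOK ⟨5120, 80896, 70144, 67584, 74752, 45568, 65536, 1024, 3072, 4608, 2048, 9216, 6656, 4096⟩ :=
  boxOK_split (v := 1) p2_161 s2_644 (by decide +kernel)

theorem s2_646 : BoxOK ⟨5120, 87040, 67840, 67584, 70144, 51392, 62976, 1024, 3072, 2304, 2048, 4608, 832, 512⟩ :=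
  boxOK_split (v := 4) p2_186 p2_187 (by decide +kernel)

theorem s2_647 : BoxOK ⟨5120, 87040, 70144, 67584, 70144, 51392, 62976, 1024, 3072, 4608, 2048, 4608, 832, 512⟩ :=
  boxOK_split (v := 2) s2_646 p2_188 (by decide +kernel)

theorem s2_648 : BoxOK ⟨5120, 87040, 70144, 67584, 70144, 50560, 62976, 1024, 3072, 4608, 2048, 4608, 1664, 512⟩ :=
  boxOK_split (v := 5) p2_185 s2_647 (by decide +kernel)

theorem s2_649 : BoxOK ⟨5120, 87040, 70144, 67584, 70144, 50560, 62464, 1024, 3072, 4608, 2048, 4608, 1664, 1024⟩ :=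
  boxOK_split (v := 6) p2_184 s2_648 (by decide +kernel)

theorem s2_650 : BoxOK ⟨5120, 87040, 70144, 67584, 70144, 50560, 63488, 1024, 3072, 4608, 2048, 4608, 1664, 2048⟩ :=
  boxOK_split (v := 6) s2_649 p2_189 (by decide +kernel)

theorem s2_651 : BoxOK ⟨5120, 87040, 70144, 67584, 70144, 50560, 65536, 1024, 3072, 4608, 2048, 4608, 1664, 4096⟩ :=
  boxOK_split (v := 6) s2_650 p2_190 (by decide +kernel)

theorem s2_652 : BoxOK ⟨5120, 87040, 70144, 67584, 70144, 48896, 65536, 1024, 3072, 4608, 2048, 4608, 3328, 4096⟩ :=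
  boxOK_split (v := 5) p2_183 s2_651 (by decide +kernel)

theorem s2_653 : BoxOK ⟨5120, 87040, 70144, 67584, 74752, 48896, 65536, 1024, 3072, 4608, 2048, 9216, 3328, 4096⟩ :=
  boxOK_split (v := 4) s2_652 p2_191 (by decide +kernel)

theorem s2_654 : BoxOK ⟨5120, 87040, 70144, 67584, 74752, 45568, 65536, 1024, 3072, 4608, 2048, 9216, 6656, 4096⟩ :=
  boxOK_split (v := 5) p2_182 s2_653 (by decide +kernel)

theorem s2_655 : BoxOK ⟨5120, 83968, 70144, 67584, 74752, 45568, 65536, 1024, 6144, 4608, 2048, 9216, 6656, 4096⟩ :=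
  boxOK_split (v := 1) s2_645 s2_654 (by decide +kernel)

theorem s2_656 : BoxOK ⟨5120, 83968, 74752, 67584, 74752, 45568, 65536, 1024, 6144, 9216, 2048, 9216, 6656, 4096⟩ :=
  boxOK_split (v := 2) s2_655 p2_192 (by decide +kernel)

theorem s2_657 : BoxOK ⟨5120, 77824, 74752, 67584, 74752, 45568, 65536, 1024, 12288, 9216, 2048, 9216, 6656, 4096⟩ :=
  boxOK_split (v := 1) p2_160 s2_656 (by decide +kernel)

theorem s2_658 : BoxOK ⟨5120, 83968, 74752, 67584, 74752, 58880, 65536, 1024, 6144, 9216, 2048, 9216, 6656, 4096⟩ :=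
  boxOK_split (v := 2) p2_194 p2_195 (by decide +kernel)

theorem s2_659 : BoxOK ⟨5120, 77824, 74752, 67584, 74752, 58880, 65536, 1024, 12288, 9216, 2048, 9216, 6656, 4096⟩ :=
  boxOK_split (v := 1) p2_193 s2_658 (by decide +kernel)

theorem s2_660 : BoxOK ⟨5120, 77824, 74752, 67584, 74752, 52224, 65536, 1024, 12288, 9216, 2048, 9216, 13312, 4096⟩ :=
  boxOK_split (v := 5) s2_657 s2_659 (by decide +kernel)

theorem s2_661 : BoxOK ⟨5120, 77824, 74752, 67584, 83968, 52224, 65536, 1024, 12288, 9216, 2048, 18432, 13312, 4096⟩ :=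
  boxOK_split (v := 4) s2_660 p2_196 (by decide +kernel)

theorem s2_662 : BoxOK ⟨5120, 77824, 65536, 67584, 83968, 52224, 65536, 1024, 12288, 18432, 2048, 18432, 13312, 4096⟩ :=
  boxOK_split (v := 2) s2_625 s2_661 (by decide +kernel)

theorem s2_663 : BoxOK ⟨5120, 65536, 65536, 67584, 83968, 52224, 65536, 1024, 24576, 18432, 2048, 18432, 13312, 4096⟩ :=
  boxOK_split (v := 1) s2_623 s2_662 (by decide +kernel)

theorem s2_664 : BoxOK ⟨5120, 53248, 74752, 67584, 74752, 85504, 65536, 1024, 12288, 9216, 2048, 9216, 6656, 4096⟩ :=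
  boxOK_split (v := 1) p2_199 p2_200 (by decide +kernel)

theorem s2_665 : BoxOK ⟨5120, 53248, 74752, 67584, 74752, 78848, 65536, 1024, 12288, 9216, 2048, 9216, 13312, 4096⟩ :=
  boxOK_split (v := 5) p2_198 s2_664 (by decide +kernel)

theorem s2_666 : BoxOK ⟨5120, 62464, 79360, 68608, 88576, 68864, 65536, 1024, 3072, 4608, 1024, 4608, 3328, 4096⟩ :=
  boxOK_split (v := 2) p2_205 p2_206 (by decide +kernel)

theorem s2_667 : BoxOK ⟨5120, 62464, 79360, 67584, 88576, 68864, 65536, 1024, 3072, 4608, 2048, 4608, 3328, 4096⟩ :=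
  boxOK_split (v := 3) p2_204 s2_666 (by decide +kernel)

theorem s2_668 : BoxOK ⟨5120, 59392, 79360, 67584, 88576, 68864, 65536, 1024, 6144, 4608, 2048, 4608, 3328, 4096⟩ :=
  boxOK_split (v := 1) p2_203 s2_667 (by decide +kernel)

theorem s2_669 : BoxOK ⟨5120, 59392, 79360, 67584, 88576, 72192, 65536, 1024, 6144, 4608, 2048, 4608, 6656, 4096⟩ :=
  boxOK_split (v := 5) s2_668 p2_207 (by decide +kernel)

theorem s2_670 : BoxOK ⟨5120, 59392, 74752, 67584, 88576, 72192, 65536, 1024, 6144, 9216, 2048, 4608, 6656, 4096⟩ :=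
  boxOK_split (v := 2) p2_202 s2_669 (by decide +kernel)

theorem s2_671 : BoxOK ⟨5120, 59392, 74752, 67584, 93184, 72192, 65536, 1024, 6144, 9216, 2048, 9216, 6656, 4096⟩ :=
  boxOK_split (v := 4) s2_670 p2_208 (by decide +kernel)

theorem s2_672 : BoxOK ⟨5120, 53248, 74752, 67584, 93184, 72192, 65536, 1024, 12288, 9216, 2048, 9216, 6656, 4096⟩ :=
  boxOK_split (v := 1) p2_201 s2_671 (by decide +kernel)

theorem s2_673 : BoxOK ⟨5120, 53248, 74752, 67584, 93184, 78848, 65536, 1024, 12288, 9216, 2048, 9216, 13312, 4096⟩ :=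
  boxOK_split (v := 5) s2_672 p2_209 (by decide +kernel)

theorem s2_674 : BoxOK ⟨5120, 53248, 74752, 67584, 83968, 78848, 65536, 1024, 12288, 9216, 2048, 18432, 13312, 4096⟩ :=
  boxOK_split (v := 4) s2_665 s2_673 (by decide +kernel)

theorem s2_675 : BoxOK ⟨5120, 53248, 65536, 67584, 83968, 78848, 65536, 1024, 12288, 18432, 2048, 18432, 13312, 4096⟩ :=
  boxOK_split (v := 2) p2_197 s2_674 (by decide +kernel)

theorem s2_676 : BoxOK ⟨5120, 82432, 58624, 67584, 81088, 68864, 62976, 1024, 1536, 2304, 2048, 576, 3328, 512⟩ :=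
  boxOK_split (v := 3) p2_217 p2_218 (by decide +kernel)

theorem s2_677 : BoxOK ⟨5120, 80896, 58624, 67584, 81088, 68864, 62976, 1024, 3072, 2304, 2048, 576, 3328, 512⟩ :=
  boxOK_split (v := 1) p2_216 s2_676 (by decide +kernel)

theorem s2_678 : BoxOK ⟨5120, 80896, 60928, 67584, 81088, 68864, 62976, 1024, 3072, 4608, 2048, 576, 3328, 512⟩ :=
  boxOK_split (v := 2) s2_677 p2_219 (by decide +kernel)

theorem s2_679 : BoxOK ⟨5120, 80896, 60928, 67584, 81088, 68864, 62464, 1024, 3072, 4608, 2048, 576, 3328, 1024⟩ :=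
  boxOK_split (v := 6) p2_215 s2_678 (by decide +kernel)

theorem s2_680 : BoxOK ⟨5120, 80896, 60928, 67584, 80512, 68864, 62464, 1024, 3072, 4608, 2048, 1152, 3328, 1024⟩ :=
  boxOK_split (v := 4) p2_214 s2_679 (by decide +kernel)

theorem s2_681 : BoxOK ⟨5120, 83968, 60928, 67584, 80512, 68864, 62464, 1024, 6144, 4608, 2048, 1152, 3328, 1024⟩ :=
  boxOK_split (v := 1) s2_680 p2_220 (by decide +kernel)

theorem s2_682 : BoxOK ⟨5120, 83968, 60928, 67584, 80512, 68864, 63488, 1024, 6144, 4608, 2048, 1152, 3328, 2048⟩ :=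
  boxOK_split (v := 6) s2_681 p2_221 (by decide +kernel)

theorem s2_683 : BoxOK ⟨5120, 83968, 60928, 67584, 80512, 68864, 65536, 1024, 6144, 4608, 2048, 1152, 3328, 4096⟩ :=
  boxOK_split (v := 6) s2_682 p2_222 (by decide +kernel)

theorem s2_684 : BoxOK ⟨5120, 79360, 58624, 68608, 82816, 68864, 62464, 1024, 1536, 2304, 1024, 1152, 3328, 1024⟩ :=
  boxOK_split (v := 5) p2_224 p2_225 (by decide +kernel)

theorem s2_685 : BoxOK ⟨5120, 79360, 60928, 68608, 82816, 68864, 62464, 1024, 1536, 4608, 1024, 1152, 3328, 1024⟩ :=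
  boxOK_split (v := 2) s2_684 p2_226 (by decide +kernel)

theorem s2_686 : BoxOK ⟨5120, 81664, 58624, 68608, 82816, 68864, 62464, 1024, 768, 2304, 1024, 1152, 3328, 1024⟩ :=
  boxOK_split (v := 5) p2_227 p2_228 (by decide +kernel)

theorem s2_687 : BoxOK ⟨5120, 81664, 60928, 68608, 82816, 68864, 62464, 1024, 768, 4608, 1024, 1152, 3328, 1024⟩ :=
  boxOK_split (v := 2) s2_686 p2_229 (by decide +kernel)

theorem s2_688 : BoxOK ⟨5120, 82432, 60928, 68608, 82816, 68864, 62464, 1024, 1536, 4608, 1024, 1152, 3328, 1024⟩ :=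
  boxOK_split (v := 1) s2_687 p2_230 (by decide +kernel)

theorem s2_689 : BoxOK ⟨5120, 80896, 60928, 68608, 82816, 68864, 62464, 1024, 3072, 4608, 1024, 1152, 3328, 1024⟩ :=
  boxOK_split (v := 1) s2_685 s2_688 (by decide +kernel)

theorem s2_690 : BoxOK ⟨5120, 83968, 60928, 68608, 82816, 68864, 62464, 1024, 6144, 4608, 1024, 1152, 3328, 1024⟩ :=
  boxOK_split (v := 1) s2_689 p2_231 (by decide +kernel)

theorem s2_691 : BoxOK ⟨5120, 83968, 60928, 67584, 82816, 68864, 62464, 1024, 6144, 4608, 2048, 1152, 3328, 1024⟩ :=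
  boxOK_split (v := 3) p2_223 s2_690 (by decide +kernel)

theorem s2_692 : BoxOK ⟨5120, 80896, 58624, 68608, 82240, 68864, 64000, 1024, 3072, 2304, 1024, 576, 3328, 512⟩ :=
  boxOK_split (v := 5) p2_233 p2_234 (by decide +kernel)

theorem s2_693 : BoxOK ⟨5120, 80896, 60928, 68608, 82240, 68864, 64000, 1024, 3072, 4608, 1024, 576, 3328, 512⟩ :=
  boxOK_split (v := 2) s2_692 p2_235 (by decide +kernel)

theorem s2_694 : BoxOK ⟨5120, 80896, 60928, 68608, 83392, 68864, 64000, 1024, 3072, 4608, 1024, 576, 3328, 512⟩ :=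
  boxOK_split (v := 1) p2_236 p2_237 (by decide +kernel)

theorem s2_695 : BoxOK ⟨5120, 80896, 60928, 68608, 82816, 68864, 64000, 1024, 3072, 4608, 1024, 1152, 3328, 512⟩ :=
  boxOK_split (v := 4) s2_693 s2_694 (by decide +kernel)

theorem s2_696 : BoxOK ⟨5120, 80896, 60928, 68608, 82816, 68864, 64512, 1024, 3072, 4608, 1024, 1152, 3328, 1024⟩ :=
  boxOK_split (v := 6) s2_695 p2_238 (by decide +kernel)

theorem s2_697 : BoxOK ⟨5120, 83968, 60928, 68608, 82816, 68864, 64512, 1024, 6144, 4608, 1024, 1152, 3328, 1024⟩ :=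
  boxOK_split (v := 1) s2_696 p2_239 (by decide +kernel)

theorem s2_698 : BoxOK ⟨5120, 83968, 60928, 67584, 82816, 68864, 64512, 1024, 6144, 4608, 2048, 1152, 3328, 1024⟩ :=
  boxOK_split (v := 3) p2_232 s2_697 (by decide +kernel)

theorem s2_699 : BoxOK ⟨5120, 83968, 60928, 67584, 82816, 68864, 63488, 1024, 6144, 4608, 2048, 1152, 3328, 2048⟩ :=
  boxOK_split (v := 6) s2_691 s2_698 (by decide +kernel)

theorem s2_700 : BoxOK ⟨5120, 83968, 60928, 67584, 82816, 68864, 65536, 1024, 6144, 4608, 2048, 1152, 3328, 4096⟩ :=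
  boxOK_split (v := 6) s2_699 p2_240 (by decide +kernel)

theorem s2_701 : BoxOK ⟨5120, 83968, 60928, 67584, 81664, 68864, 65536, 1024, 6144, 4608, 2048, 2304, 3328, 4096⟩ :=
  boxOK_split (v := 4) s2_683 s2_700 (by decide +kernel)

theorem s2_702 : BoxOK ⟨5120, 83968, 60928, 67584, 79360, 68864, 65536, 1024, 6144, 4608, 2048, 4608, 3328, 4096⟩ :=
  boxOK_split (v := 4) p2_213 s2_701 (by decide +kernel)

theorem s2_703 : BoxOK ⟨5120, 83968, 60928, 67584, 79360, 72192, 65536, 1024, 6144, 4608, 2048, 4608, 6656, 4096⟩ :=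
  boxOK_split (v := 5) s2_702 p2_241 (by decide +kernel)

theorem s2_704 : BoxOK ⟨5120, 83968, 60928, 67584, 74752, 72192, 65536, 1024, 6144, 4608, 2048, 9216, 6656, 4096⟩ :=
  boxOK_split (v := 4) p2_212 s2_703 (by decide +kernel)

theorem s2_705 : BoxOK ⟨5120, 83968, 56320, 67584, 74752, 72192, 65536, 1024, 6144, 9216, 2048, 9216, 6656, 4096⟩ :=
  boxOK_split (v := 2) p2_211 s2_704 (by decide +kernel)

theorem s2_706 : BoxOK ⟨5120, 77824, 56320, 67584, 74752, 72192, 65536, 1024, 12288, 9216, 2048, 9216, 6656, 4096⟩ :=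
  boxOK_split (v := 1) p2_210 s2_705 (by decide +kernel)

theorem s2_707 : BoxOK ⟨5120, 83968, 60928, 67584, 74752, 85504, 65536, 1024, 6144, 4608, 2048, 9216, 6656, 4096⟩ :=
  boxOK_split (v := 4) p2_244 p2_245 (by decide +kernel)

theorem s2_708 : BoxOK ⟨5120, 83968, 56320, 67584, 74752, 85504, 65536, 1024, 6144, 9216, 2048, 9216, 6656, 4096⟩ :=
  boxOK_split (v := 2) p2_243 s2_707 (by decide +kernel)

theorem s2_709 : BoxOK ⟨5120, 77824, 56320, 67584, 74752, 85504, 65536, 1024, 12288, 9216, 2048, 9216, 6656, 4096⟩ :=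
  boxOK_split (v := 1) p2_242 s2_708 (by decide +kernel)

theorem s2_710 : BoxOK ⟨5120, 77824, 56320, 67584, 74752, 78848, 65536, 1024, 12288, 9216, 2048, 9216, 13312, 4096⟩ :=
  boxOK_split (v := 5) s2_706 s2_709 (by decide +kernel)

theorem s2_711 : BoxOK ⟨5120, 83968, 60928, 67584, 88576, 72192, 65536, 1024, 6144, 4608, 2048, 4608, 6656, 4096⟩ :=
  boxOK_split (v := 5) p2_248 p2_249 (by decide +kernel)

theorem s2_712 : BoxOK ⟨5120, 83968, 60928, 67584, 93184, 72192, 65536, 1024, 6144, 4608, 2048, 9216, 6656, 4096⟩ :=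
  boxOK_split (v := 4) s2_711 p2_250 (by decide +kernel)

theorem s2_713 : BoxOK ⟨5120, 83968, 56320, 67584, 93184, 72192, 65536, 1024, 6144, 9216, 2048, 9216, 6656, 4096⟩ :=
  boxOK_split (v := 2) p2_247 s2_712 (by decide +kernel)

theorem s2_714 : BoxOK ⟨5120, 77824, 56320, 67584, 93184, 72192, 65536, 1024, 12288, 9216, 2048, 9216, 6656, 4096⟩ :=
  boxOK_split (v := 1) p2_246 s2_713 (by decide +kernel)

theorem s2_715 : BoxOK ⟨5120, 77824, 56320, 67584, 93184, 78848, 65536, 1024, 12288, 9216, 2048, 9216, 13312, 4096⟩ :=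
  boxOK_split (v := 5) s2_714 p2_251 (by decide +kernel)

theorem s2_716 : BoxOK ⟨5120, 77824, 56320, 67584, 83968, 78848, 65536, 1024, 12288, 9216, 2048, 18432, 13312, 4096⟩ :=
  boxOK_split (v := 4) s2_710 s2_715 (by decide +kernel)

theorem s2_717 : BoxOK ⟨5120, 71680, 80512, 68608, 81664, 67200, 65536, 1024, 6144, 1152, 1024, 2304, 1664, 4096⟩ :=
  boxOK_split (v := 1) p2_257 p2_258 (by decide +kernel)

theorem s2_718 : BoxOK ⟨5120, 71680, 80512, 68608, 81664, 69696, 63488, 1024, 6144, 1152, 1024, 2304, 832, 2048⟩ :=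
  boxOK_split (v := 1) p2_259 p2_260 (by decide +kernel)

theorem s2_719 : BoxOK ⟨5120, 71680, 80512, 68608, 81664, 69696, 65536, 1024, 6144, 1152, 1024, 2304, 832, 4096⟩ :=
  boxOK_split (v := 6) s2_718 p2_261 (by decide +kernel)

theorem s2_720 : BoxOK ⟨5120, 71680, 80512, 68608, 81664, 70528, 65536, 1024, 6144, 1152, 1024, 2304, 1664, 4096⟩ :=
  boxOK_split (v := 5) s2_719 p2_262 (by decide +kernel)

theorem s2_721 : BoxOK ⟨5120, 71680, 80512, 68608, 81664, 68864, 65536, 1024, 6144, 1152, 1024, 2304, 3328, 4096⟩ :=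
  boxOK_split (v := 5) s2_717 s2_720 (by decide +kernel)

theorem s2_722 : BoxOK ⟨5120, 71680, 80512, 68608, 79360, 68864, 65536, 1024, 6144, 1152, 1024, 4608, 3328, 4096⟩ :=
  boxOK_split (v := 4) p2_256 s2_721 (by decide +kernel)

theorem s2_723 : BoxOK ⟨5120, 71680, 80512, 68608, 79360, 72192, 65536, 1024, 6144, 1152, 1024, 4608, 6656, 4096⟩ :=
  boxOK_split (v := 5) s2_722 p2_263 (by decide +kernel)

theorem s2_724 : BoxOK ⟨5120, 71680, 80512, 68608, 74752, 72192, 65536, 1024, 6144, 1152, 1024, 9216, 6656, 4096⟩ :=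
  boxOK_split (v := 4) p2_255 s2_723 (by decide +kernel)

theorem s2_725 : BoxOK ⟨5120, 71680, 81664, 68608, 74752, 72192, 65536, 1024, 6144, 2304, 1024, 9216, 6656, 4096⟩ :=
  boxOK_split (v := 2) s2_724 p2_264 (by decide +kernel)

theorem s2_726 : BoxOK ⟨5120, 71680, 79360, 68608, 74752, 72192, 65536, 1024, 6144, 4608, 1024, 9216, 6656, 4096⟩ :=
  boxOK_split (v := 2) p2_254 s2_725 (by decide +kernel)

theorem s2_727 : BoxOK ⟨5120, 71680, 79360, 67584, 74752, 72192, 65536, 1024, 6144, 4608, 2048, 9216, 6656, 4096⟩ :=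
  boxOK_split (v := 3) p2_253 s2_726 (by decide +kernel)

theorem s2_728 : BoxOK ⟨5120, 71680, 74752, 67584, 74752, 72192, 65536, 1024, 6144, 9216, 2048, 9216, 6656, 4096⟩ :=
  boxOK_split (v := 2) p2_252 s2_727 (by decide +kernel)

theorem s2_729 : BoxOK ⟨5120, 83584, 67840, 67328, 67840, 78016, 61952, 1024, 384, 2304, 256, 2304, 832, 512⟩ :=
  boxOK_split (v := 2) p2_273 p2_274 (by decide +kernel)

theorem s2_730 : BoxOK ⟨5120, 83200, 67840, 67328, 67840, 78016, 61952, 1024, 768, 2304, 256, 2304, 832, 512⟩ :=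
  boxOK_split (v := 1) p2_272 s2_729 (by decide +kernel)

theorem s2_731 : BoxOK ⟨5120, 83200, 67840, 67072, 67840, 78016, 61952, 1024, 768, 2304, 512, 2304, 832, 512⟩ :=
  boxOK_split (v := 3) p2_271 s2_730 (by decide +kernel)

theorem s2_732 : BoxOK ⟨5120, 83200, 67840, 67072, 70144, 78016, 61952, 1024, 768, 2304, 512, 4608, 832, 512⟩ :=
  boxOK_split (v := 4) s2_731 p2_275 (by decide +kernel)

theorem s2_733 : BoxOK ⟨5120, 83200, 70144, 67072, 70144, 78016, 61952, 1024, 768, 4608, 512, 4608, 832, 512⟩ :=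
  boxOK_split (v := 2) s2_732 p2_276 (by decide +kernel)

theorem s2_734 : BoxOK ⟨5120, 83200, 70144, 67072, 70144, 77184, 61952, 1024, 768, 4608, 512, 4608, 1664, 512⟩ :=
  boxOK_split (v := 5) p2_270 s2_733 (by decide +kernel)

theorem s2_735 : BoxOK ⟨5120, 83200, 70144, 67072, 70144, 77184, 62464, 1024, 768, 4608, 512, 4608, 1664, 1024⟩ :=
  boxOK_split (v := 6) s2_734 p2_277 (by decide +kernel)

theorem s2_736 : BoxOK ⟨5120, 83200, 70144, 67072, 70144, 77184, 63488, 1024, 768, 4608, 512, 4608, 1664, 2048⟩ :=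
  boxOK_split (v := 6) s2_735 p2_278 (by decide +kernel)

theorem s2_737 : BoxOK ⟨5120, 83200, 70144, 67072, 70144, 77184, 65536, 1024, 768, 4608, 512, 4608, 1664, 4096⟩ :=
  boxOK_split (v := 6) s2_736 p2_279 (by decide +kernel)

theorem s2_738 : BoxOK ⟨5120, 82432, 70144, 67072, 70144, 77184, 65536, 1024, 1536, 4608, 512, 4608, 1664, 4096⟩ :=
  boxOK_split (v := 1) p2_269 s2_737 (by decide +kernel)

theorem s2_739 : BoxOK ⟨5120, 82432, 70144, 67072, 70144, 75520, 65536, 1024, 1536, 4608, 512, 4608, 3328, 4096⟩ :=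
  boxOK_split (v := 5) p2_268 s2_738 (by decide +kernel)

theorem s2_740 : BoxOK ⟨5120, 82432, 70144, 66560, 70144, 75520, 65536, 1024, 1536, 4608, 1024, 4608, 3328, 4096⟩ :=
  boxOK_split (v := 3) p2_267 s2_739 (by decide +kernel)

theorem s2_741 : BoxOK ⟨5120, 82432, 70144, 66560, 70144, 72192, 65536, 1024, 1536, 4608, 1024, 4608, 6656, 4096⟩ :=
  boxOK_split (v := 5) p2_266 s2_740 (by decide +kernel)

theorem s2_742 : BoxOK ⟨5120, 82432, 70144, 66560, 74752, 72192, 65536, 1024, 1536, 4608, 1024, 9216, 6656, 4096⟩ :=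
  boxOK_split (v := 4) s2_741 p2_280 (by decide +kernel)

theorem s2_743 : BoxOK ⟨5120, 82432, 70144, 67584, 74752, 72192, 65536, 1024, 1536, 4608, 2048, 9216, 6656, 4096⟩ :=
  boxOK_split (v := 3) s2_742 p2_281 (by decide +kernel)

theorem s2_744 : BoxOK ⟨5120, 80896, 70144, 67584, 74752, 72192, 65536, 1024, 3072, 4608, 2048, 9216, 6656, 4096⟩ :=
  boxOK_split (v := 1) p2_265 s2_743 (by decide +kernel)

theorem s2_745 : BoxOK ⟨5120, 83968, 70144, 67584, 74752, 72192, 65536, 1024, 6144, 4608, 2048, 9216, 6656, 4096⟩ :=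
  boxOK_split (v := 1) s2_744 p2_282 (by decide +kernel)

theorem s2_746 : BoxOK ⟨5120, 83968, 74752, 67584, 74752, 72192, 65536, 1024, 6144, 9216, 2048, 9216, 6656, 4096⟩ :=
  boxOK_split (v := 2) s2_745 p2_283 (by decide +kernel)

theorem s2_747 : BoxOK ⟨5120, 77824, 74752, 67584, 74752, 72192, 65536, 1024, 12288, 9216, 2048, 9216, 6656, 4096⟩ :=
  boxOK_split (v := 1) s2_728 s2_746 (by decide +kernel)

theorem s2_748 : BoxOK ⟨5120, 83968, 70144, 67584, 70144, 85504, 65536, 1024, 6144, 4608, 2048, 4608, 6656, 4096⟩ :=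
  boxOK_split (v := 1) p2_285 p2_286 (by decide +kernel)

theorem s2_749 : BoxOK ⟨5120, 83968, 74752, 67584, 70144, 85504, 65536, 1024, 6144, 9216, 2048, 4608, 6656, 4096⟩ :=
  boxOK_split (v := 2) s2_748 p2_287 (by decide +kernel)

theorem s2_750 : BoxOK ⟨5120, 83968, 74752, 67584, 74752, 85504, 65536, 1024, 6144, 9216, 2048, 9216, 6656, 4096⟩ :=
  boxOK_split (v := 4) s2_749 p2_288 (by decide +kernel)

theorem s2_751 : BoxOK ⟨5120, 77824, 74752, 67584, 74752, 85504, 65536, 1024, 12288, 9216, 2048, 9216, 6656, 4096⟩ :=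
  boxOK_split (v := 1) p2_284 s2_750 (by decide +kernel)

theorem s2_752 : BoxOK ⟨5120, 77824, 74752, 67584, 74752, 78848, 65536, 1024, 12288, 9216, 2048, 9216, 13312, 4096⟩ :=
  boxOK_split (v := 5) s2_747 s2_751 (by decide +kernel)

theorem s2_753 : BoxOK ⟨5120, 77824, 74752, 67584, 83968, 78848, 65536, 1024, 12288, 9216, 2048, 18432, 13312, 4096⟩ :=
  boxOK_split (v := 4) s2_752 p2_289 (by decide +kernel)

theorem s2_754 : BoxOK ⟨5120, 77824, 65536, 67584, 83968, 78848, 65536, 1024, 12288, 18432, 2048, 18432, 13312, 4096⟩ :=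
  boxOK_split (v := 2) s2_716 s2_753 (by decide +kernel)

theorem s2_755 : BoxOK ⟨5120, 65536, 65536, 67584, 83968, 78848, 65536, 1024, 24576, 18432, 2048, 18432, 13312, 4096⟩ :=
  boxOK_split (v := 1) s2_675 s2_754 (by decide +kernel)

theorem s2_756 : BoxOK ⟨5120, 65536, 65536, 67584, 83968, 65536, 65536, 1024, 24576, 18432, 2048, 18432, 26624, 4096⟩ :=
  boxOK_split (v := 5) s2_663 s2_755 (by decide +kernel)

theorem s2_757 : BoxOK ⟨5120, 65536, 65536, 67584, 65536, 65536, 65536, 1024, 24576, 18432, 2048, 36864, 26624, 4096⟩ :=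
  boxOK_split (v := 4) s2_620 s2_756 (by decide +kernel)

theorem s3_758 : BoxOK ⟨7168, 53248, 56320, 67584, 47104, 52224, 65536, 1024, 12288, 9216, 2048, 18432, 13312, 4096⟩ :=
  boxOK_split (v := 4) p3_0 p3_1 (by decide +kernel)

theorem s3_759 : BoxOK ⟨7168, 62464, 79360, 68608, 42496, 55552, 65536, 1024, 3072, 4608, 1024, 4608, 3328, 4096⟩ :=
  boxOK_split (v := 2) p3_8 p3_9 (by decide +kernel)

theorem s3_760 : BoxOK ⟨7168, 62464, 79360, 67584, 42496, 55552, 65536, 1024, 3072, 4608, 2048, 4608, 3328, 4096⟩ :=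
  boxOK_split (v := 3) p3_7 s3_759 (by decide +kernel)

theorem s3_761 : BoxOK ⟨7168, 59392, 79360, 67584, 42496, 55552, 65536, 1024, 6144, 4608, 2048, 4608, 3328, 4096⟩ :=
  boxOK_split (v := 1) p3_6 s3_760 (by decide +kernel)

theorem s3_762 : BoxOK ⟨7168, 59392, 79360, 67584, 42496, 58880, 65536, 1024, 6144, 4608, 2048, 4608, 6656, 4096⟩ :=
  boxOK_split (v := 5) s3_761 p3_10 (by decide +kernel)

theorem s3_763 : BoxOK ⟨7168, 59392, 74752, 67584, 42496, 58880, 65536, 1024, 6144, 9216, 2048, 4608, 6656, 4096⟩ :=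
  boxOK_split (v := 2) p3_5 s3_762 (by decide +kernel)

theorem s3_764 : BoxOK ⟨7168, 59392, 74752, 67584, 37888, 58880, 65536, 1024, 6144, 9216, 2048, 9216, 6656, 4096⟩ :=
  boxOK_split (v := 4) p3_4 s3_763 (by decide +kernel)

theorem s3_765 : BoxOK ⟨7168, 53248, 74752, 67584, 37888, 58880, 65536, 1024, 12288, 9216, 2048, 9216, 6656, 4096⟩ :=
  boxOK_split (v := 1) p3_3 s3_764 (by decide +kernel)

theorem s3_766 : BoxOK ⟨7168, 53248, 74752, 67584, 37888, 52224, 65536, 1024, 12288, 9216, 2048, 9216, 13312, 4096⟩ :=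
  boxOK_split (v := 5) p3_2 s3_765 (by decide +kernel)

theorem s3_767 : BoxOK ⟨7168, 59392, 79360, 67584, 51712, 55552, 65536, 1024, 6144, 4608, 2048, 4608, 3328, 4096⟩ :=
  boxOK_split (v := 6) p3_14 p3_15 (by decide +kernel)

theorem s3_768 : BoxOK ⟨7168, 59392, 79360, 67584, 51712, 58880, 65536, 1024, 6144, 4608, 2048, 4608, 6656, 4096⟩ :=
  boxOK_split (v := 5) s3_767 p3_16 (by decide +kernel)

theorem s3_769 : BoxOK ⟨7168, 59392, 79360, 67584, 56320, 58880, 65536, 1024, 6144, 4608, 2048, 9216, 6656, 4096⟩ :=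
  boxOK_split (v := 4) s3_768 p3_17 (by decide +kernel)

theorem s3_770 : BoxOK ⟨7168, 59392, 74752, 67584, 56320, 58880, 65536, 1024, 6144, 9216, 2048, 9216, 6656, 4096⟩ :=
  boxOK_split (v := 2) p3_13 s3_769 (by decide +kernel)

theorem s3_771 : BoxOK ⟨7168, 53248, 74752, 67584, 56320, 58880, 65536, 1024, 12288, 9216, 2048, 9216, 6656, 4096⟩ :=
  boxOK_split (v := 1) p3_12 s3_770 (by decide +kernel)

theorem s3_772 : BoxOK ⟨7168, 53248, 74752, 67584, 56320, 52224, 65536, 1024, 12288, 9216, 2048, 9216, 13312, 4096⟩ :=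
  boxOK_split (v := 5) p3_11 s3_771 (by decide +kernel)

theorem s3_773 : BoxOK ⟨7168, 53248, 74752, 67584, 47104, 52224, 65536, 1024, 12288, 9216, 2048, 18432, 13312, 4096⟩ :=
  boxOK_split (v := 4) s3_766 s3_772 (by decide +kernel)

theorem s3_774 : BoxOK ⟨7168, 53248, 65536, 67584, 47104, 52224, 65536, 1024, 12288, 18432, 2048, 18432, 13312, 4096⟩ :=
  boxOK_split (v := 2) s3_758 s3_773 (by decide +kernel)

theorem s3_775 : BoxOK ⟨6656, 81280, 62080, 68608, 55744, 47232, 62464, 512, 384, 1152, 1024, 576, 1664, 1024⟩ :=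
  boxOK_split (v := 2) p3_28 p3_29 (by decide +kernel)

theorem s3_776 : BoxOK ⟨6656, 81280, 62080, 68608, 55168, 47232, 62464, 512, 384, 1152, 1024, 1152, 1664, 1024⟩ :=
  boxOK_split (v := 4) p3_27 s3_775 (by decide +kernel)

theorem s3_777 : BoxOK ⟨6656, 81280, 62080, 68608, 55168, 47232, 63488, 512, 384, 1152, 1024, 1152, 1664, 2048⟩ :=
  boxOK_split (v := 6) s3_776 p3_30 (by decide +kernel)

theorem s3_778 : BoxOK ⟨6656, 81664, 62080, 68608, 55168, 47232, 63488, 512, 768, 1152, 1024, 1152, 1664, 2048⟩ :=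
  boxOK_split (v := 1) s3_777 p3_31 (by decide +kernel)

theorem s3_779 : BoxOK ⟨6656, 81664, 63232, 68608, 55168, 47232, 63488, 512, 768, 2304, 1024, 1152, 1664, 2048⟩ :=
  boxOK_split (v := 2) s3_778 p3_32 (by decide +kernel)

theorem s3_780 : BoxOK ⟨6656, 81664, 63232, 67584, 55168, 47232, 63488, 512, 768, 2304, 2048, 1152, 1664, 2048⟩ :=
  boxOK_split (v := 3) p3_26 s3_779 (by decide +kernel)

theorem s3_781 : BoxOK ⟨6656, 82432, 63232, 67584, 55168, 47232, 63488, 512, 1536, 2304, 2048, 1152, 1664, 2048⟩ :=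
  boxOK_split (v := 1) s3_780 p3_33 (by decide +kernel)

theorem s3_782 : BoxOK ⟨7168, 82432, 63232, 67584, 55168, 47232, 63488, 1024, 1536, 2304, 2048, 1152, 1664, 2048⟩ :=
  boxOK_split (v := 0) s3_781 p3_34 (by decide +kernel)

theorem s3_783 : BoxOK ⟨7168, 82432, 63232, 67584, 54016, 47232, 63488, 1024, 1536, 2304, 2048, 2304, 1664, 2048⟩ :=
  boxOK_split (v := 4) p3_25 s3_782 (by decide +kernel)

theorem s3_784 : BoxOK ⟨7168, 82432, 63232, 67584, 54016, 48896, 63488, 1024, 1536, 2304, 2048, 2304, 3328, 2048⟩ :=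
  boxOK_split (v := 5) s3_783 p3_35 (by decide +kernel)

theorem s3_785 : BoxOK ⟨7168, 80896, 63232, 67584, 54016, 48896, 63488, 1024, 3072, 2304, 2048, 2304, 3328, 2048⟩ :=
  boxOK_split (v := 1) p3_24 s3_784 (by decide +kernel)

theorem s3_786 : BoxOK ⟨7168, 80896, 63232, 67584, 51712, 48896, 63488, 1024, 3072, 2304, 2048, 4608, 3328, 2048⟩ :=
  boxOK_split (v := 4) p3_23 s3_785 (by decide +kernel)

theorem s3_787 : BoxOK ⟨7168, 80896, 60928, 67584, 51712, 48896, 63488, 1024, 3072, 4608, 2048, 4608, 3328, 2048⟩ :=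
  boxOK_split (v := 2) p3_22 s3_786 (by decide +kernel)

theorem s3_788 : BoxOK ⟨7168, 80896, 60928, 67584, 51712, 48896, 65536, 1024, 3072, 4608, 2048, 4608, 3328, 4096⟩ :=
  boxOK_split (v := 6) s3_787 p3_36 (by decide +kernel)

theorem s3_789 : BoxOK ⟨7168, 83968, 60928, 67584, 51712, 48896, 65536, 1024, 6144, 4608, 2048, 4608, 3328, 4096⟩ :=
  boxOK_split (v := 1) s3_788 p3_37 (by decide +kernel)

theorem s3_790 : BoxOK ⟨7168, 83968, 60928, 67584, 51712, 45568, 65536, 1024, 6144, 4608, 2048, 4608, 6656, 4096⟩ :=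
  boxOK_split (v := 5) p3_21 s3_789 (by decide +kernel)

theorem s3_791 : BoxOK ⟨7168, 82432, 62080, 67584, 58624, 48064, 61952, 1024, 1536, 1152, 2048, 2304, 832, 512⟩ :=
  boxOK_split (v := 4) p3_42 p3_43 (by decide +kernel)

theorem s3_792 : BoxOK ⟨7168, 82432, 63232, 67584, 58624, 48064, 61952, 1024, 1536, 2304, 2048, 2304, 832, 512⟩ :=
  boxOK_split (v := 2) s3_791 p3_44 (by decide +kernel)

theorem s3_793 : BoxOK ⟨7168, 80896, 63232, 67584, 58624, 48064, 61952, 1024, 3072, 2304, 2048, 2304, 832, 512⟩ :=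
  boxOK_split (v := 1) p3_41 s3_792 (by decide +kernel)

theorem s3_794 : BoxOK ⟨7168, 80896, 63232, 67584, 60928, 48064, 61952, 1024, 3072, 2304, 2048, 4608, 832, 512⟩ :=
  boxOK_split (v := 4) s3_793 p3_45 (by decide +kernel)

theorem s3_795 : BoxOK ⟨7168, 80896, 60928, 67584, 60928, 48064, 61952, 1024, 3072, 4608, 2048, 4608, 832, 512⟩ :=
  boxOK_split (v := 2) p3_40 s3_794 (by decide +kernel)

theorem s3_796 : BoxOK ⟨7168, 80896, 60928, 67584, 60928, 48064, 62464, 1024, 3072, 4608, 2048, 4608, 832, 1024⟩ :=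
  boxOK_split (v := 6) s3_795 p3_46 (by decide +kernel)

theorem s3_797 : BoxOK ⟨7168, 80896, 60928, 67584, 60928, 47232, 62464, 1024, 3072, 4608, 2048, 4608, 1664, 1024⟩ :=
  boxOK_split (v := 5) p3_39 s3_796 (by decide +kernel)

theorem s3_798 : BoxOK ⟨7168, 80896, 60928, 67584, 60928, 48896, 62464, 1024, 3072, 4608, 2048, 4608, 3328, 1024⟩ :=
  boxOK_split (v := 5) s3_797 p3_47 (by decide +kernel)

theorem s3_799 : BoxOK ⟨7168, 80896, 60928, 67584, 60928, 48896, 63488, 1024, 3072, 4608, 2048, 4608, 3328, 2048⟩ :=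
  boxOK_split (v := 6) s3_798 p3_48 (by decide +kernel)

theorem s3_800 : BoxOK ⟨7168, 80896, 60928, 67584, 60928, 48896, 65536, 1024, 3072, 4608, 2048, 4608, 3328, 4096⟩ :=
  boxOK_split (v := 6) s3_799 p3_49 (by decide +kernel)

theorem s3_801 : BoxOK ⟨7168, 83968, 60928, 67584, 60928, 48896, 65536, 1024, 6144, 4608, 2048, 4608, 3328, 4096⟩ :=
  boxOK_split (v := 1) s3_800 p3_50 (by decide +kernel)

theorem s3_802 : BoxOK ⟨7168, 83968, 60928, 67584, 60928, 45568, 65536, 1024, 6144, 4608, 2048, 4608, 6656, 4096⟩ :=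
  boxOK_split (v := 5) p3_38 s3_801 (by decide +kernel)

theorem s3_803 : BoxOK ⟨7168, 83968, 60928, 67584, 56320, 45568, 65536, 1024, 6144, 4608, 2048, 9216, 6656, 4096⟩ :=
  boxOK_split (v := 4) s3_790 s3_802 (by decide +kernel)

theorem s3_804 : BoxOK ⟨7168, 83968, 56320, 67584, 56320, 45568, 65536, 1024, 6144, 9216, 2048, 9216, 6656, 4096⟩ :=
  boxOK_split (v := 2) p3_20 s3_803 (by decide +kernel)

theorem s3_805 : BoxOK ⟨7168, 77824, 56320, 67584, 56320, 45568, 65536, 1024, 12288, 9216, 2048, 9216, 6656, 4096⟩ :=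
  boxOK_split (v := 1) p3_19 s3_804 (by decide +kernel)

theorem s3_806 : BoxOK ⟨7168, 77824, 56320, 67584, 56320, 58880, 65536, 1024, 12288, 9216, 2048, 9216, 6656, 4096⟩ :=
  boxOK_split (v := 1) p3_51 p3_52 (by decide +kernel)

theorem s3_807 : BoxOK ⟨7168, 77824, 56320, 67584, 56320, 52224, 65536, 1024, 12288, 9216, 2048, 9216, 13312, 4096⟩ :=
  boxOK_split (v := 5) s3_805 s3_806 (by decide +kernel)

theorem s3_808 : BoxOK ⟨7168, 77824, 56320, 67584, 47104, 52224, 65536, 1024, 12288, 9216, 2048, 18432, 13312, 4096⟩ :=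
  boxOK_split (v := 4) p3_18 s3_807 (by decide +kernel)

theorem s3_809 : BoxOK ⟨7168, 77824, 65536, 67584, 47104, 52224, 65536, 1024, 12288, 18432, 2048, 18432, 13312, 4096⟩ :=
  boxOK_split (v := 2) s3_808 p3_53 (by decide +kernel)

theorem s3_810 : BoxOK ⟨7168, 65536, 65536, 67584, 47104, 52224, 65536, 1024, 24576, 18432, 2048, 18432, 13312, 4096⟩ :=
  boxOK_split (v := 1) s3_774 s3_809 (by decide +kernel)

theorem s3_811 : BoxOK ⟨7168, 53248, 56320, 67584, 56320, 72192, 65536, 1024, 12288, 9216, 2048, 9216, 6656, 4096⟩ :=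
  boxOK_split (v := 1) p3_55 p3_56 (by decide +kernel)

theorem s3_812 : BoxOK ⟨7168, 53248, 56320, 67584, 56320, 78848, 65536, 1024, 12288, 9216, 2048, 9216, 13312, 4096⟩ :=
  boxOK_split (v := 5) s3_811 p3_57 (by decide +kernel)

theorem s3_813 : BoxOK ⟨7168, 53248, 56320, 67584, 47104, 78848, 65536, 1024, 12288, 9216, 2048, 18432, 13312, 4096⟩ :=
  boxOK_split (v := 4) p3_54 s3_812 (by decide +kernel)

theorem s3_814 : BoxOK ⟨7168, 59392, 79360, 67584, 42496, 72192, 65536, 1024, 6144, 4608, 2048, 4608, 6656, 4096⟩ :=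
  boxOK_split (v := 5) p3_61 p3_62 (by decide +kernel)

theorem s3_815 : BoxOK ⟨7168, 59392, 79360, 67584, 37888, 72192, 65536, 1024, 6144, 4608, 2048, 9216, 6656, 4096⟩ :=
  boxOK_split (v := 4) p3_60 s3_814 (by decide +kernel)

theorem s3_816 : BoxOK ⟨7168, 59392, 74752, 67584, 37888, 72192, 65536, 1024, 6144, 9216, 2048, 9216, 6656, 4096⟩ :=
  boxOK_split (v := 2) p3_59 s3_815 (by decide +kernel)

theorem s3_817 : BoxOK ⟨7168, 53248, 74752, 67584, 37888, 72192, 65536, 1024, 12288, 9216, 2048, 9216, 6656, 4096⟩ :=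
  boxOK_split (v := 1) p3_58 s3_816 (by decide +kernel)

theorem s3_818 : BoxOK ⟨7168, 53248, 74752, 67584, 37888, 78848, 65536, 1024, 12288, 9216, 2048, 9216, 13312, 4096⟩ :=
  boxOK_split (v := 5) s3_817 p3_63 (by decide +kernel)

theorem s3_819 : BoxOK ⟨7168, 53248, 74752, 67584, 56320, 78848, 65536, 1024, 12288, 9216, 2048, 9216, 13312, 4096⟩ :=
  boxOK_split (v := 5) p3_64 p3_65 (by decide +kernel)

theorem s3_820 : BoxOK ⟨7168, 53248, 74752, 67584, 47104, 78848, 65536, 1024, 12288, 9216, 2048, 18432, 13312, 4096⟩ :=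
  boxOK_split (v := 4) s3_818 s3_819 (by decide +kernel)

theorem s3_821 : BoxOK ⟨7168, 53248, 65536, 67584, 47104, 78848, 65536, 1024, 12288, 18432, 2048, 18432, 13312, 4096⟩ :=
  boxOK_split (v := 2) s3_813 s3_820 (by decide +kernel)

theorem s3_822 : BoxOK ⟨7168, 77824, 74752, 67584, 56320, 72192, 65536, 1024, 12288, 9216, 2048, 9216, 6656, 4096⟩ :=
  boxOK_split (v := 1) p3_68 p3_69 (by decide +kernel)

theorem s3_823 : BoxOK ⟨7168, 80896, 70144, 67584, 60928, 82176, 65536, 1024, 3072, 4608, 2048, 4608, 3328, 4096⟩ :=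
  boxOK_split (v := 3) p3_72 p3_73 (by decide +kernel)

theorem s3_824 : BoxOK ⟨7168, 87040, 72448, 67584, 60928, 82176, 68608, 1024, 3072, 2304, 2048, 4608, 3328, 1024⟩ :=
  boxOK_split (v := 6) p3_77 p3_78 (by decide +kernel)

theorem s3_825 : BoxOK ⟨7168, 87040, 70144, 67584, 60928, 82176, 68608, 1024, 3072, 4608, 2048, 4608, 3328, 1024⟩ :=
  boxOK_split (v := 2) p3_76 s3_824 (by decide +kernel)

theorem s3_826 : BoxOK ⟨7168, 87040, 70144, 67584, 60928, 82176, 67584, 1024, 3072, 4608, 2048, 4608, 3328, 2048⟩ :=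
  boxOK_split (v := 6) p3_75 s3_825 (by decide +kernel)

theorem s3_827 : BoxOK ⟨7168, 87040, 70144, 67584, 60928, 82176, 65536, 1024, 3072, 4608, 2048, 4608, 3328, 4096⟩ :=
  boxOK_split (v := 6) p3_74 s3_826 (by decide +kernel)

theorem s3_828 : BoxOK ⟨7168, 83968, 70144, 67584, 60928, 82176, 65536, 1024, 6144, 4608, 2048, 4608, 3328, 4096⟩ :=
  boxOK_split (v := 1) s3_823 s3_827 (by decide +kernel)

theorem s3_829 : BoxOK ⟨7168, 83968, 70144, 67584, 60928, 85504, 65536, 1024, 6144, 4608, 2048, 4608, 6656, 4096⟩ :=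
  boxOK_split (v := 5) s3_828 p3_79 (by decide +kernel)

theorem s3_830 : BoxOK ⟨7168, 83968, 70144, 67584, 56320, 85504, 65536, 1024, 6144, 4608, 2048, 9216, 6656, 4096⟩ :=
  boxOK_split (v := 4) p3_71 s3_829 (by decide +kernel)

theorem s3_831 : BoxOK ⟨7168, 83968, 74752, 67584, 56320, 85504, 65536, 1024, 6144, 9216, 2048, 9216, 6656, 4096⟩ :=
  boxOK_split (v := 2) s3_830 p3_80 (by decide +kernel)

theorem s3_832 : BoxOK ⟨7168, 77824, 74752, 67584, 56320, 85504, 65536, 1024, 12288, 9216, 2048, 9216, 6656, 4096⟩ :=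
  boxOK_split (v := 1) p3_70 s3_831 (by decide +kernel)

theorem s3_833 : BoxOK ⟨7168, 77824, 74752, 67584, 56320, 78848, 65536, 1024, 12288, 9216, 2048, 9216, 13312, 4096⟩ :=
  boxOK_split (v := 5) s3_822 s3_832 (by decide +kernel)

theorem s3_834 : BoxOK ⟨7168, 77824, 74752, 67584, 47104, 78848, 65536, 1024, 12288, 9216, 2048, 18432, 13312, 4096⟩ :=
  boxOK_split (v := 4) p3_67 s3_833 (by decide +kernel)

theorem s3_835 : BoxOK ⟨7168, 77824, 65536, 67584, 47104, 78848, 65536, 1024, 12288, 18432, 2048, 18432, 13312, 4096⟩ :=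
  boxOK_split (v := 2) p3_66 s3_834 (by decide +kernel)

theorem s3_836 : BoxOK ⟨7168, 65536, 65536, 67584, 47104, 78848, 65536, 1024, 24576, 18432, 2048, 18432, 13312, 4096⟩ :=
  boxOK_split (v := 1) s3_821 s3_835 (by decide +kernel)

theorem s3_837 : BoxOK ⟨7168, 65536, 65536, 67584, 47104, 65536, 65536, 1024, 24576, 18432, 2048, 18432, 26624, 4096⟩ :=
  boxOK_split (v := 5) s3_810 s3_836 (by decide +kernel)

theorem s3_838 : BoxOK ⟨7168, 53248, 56320, 67584, 74752, 52224, 65536, 1024, 12288, 9216, 2048, 9216, 13312, 4096⟩ :=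
  boxOK_split (v := 5) p3_81 p3_82 (by decide +kernel)

theorem s3_839 : BoxOK ⟨7168, 53248, 56320, 67584, 83968, 52224, 65536, 1024, 12288, 9216, 2048, 18432, 13312, 4096⟩ :=
  boxOK_split (v := 4) s3_838 p3_83 (by decide +kernel)

theorem s3_840 : BoxOK ⟨7168, 53248, 65536, 67584, 83968, 52224, 65536, 1024, 12288, 18432, 2048, 18432, 13312, 4096⟩ :=
  boxOK_split (v := 2) s3_839 p3_84 (by decide +kernel)

theorem s3_841 : BoxOK ⟨7168, 77824, 56320, 67584, 74752, 52224, 65536, 1024, 12288, 9216, 2048, 9216, 13312, 4096⟩ :=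
  boxOK_split (v := 5) p3_85 p3_86 (by decide +kernel)

theorem s3_842 : BoxOK ⟨7168, 77824, 56320, 67584, 83968, 52224, 65536, 1024, 12288, 9216, 2048, 18432, 13312, 4096⟩ :=
  boxOK_split (v := 4) s3_841 p3_87 (by decide +kernel)

theorem s3_843 : BoxOK ⟨7168, 83200, 72448, 67328, 72448, 50560, 63488, 1024, 768, 2304, 256, 2304, 1664, 2048⟩ :=
  boxOK_split (v := 1) p3_97 p3_98 (by decide +kernel)

theorem s3_844 : BoxOK ⟨7168, 83200, 72448, 67072, 72448, 50560, 63488, 1024, 768, 2304, 512, 2304, 1664, 2048⟩ :=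
  boxOK_split (v := 3) p3_96 s3_843 (by decide +kernel)

theorem s3_845 : BoxOK ⟨7168, 83200, 72448, 67072, 72448, 48896, 63488, 1024, 768, 2304, 512, 2304, 3328, 2048⟩ :=
  boxOK_split (v := 5) p3_95 s3_844 (by decide +kernel)

theorem s3_846 : BoxOK ⟨7168, 83200, 72448, 67072, 70144, 48896, 63488, 1024, 768, 2304, 512, 4608, 3328, 2048⟩ :=
  boxOK_split (v := 4) p3_94 s3_845 (by decide +kernel)

theorem s3_847 : BoxOK ⟨7168, 83200, 70144, 67072, 70144, 48896, 63488, 1024, 768, 4608, 512, 4608, 3328, 2048⟩ :=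
  boxOK_split (v := 2) p3_93 s3_846 (by decide +kernel)

theorem s3_848 : BoxOK ⟨7168, 83200, 70144, 67072, 70144, 48896, 65536, 1024, 768, 4608, 512, 4608, 3328, 4096⟩ :=
  boxOK_split (v := 6) s3_847 p3_99 (by decide +kernel)

theorem s3_849 : BoxOK ⟨7168, 82432, 70144, 67072, 70144, 48896, 65536, 1024, 1536, 4608, 512, 4608, 3328, 4096⟩ :=
  boxOK_split (v := 1) p3_92 s3_848 (by decide +kernel)

theorem s3_850 : BoxOK ⟨7168, 80896, 70144, 67072, 70144, 48896, 65536, 1024, 3072, 4608, 512, 4608, 3328, 4096⟩ :=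
  boxOK_split (v := 1) p3_91 s3_849 (by decide +kernel)

theorem s3_851 : BoxOK ⟨7168, 80896, 70144, 66560, 70144, 48896, 65536, 1024, 3072, 4608, 1024, 4608, 3328, 4096⟩ :=
  boxOK_split (v := 3) p3_90 s3_850 (by decide +kernel)

theorem s3_852 : BoxOK ⟨7168, 80896, 70144, 67584, 70144, 48896, 65536, 1024, 3072, 4608, 2048, 4608, 3328, 4096⟩ :=
  boxOK_split (v := 3) s3_851 p3_100 (by decide +kernel)

theorem s3_853 : BoxOK ⟨7168, 87040, 72448, 67584, 70144, 48896, 62464, 1024, 3072, 2304, 2048, 4608, 3328, 1024⟩ :=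
  boxOK_split (v := 6) p3_102 p3_103 (by decide +kernel)

theorem s3_854 : BoxOK ⟨7168, 87040, 70144, 67584, 70144, 48896, 62464, 1024, 3072, 4608, 2048, 4608, 3328, 1024⟩ :=
  boxOK_split (v := 2) p3_101 s3_853 (by decide +kernel)

theorem s3_855 : BoxOK ⟨7168, 87040, 70144, 67584, 70144, 48896, 63488, 1024, 3072, 4608, 2048, 4608, 3328, 2048⟩ :=
  boxOK_split (v := 6) s3_854 p3_104 (by decide +kernel)

theorem s3_856 : BoxOK ⟨7168, 87040, 70144, 67584, 70144, 48896, 65536, 1024, 3072, 4608, 2048, 4608, 3328, 4096⟩ :=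
  boxOK_split (v := 6) s3_855 p3_105 (by decide +kernel)

theorem s3_857 : BoxOK ⟨7168, 83968, 70144, 67584, 70144, 48896, 65536, 1024, 6144, 4608, 2048, 4608, 3328, 4096⟩ :=
  boxOK_split (v := 1) s3_852 s3_856 (by decide +kernel)

theorem s3_858 : BoxOK ⟨7168, 83968, 70144, 67584, 70144, 45568, 65536, 1024, 6144, 4608, 2048, 4608, 6656, 4096⟩ :=
  boxOK_split (v := 5) p3_89 s3_857 (by decide +kernel)

theorem s3_859 : BoxOK ⟨7168, 83968, 70144, 67584, 74752, 45568, 65536, 1024, 6144, 4608, 2048, 9216, 6656, 4096⟩ :=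
  boxOK_split (v := 4) s3_858 p3_106 (by decide +kernel)

theorem s3_860 : BoxOK ⟨7168, 83968, 74752, 67584, 74752, 45568, 65536, 1024, 6144, 9216, 2048, 9216, 6656, 4096⟩ :=
  boxOK_split (v := 2) s3_859 p3_107 (by decide +kernel)

theorem s3_861 : BoxOK ⟨7168, 77824, 74752, 67584, 74752, 45568, 65536, 1024, 12288, 9216, 2048, 9216, 6656, 4096⟩ :=
  boxOK_split (v := 1) p3_88 s3_860 (by decide +kernel)

theorem s3_862 : BoxOK ⟨7168, 83968, 74752, 67584, 74752, 58880, 65536, 1024, 6144, 9216, 2048, 9216, 6656, 4096⟩ :=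
  boxOK_split (v := 2) p3_109 p3_110 (by decide +kernel)

theorem s3_863 : BoxOK ⟨7168, 77824, 74752, 67584, 74752, 58880, 65536, 1024, 12288, 9216, 2048, 9216, 6656, 4096⟩ :=
  boxOK_split (v := 1) p3_108 s3_862 (by decide +kernel)

theorem s3_864 : BoxOK ⟨7168, 77824, 74752, 67584, 74752, 52224, 65536, 1024, 12288, 9216, 2048, 9216, 13312, 4096⟩ :=
  boxOK_split (v := 5) s3_861 s3_863 (by decide +kernel)

theorem s3_865 : BoxOK ⟨7168, 77824, 74752, 67584, 93184, 58880, 65536, 1024, 12288, 9216, 2048, 9216, 6656, 4096⟩ :=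
  boxOK_split (v := 1) p3_112 p3_113 (by decide +kernel)

theorem s3_866 : BoxOK ⟨7168, 77824, 74752, 67584, 93184, 52224, 65536, 1024, 12288, 9216, 2048, 9216, 13312, 4096⟩ :=
  boxOK_split (v := 5) p3_111 s3_865 (by decide +kernel)

theorem s3_867 : BoxOK ⟨7168, 77824, 74752, 67584, 83968, 52224, 65536, 1024, 12288, 9216, 2048, 18432, 13312, 4096⟩ :=
  boxOK_split (v := 4) s3_864 s3_866 (by decide +kernel)

theorem s3_868 : BoxOK ⟨7168, 77824, 65536, 67584, 83968, 52224, 65536, 1024, 12288, 18432, 2048, 18432, 13312, 4096⟩ :=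
  boxOK_split (v := 2) s3_842 s3_867 (by decide +kernel)

theorem s3_869 : BoxOK ⟨7168, 65536, 65536, 67584, 83968, 52224, 65536, 1024, 24576, 18432, 2048, 18432, 13312, 4096⟩ :=
  boxOK_split (v := 1) s3_840 s3_868 (by decide +kernel)

theorem s3_870 : BoxOK ⟨7168, 59392, 79360, 67584, 79360, 72192, 65536, 1024, 6144, 4608, 2048, 4608, 6656, 4096⟩ :=
  boxOK_split (v := 5) p3_118 p3_119 (by decide +kernel)

theorem s3_871 : BoxOK ⟨7168, 59392, 79360, 67584, 74752, 72192, 65536, 1024, 6144, 4608, 2048, 9216, 6656, 4096⟩ :=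
  boxOK_split (v := 4) p3_117 s3_870 (by decide +kernel)

theorem s3_872 : BoxOK ⟨7168, 59392, 74752, 67584, 74752, 72192, 65536, 1024, 6144, 9216, 2048, 9216, 6656, 4096⟩ :=
  boxOK_split (v := 2) p3_116 s3_871 (by decide +kernel)

theorem s3_873 : BoxOK ⟨7168, 53248, 74752, 67584, 74752, 72192, 65536, 1024, 12288, 9216, 2048, 9216, 6656, 4096⟩ :=
  boxOK_split (v := 1) p3_115 s3_872 (by decide +kernel)

theorem s3_874 : BoxOK ⟨7168, 53248, 74752, 67584, 74752, 85504, 65536, 1024, 12288, 9216, 2048, 9216, 6656, 4096⟩ :=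
  boxOK_split (v := 1) p3_120 p3_121 (by decide +kernel)

theorem s3_875 : BoxOK ⟨7168, 53248, 74752, 67584, 74752, 78848, 65536, 1024, 12288, 9216, 2048, 9216, 13312, 4096⟩ :=
  boxOK_split (v := 5) s3_873 s3_874 (by decide +kernel)

theorem s3_876 : BoxOK ⟨7168, 62464, 81664, 68608, 88576, 75520, 65536, 1024, 3072, 2304, 1024, 4608, 3328, 4096⟩ :=
  boxOK_split (v := 1) p3_128 p3_129 (by decide +kernel)

theorem s3_877 : BoxOK ⟨7168, 62464, 79360, 68608, 88576, 75520, 65536, 1024, 3072, 4608, 1024, 4608, 3328, 4096⟩ :=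
  boxOK_split (v := 2) p3_127 s3_876 (by decide +kernel)

theorem s3_878 : BoxOK ⟨7168, 62464, 79360, 67584, 88576, 75520, 65536, 1024, 3072, 4608, 2048, 4608, 3328, 4096⟩ :=
  boxOK_split (v := 3) p3_126 s3_877 (by decide +kernel)

theorem s3_879 : BoxOK ⟨7168, 59392, 79360, 67584, 88576, 75520, 65536, 1024, 6144, 4608, 2048, 4608, 3328, 4096⟩ :=
  boxOK_split (v := 1) p3_125 s3_878 (by decide +kernel)

theorem s3_880 : BoxOK ⟨7168, 59392, 79360, 67584, 88576, 72192, 65536, 1024, 6144, 4608, 2048, 4608, 6656, 4096⟩ :=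
  boxOK_split (v := 5) p3_124 s3_879 (by decide +kernel)

theorem s3_881 : BoxOK ⟨7168, 59392, 74752, 67584, 88576, 72192, 65536, 1024, 6144, 9216, 2048, 4608, 6656, 4096⟩ :=
  boxOK_split (v := 2) p3_123 s3_880 (by decide +kernel)

theorem s3_882 : BoxOK ⟨7168, 59392, 74752, 67584, 93184, 72192, 65536, 1024, 6144, 9216, 2048, 9216, 6656, 4096⟩ :=
  boxOK_split (v := 4) s3_881 p3_130 (by decide +kernel)

theorem s3_883 : BoxOK ⟨7168, 53248, 74752, 67584, 93184, 72192, 65536, 1024, 12288, 9216, 2048, 9216, 6656, 4096⟩ :=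
  boxOK_split (v := 1) p3_122 s3_882 (by decide +kernel)

theorem s3_884 : BoxOK ⟨7168, 53248, 74752, 67584, 93184, 78848, 65536, 1024, 12288, 9216, 2048, 9216, 13312, 4096⟩ :=
  boxOK_split (v := 5) s3_883 p3_131 (by decide +kernel)

theorem s3_885 : BoxOK ⟨7168, 53248, 74752, 67584, 83968, 78848, 65536, 1024, 12288, 9216, 2048, 18432, 13312, 4096⟩ :=
  boxOK_split (v := 4) s3_875 s3_884 (by decide +kernel)

theorem s3_886 : BoxOK ⟨7168, 53248, 65536, 67584, 83968, 78848, 65536, 1024, 12288, 18432, 2048, 18432, 13312, 4096⟩ :=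
  boxOK_split (v := 2) p3_114 s3_885 (by decide +kernel)

theorem s3_887 : BoxOK ⟨7168, 80896, 60928, 67584, 79360, 68864, 63488, 1024, 3072, 4608, 2048, 4608, 3328, 2048⟩ :=
  boxOK_split (v := 5) p3_135 p3_136 (by decide +kernel)

theorem s3_888 : BoxOK ⟨7168, 80896, 60928, 67584, 79360, 68864, 65536, 1024, 3072, 4608, 2048, 4608, 3328, 4096⟩ :=
  boxOK_split (v := 6) s3_887 p3_137 (by decide +kernel)

theorem s3_889 : BoxOK ⟨7168, 83968, 60928, 67584, 79360, 68864, 65536, 1024, 6144, 4608, 2048, 4608, 3328, 4096⟩ :=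
  boxOK_split (v := 1) s3_888 p3_138 (by decide +kernel)

theorem s3_890 : BoxOK ⟨7168, 80896, 60928, 67584, 81664, 75520, 62976, 1024, 3072, 4608, 2048, 2304, 3328, 512⟩ :=
  boxOK_split (v := 1) p3_141 p3_142 (by decide +kernel)

theorem s3_891 : BoxOK ⟨7168, 80896, 60928, 67584, 79360, 75520, 62976, 1024, 3072, 4608, 2048, 4608, 3328, 512⟩ :=
  boxOK_split (v := 4) p3_140 s3_890 (by decide +kernel)

theorem s3_892 : BoxOK ⟨7168, 80896, 60928, 67584, 79360, 75520, 62464, 1024, 3072, 4608, 2048, 4608, 3328, 1024⟩ :=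
  boxOK_split (v := 6) p3_139 s3_891 (by decide +kernel)

theorem s3_893 : BoxOK ⟨7168, 83968, 60928, 67584, 79360, 75520, 62464, 1024, 6144, 4608, 2048, 4608, 3328, 1024⟩ :=
  boxOK_split (v := 1) s3_892 p3_143 (by decide +kernel)

theorem s3_894 : BoxOK ⟨7168, 83968, 60928, 67584, 79360, 75520, 63488, 1024, 6144, 4608, 2048, 4608, 3328, 2048⟩ :=
  boxOK_split (v := 6) s3_893 p3_144 (by decide +kernel)

theorem s3_895 : BoxOK ⟨7168, 83968, 60928, 67584, 79360, 75520, 65536, 1024, 6144, 4608, 2048, 4608, 3328, 4096⟩ :=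
  boxOK_split (v := 6) s3_894 p3_145 (by decide +kernel)

theorem s3_896 : BoxOK ⟨7168, 83968, 60928, 67584, 79360, 72192, 65536, 1024, 6144, 4608, 2048, 4608, 6656, 4096⟩ :=
  boxOK_split (v := 5) s3_889 s3_895 (by decide +kernel)

theorem s3_897 : BoxOK ⟨7168, 83968, 60928, 67584, 74752, 72192, 65536, 1024, 6144, 4608, 2048, 9216, 6656, 4096⟩ :=
  boxOK_split (v := 4) p3_134 s3_896 (by decide +kernel)

theorem s3_898 : BoxOK ⟨7168, 83968, 56320, 67584, 74752, 72192, 65536, 1024, 6144, 9216, 2048, 9216, 6656, 4096⟩ :=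
  boxOK_split (v := 2) p3_133 s3_897 (by decide +kernel)

theorem s3_899 : BoxOK ⟨7168, 77824, 56320, 67584, 74752, 72192, 65536, 1024, 12288, 9216, 2048, 9216, 6656, 4096⟩ :=
  boxOK_split (v := 1) p3_132 s3_898 (by decide +kernel)

theorem s3_900 : BoxOK ⟨7168, 77824, 56320, 67584, 74752, 85504, 65536, 1024, 12288, 9216, 2048, 9216, 6656, 4096⟩ :=
  boxOK_split (v := 1) p3_146 p3_147 (by decide +kernel)

theorem s3_901 : BoxOK ⟨7168, 77824, 56320, 67584, 74752, 78848, 65536, 1024, 12288, 9216, 2048, 9216, 13312, 4096⟩ :=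
  boxOK_split (v := 5) s3_899 s3_900 (by decide +kernel)

theorem s3_902 : BoxOK ⟨7168, 83968, 60928, 67584, 93184, 72192, 65536, 1024, 6144, 4608, 2048, 9216, 6656, 4096⟩ :=
  boxOK_split (v := 4) p3_150 p3_151 (by decide +kernel)

theorem s3_903 : BoxOK ⟨7168, 83968, 56320, 67584, 93184, 72192, 65536, 1024, 6144, 9216, 2048, 9216, 6656, 4096⟩ :=
  boxOK_split (v := 2) p3_149 s3_902 (by decide +kernel)

theorem s3_904 : BoxOK ⟨7168, 77824, 56320, 67584, 93184, 72192, 65536, 1024, 12288, 9216, 2048, 9216, 6656, 4096⟩ :=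
  boxOK_split (v := 1) p3_148 s3_903 (by decide +kernel)

theorem s3_905 : BoxOK ⟨7168, 77824, 56320, 67584, 93184, 78848, 65536, 1024, 12288, 9216, 2048, 9216, 13312, 4096⟩ :=
  boxOK_split (v := 5) s3_904 p3_152 (by decide +kernel)

theorem s3_906 : BoxOK ⟨7168, 77824, 56320, 67584, 83968, 78848, 65536, 1024, 12288, 9216, 2048, 18432, 13312, 4096⟩ :=
  boxOK_split (v := 4) s3_901 s3_905 (by decide +kernel)

theorem s3_907 : BoxOK ⟨7168, 83968, 74752, 67584, 74752, 85504, 65536, 1024, 6144, 9216, 2048, 9216, 6656, 4096⟩ :=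
  boxOK_split (v := 4) p3_155 p3_156 (by decide +kernel)

theorem s3_908 : BoxOK ⟨7168, 77824, 74752, 67584, 74752, 85504, 65536, 1024, 12288, 9216, 2048, 9216, 6656, 4096⟩ :=
  boxOK_split (v := 1) p3_154 s3_907 (by decide +kernel)

theorem s3_909 : BoxOK ⟨7168, 77824, 74752, 67584, 74752, 78848, 65536, 1024, 12288, 9216, 2048, 9216, 13312, 4096⟩ :=
  boxOK_split (v := 5) p3_153 s3_908 (by decide +kernel)

theorem s3_910 : BoxOK ⟨7168, 77824, 74752, 67584, 83968, 78848, 65536, 1024, 12288, 9216, 2048, 18432, 13312, 4096⟩ :=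
  boxOK_split (v := 4) s3_909 p3_157 (by decide +kernel)

theorem s3_911 : BoxOK ⟨7168, 77824, 65536, 67584, 83968, 78848, 65536, 1024, 12288, 18432, 2048, 18432, 13312, 4096⟩ :=
  boxOK_split (v := 2) s3_906 s3_910 (by decide +kernel)

theorem s3_912 : BoxOK ⟨7168, 65536, 65536, 67584, 83968, 78848, 65536, 1024, 24576, 18432, 2048, 18432, 13312, 4096⟩ :=
  boxOK_split (v := 1) s3_886 s3_911 (by decide +kernel)

theorem s3_913 : BoxOK ⟨7168, 65536, 65536, 67584, 83968, 65536, 65536, 1024, 24576, 18432, 2048, 18432, 26624, 4096⟩ :=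
  boxOK_split (v := 5) s3_869 s3_912 (by decide +kernel)

theorem s3_914 : BoxOK ⟨7168, 65536, 65536, 67584, 65536, 65536, 65536, 1024, 24576, 18432, 2048, 36864, 26624, 4096⟩ :=
  boxOK_split (v := 4) s3_837 s3_913 (by decide +kernel)

theorem sL : BoxOK ⟨2048, 65536, 65536, 67584, 65536, 65536, 65536, 2048, 24576, 18432, 2048, 36864, 26624, 4096⟩ :=
  boxOK_split (v := 0) s0_229 s1_468 (by decide +kernel)

theorem sR : BoxOK ⟨6144, 65536, 65536, 67584, 65536, 65536, 65536, 2048, 24576, 18432, 2048, 36864, 26624, 4096⟩ :=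
  boxOK_split (v := 0) s2_757 s3_914 (by decide +kernel)

theorem root : BoxOK ⟨4096, 65536, 65536, 67584, 65536, 65536, 65536, 4096, 24576, 18432, 2048, 36864, 26624, 4096⟩ :=
  boxOK_split (v := 0) sL sR (by decide +kernel)

end Run7.h774.B1
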