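import Pool.Agent.Run7.h774.B1Sound3

/-! Lower bound `Q1 ≥ 2.2` for the reduced vector `X`, by a small branch and bound using only the
points `n P + i X`. -/

set_option autoImplicit false

namespace Run7.h774.B1

/-- lower bound test for `Q1` -/
def qcheck (b : Box) : Bool :=
  (fun mu ru mv rv =>
    Nat.ble 9907919180215092
      (Nat.add (Nat.mul 67108864 (Nat.mul (Nat.sub mu ru) (Nat.sub mu ru)))
        (Nat.mul 2 (Nat.mul (Nat.sub mv rv) (Nat.sub mv rv)))))
    (absd b.x1 b.x3) (Nat.add b.r1 b.r3)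
    (absd (Nat.add (Nat.mul 8192 b.x2) (Nat.mul 65536 b.a)) (Nat.add 536870912 (Nat.mul b.a b.x3)))
    (Nat.add (Nat.add (Nat.mul 8192 b.r2) (Nat.mul b.a b.r3))
        (Nat.mul b.ra (Nat.add (absd b.x3 65536) b.r3)))

/-- the loop -/
noncomputable def runX (fuel : Nat) : Box → Nat → List Nat → (Nat → List Nat → Bool) → Bool :=
  Nat.rec (motive := fun _ => Box → Nat → List Nat → (Nat → List Nat → Bool) → Bool)
    (fun _ _ _ _ => false)
    (fun _ ih b s l k =>
      (fun t s1 =>
        cond (Nat.beq t 0)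
          (split b (Nat.mod s1 8) (fun bl br =>
            ih bl (Nat.div s1 8) l (fun s' l' => ih br s' l' k)))
        (cond (Nat.beq t 1)
          (cond (cond (Nat.beq (Nat.mod (Nat.div s1 2048) 32) 16) (fcheck b (decodePt s1)) false)
            (k (Nat.div s1 65536) l) false)
        (cond (Nat.beq t 2)
          (cond (qcheck b) (k s1 l) false)
          (List.rec (motive := fun _ => Bool) false (fun c l' _ => ih b c l' k) l))))
        (Nat.mod s 4) (Nat.div s 4))
    fuel

/-- the hypothesis: only the points with `j = 0` -/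
def HypX (z : Z) : Prop :=
  ∀ n i : ℤ, ¬ (n = 0 ∧ i = 0) → |n| ≤ 32 → |i| ≤ 16 →
    1 - 1 / 1000000 ≤ FF (n + i * z.x1) (n * z.a + i * z.x2) (n + i * z.x3)

theorem fcheck_core {b : Box} {z : Z} {q : Pt} (hb : Mem b z)
    (hF : 1 - 1 / 1000000 ≤ FF (q.n + q.i * z.x1 + q.j * z.y1) (q.n * z.a + q.i * z.x2 + q.j * z.y2)
      (q.n + q.i * z.x3 + q.j * z.y3))
    (h : fcheck b q = true) : False := by
  unfold fcheck at h
  obtain ⟨h0, h⟩ := cond_false_right h
  obtain ⟨h1, h2⟩ := cond_false_right h
  have r1 := small_real h1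
  have r2 := small_real h2
  simp only [Nat.add_eq] at r1 r2
  push_cast [absd_cast] at r1 r2
  have b1 := abs_le_of_center (row_bound q b.x1 b.y1 b.r1 b.s1 _ _ hb.x1 hb.y1)
  have b2 := abs_le_of_center (row_bound2 q b.a b.x2 b.y2 b.ra b.r2 b.s2 _ _ _ hb.a hb.x2 hb.y2)
  have b3 := abs_le_of_center (row_bound q b.x3 b.y3 b.r3 b.s3 _ _ hb.x3 hb.y3)
  have e := FF_scale (q.n + q.i * z.x1 + q.j * z.y1) (q.n * z.a + q.i * z.x2 + q.j * z.y2)
      (q.n + q.i * z.x3 + q.j * z.y3)
  have e1 : q.n * 8192 + q.i * (8192 * z.x1) + q.j * (8192 * z.y1)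
    = 8192 * (q.n + q.i * z.x1 + q.j * z.y1) := by ring
  have e2 : q.n * (8192 * z.a) + q.i * (8192 * z.x2) + q.j * (8192 * z.y2)
    = 8192 * (q.n * z.a + q.i * z.x2 + q.j * z.y2) := by ring
  have e3 : q.n * 8192 + q.i * (8192 * z.x3) + q.j * (8192 * z.y3)
    = 8192 * (q.n + q.i * z.x3 + q.j * z.y3) := by ring
  have := FF_le b1 b2 b3 r1 r2
  rw [e1, e2, e3, e] at this
  linarith

theorem fcheckX_sound {b : Box} {z : Z} {w : Nat} (hb : Mem b z) (hz : HypX z)
    (hj : Nat.beq (Nat.mod (Nat.div w 2048) 32) 16 = true)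
    (h : fcheck b (decodePt w) = true) : False := by
  have hj' : Nat.mod (Nat.div w 2048) 32 = 16 := by rw [Nat.beq_eq] at hj; exact hj
  have jp : (decodePt w).jp = 0 := by unfold decodePt; simp only [hj']
  have jm : (decodePt w).jm = 0 := by unfold decodePt; simp only [hj']
  have hG := good_decodePt w
  have h0 : 1 ≤ (decodePt w).ip + (decodePt w).im + ((decodePt w).jp + (decodePt w).jm) := by
    have h' := h
    unfold fcheck at h'
    exact Nat.le_of_ble_eq_true (cond_false_right h').1
  refine fcheck_core hb ?_ h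
  set q := decodePt w
  obtain ⟨n1, i1, j1, n2, i2, j2⟩ := hG
  have := hz ((q.np : ℤ) - q.nm) ((q.ip : ℤ) - q.im)
    (by omega) (by rw [abs_le]; omega) (by rw [abs_le]; omega)
  have jz : q.j = 0 := by unfold Pt.j; rw [jp, jm]; simp
  rw [jz]
  push_cast at this
  simp only [zero_mul, add_zero]
  exact this

theorem qcheck_sound {b : Box} {z : Z} (hb : Mem b z) (h : qcheck b = true) :
    22 / 10 ≤ (z.x1 - z.x3) ^ 2 + 2 * (z.x2 - z.a * z.x3) ^ 2 := by
  unfold qcheck at h
  have hu1 : |(8192 * z.x1 - 8192 * z.x3) - ((b.x1 : ℝ) - b.x3)| ≤ ((Nat.add b.r1 b.r3 : Nat) : ℝ) := by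
    simp only [Nat.add_eq]; push_cast
    have h1 := hb.x1; have h3 := hb.x3
    rw [abs_le] at h1 h3 ⊢
    constructor <;> linarith [h1.1, h1.2, h3.1, h3.2]
  have hv1 := vrad (Nat.cast_nonneg (α := ℝ) b.a) hb.a hb.x3 hb.x2
  have rv1 : (((Nat.add (Nat.add (Nat.mul 8192 b.r2) (Nat.mul b.a b.r3))
        (Nat.mul b.ra (Nat.add (absd b.x3 65536) b.r3))) : Nat) : ℝ) =
      8192 * (b.r2 : ℝ) + b.a * b.r3 + b.ra * (|(b.x3 : ℝ) - 65536| + b.r3) := by
    simp only [Nat.add_eq, Nat.mul_eq]; push_cast [absd_cast]; ring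
  rw [← rv1] at hv1
  have ev1 : ((absd (Nat.add (Nat.mul 8192 b.x2) (Nat.mul 65536 b.a)) (Nat.add 536870912 (Nat.mul b.a b.x3)) : Nat) : ℝ)
      = |8192 * ((b.x2 : ℝ) - 65536) - b.a * ((b.x3 : ℝ) - 65536)| := by
    rw [absd_cast]; simp only [Nat.add_eq, Nat.mul_eq]; push_cast; congr 1; ring
  have a1 := abs_lower hu1 (absd_cast _ _) rfl
  have a2 := abs_lower hv1 ev1 rfl
  have h' := ble_real h
  simp only [Nat.add_eq, Nat.mul_eq, Nat.cast_add, Nat.cast_mul, Nat.cast_ofNat] at h' a1 a2
  have e : 67108864 * (8192 * z.x1 - 8192 * z.x3) ^ 2 + 2 * (8192 * (8192 * z.x2) - 8192 * z.a * (8192 * z.x3)) ^ 2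
    = 4503599627370496 * ((z.x1 - z.x3) ^ 2 + 2 * (z.x2 - z.a * z.x3) ^ 2) := by ring
  linarith

/-- the box is settled -/
def BoxX (b : Box) : Prop :=
  ∀ z, Mem b z → HypX z → 22 / 10 ≤ (z.x1 - z.x3) ^ 2 + 2 * (z.x2 - z.a * z.x3) ^ 2

theorem runX_sound (fuel : Nat) :
    ∀ (b : Box) (s : Nat) (l : List Nat) (k : Nat → List Nat → Bool),
    runX fuel b s l k = true → BoxX b ∧ ∃ s' l', k s' l' = true := by
  induction fuel with
  | zero => intro b s l k h; exact absurd h (by simp [runX])
  | succ fuel ih =>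
    intro b s l k h
    change (fun t s1 =>
        cond (Nat.beq t 0)
          (split b (Nat.mod s1 8) (fun bl br =>
            runX fuel bl (Nat.div s1 8) l (fun s' l' => runX fuel br s' l' k)))
        (cond (Nat.beq t 1)
          (cond (cond (Nat.beq (Nat.mod (Nat.div s1 2048) 32) 16) (fcheck b (decodePt s1)) false)
            (k (Nat.div s1 65536) l) false)
        (cond (Nat.beq t 2)
          (cond (qcheck b) (k s1 l) false)
          (List.rec (motive := fun _ => Bool) false (fun c l' _ => runX fuel b c l' k) l))))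
        (Nat.mod s 4) (Nat.div s 4) = true at h
    beta_reduce at h
    rcases cond_true' h with ⟨-, h⟩ | ⟨-, h⟩
    · obtain ⟨bl, br, hk, hm⟩ := split_sound h
      obtain ⟨hl, s', l', hk'⟩ := ih _ _ _ _ hk
      obtain ⟨hr, s'', l'', hk''⟩ := ih _ _ _ _ hk'
      refine ⟨fun z hz hy => ?_, s'', l'', hk''⟩
      rcases hm z hz with h1 | h1
      · exact hl z h1 hy
      · exact hr z h1 hy
    rcases cond_true' h with ⟨-, h⟩ | ⟨-, h⟩
    · obtain ⟨h1, hk⟩ := cond_false_right h
      obtain ⟨h2, h3⟩ := cond_false_right h1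
      exact ⟨fun z hz hy => (fcheckX_sound hz hy h2 h3).elim, _, _, hk⟩
    rcases cond_true' h with ⟨-, h⟩ | ⟨-, h⟩
    · obtain ⟨h1, hk⟩ := cond_false_right h
      exact ⟨fun z hz hy => qcheck_sound hz h1, _, _, hk⟩
    · cases l with
      | nil => exact absurd h (by simp)
      | cons c l' => exact ih _ _ _ _ h

set_option maxRecDepth 1000000 in
theorem rootX : BoxX ⟨4096, 65536, 65536, 67584, 65536, 65536, 65536, 4096, 24576, 18432, 2048, 0, 0, 0⟩ :=
  (runX_sound 400 _ 3 [0xc80a022118164230240542302402211816423024845f684604908be81108c0b211812422fa0a6423024845f644c8460480442302c84604804423024a984a984048a653094ca61012088222845f6846050ca117da1181432127d984a6440226129910108c0a21181653224084605108c0b094230288460594230288460584022a1181442302ca61299100824230308c0c230312042303121181880442302c24230342303120221181610108c0c230312118188084606242303100884605848460611818908c2821185442302c201044448460611818460624230a084615108c0b0908c282118584606846058402094ca612994c202450241111104,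
    0x1c2302402184845f6845f408a117d984845f4121908bec22fb08bec86422fb08bed08be810c2422fa04422fb08c0b211812422fa0a6423024845f66423024021840221181612845f49422fa40508be92845f48044c845f61181610154c2554c202454230240486101221181612a6422fb2284604908be82430908be82442302c201049108bec22fb08c0b211812422fa0442302c84604908be82127d84605908c092117d84605908c0901093ec2302c846049093ec2302c8460480442302c84604908bec22fb08c0b211812422fa0442302c8460480442302c84604908bec2302c8460480a84604809108c0b211812508c0b211812422fb08c0b21181,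
    0xe11812422fa0a118125321181201108c0b0908bec2302c845f611816100884605908c092117d84605908c09008612117d054c2508bec22fb2184048aa6101219093ed4c2532117d845f64308090c849f6127da6508c0929908c0901221181612117d9108c0b2117da117d0221181610154c2010c849f61181612117d845f6845f6442302c2422fa0432117d846058405093ec2302c2532127d846058402184845f6117da984845f4086422fb08bec22fb08bec86422fb08c0b0908be810c202a61299093ed4c25093ec2302c20243080454c25423024845f4122118161012211816423024a6422fb08c0b0908be82a984022118164230240508c092,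
    0x1c22fb32117d9840422fa884605908bec22fb32117d9840422fa88460584a1181442302ca1181442302c20104845f6117d84605908c090108bec2302c84604908be81108c09104a845f644c2508be90154c201132117d845f66422fb08bed4c2422fa0430908be81108bed422fb08bec8612117d0553080442302c2532117d8460584021908bec22fb08bec22fb08bec86422fb08bed08bec8845f6430908be810c2422fa0432117d845f6117d845f6117da984845f40884605908bec22fb08c0b211812422fa0442302c2422fa0432117d8460584845f408612117d022117d845f611816422fb08c0b0908be82a612117d04884605908bec2302c,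
    0x2aa117d44c240412a117d240a117d2508be90089908be92845e60226422fb08c0b080a117d2508be901422fa4a117d201132117d8460584845e6845f4908bc81132117d201044508bec0845f5132117da117d9840422fa88460584a117d9908c0920226508c0a261008a117d] (fun _ _ => true) (by decide +kernel)).1

end Run7.h774.B1
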