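import Pool.Agent.Run7.h774.CoreDefs
import Pool.Agent.Run7.h774.LemX
import Pool.Agent.Run7.h774.B1Root

/-! The branch and bound theorem `B1`. -/

set_option autoImplicit false

namespace Run7.h774

theorem sq_le_abs {x A B : ℝ} (hB : 0 ≤ B) (h : x ^ 2 ≤ A) (hA : A ≤ B ^ 2) : |x| ≤ B := by
  have : x ^ 2 ≤ B ^ 2 := le_trans h hA
  exact abs_le_of_sq_le_sq this hB

theorem b1 : B1Stmt := by
  intro z hz ha1 hx0 hx1 hy3
  have ha0 := hz.a0
  have q12 := hz.q12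
  have ip0 := hz.ip0
  have ip2 := hz.ip2
  have qq := B1.qq_bound q12 ip0 ip2 hz.det
  set Q1 := (z.x1 - z.x3) ^ 2 + 2 * (z.x2 - z.a * z.x3) ^ 2 with hQ1
  set Q2 := (z.y1 - z.y3) ^ 2 + 2 * (z.y2 - z.a * z.y3) ^ 2 with hQ2
  have hQ1n : 0 ≤ Q1 := by rw [hQ1]; positivity
  have hQ11 : Q1 ≤ 572 / 100 := by
    by_contra hc
    push Not at hc
    have : (572 / 100 : ℝ) * (572 / 100) < Q1 * Q2 :=
      mul_lt_mul'' hc (lt_of_lt_of_le hc q12) (by norm_num) (by norm_num)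
    linarith
  have pu : (z.x1 - z.x3) ^ 2 ≤ Q1 := by rw [hQ1]; linarith [sq_nonneg (z.x2 - z.a * z.x3)]
  have pv : (z.x2 - z.a * z.x3) ^ 2 ≤ Q1 / 2 := by rw [hQ1]; linarith [sq_nonneg (z.x1 - z.x3)]
  have bu : |z.x1 - z.x3| ≤ 24 / 10 := sq_le_abs (by norm_num) (le_trans pu hQ11) (by norm_num)
  have bv : |z.x2 - z.a * z.x3| ≤ 17 / 10 := sq_le_abs (A := 286 / 100) (by norm_num) (by linarith) (by norm_num)
  have hax : 0 ≤ z.a * z.x3 ∧ z.a * z.x3 ≤ 1 / 2 := by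
    constructor
    · positivity
    · nlinarith
  have hay : |z.a * z.y3| ≤ 1 / 2 := by
    rw [abs_mul, abs_of_nonneg ha0]
    nlinarith [abs_nonneg z.y3]
  rw [abs_le] at bu bv hay hy3
  -- the lower bound for Q1
  have hX : 22 / 10 ≤ Q1 := by
    refine B1.rootX ⟨z.a, z.x1, z.x2, z.x3, 0, 0, 0⟩ ?_ ?_
    · constructor
      all_goals push_cast
      all_goals rw [abs_le]
      all_goals constructor <;> linarith [bu.1, bu.2, bv.1, bv.2, hax.1, hax.2]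
    · intro n i hni hn hi
      have := hz.hF n i 0 (by intro h; exact hni ⟨h.1, h.2.1⟩) hn hi (by norm_num)
      simpa using this
  have hQ22 : Q2 ≤ 1485 / 100 := by
    by_contra hc
    push Not at hc
    have : (22 / 10 : ℝ) * (1485 / 100) < Q1 * Q2 :=
      mul_lt_mul' hX hc (by norm_num) (by linarith)
    linarith
  have pu2 : (z.y1 - z.y3) ^ 2 ≤ Q2 := by rw [hQ2]; linarith [sq_nonneg (z.y2 - z.a * z.y3)]
  have pv2 : (z.y2 - z.a * z.y3) ^ 2 ≤ Q2 / 2 := by rw [hQ2]; linarith [sq_nonneg (z.y1 - z.y3)]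
  have bu2 : |z.y1 - z.y3| ≤ 386 / 100 := sq_le_abs (by norm_num) (le_trans pu2 hQ22) (by norm_num)
  have bv2 : |z.y2 - z.a * z.y3| ≤ 273 / 100 := sq_le_abs (A := 7425 / 1000) (by norm_num) (by linarith) (by norm_num)
  rw [abs_le] at bu2 bv2
  refine B1.root z ?_ hz
  constructor
  all_goals push_cast
  all_goals rw [abs_le]
  all_goals constructor <;> linarith [bu.1, bu.2, bv.1, bv.2, hax.1, hax.2, bu2.1, bu2.2, bv2.1, bv2.2,
    hay.1, hay.2, hy3.1, hy3.2]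

end Run7.h774
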