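import Pool.Agent.Run7.h774.B1Check

/-! Soundness of the checker of `B1Check`. -/

set_option autoImplicit false

namespace Run7.h774.B1

/-- the seven real variables -/
structure Z where
  a : ℝ
  x1 : ℝ
  x2 : ℝ
  x3 : ℝ
  y1 : ℝ
  y2 : ℝ
  y3 : ℝ

/-- membership in a box -/
structure Mem (b : Box) (z : Z) : Prop where
  a : |8192 * z.a - b.a| ≤ b.ra
  x1 : |8192 * z.x1 - ((b.x1 : ℝ) - 65536)| ≤ b.r1
  x2 : |8192 * z.x2 - ((b.x2 : ℝ) - 65536)| ≤ b.r2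
  x3 : |8192 * z.x3 - ((b.x3 : ℝ) - 65536)| ≤ b.r3
  y1 : |8192 * z.y1 - ((b.y1 : ℝ) - 65536)| ≤ b.s1
  y2 : |8192 * z.y2 - ((b.y2 : ℝ) - 65536)| ≤ b.s2
  y3 : |8192 * z.y3 - ((b.y3 : ℝ) - 65536)| ≤ b.s3

/-- `max |w1| |w2| ^2 * |w3|`. -/
noncomputable def FF (w1 w2 w3 : ℝ) : ℝ := |w3| * (max |w1| |w2|) ^ 2

/-- hypotheses on `z` -/
structure Hyp (z : Z) : Prop where
  hF : ∀ n i j : ℤ, ¬ (n = 0 ∧ i = 0 ∧ j = 0) → |n| ≤ 32 → |i| ≤ 16 → |j| ≤ 16 →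
    1 - 1 / 1000000 ≤ FF (n + i * z.x1 + j * z.y1) (n * z.a + i * z.x2 + j * z.y2)
      (n + i * z.x3 + j * z.y3)
  a0 : 0 ≤ z.a
  q12 : (z.x1 - z.x3) ^ 2 + 2 * (z.x2 - z.a * z.x3) ^ 2 ≤
    (z.y1 - z.y3) ^ 2 + 2 * (z.y2 - z.a * z.y3) ^ 2
  ip0 : 0 ≤ (z.x1 - z.x3) * (z.y1 - z.y3) + 2 * ((z.x2 - z.a * z.x3) * (z.y2 - z.a * z.y3))
  ip2 : 2 * ((z.x1 - z.x3) * (z.y1 - z.y3) + 2 * ((z.x2 - z.a * z.x3) * (z.y2 - z.a * z.y3)))
    ≤ (z.x1 - z.x3) ^ 2 + 2 * (z.x2 - z.a * z.x3) ^ 2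
  det : |(z.x1 - z.x3) * (z.y2 - z.a * z.y3) - (z.y1 - z.y3) * (z.x2 - z.a * z.x3)| ≤ 7 / 2

theorem absd_cast (p n : Nat) : ((absd p n : Nat) : ℝ) = |(p : ℝ) - n| := by
  unfold absd
  simp only [Nat.add_eq, Nat.sub_eq]
  rcases le_total p n with h | h
  · rw [Nat.sub_eq_zero_of_le h, Nat.zero_add, Nat.cast_sub h, abs_sub_comm, abs_of_nonneg]
    exact sub_nonneg.2 (by exact_mod_cast h)
  · rw [Nat.sub_eq_zero_of_le h, Nat.add_zero, Nat.cast_sub h, abs_of_nonneg]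
    exact sub_nonneg.2 (by exact_mod_cast h)

/-- the integer coefficients of a point, as reals -/
def Pt.n (q : Pt) : ℝ := (q.np : ℝ) - q.nm
def Pt.i (q : Pt) : ℝ := (q.ip : ℝ) - q.im
def Pt.j (q : Pt) : ℝ := (q.jp : ℝ) - q.jm

theorem pos_sub_neg (q : Pt) (c x y : Nat) :
    ((posr q c x y : Nat) : ℝ) - (negr q c x y : Nat)
      = q.n * c + q.i * ((x : ℝ) - 65536) + q.j * ((y : ℝ) - 65536) := by
  unfold posr negr comb Pt.n Pt.i Pt.j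
  simp only [Nat.add_eq, Nat.mul_eq]
  push_cast
  ring

theorem abs_sub_nat_le (p m : Nat) : |(p : ℝ) - m| ≤ (p : ℝ) + m := by
  rw [abs_le]; constructor <;> nlinarith [Nat.cast_nonneg (α := ℝ) p, Nat.cast_nonneg (α := ℝ) m]

theorem term_bound {i ri X c r : ℝ} (hi : |i| ≤ ri) (h : |X - c| ≤ r) : |i * X - i * c| ≤ ri * r := by
  rw [← mul_sub, abs_mul]
  exact mul_le_mul hi h (abs_nonneg _) (le_trans (abs_nonneg _) hi)

/-- row 1 or 3 -/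
theorem row_bound (q : Pt) (x y rx ry : Nat) (X Y : ℝ)
    (hx : |X - ((x : ℝ) - 65536)| ≤ rx) (hy : |Y - ((y : ℝ) - 65536)| ≤ ry) :
    |(q.n * 8192 + q.i * X + q.j * Y) -
      (((posr q 8192 x y : Nat) : ℝ) - (negr q 8192 x y : Nat))| ≤ (radr q rx ry : Nat) := by
  rw [pos_sub_neg]
  unfold radr
  simp only [Nat.add_eq, Nat.mul_eq]
  push_cast
  have h1 := term_bound (abs_sub_nat_le q.ip q.im) hx
  have h2 := term_bound (abs_sub_nat_le q.jp q.jm) hy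
  unfold Pt.n Pt.i Pt.j
  rw [abs_le] at h1 h2 ⊢
  constructor <;> linarith [h1.1, h1.2, h2.1, h2.2]

/-- row 2 -/
theorem row_bound2 (q : Pt) (c x y rc rx ry : Nat) (A X Y : ℝ) (hc : |A - (c : ℝ)| ≤ rc)
    (hx : |X - ((x : ℝ) - 65536)| ≤ rx) (hy : |Y - ((y : ℝ) - 65536)| ≤ ry) :
    |(q.n * A + q.i * X + q.j * Y) -
      (((posr q c x y : Nat) : ℝ) - (negr q c x y : Nat))| ≤ (radr2 q rc rx ry : Nat) := by
  rw [pos_sub_neg]
  unfold radr2 radr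
  simp only [Nat.add_eq, Nat.mul_eq]
  push_cast
  have h0 := term_bound (abs_sub_nat_le q.np q.nm) hc
  have h1 := term_bound (abs_sub_nat_le q.ip q.im) hx
  have h2 := term_bound (abs_sub_nat_le q.jp q.jm) hy
  unfold Pt.n Pt.i Pt.j
  rw [abs_le] at h0 h1 h2 ⊢
  constructor <;> linarith [h1.1, h1.2, h2.1, h2.2, h0.1, h0.2]

theorem abs_le_of_center {W p n r : ℝ} (h : |W - (p - n)| ≤ r) : |W| ≤ |p - n| + r := by
  have := abs_add_le (W - (p - n)) (p - n)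
  rw [sub_add_cancel] at this
  linarith

theorem small_real {m3 m : Nat} (h : small m3 m = true) :
    (m3 : ℝ) * ((m : ℝ) * m) ≤ 549755000000 := by
  unfold small at h
  simp only [Nat.mul_eq] at h
  have := Nat.le_of_ble_eq_true h
  exact_mod_cast this

/-- points that come from a decoded word -/
structure Good (q : Pt) : Prop where
  n1 : q.np = 0 ∨ q.nm = 0
  i1 : q.ip = 0 ∨ q.im = 0
  j1 : q.jp = 0 ∨ q.jm = 0
  n2 : q.np ≤ 32 ∧ q.nm ≤ 32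
  i2 : q.ip ≤ 16 ∧ q.im ≤ 16
  j2 : q.jp ≤ 16 ∧ q.jm ≤ 16

theorem good_decodePt (w : Nat) : Good (decodePt w) := by
  unfold decodePt
  have h1 : Nat.mod w 64 < 64 := Nat.mod_lt _ (by norm_num)
  have h2 : Nat.mod (Nat.div w 64) 32 < 32 := Nat.mod_lt _ (by norm_num)
  have h3 : Nat.mod (Nat.div w 2048) 32 < 32 := Nat.mod_lt _ (by norm_num)
  simp only [Nat.sub_eq]
  constructor <;> simp only [] <;> omega

theorem hyp_point {z : Z} (hz : Hyp z) {q : Pt} (hq : Good q)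
    (h1 : 1 ≤ q.ip + q.im + (q.jp + q.jm)) :
    1 - 1 / 1000000 ≤ FF (q.n + q.i * z.x1 + q.j * z.y1) (q.n * z.a + q.i * z.x2 + q.j * z.y2)
      (q.n + q.i * z.x3 + q.j * z.y3) := by
  obtain ⟨n1, i1, j1, n2, i2, j2⟩ := hq
  have := hz.hF ((q.np : ℤ) - q.nm) ((q.ip : ℤ) - q.im) ((q.jp : ℤ) - q.jm)
    (by omega) (by rw [abs_le]; omega) (by rw [abs_le]; omega) (by rw [abs_le]; omega)
  push_cast at this
  exact this

theorem FF_scale (w1 w2 w3 : ℝ) :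
    FF (8192 * w1) (8192 * w2) (8192 * w3) = 549755813888 * FF w1 w2 w3 := by
  unfold FF
  rw [abs_mul, abs_mul, abs_mul, ← mul_max_of_nonneg _ _ (abs_nonneg (8192 : ℝ)),
    abs_of_pos (by norm_num : (0:ℝ) < 8192)]
  ring

/-- scaled version of `hyp_point` -/
theorem hyp_scaled {z : Z} (hz : Hyp z) {q : Pt} (hq : Good q)
    (h1 : 1 ≤ q.ip + q.im + (q.jp + q.jm)) :
    549755813888 * (1 - 1 / 1000000) ≤
      FF (q.n * 8192 + q.i * (8192 * z.x1) + q.j * (8192 * z.y1))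
        (q.n * (8192 * z.a) + q.i * (8192 * z.x2) + q.j * (8192 * z.y2))
        (q.n * 8192 + q.i * (8192 * z.x3) + q.j * (8192 * z.y3)) := by
  have h := hyp_point hz hq h1
  have e := FF_scale (q.n + q.i * z.x1 + q.j * z.y1) (q.n * z.a + q.i * z.x2 + q.j * z.y2)
      (q.n + q.i * z.x3 + q.j * z.y3)
  have e1 : q.n * 8192 + q.i * (8192 * z.x1) + q.j * (8192 * z.y1)
    = 8192 * (q.n + q.i * z.x1 + q.j * z.y1) := by ring
  have e2 : q.n * (8192 * z.a) + q.i * (8192 * z.x2) + q.j * (8192 * z.y2)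
    = 8192 * (q.n * z.a + q.i * z.x2 + q.j * z.y2) := by ring
  have e3 : q.n * 8192 + q.i * (8192 * z.x3) + q.j * (8192 * z.y3)
    = 8192 * (q.n + q.i * z.x3 + q.j * z.y3) := by ring
  rw [e1, e2, e3, e]
  exact mul_le_mul_of_nonneg_left h (by norm_num)

theorem FF_le {w1 w2 w3 m1 m2 m3 T : ℝ} (h1 : |w1| ≤ m1) (h2 : |w2| ≤ m2) (h3 : |w3| ≤ m3)
    (t1 : m3 * (m1 * m1) ≤ T) (t2 : m3 * (m2 * m2) ≤ T) : FF w1 w2 w3 ≤ T := by
  unfold FF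
  have h3' : 0 ≤ m3 := le_trans (abs_nonneg _) h3
  rcases le_total |w1| |w2| with h | h
  · rw [max_eq_right h]
    have : |w2| ^ 2 ≤ m2 * m2 := by nlinarith [abs_nonneg w2]
    calc |w3| * |w2| ^ 2 ≤ m3 * (m2 * m2) :=
          mul_le_mul h3 this (by positivity) h3'
      _ ≤ T := t2
  · rw [max_eq_left h]
    have : |w1| ^ 2 ≤ m1 * m1 := by nlinarith [abs_nonneg w1]
    calc |w3| * |w1| ^ 2 ≤ m3 * (m1 * m1) :=
          mul_le_mul h3 this (by positivity) h3'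
      _ ≤ T := t1

theorem cond_true' {c x y : Bool} (h : cond c x y = true) : (c = true ∧ x = true) ∨ (c = false ∧ y = true) := by
  cases c <;> simp_all

theorem cond_false_right {c x : Bool} (h : cond c x false = true) : c = true ∧ x = true := by
  cases c <;> simp_all

theorem fcheck_sound {b : Box} {z : Z} {q : Pt} (hb : Mem b z) (hz : Hyp z) (hq : Good q)
    (h : fcheck b q = true) : False := by
  unfold fcheck at h
  obtain ⟨h0, h⟩ := cond_false_right h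
  obtain ⟨h1, h2⟩ := cond_false_right h
  have h0' : 1 ≤ q.ip + q.im + (q.jp + q.jm) := Nat.le_of_ble_eq_true h0
  have r1 := small_real h1
  have r2 := small_real h2
  simp only [Nat.add_eq] at r1 r2
  push_cast [absd_cast] at r1 r2
  have b1 := abs_le_of_center (row_bound q b.x1 b.y1 b.r1 b.s1 _ _ hb.x1 hb.y1)
  have b2 := abs_le_of_center (row_bound2 q b.a b.x2 b.y2 b.ra b.r2 b.s2 _ _ _ hb.a hb.x2 hb.y2)
  have b3 := abs_le_of_center (row_bound q b.x3 b.y3 b.r3 b.s3 _ _ hb.x3 hb.y3)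
  have hF := hyp_scaled hz hq h0'
  have := FF_le b1 b2 b3 r1 r2
  linarith

theorem amgm_real {P Q R u v : ℝ} (hP : 0 ≤ P) (hQ : 0 ≤ Q) (hu : 0 ≤ u) (hv : 0 ≤ v)
    (h : 549755813888 * (1 - 1 / 1000000) ≤ u * v ^ 2)
    (hR : 4000008 * R ^ 3 ≤ 14843406974976000000 * (P * Q ^ 2)) : R ≤ P * u + Q * v := by
  have key : 27 * (P * u) * (Q * v / 2) ^ 2 ≤ (P * u + Q * v) ^ 3 := by
    have h1 : 0 ≤ P * u := mul_nonneg hP hu
    have h2 : 0 ≤ Q * v / 2 := by positivity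
    have h3 : (P * u + Q * v) ^ 3 - 27 * (P * u) * (Q * v / 2) ^ 2
        = (P * u - Q * v / 2) ^ 2 * (P * u + 8 * (Q * v / 2)) := by ring
    have h4 : 0 ≤ (P * u - Q * v / 2) ^ 2 * (P * u + 8 * (Q * v / 2)) := by positivity
    linarith
  have hPQ : 0 ≤ P * Q ^ 2 := by positivity
  have h5 : P * Q ^ 2 * (549755813888 * (1 - 1 / 1000000)) ≤ P * Q ^ 2 * (u * v ^ 2) :=
    mul_le_mul_of_nonneg_left h hPQ
  have h6 : R ^ 3 ≤ (P * u + Q * v) ^ 3 := by nlinarith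
  have h7 : 0 ≤ P * u + Q * v := by positivity
  exact le_of_pow_le_pow_left₀ (by norm_num) h7 h6

theorem main_con {P Q R pp nn radp mq m3 : Nat} {wp wq w3 : ℝ}
    (h3 : |w3| ≤ m3) (hq : |wq| ≤ mq) (hp : |wp - ((pp : ℝ) - nn)| ≤ radp) (h30 : 0 ≤ w3)
    (hF : 549755813888 * (1 - 1 / 1000000) ≤ |w3| * (max |wp| |wq|) ^ 2)
    (h : okc pp nn radp mq m3 P Q R = true) : (R : ℝ) ≤ P * w3 + Q * wp := by
  unfold okc at h
  obtain ⟨ha, h⟩ := cond_false_right h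
  obtain ⟨hb, hc⟩ := cond_false_right h
  have ha' : (nn : ℝ) + radp ≤ pp := by
    have := Nat.le_of_ble_eq_true ha
    simp only [Nat.add_eq] at this
    exact_mod_cast this
  have hc' : 4000008 * (R : ℝ) ^ 3 ≤ 14843406974976000000 * (P * (Q : ℝ) ^ 2) := by
    unfold rok at hc
    have := Nat.le_of_ble_eq_true hc
    simp only [Nat.mul_eq] at this
    have h' : (4000008 : ℝ) * (R * (R * R)) ≤ 14843406974976000000 * (P * (Q * Q)) := by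
      exact_mod_cast this
    linarith [h']
  have hwp : (pp : ℝ) - nn - radp ≤ wp := by
    have := (abs_le.1 hp).1
    linarith
  have hwp0 : 0 ≤ wp := by linarith
  have hmax : 549755813888 * (1 - 1 / 1000000) ≤ w3 * wp ^ 2 := by
    rw [abs_of_nonneg h30] at hF
    rw [abs_of_nonneg hwp0] at hF
    rcases le_total |wq| wp with hle | hle
    · rwa [max_eq_left hle] at hF
    · rw [max_eq_right hle] at hF
      rcases cond_true' hb with ⟨hs, -⟩ | ⟨-, hs⟩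
      · exfalso
        have hs' := small_real hs
        rw [abs_of_nonneg h30] at h3
        have : w3 * |wq| ^ 2 ≤ m3 * (mq * mq) := by
          have : |wq| ^ 2 ≤ (mq : ℝ) * mq := by nlinarith [abs_nonneg wq]
          exact mul_le_mul h3 this (by positivity) (Nat.cast_nonneg _)
        linarith
      · have hs' := Nat.le_of_ble_eq_true hs
        simp only [Nat.add_eq] at hs'
        have hs2 : (mq : ℝ) + radp + nn ≤ pp := by exact_mod_cast hs'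
        have : |wq| ≤ wp := by linarith
        have e : |wq| = wp := le_antisymm this hle
        rwa [e] at hF
  exact amgm_real (Nat.cast_nonneg _) (Nat.cast_nonneg _) h30 hwp0 hmax hc'

/-- value of the accumulated form at `z` -/
noncomputable def Acc.val (acc : Acc) (b : Box) (z : Z) : ℝ :=
  ((acc.cp : ℝ) - acc.cn) + ((acc.ap : ℝ) - acc.an) * (8192 * z.a - b.a)
  + ((acc.x1p : ℝ) - acc.x1n) * (8192 * z.x1 - ((b.x1 : ℝ) - 65536))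
  + ((acc.x2p : ℝ) - acc.x2n) * (8192 * z.x2 - ((b.x2 : ℝ) - 65536))
  + ((acc.x3p : ℝ) - acc.x3n) * (8192 * z.x3 - ((b.x3 : ℝ) - 65536))
  + ((acc.y1p : ℝ) - acc.y1n) * (8192 * z.y1 - ((b.y1 : ℝ) - 65536))
  + ((acc.y2p : ℝ) - acc.y2n) * (8192 * z.y2 - ((b.y2 : ℝ) - 65536))
  + ((acc.y3p : ℝ) - acc.y3n) * (8192 * z.y3 - ((b.y3 : ℝ) - 65536))

theorem cstep_sound {b : Box} {z : Z} {q : Pt} (hb : Mem b z) (hz : Hyp z) (hq : Good q)
    {ks P Q R : Nat} {acc : Acc} {k : Acc → Bool} (h : cstep b q ks P Q R acc k = true) :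
    ∃ acc', k acc' = true ∧ acc.val b z ≤ acc'.val b z := by
  unfold cstep at h
  obtain ⟨h0, h⟩ := cond_false_right h
  obtain ⟨hw3, h1⟩ := cond_false_right h0
  have h1' : 1 ≤ q.ip + q.im + (q.jp + q.jm) := Nat.le_of_ble_eq_true h1
  have hF := hyp_scaled hz hq h1'
  have b1 := row_bound q b.x1 b.y1 b.r1 b.s1 _ _ hb.x1 hb.y1
  have b2 := row_bound2 q b.a b.x2 b.y2 b.ra b.r2 b.s2 _ _ _ hb.a hb.x2 hb.y2
  have b3 := row_bound q b.x3 b.y3 b.r3 b.s3 _ _ hb.x3 hb.y3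
  have e1 := pos_sub_neg q 8192 b.x1 b.y1
  have e2 := pos_sub_neg q b.a b.x2 b.y2
  have e3 := pos_sub_neg q 8192 b.x3 b.y3
  set p1 := posr q 8192 b.x1 b.y1
  set n1 := negr q 8192 b.x1 b.y1
  set p2 := posr q b.a b.x2 b.y2
  set n2 := negr q b.a b.x2 b.y2
  set p3 := posr q 8192 b.x3 b.y3
  set n3 := negr q 8192 b.x3 b.y3
  set d1 := radr q b.r1 b.s1
  set d2 := radr2 q b.ra b.r2 b.s2
  set d3 := radr q b.r3 b.s3
  have hw3' : (n3 : ℝ) + d3 ≤ p3 := by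
    have := Nat.le_of_ble_eq_true hw3
    simp only [Nat.add_eq] at this
    exact_mod_cast this
  set w1 := q.n * 8192 + q.i * (8192 * z.x1) + q.j * (8192 * z.y1) with hw1
  set w2 := q.n * (8192 * z.a) + q.i * (8192 * z.x2) + q.j * (8192 * z.y2) with hw2
  set w3 := q.n * 8192 + q.i * (8192 * z.x3) + q.j * (8192 * z.y3) with hw3d
  have c30 : 0 ≤ w3 := by have := (abs_le.1 b3).1; linarith
  have hle : n3 ≤ p3 := by
    have := Nat.le_of_ble_eq_true hw3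
    simp only [Nat.add_eq] at this
    omega
  have m3 : |w3| ≤ ((Nat.add (Nat.sub p3 n3) d3 : Nat) : ℝ) := by
    simp only [Nat.add_eq, Nat.sub_eq]
    rw [Nat.cast_add, Nat.cast_sub hle]
    have := abs_le_of_center b3
    rw [abs_of_nonneg (by linarith [Nat.cast_nonneg (α := ℝ) d3] : (0 : ℝ) ≤ (p3 : ℝ) - n3)] at this
    exact this
  have m1 : |w1| ≤ ((Nat.add (absd p1 n1) d1 : Nat) : ℝ) := by
    simp only [Nat.add_eq]
    rw [Nat.cast_add, absd_cast]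
    exact abs_le_of_center b1
  have m2 : |w2| ≤ ((Nat.add (absd p2 n2) d2 : Nat) : ℝ) := by
    simp only [Nat.add_eq]
    rw [Nat.cast_add, absd_cast]
    exact abs_le_of_center b2
  have hF1 : 549755813888 * (1 - 1 / 1000000) ≤ |w3| * (max |w1| |w2|) ^ 2 := hF
  have hF2 : 549755813888 * (1 - 1 / 1000000) ≤ |w3| * (max |w2| |w1|) ^ 2 := by
    rw [max_comm]; exact hF
  have b1' : |(-w1) - ((n1 : ℝ) - p1)| ≤ d1 := by
    rw [show (-w1) - ((n1 : ℝ) - p1) = -(w1 - ((p1 : ℝ) - n1)) by ring, abs_neg]; exact b1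
  have b2' : |(-w2) - ((n2 : ℝ) - p2)| ≤ d2 := by
    rw [show (-w2) - ((n2 : ℝ) - p2) = -(w2 - ((p2 : ℝ) - n2)) by ring, abs_neg]; exact b2
  rcases cond_true' h with ⟨-, h⟩ | ⟨-, h⟩
  · obtain ⟨ho, hk⟩ := cond_false_right h
    have hc := main_con m3 m2 b1 c30 hF1 ho
    refine ⟨_, hk, ?_⟩
    simp only [Acc.val, Nat.add_eq, Nat.mul_eq]
    push_cast
    simp only [Pt.n, Pt.i, Pt.j] at e1 e2 e3 hw1 hw2 hw3d
    rw [hw1, hw3d] at hc
    linear_combination hc - (P : ℝ) * e3 - (Q : ℝ) * e1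
  rcases cond_true' h with ⟨-, h⟩ | ⟨-, h⟩
  · obtain ⟨ho, hk⟩ := cond_false_right h
    rw [← abs_neg w1] at hF1
    have hc := main_con m3 m2 b1' c30 hF1 ho
    refine ⟨_, hk, ?_⟩
    simp only [Acc.val, Nat.add_eq, Nat.mul_eq]
    push_cast
    simp only [Pt.n, Pt.i, Pt.j] at e1 e2 e3 hw1 hw2 hw3d
    rw [hw1, hw3d] at hc
    linear_combination hc - (P : ℝ) * e3 + (Q : ℝ) * e1
  rcases cond_true' h with ⟨-, h⟩ | ⟨-, h⟩
  · obtain ⟨ho, hk⟩ := cond_false_right h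
    have hc := main_con m3 m1 b2 c30 hF2 ho
    refine ⟨_, hk, ?_⟩
    simp only [Acc.val, Nat.add_eq, Nat.mul_eq]
    push_cast
    simp only [Pt.n, Pt.i, Pt.j] at e1 e2 e3 hw1 hw2 hw3d
    rw [hw2, hw3d] at hc
    linear_combination hc - (P : ℝ) * e3 - (Q : ℝ) * e2
  · obtain ⟨ho, hk⟩ := cond_false_right h
    rw [← abs_neg w2] at hF2
    have hc := main_con m3 m1 b2' c30 hF2 ho
    refine ⟨_, hk, ?_⟩
    simp only [Acc.val, Nat.add_eq, Nat.mul_eq]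
    push_cast
    simp only [Pt.n, Pt.i, Pt.j] at e1 e2 e3 hw1 hw2 hw3d
    rw [hw2, hw3d] at hc
    linear_combination hc - (P : ℝ) * e3 + (Q : ℝ) * e2

theorem lin_bound (G : ℝ) {δ r : ℝ} (h : |δ| ≤ r) : G * δ ≤ |G| * r := by
  calc G * δ ≤ |G * δ| := le_abs_self _
    _ = |G| * |δ| := abs_mul _ _
    _ ≤ |G| * r := mul_le_mul_of_nonneg_left h (abs_nonneg _)

theorem blt_real {m n : Nat} (h : Nat.blt m n = true) : (m : ℝ) < n := by
  have : m < n := by simpa [Nat.blt_eq] using h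
  exact_mod_cast this

theorem fin0_sound {b : Box} {z : Z} (hb : Mem b z) {acc : Acc} (h0 : 0 ≤ acc.val b z)
    (h : fin0 b acc = true) : False := by
  unfold fin0 at h
  have h' := blt_real h
  simp only [Nat.add_eq, Nat.mul_eq] at h'
  push_cast [absd_cast] at h'
  unfold Acc.val at h0
  have fa := lin_bound ((acc.ap : ℝ) - acc.an) hb.a
  have f1 := lin_bound ((acc.x1p : ℝ) - acc.x1n) hb.x1
  have f2 := lin_bound ((acc.x2p : ℝ) - acc.x2n) hb.x2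
  have f3 := lin_bound ((acc.x3p : ℝ) - acc.x3n) hb.x3
  have f4 := lin_bound ((acc.y1p : ℝ) - acc.y1n) hb.y1
  have f5 := lin_bound ((acc.y2p : ℝ) - acc.y2n) hb.y2
  have f6 := lin_bound ((acc.y3p : ℝ) - acc.y3n) hb.y3
  linarith

theorem ft_cast (ld vp vn gp gn r : Nat) :
    ((ft ld vp vn gp gn r : Nat) : ℝ) =
      |(67108864 * (vp : ℝ) + ld * gn) - (67108864 * (vn : ℝ) + ld * gp)| * r := by
  unfold ft
  simp only [Nat.add_eq, Nat.mul_eq]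
  push_cast [absd_cast]
  rfl

theorem core_sound {b : Box} {z : Z} (hb : Mem b z) {acc : Acc} (h0 : 0 ≤ acc.val b z)
    {ld gap gan g1p g1n g2p g2n g3p g3n h1p h1n h2p h2n h3p h3n Dp Dn E : Nat}
    (hD : ((Dp : ℝ) - Dn) + ((gap : ℝ) - gan) * (8192 * z.a - b.a)
      + ((g1p : ℝ) - g1n) * (8192 * z.x1 - ((b.x1 : ℝ) - 65536))
      + ((g2p : ℝ) - g2n) * (8192 * z.x2 - ((b.x2 : ℝ) - 65536))
      + ((g3p : ℝ) - g3n) * (8192 * z.x3 - ((b.x3 : ℝ) - 65536))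
      + ((h1p : ℝ) - h1n) * (8192 * z.y1 - ((b.y1 : ℝ) - 65536))
      + ((h2p : ℝ) - h2n) * (8192 * z.y2 - ((b.y2 : ℝ) - 65536))
      + ((h3p : ℝ) - h3n) * (8192 * z.y3 - ((b.y3 : ℝ) - 65536)) ≤ 1924145348608 + E)
    (h : core b ld acc gap gan g1p g1n g2p g2n g3p g3n h1p h1n h2p h2n h3p h3n Dp Dn E = true) :
    False := by
  unfold core at h
  have h' := blt_real h
  simp only [Nat.add_eq, Nat.mul_eq] at h'
  push_cast [ft_cast] at h'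
  unfold Acc.val at h0
  have fa := lin_bound ((67108864 * (acc.ap : ℝ) + ld * gan) - (67108864 * (acc.an : ℝ) + ld * gap)) hb.a
  have f1 := lin_bound ((67108864 * (acc.x1p : ℝ) + ld * g1n) - (67108864 * (acc.x1n : ℝ) + ld * g1p)) hb.x1
  have f2 := lin_bound ((67108864 * (acc.x2p : ℝ) + ld * g2n) - (67108864 * (acc.x2n : ℝ) + ld * g2p)) hb.x2
  have f3 := lin_bound ((67108864 * (acc.x3p : ℝ) + ld * g3n) - (67108864 * (acc.x3n : ℝ) + ld * g3p)) hb.x3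
  have f4 := lin_bound ((67108864 * (acc.y1p : ℝ) + ld * h1n) - (67108864 * (acc.y1n : ℝ) + ld * h1p)) hb.y1
  have f5 := lin_bound ((67108864 * (acc.y2p : ℝ) + ld * h2n) - (67108864 * (acc.y2n : ℝ) + ld * h2p)) hb.y2
  have f6 := lin_bound ((67108864 * (acc.y3p : ℝ) + ld * h3n) - (67108864 * (acc.y3n : ℝ) + ld * h3p)) hb.y3
  have hD' := mul_le_mul_of_nonneg_left hD (Nat.cast_nonneg (α := ℝ) ld)
  linarith

theorem prod_bound {u v ru rv : ℝ} (hu : |u| ≤ ru) (hv : |v| ≤ rv) : |u * v| ≤ ru * rv := by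
  rw [abs_mul]
  exact mul_le_mul hu hv (abs_nonneg _) (le_trans (abs_nonneg _) hu)

theorem rem_bound {a x1 x2 x3 y1 y2 y3 α δ1 δ2 δ3 ε1 ε2 ε3 ra r1 r2 r3 s1 s2 s3 : ℝ}
    (ha : 0 ≤ a) (hα : |α| ≤ ra) (h1 : |δ1| ≤ r1) (h2 : |δ2| ≤ r2) (h3 : |δ3| ≤ r3)
    (k1 : |ε1| ≤ s1) (k2 : |ε2| ≤ s2) (k3 : |ε3| ≤ s3) :
    |8192 * ((x2 + δ2) * (y3 + ε3) - (x3 + δ3) * (y2 + ε2))
      + (a + α) * ((x3 + δ3) * (y1 + ε1) - (x1 + δ1) * (y3 + ε3))
      + 8192 * ((x1 + δ1) * (y2 + ε2) - (x2 + δ2) * (y1 + ε1))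
      - ((x1 * (8192 * y2 - a * y3) + x2 * (8192 * (y3 - y1)) + x3 * (a * y1 - 8192 * y2))
        + (x3 * y1 - x1 * y3) * α + (8192 * y2 - a * y3) * δ1 + (8192 * (y3 - y1)) * δ2
        + (a * y1 - 8192 * y2) * δ3 + (a * x3 - 8192 * x2) * ε1 + (8192 * (x1 - x3)) * ε2
        + (8192 * x2 - a * x1) * ε3)|
    ≤ 8192 * ((r2 * s3 + r3 * s2) + (r1 * s2 + r2 * s1)) + (a + ra) * (r3 * s1 + r1 * s3)
      + ra * ((r3 * |y1| + |x3| * s1) + (r1 * |y3| + |x1| * s3)) := by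
  have haα : |a + α| ≤ a + ra := by
    calc |a + α| ≤ |a| + |α| := abs_add_le _ _
      _ ≤ a + ra := by rw [abs_of_nonneg ha]; linarith
  have p1 := prod_bound h2 k3
  have p2 := prod_bound h3 k2
  have p3 := prod_bound h1 k2
  have p4 := prod_bound h2 k1
  have p5 := prod_bound haα (prod_bound h3 k1)
  have p6 := prod_bound haα (prod_bound h1 k3)
  have p7 := prod_bound hα (prod_bound h3 (le_refl |y1|))
  have p8 := prod_bound hα (prod_bound (le_refl |x3|) k1)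
  have p9 := prod_bound hα (prod_bound h1 (le_refl |y3|))
  have p10 := prod_bound hα (prod_bound (le_refl |x1|) k3)
  rw [abs_le] at p1 p2 p3 p4 p5 p6 p7 p8 p9 p10 ⊢
  constructor <;> linarith [p1.1, p1.2, p2.1, p2.2, p3.1, p3.2, p4.1, p4.2, p5.1, p5.2, p6.1, p6.2,
    p7.1, p7.2, p8.1, p8.2, p9.1, p9.2, p10.1, p10.2]

theorem eterm_cast (b : Box) : ((eterm b : Nat) : ℝ) =
    8192 * (((b.r2 : ℝ) * b.s3 + b.r3 * b.s2) + (b.r1 * b.s2 + b.r2 * b.s1))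
      + (b.a + b.ra) * (b.r3 * b.s1 + b.r1 * b.s3)
      + b.ra * ((b.r3 * |(b.y1 : ℝ) - 65536| + |(b.x3 : ℝ) - 65536| * b.s1)
        + (b.r1 * |(b.y3 : ℝ) - 65536| + |(b.x1 : ℝ) - 65536| * b.s3)) := by
  unfold eterm
  simp only [Nat.add_eq, Nat.mul_eq]
  push_cast [absd_cast]
  ring

theorem dterm_sub (b : Box) (g1p g1n g2p g2n g3p g3n : Nat) :
    ((dterm b g1p g1n g2p g2n g3p g3n : Nat) : ℝ) - (dterm b g1n g1p g2n g2p g3n g3p : Nat) =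
      ((b.x1 : ℝ) - 65536) * ((g1p : ℝ) - g1n) + ((b.x2 : ℝ) - 65536) * ((g2p : ℝ) - g2n)
      + ((b.x3 : ℝ) - 65536) * ((g3p : ℝ) - g3n) := by
  unfold dterm
  simp only [Nat.add_eq, Nat.mul_eq]
  push_cast
  ring

theorem fin1_sound {b : Box} {z : Z} (hb : Mem b z) (hz : Hyp z) {acc : Acc}
    (h0 : 0 ≤ acc.val b z) {sd ld : Nat} (h : fin1 b sd ld acc = true) : False := by
  have R := rem_bound (a := (b.a : ℝ)) (x1 := (b.x1 : ℝ) - 65536) (x2 := (b.x2 : ℝ) - 65536)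
    (x3 := (b.x3 : ℝ) - 65536) (y1 := (b.y1 : ℝ) - 65536) (y2 := (b.y2 : ℝ) - 65536)
    (y3 := (b.y3 : ℝ) - 65536) (Nat.cast_nonneg _) hb.a hb.x1 hb.x2 hb.x3 hb.y1 hb.y2 hb.y3
  rw [← eterm_cast b] at R
  have hdet := hz.det
  have e : 8192 * (((b.x2 : ℝ) - 65536 + (8192 * z.x2 - ((b.x2 : ℝ) - 65536))) *
        ((b.y3 : ℝ) - 65536 + (8192 * z.y3 - ((b.y3 : ℝ) - 65536))) -
        ((b.x3 : ℝ) - 65536 + (8192 * z.x3 - ((b.x3 : ℝ) - 65536))) *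
        ((b.y2 : ℝ) - 65536 + (8192 * z.y2 - ((b.y2 : ℝ) - 65536))))
      + ((b.a : ℝ) + (8192 * z.a - b.a)) * (((b.x3 : ℝ) - 65536 + (8192 * z.x3 - ((b.x3 : ℝ) - 65536))) *
        ((b.y1 : ℝ) - 65536 + (8192 * z.y1 - ((b.y1 : ℝ) - 65536))) -
        ((b.x1 : ℝ) - 65536 + (8192 * z.x1 - ((b.x1 : ℝ) - 65536))) *
        ((b.y3 : ℝ) - 65536 + (8192 * z.y3 - ((b.y3 : ℝ) - 65536))))
      + 8192 * (((b.x1 : ℝ) - 65536 + (8192 * z.x1 - ((b.x1 : ℝ) - 65536))) *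
        ((b.y2 : ℝ) - 65536 + (8192 * z.y2 - ((b.y2 : ℝ) - 65536))) -
        ((b.x2 : ℝ) - 65536 + (8192 * z.x2 - ((b.x2 : ℝ) - 65536))) *
        ((b.y1 : ℝ) - 65536 + (8192 * z.y1 - ((b.y1 : ℝ) - 65536))))
      = 549755813888 * ((z.x1 - z.x3) * (z.y2 - z.a * z.y3) - (z.y1 - z.y3) * (z.x2 - z.a * z.x3)) := by
    ring
  rw [e] at R
  rw [abs_le] at R hdet
  unfold fin1 at h
  rcases cond_true' h with ⟨-, h⟩ | ⟨-, h⟩
  · refine core_sound hb h0 ?_ h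
    rw [dterm_sub]
    simp only [Nat.add_eq, Nat.mul_eq]
    push_cast
    linarith [R.1, R.2, hdet.1, hdet.2]
  · refine core_sound hb h0 ?_ h
    rw [dterm_sub]
    simp only [Nat.add_eq, Nat.mul_eq]
    push_cast
    linarith [R.1, R.2, hdet.1, hdet.2]


/-! ### reduction leaves -/

theorem abs_lower {U c r : ℝ} {m ru : Nat} (h : |U - c| ≤ r) (hm : (m : ℝ) = |c|) (hr : (ru : ℝ) = r) :
    ((Nat.sub m ru : Nat) : ℝ) * ((Nat.sub m ru : Nat) : ℝ) ≤ U ^ 2 := by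
  have h1 : ((Nat.sub m ru : Nat) : ℝ) ≤ |U| := by
    simp only [Nat.sub_eq]
    rcases le_total m ru with hle | hle
    · rw [Nat.sub_eq_zero_of_le hle, Nat.cast_zero]; exact abs_nonneg _
    · rw [Nat.cast_sub hle, hm, hr]
      have := abs_sub_abs_le_abs_sub c U
      rw [abs_sub_comm] at this
      linarith
  have h0 : (0 : ℝ) ≤ ((Nat.sub m ru : Nat) : ℝ) := Nat.cast_nonneg _
  have : |U| ^ 2 = U ^ 2 := sq_abs U
  nlinarith

theorem abs_upper {U c r : ℝ} {m ru : Nat} (h : |U - c| ≤ r) (hm : (m : ℝ) = |c|) (hr : (ru : ℝ) = r) :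
    U ^ 2 ≤ ((m : ℝ) + ru) * ((m : ℝ) + ru) := by
  have h1 : |U| ≤ (m : ℝ) + ru := by
    have := abs_add_le (U - c) c
    rw [sub_add_cancel] at this
    rw [hm, hr]; linarith
  have h0 : 0 ≤ |U| := abs_nonneg _
  have : |U| ^ 2 = U ^ 2 := sq_abs U
  nlinarith

theorem mul_center {U1 U2 c1 c2 r1 r2 : ℝ} (h1 : |U1 - c1| ≤ r1) (h2 : |U2 - c2| ≤ r2) :
    |U1 * U2 - c1 * c2| ≤ |c1| * r2 + r1 * |c2| + r1 * r2 := by
  have e : U1 * U2 - c1 * c2 = c1 * (U2 - c2) + (U1 - c1) * c2 + (U1 - c1) * (U2 - c2) := by ring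
  rw [e]
  have p1 := prod_bound (le_refl |c1|) h2
  have p2 := prod_bound h1 (le_refl |c2|)
  have p3 := prod_bound h1 h2
  rw [abs_le] at p1 p2 p3 ⊢
  constructor <;> linarith [p1.1, p1.2, p2.1, p2.2, p3.1, p3.2]

theorem rtest_sound {kind mu1 ru1 mv1 rv1 mu2 ru2 mv2 rv2 up un vp vn : Nat}
    {U1 V1 U2 V2 cu1 cv1 cu2 cv2 : ℝ}
    (hu1 : |U1 - cu1| ≤ ru1) (hv1 : |V1 - cv1| ≤ rv1) (hu2 : |U2 - cu2| ≤ ru2) (hv2 : |V2 - cv2| ≤ rv2)
    (eu1 : (mu1 : ℝ) = |cu1|) (ev1 : (mv1 : ℝ) = |cv1|) (eu2 : (mu2 : ℝ) = |cu2|) (ev2 : (mv2 : ℝ) = |cv2|)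
    (eu : (up : ℝ) - un = cu1 * cu2) (ev : (vp : ℝ) - vn = cv1 * cv2)
    (q12 : 67108864 * U1 ^ 2 + 2 * V1 ^ 2 ≤ 67108864 * U2 ^ 2 + 2 * V2 ^ 2)
    (ip0 : 0 ≤ 67108864 * (U1 * U2) + 2 * (V1 * V2))
    (ip2 : 2 * (67108864 * (U1 * U2) + 2 * (V1 * V2)) ≤ 67108864 * U1 ^ 2 + 2 * V1 ^ 2)
    (qq : 3 * ((67108864 * U1 ^ 2 + 2 * V1 ^ 2) * (67108864 * U2 ^ 2 + 2 * V2 ^ 2)) ≤
      1987676141157863701546830626029568)
    (h : rtest kind mu1 ru1 mv1 rv1 mu2 ru2 mv2 rv2 up un vp vn = true) : False := by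
  have pu := mul_center hu1 hu2
  have pv := mul_center hv1 hv2
  rw [← eu, ← eu1, ← eu2] at pu
  rw [← ev, ← ev1, ← ev2] at pv
  rw [abs_le] at pu pv
  unfold rtest at h
  rcases cond_true' h with ⟨-, h⟩ | ⟨-, h⟩
  · have h' := blt_real h
    have a1 := abs_lower hu1 eu1 rfl
    have a2 := abs_lower hv1 ev1 rfl
    have a3 := abs_upper hu2 eu2 rfl
    have a4 := abs_upper hv2 ev2 rfl
    simp only [Nat.add_eq, Nat.mul_eq, Nat.cast_add, Nat.cast_mul, Nat.cast_ofNat] at h'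
    linarith
  rcases cond_true' h with ⟨-, h⟩ | ⟨-, h⟩
  · have h' := blt_real h
    simp only [Nat.add_eq, Nat.mul_eq, Nat.cast_add, Nat.cast_mul, Nat.cast_ofNat] at h'
    linarith [pu.1, pu.2, pv.1, pv.2]
  rcases cond_true' h with ⟨-, h⟩ | ⟨-, h⟩
  · have h' := blt_real h
    have a3 := abs_upper hu1 eu1 rfl
    have a4 := abs_upper hv1 ev1 rfl
    simp only [Nat.add_eq, Nat.mul_eq, Nat.cast_add, Nat.cast_mul, Nat.cast_ofNat] at h'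
    linarith [pu.1, pu.2, pv.1, pv.2]
  · have h' := blt_real h
    have a1 := abs_lower hu1 eu1 rfl
    have a2 := abs_lower hv1 ev1 rfl
    have a3 := abs_lower hu2 eu2 rfl
    have a4 := abs_lower hv2 ev2 rfl
    simp only [Nat.add_eq, Nat.mul_eq, Nat.cast_add, Nat.cast_mul, Nat.cast_ofNat] at h'
    set A1 : ℝ := ((Nat.sub mu1 ru1 : Nat) : ℝ) * ((Nat.sub mu1 ru1 : Nat) : ℝ) with hA1
    set A2 : ℝ := ((Nat.sub mv1 rv1 : Nat) : ℝ) * ((Nat.sub mv1 rv1 : Nat) : ℝ) with hA2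
    set A3 : ℝ := ((Nat.sub mu2 ru2 : Nat) : ℝ) * ((Nat.sub mu2 ru2 : Nat) : ℝ) with hA3
    set A4 : ℝ := ((Nat.sub mv2 rv2 : Nat) : ℝ) * ((Nat.sub mv2 rv2 : Nat) : ℝ) with hA4
    have n1 : 0 ≤ A1 := mul_self_nonneg _
    have n2 : 0 ≤ A2 := mul_self_nonneg _
    have n3 : 0 ≤ A3 := mul_self_nonneg _
    have n4 : 0 ≤ A4 := mul_self_nonneg _
    have m1 : 67108864 * A1 + 2 * A2 ≤ 67108864 * U1 ^ 2 + 2 * V1 ^ 2 := by linarith
    have m2 : 67108864 * A3 + 2 * A4 ≤ 67108864 * U2 ^ 2 + 2 * V2 ^ 2 := by linarith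
    have m3 : (67108864 * A1 + 2 * A2) * (67108864 * A3 + 2 * A4) ≤
        (67108864 * U1 ^ 2 + 2 * V1 ^ 2) * (67108864 * U2 ^ 2 + 2 * V2 ^ 2) :=
      mul_le_mul m1 m2 (by positivity) (by positivity)
    linarith

theorem vrad {A X ca cx ra rx : ℝ} {X2 c2 r2 : ℝ} (ha0 : 0 ≤ ca) (ha : |A - ca| ≤ ra)
    (hx : |X - cx| ≤ rx) (h2 : |X2 - c2| ≤ r2) :
    |(8192 * X2 - A * X) - (8192 * c2 - ca * cx)| ≤ 8192 * r2 + ca * rx + ra * (|cx| + rx) := by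
  have p := mul_center ha hx
  rw [abs_of_nonneg ha0] at p
  rw [abs_le] at p h2 ⊢
  constructor <;> linarith [p.1, p.2, h2.1, h2.2]

theorem qq_bound {u1 v1 u2 v2 : ℝ} (q12 : u1 ^ 2 + 2 * v1 ^ 2 ≤ u2 ^ 2 + 2 * v2 ^ 2)
    (ip0 : 0 ≤ u1 * u2 + 2 * (v1 * v2)) (ip2 : 2 * (u1 * u2 + 2 * (v1 * v2)) ≤ u1 ^ 2 + 2 * v1 ^ 2)
    (hdet : |u1 * v2 - u2 * v1| ≤ 7 / 2) :
    3 * ((u1 ^ 2 + 2 * v1 ^ 2) * (u2 ^ 2 + 2 * v2 ^ 2)) ≤ 98 := by
  have hd : (u1 * v2 - u2 * v1) ^ 2 ≤ (7 / 2) ^ 2 := by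
    rw [← sq_abs (u1 * v2 - u2 * v1)]
    exact pow_le_pow_left₀ (abs_nonneg _) hdet 2
  have e : (u1 ^ 2 + 2 * v1 ^ 2) * (u2 ^ 2 + 2 * v2 ^ 2) =
    (u1 * u2 + 2 * (v1 * v2)) ^ 2 + 2 * (u1 * v2 - u2 * v1) ^ 2 := by ring
  have hq0 : 0 ≤ u1 ^ 2 + 2 * v1 ^ 2 := by positivity
  have h4 : (2 * (u1 * u2 + 2 * (v1 * v2))) ^ 2 ≤ (u1 ^ 2 + 2 * v1 ^ 2) ^ 2 :=
    pow_le_pow_left₀ (by linarith) ip2 2
  have h5 : (u1 ^ 2 + 2 * v1 ^ 2) * (u1 ^ 2 + 2 * v1 ^ 2) ≤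
      (u1 ^ 2 + 2 * v1 ^ 2) * (u2 ^ 2 + 2 * v2 ^ 2) := mul_le_mul_of_nonneg_left q12 hq0
  generalize u1 * u2 + 2 * (v1 * v2) = I at *
  generalize u1 ^ 2 + 2 * v1 ^ 2 = Q1 at *
  generalize u2 ^ 2 + 2 * v2 ^ 2 = Q2 at *
  generalize u1 * v2 - u2 * v1 = D at *
  have h6 : 4 * I ^ 2 ≤ Q1 * Q1 := by
    have : (2 * I) ^ 2 = 4 * I ^ 2 := by ring
    rw [this] at h4
    linarith [h4, show Q1 ^ 2 = Q1 * Q1 by ring]
  linarith

theorem rcheck_sound {b : Box} {z : Z} (hb : Mem b z) (hz : Hyp z) {kind : Nat}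
    (h : rcheck b kind = true) : False := by
  unfold rcheck at h
  have hu1 : |(8192 * z.x1 - 8192 * z.x3) - ((b.x1 : ℝ) - b.x3)| ≤ ((Nat.add b.r1 b.r3 : Nat) : ℝ) := by
    simp only [Nat.add_eq]; push_cast
    have h1 := hb.x1; have h3 := hb.x3
    rw [abs_le] at h1 h3 ⊢
    constructor <;> linarith [h1.1, h1.2, h3.1, h3.2]
  have hu2 : |(8192 * z.y1 - 8192 * z.y3) - ((b.y1 : ℝ) - b.y3)| ≤ ((Nat.add b.s1 b.s3 : Nat) : ℝ) := by
    simp only [Nat.add_eq]; push_cast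
    have h1 := hb.y1; have h3 := hb.y3
    rw [abs_le] at h1 h3 ⊢
    constructor <;> linarith [h1.1, h1.2, h3.1, h3.2]
  have hv1 := vrad (Nat.cast_nonneg (α := ℝ) b.a) hb.a hb.x3 hb.x2
  have hv2 := vrad (Nat.cast_nonneg (α := ℝ) b.a) hb.a hb.y3 hb.y2
  have rv1 : (((Nat.add (Nat.add (Nat.mul 8192 b.r2) (Nat.mul b.a b.r3))
        (Nat.mul b.ra (Nat.add (absd b.x3 65536) b.r3))) : Nat) : ℝ) =
      8192 * (b.r2 : ℝ) + b.a * b.r3 + b.ra * (|(b.x3 : ℝ) - 65536| + b.r3) := by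
    simp only [Nat.add_eq, Nat.mul_eq]; push_cast [absd_cast]; ring
  have rv2 : (((Nat.add (Nat.add (Nat.mul 8192 b.s2) (Nat.mul b.a b.s3))
        (Nat.mul b.ra (Nat.add (absd b.y3 65536) b.s3))) : Nat) : ℝ) =
      8192 * (b.s2 : ℝ) + b.a * b.s3 + b.ra * (|(b.y3 : ℝ) - 65536| + b.s3) := by
    simp only [Nat.add_eq, Nat.mul_eq]; push_cast [absd_cast]; ring
  rw [← rv1] at hv1
  rw [← rv2] at hv2
  have ev1 : ((absd (Nat.add (Nat.mul 8192 b.x2) (Nat.mul 65536 b.a)) (Nat.add 536870912 (Nat.mul b.a b.x3)) : Nat) : ℝ)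
      = |8192 * ((b.x2 : ℝ) - 65536) - b.a * ((b.x3 : ℝ) - 65536)| := by
    rw [absd_cast]; simp only [Nat.add_eq, Nat.mul_eq]; push_cast; congr 1; ring
  have ev2 : ((absd (Nat.add (Nat.mul 8192 b.y2) (Nat.mul 65536 b.a)) (Nat.add 536870912 (Nat.mul b.a b.y3)) : Nat) : ℝ)
      = |8192 * ((b.y2 : ℝ) - 65536) - b.a * ((b.y3 : ℝ) - 65536)| := by
    rw [absd_cast]; simp only [Nat.add_eq, Nat.mul_eq]; push_cast; congr 1; ring
  have q12 := hz.q12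
  have ip0 := hz.ip0
  have ip2 := hz.ip2
  have qq := qq_bound q12 ip0 ip2 hz.det
  refine rtest_sound hu1 hv1 hu2 hv2 (absd_cast _ _) ev1 (absd_cast _ _) ev2 ?_ ?_ ?_ ?_ ?_ ?_ h
  · simp only [Nat.add_eq, Nat.mul_eq]; push_cast; ring
  · simp only [Nat.add_eq, Nat.mul_eq]; push_cast; ring
  · linarith [q12]
  · linarith [ip0]
  · linarith [ip2]
  · linarith [qq]

end Run7.h774.B1
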