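import Pool.Agent.Run7.h774.B1Sound

/-! Soundness of the checker of `B1Check`, second part. -/

set_option autoImplicit false

namespace Run7.h774.B1

theorem ble_real {m n : Nat} (h : Nat.ble m n = true) : (m : ℝ) ≤ n := by
  exact_mod_cast Nat.le_of_ble_eq_true h

theorem lob_real {cd : Int} {rd : Nat} {D : ℝ} (h : Nat.ble 26843545 (lob cd rd) = true)
    (hD : |134217728 * D - cd| ≤ rd) : ((lob cd rd : Nat) : ℝ) ≤ 134217728 * D := by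
  have h1 := Nat.le_of_ble_eq_true h
  unfold lob at h1 ⊢
  have h2 : ((cd.toNat - rd : Nat) : ℤ) = cd - rd := by omega
  have h3 : ((cd.toNat - rd : Nat) : ℝ) = (cd : ℝ) - rd := by exact_mod_cast h2
  rw [h3]
  have := (abs_le.1 hD).1
  linarith

theorem upb_real {c : Int} {r : Nat} {D : ℝ} (hD : |134217728 * D - c| ≤ r) :
    134217728 * |D| ≤ ((upb c r : Nat) : ℝ) := by
  unfold upb
  push_cast [Nat.cast_natAbs]
  have a1 := abs_le_of_center (W := 134217728 * D) (p := (c : ℝ)) (n := 0) (by simpa using hD)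
  rw [sub_zero, abs_mul, abs_of_pos (by norm_num : (0:ℝ) < 134217728)] at a1
  exact a1

theorem cen_bound {F0 F1 F2 : ℝ} {c0 c1 c2 : Int} {r0 r1 r2 : Nat} (w0 w1 w2 : Int)
    (h0 : |8192 * F0 - c0| ≤ r0) (h1 : |8192 * F1 - c1| ≤ r1) (h2 : |8192 * F2 - c2| ≤ r2) :
    |134217728 * ((F0 * w0 + F1 * w1 + F2 * w2) / 16384) - (cen c0 c1 c2 w0 w1 w2 : Int)| ≤
      (rdi r0 r1 r2 w0 w1 w2 : Nat) := by
  unfold cen rdi
  push_cast [Nat.cast_natAbs]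
  have p0 := prod_bound h0 (le_refl |(w0 : ℝ)|)
  have p1 := prod_bound h1 (le_refl |(w1 : ℝ)|)
  have p2 := prod_bound h2 (le_refl |(w2 : ℝ)|)
  rw [abs_le] at p0 p1 p2 ⊢
  constructor <;> linarith [p0.1, p0.2, p1.1, p1.2, p2.1, p2.2]

/-- the tube conditions on a matrix -/
structure Tube (m11 m12 m13 m21 m22 m23 m31 m32 m33 : ℝ) : Prop where
  d1 : 199999 / 1000000 ≤ m11
  d2 : 199999 / 1000000 ≤ m22
  d3 : 199999 / 1000000 ≤ m33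
  h21 : |m21| ≤ 13 / 100 * m11
  h12 : |m12| ≤ 13 / 100 * m22
  e1 : |m13| ≤ 20 / 100 * ((m11 + m22) / 2)
  e2 : |m23| ≤ 20 / 100 * ((m11 + m22) / 2)
  c1 : |m31| * ((m11 + m22) / 2) ≤ 8 / 100 * (m11 * m33)
  c2 : |m32| * ((m11 + m22) / 2) ≤ 8 / 100 * (m22 * m33)
  s1 : 550 * m11 ≤ 1450 * m22
  s2 : 550 * m22 ≤ 1450 * m11

theorem tube9_sound {l1 l2 l3 u1 u2 a12 a21 a13 a23 a31 a32 : Nat}
    {m11 m12 m13 m21 m22 m23 m31 m32 m33 : ℝ}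
    (hl1 : Nat.ble 26843545 l1 = true → (l1 : ℝ) ≤ 134217728 * m11)
    (hl2 : Nat.ble 26843545 l2 = true → (l2 : ℝ) ≤ 134217728 * m22)
    (hl3 : Nat.ble 26843545 l3 = true → (l3 : ℝ) ≤ 134217728 * m33)
    (hu1 : 134217728 * |m11| ≤ u1) (hu2 : 134217728 * |m22| ≤ u2)
    (h12 : 134217728 * |m12| ≤ a12) (h21 : 134217728 * |m21| ≤ a21)
    (h13 : 134217728 * |m13| ≤ a13) (h23 : 134217728 * |m23| ≤ a23)
    (h31 : 134217728 * |m31| ≤ a31) (h32 : 134217728 * |m32| ≤ a32)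
    (h : tube9 l1 l2 l3 u1 u2 a12 a21 a13 a23 a31 a32 = true) :
    Tube m11 m12 m13 m21 m22 m23 m31 m32 m33 := by
  unfold tube9 at h
  simp only [Bool.and_eq_true] at h
  obtain ⟨⟨t1, t2, t3⟩, ⟨b1, b2⟩, ⟨b3, b4⟩, ⟨b5, b6⟩, b7, b8⟩ := h
  have k1 := hl1 t1
  have k2 := hl2 t2
  have k3 := hl3 t3
  have t1' := ble_real t1
  have t2' := ble_real t2
  have t3' := ble_real t3
  have b1' := ble_real b1
  have b2' := ble_real b2
  have b3' := ble_real b3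
  have b4' := ble_real b4
  have b5' := ble_real b5
  have b6' := ble_real b6
  have b7' := ble_real b7
  have b8' := ble_real b8
  push_cast at t1' t2' t3' b1' b2' b3' b4' b5' b6' b7' b8'
  have p1 := le_abs_self m11
  have p2 := le_abs_self m22
  have q1 : (a31 : ℝ) * (u1 + u2) ≥ (134217728 * |m31|) * (134217728 * (m11 + m22)) := by
    apply mul_le_mul h31 (by linarith) (by linarith) (Nat.cast_nonneg _)
  have q2 : (a32 : ℝ) * (u1 + u2) ≥ (134217728 * |m32|) * (134217728 * (m11 + m22)) := by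
    apply mul_le_mul h32 (by linarith) (by linarith) (Nat.cast_nonneg _)
  have q3 : (l1 : ℝ) * l3 ≤ (134217728 * m11) * (134217728 * m33) :=
    mul_le_mul k1 k3 (Nat.cast_nonneg _) (by linarith)
  have q4 : (l2 : ℝ) * l3 ≤ (134217728 * m22) * (134217728 * m33) :=
    mul_le_mul k2 k3 (Nat.cast_nonneg _) (by linarith)
  constructor <;> linarith

theorem tubeTest_sound {f0 f1 f2 g0 g1 g2 h0 h1 h2 : Int} {rf0 rf1 rf2 rh1 rh2 : Nat}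
    {w00 w01 w02 w10 w11 w12 w20 w21 w22 : Int} {F0 F1 F2 G0 G1 G2 H0 H1 H2 : ℝ}
    (bf0 : |8192 * F0 - f0| ≤ rf0) (bf1 : |8192 * F1 - f1| ≤ rf1) (bf2 : |8192 * F2 - f2| ≤ rf2)
    (bg0 : |8192 * G0 - g0| ≤ rf0) (bg1 : |8192 * G1 - g1| ≤ rf1) (bg2 : |8192 * G2 - g2| ≤ rf2)
    (bh0 : |8192 * H0 - h0| ≤ (0 : Nat)) (bh1 : |8192 * H1 - h1| ≤ rh1) (bh2 : |8192 * H2 - h2| ≤ rh2)
    (h : tubeTest f0 f1 f2 g0 g1 g2 h0 h1 h2 rf0 rf1 rf2 rh1 rh2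
      w00 w01 w02 w10 w11 w12 w20 w21 w22 = true) :
    Tube ((F0 * w00 + F1 * w10 + F2 * w20) / 16384) ((F0 * w01 + F1 * w11 + F2 * w21) / 16384)
      ((F0 * w02 + F1 * w12 + F2 * w22) / 16384)
      ((G0 * w00 + G1 * w10 + G2 * w20) / 16384) ((G0 * w01 + G1 * w11 + G2 * w21) / 16384)
      ((G0 * w02 + G1 * w12 + G2 * w22) / 16384)
      ((H0 * w00 + H1 * w10 + H2 * w20) / 16384) ((H0 * w01 + H1 * w11 + H2 * w21) / 16384)
      ((H0 * w02 + H1 * w12 + H2 * w22) / 16384) := by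
  unfold tubeTest at h
  exact tube9_sound (fun t => lob_real t (cen_bound w00 w10 w20 bf0 bf1 bf2))
    (fun t => lob_real t (cen_bound w01 w11 w21 bg0 bg1 bg2))
    (fun t => lob_real t (cen_bound w02 w12 w22 bh0 bh1 bh2))
    (upb_real (cen_bound w00 w10 w20 bf0 bf1 bf2)) (upb_real (cen_bound w01 w11 w21 bg0 bg1 bg2))
    (upb_real (cen_bound w01 w11 w21 bf0 bf1 bf2)) (upb_real (cen_bound w00 w10 w20 bg0 bg1 bg2))
    (upb_real (cen_bound w02 w12 w22 bf0 bf1 bf2)) (upb_real (cen_bound w02 w12 w22 bg0 bg1 bg2))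
    (upb_real (cen_bound w00 w10 w20 bh0 bh1 bh2)) (upb_real (cen_bound w01 w11 w21 bh0 bh1 bh2)) h

/-- The tube conclusion on `z`. -/
def Concl (z : Z) : Prop :=
  ∃ δ : ℝ, (δ = 1 ∨ δ = -1) ∧ ∃ u1 a1 b1 u2 a2 b2 : ℤ,
    (a1 * b2 - a2 * b1 = 1 ∨ a1 * b2 - a2 * b1 = -1) ∧
    Tube
      (((1 + δ * z.a) * ((W00 + u1 * W10 + u2 * W20 : ℤ) : ℝ) + (z.x1 + δ * z.x2) * ((a1 * W10 + a2 * W20 : ℤ) : ℝ)
        + (z.y1 + δ * z.y2) * ((b1 * W10 + b2 * W20 : ℤ) : ℝ)) / 16384)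
      (((1 + δ * z.a) * ((W01 + u1 * W11 + u2 * W21 : ℤ) : ℝ) + (z.x1 + δ * z.x2) * ((a1 * W11 + a2 * W21 : ℤ) : ℝ)
        + (z.y1 + δ * z.y2) * ((b1 * W11 + b2 * W21 : ℤ) : ℝ)) / 16384)
      (((1 + δ * z.a) * ((W02 + u1 * W12 + u2 * W22 : ℤ) : ℝ) + (z.x1 + δ * z.x2) * ((a1 * W12 + a2 * W22 : ℤ) : ℝ)
        + (z.y1 + δ * z.y2) * ((b1 * W12 + b2 * W22 : ℤ) : ℝ)) / 16384)
      (((1 - δ * z.a) * ((W00 + u1 * W10 + u2 * W20 : ℤ) : ℝ) + (z.x1 - δ * z.x2) * ((a1 * W10 + a2 * W20 : ℤ) : ℝ)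
        + (z.y1 - δ * z.y2) * ((b1 * W10 + b2 * W20 : ℤ) : ℝ)) / 16384)
      (((1 - δ * z.a) * ((W01 + u1 * W11 + u2 * W21 : ℤ) : ℝ) + (z.x1 - δ * z.x2) * ((a1 * W11 + a2 * W21 : ℤ) : ℝ)
        + (z.y1 - δ * z.y2) * ((b1 * W11 + b2 * W21 : ℤ) : ℝ)) / 16384)
      (((1 - δ * z.a) * ((W02 + u1 * W12 + u2 * W22 : ℤ) : ℝ) + (z.x1 - δ * z.x2) * ((a1 * W12 + a2 * W22 : ℤ) : ℝ)
        + (z.y1 - δ * z.y2) * ((b1 * W12 + b2 * W22 : ℤ) : ℝ)) / 16384)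
      ((1 * ((W00 + u1 * W10 + u2 * W20 : ℤ) : ℝ) + z.x3 * ((a1 * W10 + a2 * W20 : ℤ) : ℝ)
        + z.y3 * ((b1 * W10 + b2 * W20 : ℤ) : ℝ)) / 16384)
      ((1 * ((W01 + u1 * W11 + u2 * W21 : ℤ) : ℝ) + z.x3 * ((a1 * W11 + a2 * W21 : ℤ) : ℝ)
        + z.y3 * ((b1 * W11 + b2 * W21 : ℤ) : ℝ)) / 16384)
      ((1 * ((W02 + u1 * W12 + u2 * W22 : ℤ) : ℝ) + z.x3 * ((a1 * W12 + a2 * W22 : ℤ) : ℝ)
        + z.y3 * ((b1 * W12 + b2 * W22 : ℤ) : ℝ)) / 16384)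

theorem ccheck_sound {b : Box} {z : Z} (hb : Mem b z) {L : Lab} (h : ccheck b L = true) : Concl z := by
  unfold ccheck at h
  simp only [Bool.and_eq_true, Bool.or_eq_true, decide_eq_true_eq] at h
  obtain ⟨hdet, h⟩ := h
  have ha := hb.a; have h1 := hb.x1; have h2 := hb.x2; have h3 := hb.x3
  have k1 := hb.y1; have k2 := hb.y2; have k3 := hb.y3
  rcases cond_true' h with ⟨-, h⟩ | ⟨-, h⟩
  · refine ⟨-1, Or.inr rfl, L.u1, L.a1, L.b1, L.u2, L.a2, L.b2, hdet, ?_⟩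
    refine tubeTest_sound ?_ ?_ ?_ ?_ ?_ ?_ ?_ ?_ ?_ h
    all_goals push_cast
    · rw [abs_le] at ha ⊢; constructor <;> linarith [ha.1, ha.2]
    · rw [abs_le] at h1 h2 ⊢; constructor <;> linarith [h1.1, h1.2, h2.1, h2.2]
    · rw [abs_le] at k1 k2 ⊢; constructor <;> linarith [k1.1, k1.2, k2.1, k2.2]
    · rw [abs_le] at ha ⊢; constructor <;> linarith [ha.1, ha.2]
    · rw [abs_le] at h1 h2 ⊢; constructor <;> linarith [h1.1, h1.2, h2.1, h2.2]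
    · rw [abs_le] at k1 k2 ⊢; constructor <;> linarith [k1.1, k1.2, k2.1, k2.2]
    · norm_num
    · exact h3
    · exact k3
  · refine ⟨1, Or.inl rfl, L.u1, L.a1, L.b1, L.u2, L.a2, L.b2, hdet, ?_⟩
    refine tubeTest_sound ?_ ?_ ?_ ?_ ?_ ?_ ?_ ?_ ?_ h
    all_goals push_cast
    · rw [abs_le] at ha ⊢; constructor <;> linarith [ha.1, ha.2]
    · rw [abs_le] at h1 h2 ⊢; constructor <;> linarith [h1.1, h1.2, h2.1, h2.2]
    · rw [abs_le] at k1 k2 ⊢; constructor <;> linarith [k1.1, k1.2, k2.1, k2.2]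
    · rw [abs_le] at ha ⊢; constructor <;> linarith [ha.1, ha.2]
    · rw [abs_le] at h1 h2 ⊢; constructor <;> linarith [h1.1, h1.2, h2.1, h2.2]
    · rw [abs_le] at k1 k2 ⊢; constructor <;> linarith [k1.1, k1.2, k2.1, k2.2]
    · norm_num
    · exact h3
    · exact k3

end Run7.h774.B1
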