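import Pool.Agent.Run7.h774.B1Sound2

/-! Soundness of the checker of `B1Check`, third part: the loops. -/

set_option autoImplicit false

namespace Run7.h774.B1

theorem half_ge (r : Nat) : (r : ℝ) ≤ 2 * (half r : Nat) := by
  have : r ≤ 2 * half r := by
    change r ≤ 2 * ((r + 1) / 2); omega
  exact_mod_cast this

theorem split_abs {X : ℝ} {c r : Nat} (h : |X - (c : ℝ)| ≤ r) (hb : Nat.ble (half r) c = true) :
    |X - ((Nat.sub c (half r) : Nat) : ℝ)| ≤ (half r : Nat) ∨
      |X - ((Nat.add c (half r) : Nat) : ℝ)| ≤ (half r : Nat) := by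
  have hle := Nat.le_of_ble_eq_true hb
  have hh := half_ge r
  have e1 : ((Nat.sub c (half r) : Nat) : ℝ) = (c : ℝ) - (half r : Nat) := by
    rw [Nat.sub_eq, Nat.cast_sub hle]
  have e2 : ((Nat.add c (half r) : Nat) : ℝ) = (c : ℝ) + (half r : Nat) := by
    rw [Nat.add_eq, Nat.cast_add]
  rw [e1, e2]
  rw [abs_le] at h
  rcases le_total X c with h1 | h1
  · left; rw [abs_le]; constructor <;> linarith [h.1, h.2]
  · right; rw [abs_le]; constructor <;> linarith [h.1, h.2]

theorem split_abs' {X : ℝ} {c r : Nat} (h : |X - ((c : ℝ) - 65536)| ≤ r)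
    (hb : Nat.ble (half r) c = true) :
    |X - (((Nat.sub c (half r) : Nat) : ℝ) - 65536)| ≤ (half r : Nat) ∨
      |X - (((Nat.add c (half r) : Nat) : ℝ) - 65536)| ≤ (half r : Nat) := by
  have h' : |(X + 65536) - (c : ℝ)| ≤ r := by
    rw [show (X + 65536) - (c : ℝ) = X - ((c : ℝ) - 65536) by ring]; exact h
  rcases split_abs h' hb with h1 | h1
  · left
    rw [show X - (((Nat.sub c (half r) : Nat) : ℝ) - 65536) = (X + 65536) - ((Nat.sub c (half r) : Nat) : ℝ) by ring]
    exact h1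
  · right
    rw [show X - (((Nat.add c (half r) : Nat) : ℝ) - 65536) = (X + 65536) - ((Nat.add c (half r) : Nat) : ℝ) by ring]
    exact h1

theorem split_sound {b : Box} {v : Nat} {k : Box → Box → Bool} (h : split b v k = true) :
    ∃ bl br, k bl br = true ∧ ∀ z, Mem b z → Mem bl z ∨ Mem br z := by
  unfold split at h
  rcases cond_true' h with ⟨-, h⟩ | ⟨-, h⟩
  · obtain ⟨h1, hk⟩ := cond_false_right h
    refine ⟨_, _, hk, fun z hz => ?_⟩
    rcases split_abs hz.a h1 with h2 | h2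
    · exact Or.inl ⟨h2, hz.x1, hz.x2, hz.x3, hz.y1, hz.y2, hz.y3⟩
    · exact Or.inr ⟨h2, hz.x1, hz.x2, hz.x3, hz.y1, hz.y2, hz.y3⟩
  rcases cond_true' h with ⟨-, h⟩ | ⟨-, h⟩
  · obtain ⟨h1, hk⟩ := cond_false_right h
    refine ⟨_, _, hk, fun z hz => ?_⟩
    rcases split_abs' hz.x1 h1 with h2 | h2
    · exact Or.inl ⟨hz.a, h2, hz.x2, hz.x3, hz.y1, hz.y2, hz.y3⟩
    · exact Or.inr ⟨hz.a, h2, hz.x2, hz.x3, hz.y1, hz.y2, hz.y3⟩
  rcases cond_true' h with ⟨-, h⟩ | ⟨-, h⟩
  · obtain ⟨h1, hk⟩ := cond_false_right h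
    refine ⟨_, _, hk, fun z hz => ?_⟩
    rcases split_abs' hz.x2 h1 with h2 | h2
    · exact Or.inl ⟨hz.a, hz.x1, h2, hz.x3, hz.y1, hz.y2, hz.y3⟩
    · exact Or.inr ⟨hz.a, hz.x1, h2, hz.x3, hz.y1, hz.y2, hz.y3⟩
  rcases cond_true' h with ⟨-, h⟩ | ⟨-, h⟩
  · obtain ⟨h1, hk⟩ := cond_false_right h
    refine ⟨_, _, hk, fun z hz => ?_⟩
    rcases split_abs' hz.x3 h1 with h2 | h2
    · exact Or.inl ⟨hz.a, hz.x1, hz.x2, h2, hz.y1, hz.y2, hz.y3⟩
    · exact Or.inr ⟨hz.a, hz.x1, hz.x2, h2, hz.y1, hz.y2, hz.y3⟩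
  rcases cond_true' h with ⟨-, h⟩ | ⟨-, h⟩
  · obtain ⟨h1, hk⟩ := cond_false_right h
    refine ⟨_, _, hk, fun z hz => ?_⟩
    rcases split_abs' hz.y1 h1 with h2 | h2
    · exact Or.inl ⟨hz.a, hz.x1, hz.x2, hz.x3, h2, hz.y2, hz.y3⟩
    · exact Or.inr ⟨hz.a, hz.x1, hz.x2, hz.x3, h2, hz.y2, hz.y3⟩
  rcases cond_true' h with ⟨-, h⟩ | ⟨-, h⟩
  · obtain ⟨h1, hk⟩ := cond_false_right h
    refine ⟨_, _, hk, fun z hz => ?_⟩
    rcases split_abs' hz.y2 h1 with h2 | h2
    · exact Or.inl ⟨hz.a, hz.x1, hz.x2, hz.x3, hz.y1, h2, hz.y3⟩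
    · exact Or.inr ⟨hz.a, hz.x1, hz.x2, hz.x3, hz.y1, h2, hz.y3⟩
  · obtain ⟨h1, hk⟩ := cond_false_right h
    refine ⟨_, _, hk, fun z hz => ?_⟩
    rcases split_abs' hz.y3 h1 with h2 | h2
    · exact Or.inl ⟨hz.a, hz.x1, hz.x2, hz.x3, hz.y1, hz.y2, h2⟩
    · exact Or.inr ⟨hz.a, hz.x1, hz.x2, hz.x3, hz.y1, hz.y2, h2⟩

theorem cstep_ex {b : Box} {q : Pt} {ks P Q R : Nat} {acc : Acc} {k : Acc → Bool}
    (h : cstep b q ks P Q R acc k = true) : ∃ acc', k acc' = true := by
  unfold cstep at h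
  obtain ⟨-, h⟩ := cond_false_right h
  rcases cond_true' h with ⟨-, h⟩ | ⟨-, h⟩
  · exact ⟨_, (cond_false_right h).2⟩
  rcases cond_true' h with ⟨-, h⟩ | ⟨-, h⟩
  · exact ⟨_, (cond_false_right h).2⟩
  rcases cond_true' h with ⟨-, h⟩ | ⟨-, h⟩
  · exact ⟨_, (cond_false_right h).2⟩
  · exact ⟨_, (cond_false_right h).2⟩

theorem lploop_ex {b : Box} (K : Nat) : ∀ (s : Nat) (acc : Acc) (k : Acc → Nat → Bool),
    lploop b K s acc k = true → ∃ acc' s', k acc' s' = true := by
  induction K with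
  | zero => intro s acc k h; exact ⟨_, _, h⟩
  | succ K ih =>
    intro s acc k h
    change cstep b (decodePt s) (Nat.mod (Nat.div s 65536) 4) (Nat.mod (Nat.div s 262144) 2048)
        (Nat.mod (Nat.div s 536870912) 2048)
        (Nat.mul 2048 (Nat.mod (Nat.div s 1099511627776) 16384)) acc
        (fun acc' => lploop b K (Nat.div s 18014398509481984) acc' k) = true at h
    obtain ⟨acc', h'⟩ := cstep_ex h
    exact ih _ _ _ h'

theorem lploop_sound {b : Box} {z : Z} (hb : Mem b z) (hz : Hyp z) (K : Nat) :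
    ∀ (s : Nat) (acc : Acc) (k : Acc → Nat → Bool),
    lploop b K s acc k = true → ∃ acc' s', k acc' s' = true ∧ acc.val b z ≤ acc'.val b z := by
  induction K with
  | zero => intro s acc k h; exact ⟨_, _, h, le_refl _⟩
  | succ K ih =>
    intro s acc k h
    change cstep b (decodePt s) (Nat.mod (Nat.div s 65536) 4) (Nat.mod (Nat.div s 262144) 2048)
        (Nat.mod (Nat.div s 536870912) 2048)
        (Nat.mul 2048 (Nat.mod (Nat.div s 1099511627776) 16384)) acc
        (fun acc' => lploop b K (Nat.div s 18014398509481984) acc' k) = true at h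
    obtain ⟨acc', h', hle⟩ := cstep_sound hb hz (good_decodePt s) h
    obtain ⟨acc'', s'', h'', hle'⟩ := ih _ _ _ h'
    exact ⟨acc'', s'', h'', le_trans hle hle'⟩

theorem acc0_val (b : Box) (z : Z) : acc0.val b z = 0 := by
  unfold acc0 Acc.val; simp

/-- the box is settled -/
def BoxOK (b : Box) : Prop := ∀ z, Mem b z → Hyp z → Concl z

theorem run_sound (labs : List Lab) (fuel : Nat) :
    ∀ (b : Box) (s : Nat) (l : List Nat) (k : Nat → List Nat → Bool),
    run labs fuel b s l k = true → BoxOK b ∧ ∃ s' l', k s' l' = true := by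
  induction fuel with
  | zero => intro b s l k h; exact absurd h (by simp [run])
  | succ fuel ih =>
    intro b s l k h
    change (fun t s1 =>
        cond (Nat.beq t 0)
          (split b (Nat.mod s1 8) (fun bl br =>
            run labs fuel bl (Nat.div s1 8) l (fun s' l' => run labs fuel br s' l' k)))
        (cond (Nat.beq t 1)
          (cond (fcheck b (decodePt s1)) (k (Nat.div s1 65536) l) false)
        (cond (Nat.beq t 2)
          (cond (rcheck b (Nat.mod s1 4)) (k (Nat.div s1 4) l) false)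
        ((fun e s2 =>
          cond (Nat.beq e 0)
            (List.rec (motive := fun _ => Bool) false (fun c l' _ => run labs fuel b c l' k) l)
          (cond (Nat.beq e 1)
            (lploop b (Nat.mod s2 16) (Nat.div s2 65536) acc0 (fun acc s4 =>
              cond (cond (Nat.beq (Nat.mod (Nat.div s2 32) 2048) 0) (fin0 b acc)
                  (fin1 b (Nat.mod (Nat.div s2 16) 2) (Nat.mod (Nat.div s2 32) 2048) acc))
                (k s4 l) false))
            (cond (ccheck b (labs.getD (Nat.mod s2 128) ⟨true, 0, 0, 0, 0, 0, 0⟩))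
              (k (Nat.div s2 128) l) false)))
          (Nat.mod s1 4) (Nat.div s1 4)))))
        (Nat.mod s 4) (Nat.div s 4) = true at h
    beta_reduce at h
    rcases cond_true' h with ⟨-, h⟩ | ⟨-, h⟩
    · obtain ⟨bl, br, hk, hm⟩ := split_sound h
      obtain ⟨hl, s', l', hk'⟩ := ih _ _ _ _ hk
      obtain ⟨hr, s'', l'', hk''⟩ := ih _ _ _ _ hk'
      refine ⟨fun z hz hy => ?_, s'', l'', hk''⟩
      rcases hm z hz with h1 | h1
      · exact hl z h1 hy
      · exact hr z h1 hy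
    rcases cond_true' h with ⟨-, h⟩ | ⟨-, h⟩
    · obtain ⟨h1, hk⟩ := cond_false_right h
      exact ⟨fun z hz hy => (fcheck_sound hz hy (good_decodePt _) h1).elim, _, _, hk⟩
    rcases cond_true' h with ⟨-, h⟩ | ⟨-, h⟩
    · obtain ⟨h1, hk⟩ := cond_false_right h
      exact ⟨fun z hz hy => (rcheck_sound hz hy h1).elim, _, _, hk⟩
    rcases cond_true' h with ⟨-, h⟩ | ⟨-, h⟩
    · cases l with
      | nil => exact absurd h (by simp)
      | cons c l' => exact ih _ _ _ _ h
    rcases cond_true' h with ⟨-, h⟩ | ⟨-, h⟩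
    · constructor
      · intro z hz hy
        obtain ⟨acc', s', hk, hle⟩ := lploop_sound hz hy _ _ _ _ h
        obtain ⟨h1, -⟩ := cond_false_right hk
        rw [acc0_val] at hle
        rcases cond_true' h1 with ⟨-, h2⟩ | ⟨-, h2⟩
        · exact (fin0_sound hz hle h2).elim
        · exact (fin1_sound hz hy hle h2).elim
      · obtain ⟨acc', s', hk⟩ := lploop_ex _ _ _ _ h
        exact ⟨_, _, (cond_false_right hk).2⟩
    · obtain ⟨h1, hk⟩ := cond_false_right h
      exact ⟨fun z hz _ => ccheck_sound hz h1, _, _, hk⟩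

/-- usable form -/
theorem piece (labs : List Lab) (fuel : Nat) (b : Box) (s : Nat) (l : List Nat)
    (h : run labs fuel b s l (fun _ _ => true) = true) : BoxOK b :=
  (run_sound labs fuel b s l _ h).1

/-- split of a box in the skeleton: `c` the number of the variable. -/
theorem boxOK_split {b bl br : Box} {v : Nat} (hl : BoxOK bl) (hr : BoxOK br)
    (h : split b v (fun b1 b2 => (b1.a == bl.a && b1.x1 == bl.x1 && b1.x2 == bl.x2 && b1.x3 == bl.x3 &&
      b1.y1 == bl.y1 && b1.y2 == bl.y2 && b1.y3 == bl.y3 && b1.ra == bl.ra && b1.r1 == bl.r1 &&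
      b1.r2 == bl.r2 && b1.r3 == bl.r3 && b1.s1 == bl.s1 && b1.s2 == bl.s2 && b1.s3 == bl.s3) &&
      (b2.a == br.a && b2.x1 == br.x1 && b2.x2 == br.x2 && b2.x3 == br.x3 &&
      b2.y1 == br.y1 && b2.y2 == br.y2 && b2.y3 == br.y3 && b2.ra == br.ra && b2.r1 == br.r1 &&
      b2.r2 == br.r2 && b2.r3 == br.r3 && b2.s1 == br.s1 && b2.s2 == br.s2 && b2.s3 == br.s3)) = true) :
    BoxOK b := by
  obtain ⟨b1, b2, hk, hm⟩ := split_sound h
  simp only [Bool.and_eq_true, beq_iff_eq] at hk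
  have e1 : b1 = bl := by cases b1; cases bl; simp_all
  have e2 : b2 = br := by cases b2; cases br; simp_all
  subst e1 e2
  intro z hz hy
  rcases hm z hz with h1 | h1
  · exact hl z h1 hy
  · exact hr z h1 hy

end Run7.h774.B1
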