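import Mathlib

/-!
Kernel-evaluable checker for the annulus branch and bound `B2` of MP_be9f18_nt.

Variables `(s, h, k, f1, f2, g1, g2)`: the matrix `[[1+s, h, f1], [k, 1-s, f2], [g1, g2, 1]]` applied to
the vector of conjugates of an element `p + q t + r t²`. Unit of the variables `1/65536`; conjugates
are approximated in units of `1/16777216`.
-/

set_option autoImplicit false

namespace Run7.h774.B2

/-- Box: centres and radii, units of 1/65536. -/
structure Box where
  c0 : Int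
  c1 : Int
  c2 : Int
  c3 : Int
  c4 : Int
  c5 : Int
  c6 : Int
  r0 : Nat
  r1 : Nat
  r2 : Nat
  r3 : Nat
  r4 : Nat
  r5 : Nat
  r6 : Nat

/-- approximate conjugate -/
def ev (p q r A B : Int) : Int :=
  Int.add (Int.mul (Int.ofNat 16777216) p) (Int.add (Int.mul A q) (Int.mul B r))

def cA1 : Int := Int.ofNat 20920846
def cA2 : Int := Int.negSucc 7466563
def cA3 : Int := Int.negSucc 30231498
def cB1 : Int := Int.ofNat 26087868
def cB2 : Int := Int.ofNat 3322933
def cB3 : Int := Int.ofNat 54475278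

def decp (s : Nat) : Int := Int.subNatNat (Nat.mod s 256) 128
def decq (s : Nat) : Int := Int.subNatNat (Nat.mod (Nat.div s 256) 64) 32
def decr (s : Nat) : Int := Int.subNatNat (Nat.mod (Nat.div s 16384) 64) 32

/-- centre of row 1: `(S + c0) E1 + c1 E2 + c3 E3` -/
def cen3 (a b c E1 E2 E3 : Int) : Int := Int.add (Int.mul a E1) (Int.add (Int.mul b E2) (Int.mul c E3))
/-- radius -/
def rad3 (a b c : Nat) (E1 E2 E3 : Int) : Nat :=
  Nat.add (Nat.add (Nat.mul a (Int.natAbs E1)) (Nat.mul b (Int.natAbs E2)))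
    (Nat.add (Nat.mul c (Int.natAbs E3)) 8388608)

/-- upper bound of `c1 c2` -/
def upr (c1 c2 : Int) (r1 r2 : Nat) : Int :=
  Int.add (Int.mul c1 c2) (Int.ofNat (Nat.add (Nat.mul (Int.natAbs c1) r2)
    (Nat.add (Nat.mul r1 (Int.natAbs c2)) (Nat.mul r1 r2))))

/-- lower bound of the determinant, units `65536^-3` -/
def mu3 (b : Box) : Int :=
  (fun m0 m1 m2 m3 m4 m5 m6 =>
    Int.add (Int.ofNat 281474976710656)
      (Int.neg (Int.add
        (Int.mul (Int.ofNat 65536) (Int.add (Int.add (upr b.c1 b.c2 b.r1 b.r2) (upr b.c4 b.c6 b.r4 b.r6))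
          (Int.add (upr b.c3 b.c5 b.r3 b.r5) (Int.ofNat (Nat.mul m0 m0)))))
        (Int.ofNat (Nat.add (Nat.mul m0 (Nat.add (Nat.mul m4 m6) (Nat.mul m3 m5)))
          (Nat.add (Nat.mul m1 (Nat.mul m4 m5)) (Nat.mul m3 (Nat.mul m2 m6))))))))
    (Nat.add (Int.natAbs b.c0) b.r0) (Nat.add (Int.natAbs b.c1) b.r1) (Nat.add (Int.natAbs b.c2) b.r2)
    (Nat.add (Int.natAbs b.c3) b.r3) (Nat.add (Int.natAbs b.c4) b.r4) (Nat.add (Int.natAbs b.c5) b.r5)
    (Nat.add (Int.natAbs b.c6) b.r6)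

/-- outside of the tube or of the annulus -/
def outtest (b : Box) : Bool :=
  cond (Nat.blt (Nat.mul 135 (Int.toNat (Int.add (Int.ofNat (Nat.add 65536 b.r0)) (Int.neg b.c0))))
    (Nat.mul 1000 (Nat.sub (Int.natAbs b.c1) b.r1))) true
  (cond (Nat.blt (Nat.mul 135 (Int.toNat (Int.add (Int.ofNat (Nat.add 65536 b.r0)) b.c0)))
    (Nat.mul 1000 (Nat.sub (Int.natAbs b.c2) b.r2))) true
  (cond (Nat.blt (Nat.mul 83 (Int.toNat (Int.add (Int.ofNat (Nat.add 65536 b.r0)) b.c0)))
    (Nat.mul 1000 (Nat.sub (Int.natAbs b.c5) b.r5))) true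
  (cond (Nat.blt (Nat.mul 83 (Int.toNat (Int.add (Int.ofNat (Nat.add 65536 b.r0)) (Int.neg b.c0))))
    (Nat.mul 1000 (Nat.sub (Int.natAbs b.c6) b.r6))) true
  (cond (Nat.blt (Nat.mul 10000 (Nat.add (Int.natAbs b.c3) b.r3)) 36831232)
    (Nat.blt (Nat.mul 10000 (Nat.add (Int.natAbs b.c4) b.r4)) 36831232) false))))

/-- bound of the absolute value -/
def ub (c : Int) (r : Nat) : Nat := Nat.add (Int.natAbs c) r

/-- the point is nonzero -/
def nz (s : Nat) : Bool := cond (Nat.beq (Nat.mod s 1048576) 532608) false true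

/-- F leaf -/
def fcheck (b : Box) (s : Nat) : Bool :=
  cond (nz s)
    ((fun E1 E2 E3 mu =>
      cond (Nat.ble 1 mu)
        ((fun y1 y2 y3 => Nat.blt (Nat.mul y3 (Nat.mul (Nat.add y1 y2) (Nat.add y1 y2)))
            (Nat.mul 18889465931478580854784 mu))
          (ub (cen3 (Int.add (Int.ofNat 65536) b.c0) b.c1 b.c3 E1 E2 E3) (rad3 b.r0 b.r1 b.r3 E1 E2 E3))
          (ub (cen3 (Int.add (Int.ofNat 65536) (Int.neg b.c0)) b.c2 b.c4 E2 E1 E3) (rad3 b.r0 b.r2 b.r4 E2 E1 E3))
          (ub (cen3 (Int.ofNat 65536) b.c5 b.c6 E3 E1 E2) (rad3 0 b.r5 b.r6 E3 E1 E2)))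
        false)
      (ev (decp s) (decq s) (decr s) cA1 cB1) (ev (decp s) (decq s) (decr s) cA2 cB2)
      (ev (decp s) (decq s) (decr s) cA3 cB3) (Int.toNat (mu3 b)))
    false

/-- accumulated linear form -/
structure Acc where
  c : Int
  k0 : Int
  k1 : Int
  k2 : Int
  k3 : Int
  k4 : Int
  k5 : Int
  k6 : Int

/-- bound `w |Y| ≤ cst + mult lin`; mode 0: Y positive, mode 1: Y negative, otherwise constant -/
def row (md w : Nat) (c : Int) (rad : Nat) (k : Int → Int → Bool) : Bool :=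
  cond (Nat.beq md 0)
    (cond (Nat.ble rad (Int.toNat c)) (k (Int.mul (Int.ofNat w) (Int.add c (Int.ofNat 8388608))) (Int.ofNat w)) false)
  (cond (Nat.beq md 1)
    (cond (Nat.ble rad (Int.toNat (Int.neg c)))
      (k (Int.mul (Int.ofNat w) (Int.add (Int.neg c) (Int.ofNat 8388608))) (Int.neg (Int.ofNat w))) false)
    (k (Int.ofNat (Nat.mul w (Nat.add (Int.natAbs c) rad))) (Int.ofNat 0)))

/-- one constraint -/
def cstep (b : Box) (mu s md1 md2 md3 P Q R : Nat) (acc : Acc) (k : Acc → Bool) : Bool :=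
  cond (cond (nz s) (Nat.ble (Nat.mul R (Nat.mul R R)) (Nat.mul (Nat.mul 27 P) (Nat.mul (Nat.mul Q Q) mu))) false)
    ((fun E1 E2 E3 =>
      row md1 Q (cen3 (Int.add (Int.ofNat 65536) b.c0) b.c1 b.c3 E1 E2 E3) (rad3 b.r0 b.r1 b.r3 E1 E2 E3)
        (fun cs1 m1 =>
      row md2 Q (cen3 (Int.add (Int.ofNat 65536) (Int.neg b.c0)) b.c2 b.c4 E2 E1 E3) (rad3 b.r0 b.r2 b.r4 E2 E1 E3)
        (fun cs2 m2 =>
      row md3 P (cen3 (Int.ofNat 65536) b.c5 b.c6 E3 E1 E2) (rad3 0 b.r5 b.r6 E3 E1 E2)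
        (fun cs3 m3 =>
          k ⟨Int.add acc.c (Int.add (Int.add cs1 cs2) (Int.add cs3 (Int.neg (Int.ofNat (Nat.mul 16777216 R))))),
            Int.add acc.k0 (Int.add (Int.mul m1 E1) (Int.neg (Int.mul m2 E2))),
            Int.add acc.k1 (Int.mul m1 E2), Int.add acc.k2 (Int.mul m2 E1),
            Int.add acc.k3 (Int.mul m1 E3), Int.add acc.k4 (Int.mul m2 E3),
            Int.add acc.k5 (Int.mul m3 E1), Int.add acc.k6 (Int.mul m3 E2)⟩))))
      (ev (decp s) (decq s) (decr s) cA1 cB1) (ev (decp s) (decq s) (decr s) cA2 cB2)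
      (ev (decp s) (decq s) (decr s) cA3 cB3))
    false

/-- final check -/
def fin (b : Box) (acc : Acc) : Bool :=
  Nat.blt
    (Nat.add (Nat.add (Nat.add (Nat.mul (Int.natAbs acc.k0) b.r0) (Nat.mul (Int.natAbs acc.k1) b.r1))
      (Nat.add (Nat.mul (Int.natAbs acc.k2) b.r2) (Nat.mul (Int.natAbs acc.k3) b.r3)))
      (Nat.add (Nat.add (Nat.mul (Int.natAbs acc.k4) b.r4) (Nat.mul (Int.natAbs acc.k5) b.r5))
        (Nat.mul (Int.natAbs acc.k6) b.r6)))
    (Int.toNat (Int.neg acc.c))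

/-- loop over the constraints, 66 bits each: 20 point, 2+2+2 modes, 11 P, 11 Q, 18 R/2048 -/
noncomputable def lploop (b : Box) (mu K : Nat) : Nat → Acc → (Acc → Nat → Bool) → Bool :=
  Nat.rec (motive := fun _ => Nat → Acc → (Acc → Nat → Bool) → Bool)
    (fun s acc k => k acc s)
    (fun _ ih s acc k =>
      cstep b mu s (Nat.mod (Nat.div s 1048576) 4) (Nat.mod (Nat.div s 4194304) 4)
        (Nat.mod (Nat.div s 16777216) 4) (Nat.mod (Nat.div s 67108864) 2048)
        (Nat.mod (Nat.div s 137438953472) 2048)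
        (Nat.mul 2048 (Nat.mod (Nat.div s 281474976710656) 262144)) acc
        (fun acc' => ih (Nat.div s 73786976294838206464) acc' k))
    K

def acc0 : Acc := ⟨Int.ofNat 0, Int.ofNat 0, Int.ofNat 0, Int.ofNat 0, Int.ofNat 0, Int.ofNat 0,
  Int.ofNat 0, Int.ofNat 0⟩

def half (r : Nat) : Nat := Nat.div (Nat.add r 1) 2

/-- Split along variable `v`; `k` gets the two halves. -/
def split (b : Box) (v : Nat) (k : Box → Box → Bool) : Bool :=
  cond (Nat.beq v 0) ((fun h =>
      k { b with c0 := Int.add b.c0 (Int.neg (Int.ofNat h)), r0 := h } { b with c0 := Int.add b.c0 (Int.ofNat h), r0 := h }) (half b.r0))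
  (cond (Nat.beq v 1) ((fun h =>
      k { b with c1 := Int.add b.c1 (Int.neg (Int.ofNat h)), r1 := h } { b with c1 := Int.add b.c1 (Int.ofNat h), r1 := h }) (half b.r1))
  (cond (Nat.beq v 2) ((fun h =>
      k { b with c2 := Int.add b.c2 (Int.neg (Int.ofNat h)), r2 := h } { b with c2 := Int.add b.c2 (Int.ofNat h), r2 := h }) (half b.r2))
  (cond (Nat.beq v 3) ((fun h =>
      k { b with c3 := Int.add b.c3 (Int.neg (Int.ofNat h)), r3 := h } { b with c3 := Int.add b.c3 (Int.ofNat h), r3 := h }) (half b.r3))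
  (cond (Nat.beq v 4) ((fun h =>
      k { b with c4 := Int.add b.c4 (Int.neg (Int.ofNat h)), r4 := h } { b with c4 := Int.add b.c4 (Int.ofNat h), r4 := h }) (half b.r4))
  (cond (Nat.beq v 5) ((fun h =>
      k { b with c5 := Int.add b.c5 (Int.neg (Int.ofNat h)), r5 := h } { b with c5 := Int.add b.c5 (Int.ofNat h), r5 := h }) (half b.r5))
  ((fun h =>
      k { b with c6 := Int.add b.c6 (Int.neg (Int.ofNat h)), r6 := h } { b with c6 := Int.add b.c6 (Int.ofNat h), r6 := h }) (half b.r6)))))))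

/-- the main loop -/
noncomputable def run (fuel : Nat) :
    Box → Nat → List Nat → (Nat → List Nat → Bool) → Bool :=
  Nat.rec (motive := fun _ => Box → Nat → List Nat → (Nat → List Nat → Bool) → Bool)
    (fun _ _ _ _ => false)
    (fun _ ih b s l k =>
      (fun t s1 =>
        cond (Nat.beq t 0)
          (split b (Nat.mod s1 8) (fun bl br =>
            ih bl (Nat.div s1 8) l (fun s' l' => ih br s' l' k)))
        (cond (Nat.beq t 1)
          (cond (fcheck b s1) (k (Nat.div s1 1048576) l) false)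
        (cond (Nat.beq t 2)
          (cond (outtest b) (k s1 l) false)
        ((fun e s2 =>
          cond (Nat.beq e 0)
            (List.rec (motive := fun _ => Bool) false (fun c l' _ => ih b c l' k) l)
            ((fun mu => cond (Nat.ble 1 mu)
              (lploop b mu (Nat.mod s2 16) (Nat.div s2 16) acc0 (fun acc s4 =>
                cond (fin b acc) (k s4 l) false)) false) (Int.toNat (mu3 b))))
          (Nat.mod s1 2) (Nat.div s1 2)))))
        (Nat.mod s 4) (Nat.div s 4))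
    fuel

end Run7.h774.B2
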