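import Mathlib

/-!
Basic definitions for MP_be9f18_nt (two-dimensional simultaneous approximation constant).
`t1, t2, t3` are the three roots 2cos(2π/7), 2cos(4π/7), 2cos(6π/7) of x^3 + x^2 - 2x - 1.
-/

set_option autoImplicit false

namespace Run7.h774

theorem exists_t1 : ∃ t : ℝ, 1.2469796 ≤ t ∧ t ≤ 1.2469797 ∧ t ^ 3 + t ^ 2 - 2 * t - 1 = 0 := by
  have hc : ContinuousOn (fun t : ℝ => t ^ 3 + t ^ 2 - 2 * t - 1) (Set.Icc 1.2469796 1.2469797) := by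
    fun_prop
  have h := intermediate_value_Icc (by norm_num) hc
  have h0 : (0 : ℝ) ∈ Set.Icc ((1.2469796 : ℝ) ^ 3 + 1.2469796 ^ 2 - 2 * 1.2469796 - 1)
      ((1.2469797 : ℝ) ^ 3 + 1.2469797 ^ 2 - 2 * 1.2469797 - 1) := by
    constructor <;> norm_num
  obtain ⟨t, ht, h1⟩ := h h0
  exact ⟨t, ht.1, ht.2, h1⟩

/-- `2 cos (2π/7)`, as the root of `x^3 + x^2 - 2x - 1` near `1.24698`. -/
noncomputable def t1 : ℝ := Classical.choose exists_t1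
/-- `2 cos (4π/7)`, near `-0.44504`. -/
noncomputable def t2 : ℝ := t1 ^ 2 - 2
/-- `2 cos (6π/7)`, near `-1.80194`. -/
noncomputable def t3 : ℝ := -1 - t1 - t2

theorem t1_spec : 1.2469796 ≤ t1 ∧ t1 ≤ 1.2469797 ∧ t1 ^ 3 + t1 ^ 2 - 2 * t1 - 1 = 0 :=
  Classical.choose_spec exists_t1

theorem t1_lo : 1.2469796 ≤ t1 := t1_spec.1
theorem t1_hi : t1 ≤ 1.2469797 := t1_spec.2.1
theorem t1_eq : t1 ^ 3 + t1 ^ 2 - 2 * t1 - 1 = 0 := t1_spec.2.2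

theorem t2_def' : t2 = t1 ^ 2 - 2 := rfl
theorem t3_def' : t3 = -1 - t1 - t2 := rfl

theorem t2_sq : t3 = t2 ^ 2 - 2 := by
  have h := t1_eq
  rw [t3_def', t2_def']
  linear_combination (-t1 + 1) * h

theorem t3_sq : t1 = t3 ^ 2 - 2 := by
  have h := t1_eq
  rw [t3_def', t2_def']
  linear_combination (-t1 - 1) * h

theorem t2_eq : t2 ^ 3 + t2 ^ 2 - 2 * t2 - 1 = 0 := by
  have h := t1_eq
  rw [t2_def']
  linear_combination (t1 ^ 3 - t1 ^ 2 - 2 * t1 + 1) * h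

theorem t3_eq : t3 ^ 3 + t3 ^ 2 - 2 * t3 - 1 = 0 := by
  have h := t1_eq
  rw [t3_def', t2_def']
  linear_combination (-t1 ^ 3 - 2 * t1 ^ 2 + t1 + 1) * h

theorem t_sum : t1 + t2 + t3 = -1 := by rw [t3_def']; ring

theorem t_prod : t1 * t2 * t3 = 1 := by
  have h := t1_eq
  rw [t3_def', t2_def']
  linear_combination (-t1 ^ 2 + 1) * h

theorem t_sym2 : t1 * t2 + t2 * t3 + t3 * t1 = -2 := by
  have h := t1_eq
  rw [t3_def', t2_def']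
  linear_combination (-t1) * h

theorem t2_lo : -0.4450419 ≤ t2 := by
  have h1 := t1_lo
  rw [t2_def']; nlinarith
theorem t2_hi : t2 ≤ -0.4450416 := by
  have h1 := t1_lo; have h2 := t1_hi
  rw [t2_def']; nlinarith
theorem t3_lo : -1.8019381 ≤ t3 := by
  have h1 := t1_hi; have h2 := t2_hi
  rw [t3_def']; linarith
theorem t3_hi : t3 ≤ -1.8019377 := by
  have h1 := t1_lo; have h2 := t2_lo
  rw [t3_def']; linarith

/-- The three real embeddings of the integer of `ℚ(2cos(2π/7))` with coordinates `(a, b, c)` in the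
basis `1, t, t^2`. -/
noncomputable def e1 (n : ℤ × ℤ × ℤ) : ℝ := n.1 + n.2.1 * t1 + n.2.2 * t1 ^ 2
noncomputable def e2 (n : ℤ × ℤ × ℤ) : ℝ := n.1 + n.2.1 * t2 + n.2.2 * t2 ^ 2
noncomputable def e3 (n : ℤ × ℤ × ℤ) : ℝ := n.1 + n.2.1 * t3 + n.2.2 * t3 ^ 2

/-- Admissibility: all nonzero integer points close to the line have
`|q| * max(|qξ₁-p₁|,|qξ₂-p₂|)^2 ≥ c`. -/
def Adm (ξ₁ ξ₂ c : ℝ) : Prop :=
  ∃ ρ : ℝ, 0 < ρ ∧ ∀ p₁ p₂ q : ℤ, ¬ (p₁ = 0 ∧ p₂ = 0 ∧ q = 0) →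
    |(q : ℝ) * ξ₁ - p₁| ≤ ρ → |(q : ℝ) * ξ₂ - p₂| ≤ ρ →
      c ≤ |(q : ℝ)| * (max |(q : ℝ) * ξ₁ - p₁| |(q : ℝ) * ξ₂ - p₂|) ^ 2

end Run7.h774
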