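import Pool.Agent.Run7.h774.B2Check
import Pool.Agent.Run7.h774.Basic

/-! Soundness of the checker of `B2Check`. -/

set_option autoImplicit false

namespace Run7.h774.B2

/-- the seven real variables -/
structure Z where
  s : ℝ
  h : ℝ
  k : ℝ
  f1 : ℝ
  f2 : ℝ
  g1 : ℝ
  g2 : ℝ

/-- membership in a box -/
structure Mem (b : Box) (z : Z) : Prop where
  m0 : |65536 * z.s - b.c0| ≤ b.r0
  m1 : |65536 * z.h - b.c1| ≤ b.r1
  m2 : |65536 * z.k - b.c2| ≤ b.r2
  m3 : |65536 * z.f1 - b.c3| ≤ b.r3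
  m4 : |65536 * z.f2 - b.c4| ≤ b.r4
  m5 : |65536 * z.g1 - b.c5| ≤ b.r5
  m6 : |65536 * z.g2 - b.c6| ≤ b.r6

noncomputable def Z.y1 (z : Z) (n : ℤ × ℤ × ℤ) : ℝ := (1 + z.s) * e1 n + z.h * e2 n + z.f1 * e3 n
noncomputable def Z.y2 (z : Z) (n : ℤ × ℤ × ℤ) : ℝ := z.k * e1 n + (1 - z.s) * e2 n + z.f2 * e3 n
noncomputable def Z.y3 (z : Z) (n : ℤ × ℤ × ℤ) : ℝ := z.g1 * e1 n + z.g2 * e2 n + e3 n
/-- the determinant -/
noncomputable def Z.D (z : Z) : ℝ :=
  (1 + z.s) * ((1 - z.s) - z.f2 * z.g2) - z.h * (z.k - z.f2 * z.g1)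
    + z.f1 * (z.k * z.g2 - (1 - z.s) * z.g1)

/-- hypotheses on `z` -/
structure Hyp (z : Z) : Prop where
  hF : ∀ n : ℤ × ℤ × ℤ, ¬ (n.1 = 0 ∧ n.2.1 = 0 ∧ n.2.2 = 0) → |n.1| ≤ 128 → |n.2.1| ≤ 32 → |n.2.2| ≤ 32 →
    z.D ≤ |z.y3 n| * ((|z.y1 n| + |z.y2 n|) / 2) ^ 2
  th : |z.h| ≤ 135 / 1000 * (1 - z.s)
  tk : |z.k| ≤ 135 / 1000 * (1 + z.s)
  t1 : |z.g1| ≤ 83 / 1000 * (1 + z.s)
  t2 : |z.g2| ≤ 83 / 1000 * (1 - z.s)
  ts : |z.s| ≤ 4535 / 10000
  u1 : |z.f1| ≤ 2035 / 10000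
  u2 : |z.f2| ≤ 2035 / 10000
  ann : 562 / 10000 ≤ max |z.f1| |z.f2|

/-! ### bounds of the conjugates -/

theorem t1_lo' : 1.2469796037 ≤ t1 := by
  by_contra hc
  push Not at hc
  have h := t1_eq
  have h0 := t1_lo
  have h1 : (t1 - 1.2469796037) * (t1 ^ 2 + t1 * 1.2469796037 + 1.2469796037 ^ 2 + t1 + 1.2469796037 - 2) =
    (t1 ^ 3 + t1 ^ 2 - 2 * t1 - 1) - (1.2469796037 ^ 3 + 1.2469796037 ^ 2 - 2 * 1.2469796037 - 1) := by ring
  rw [h] at h1
  have h2 : (0 : ℝ) < t1 ^ 2 + t1 * 1.2469796037 + 1.2469796037 ^ 2 + t1 + 1.2469796037 - 2 := by nlinarith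
  have h3 : (t1 - 1.2469796037) * (t1 ^ 2 + t1 * 1.2469796037 + 1.2469796037 ^ 2 + t1 + 1.2469796037 - 2) < 0 :=
    mul_neg_of_neg_of_pos (by linarith) h2
  rw [h1] at h3
  norm_num at h3

theorem t1_hi' : t1 ≤ 1.2469796038 := by
  by_contra hc
  push Not at hc
  have h := t1_eq
  have h1 : (t1 - 1.2469796038) * (t1 ^ 2 + t1 * 1.2469796038 + 1.2469796038 ^ 2 + t1 + 1.2469796038 - 2) =
    (t1 ^ 3 + t1 ^ 2 - 2 * t1 - 1) - (1.2469796038 ^ 3 + 1.2469796038 ^ 2 - 2 * 1.2469796038 - 1) := by ring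
  rw [h] at h1
  have h2 : (0 : ℝ) < t1 ^ 2 + t1 * 1.2469796038 + 1.2469796038 ^ 2 + t1 + 1.2469796038 - 2 := by nlinarith
  have h3 : 0 < (t1 - 1.2469796038) * (t1 ^ 2 + t1 * 1.2469796038 + 1.2469796038 ^ 2 + t1 + 1.2469796038 - 2) :=
    mul_pos (by linarith) h2
  rw [h1] at h3
  norm_num at h3

theorem t2_lo' : -0.445041868 ≤ t2 := by
  have h1 := t1_lo'
  rw [t2_def']; nlinarith
theorem t2_hi' : t2 ≤ -0.445041867 := by
  have h1 := t1_lo'; have h2 := t1_hi'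
  rw [t2_def']; nlinarith
theorem t3_lo' : -1.801937737 ≤ t3 := by
  have h1 := t1_hi'; have h2 := t2_hi'
  rw [t3_def']; linarith
theorem t3_hi' : t3 ≤ -1.801937735 := by
  have h1 := t1_lo'; have h2 := t2_lo'
  rw [t3_def']; linarith

theorem sq1 : t1 ^ 2 = t2 + 2 := by rw [t2_def']; ring
theorem sq2 : t2 ^ 2 = t3 + 2 := by have := t2_sq; linarith
theorem sq3 : t3 ^ 2 = t1 + 2 := by have := t3_sq; linarith

theorem comb_err {q r x y A B : ℝ} (hq : |q| ≤ 32) (hr : |r| ≤ 32) (hx : |x - A| ≤ 1) (hy : |y - B| ≤ 1) :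
    |(q * x + r * y) - (A * q + B * r)| ≤ 64 := by
  have e : (q * x + r * y) - (A * q + B * r) = q * (x - A) + r * (y - B) := by ring
  rw [e]
  have h1 : |q * (x - A)| ≤ 32 * 1 := by rw [abs_mul]; exact mul_le_mul hq hx (abs_nonneg _) (by norm_num)
  have h2 : |r * (y - B)| ≤ 32 * 1 := by rw [abs_mul]; exact mul_le_mul hr hy (abs_nonneg _) (by norm_num)
  have := abs_add_le (q * (x - A)) (r * (y - B))
  linarith

theorem ev_cast (p q r A B : Int) : ((ev p q r A B : Int) : ℝ) = 16777216 * p + (A * q + B * r) := by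
  unfold ev
  simp only [Int.add_def, Int.mul_def]
  push_cast
  norm_num

theorem ev1 {p q r : ℤ} (hq : |q| ≤ 32) (hr : |r| ≤ 32) :
    |16777216 * e1 (p, q, r) - (ev p q r cA1 cB1 : Int)| ≤ 64 := by
  rw [ev_cast]
  have hq' : |(q : ℝ)| ≤ 32 := by exact_mod_cast hq
  have hr' : |(r : ℝ)| ≤ 32 := by exact_mod_cast hr
  have a : |16777216 * t1 - (cA1 : Int)| ≤ 1 := by
    have h1 := t1_lo'; have h2 := t1_hi'
    simp only [cA1]; push_cast; rw [abs_le]; constructor <;> norm_num <;> linarith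
  have b : |16777216 * t1 ^ 2 - (cB1 : Int)| ≤ 1 := by
    have h1 := t2_lo'; have h2 := t2_hi'
    rw [sq1]
    simp only [cB1]; push_cast; rw [abs_le]; constructor <;> norm_num <;> linarith
  have := comb_err hq' hr' a b
  unfold e1
  rw [show (16777216 : ℝ) * (↑(p, q, r).1 + ↑(p, q, r).2.1 * t1 + ↑(p, q, r).2.2 * t1 ^ 2)
    - (16777216 * p + ((cA1 : Int) * q + (cB1 : Int) * r)) =
    (q * (16777216 * t1) + r * (16777216 * t1 ^ 2)) - ((cA1 : Int) * q + (cB1 : Int) * r) by ring]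
  exact this

theorem ev2 {p q r : ℤ} (hq : |q| ≤ 32) (hr : |r| ≤ 32) :
    |16777216 * e2 (p, q, r) - (ev p q r cA2 cB2 : Int)| ≤ 64 := by
  rw [ev_cast]
  have hq' : |(q : ℝ)| ≤ 32 := by exact_mod_cast hq
  have hr' : |(r : ℝ)| ≤ 32 := by exact_mod_cast hr
  have a : |16777216 * t2 - (cA2 : Int)| ≤ 1 := by
    have h1 := t2_lo'; have h2 := t2_hi'
    simp only [cA2]; push_cast; rw [abs_le]; constructor <;> norm_num <;> linarith
  have b : |16777216 * t2 ^ 2 - (cB2 : Int)| ≤ 1 := by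
    have h1 := t3_lo'; have h2 := t3_hi'
    rw [sq2]
    simp only [cB2]; push_cast; rw [abs_le]; constructor <;> norm_num <;> linarith
  have := comb_err hq' hr' a b
  unfold e2
  rw [show (16777216 : ℝ) * (↑(p, q, r).1 + ↑(p, q, r).2.1 * t2 + ↑(p, q, r).2.2 * t2 ^ 2)
    - (16777216 * p + ((cA2 : Int) * q + (cB2 : Int) * r)) =
    (q * (16777216 * t2) + r * (16777216 * t2 ^ 2)) - ((cA2 : Int) * q + (cB2 : Int) * r) by ring]
  exact this

theorem ev3 {p q r : ℤ} (hq : |q| ≤ 32) (hr : |r| ≤ 32) :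
    |16777216 * e3 (p, q, r) - (ev p q r cA3 cB3 : Int)| ≤ 64 := by
  rw [ev_cast]
  have hq' : |(q : ℝ)| ≤ 32 := by exact_mod_cast hq
  have hr' : |(r : ℝ)| ≤ 32 := by exact_mod_cast hr
  have a : |16777216 * t3 - (cA3 : Int)| ≤ 1 := by
    have h1 := t3_lo'; have h2 := t3_hi'
    simp only [cA3]; push_cast; rw [abs_le]; constructor <;> norm_num <;> linarith
  have b : |16777216 * t3 ^ 2 - (cB3 : Int)| ≤ 1 := by
    have h1 := t1_lo'; have h2 := t1_hi'
    rw [sq3]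
    simp only [cB3]; push_cast; rw [abs_le]; constructor <;> norm_num <;> linarith
  have := comb_err hq' hr' a b
  unfold e3
  rw [show (16777216 : ℝ) * (↑(p, q, r).1 + ↑(p, q, r).2.1 * t3 + ↑(p, q, r).2.2 * t3 ^ 2)
    - (16777216 * p + ((cA3 : Int) * q + (cB3 : Int) * r)) =
    (q * (16777216 * t3) + r * (16777216 * t3 ^ 2)) - ((cA3 : Int) * q + (cB3 : Int) * r) by ring]
  exact this

/-! ### rows -/

theorem ofNat_cast (w : Nat) : ((Int.ofNat w : Int) : ℝ) = (w : ℝ) := by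
  rw [Int.ofNat_eq_natCast]; push_cast; ring

theorem natAbs_cast (c : Int) : ((Int.natAbs c : Nat) : ℝ) = |(c : ℝ)| := by
  rw [← Int.cast_natCast, Int.natCast_natAbs, Int.cast_abs]

theorem cen3_cast (a b c E1 E2 E3 : Int) :
    ((cen3 a b c E1 E2 E3 : Int) : ℝ) = a * E1 + (b * E2 + c * E3) := by
  unfold cen3
  simp only [Int.add_def, Int.mul_def]
  push_cast
  ring

theorem rad3_cast (a b c : Nat) (E1 E2 E3 : Int) :
    ((rad3 a b c E1 E2 E3 : Nat) : ℝ) =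
      (a * |(E1 : ℝ)| + b * |(E2 : ℝ)|) + (c * |(E3 : ℝ)| + 8388608) := by
  unfold rad3
  simp only [Nat.add_eq, Nat.mul_eq]
  push_cast [Nat.cast_natAbs]
  ring

theorem mul_bd {x y rx : ℝ} (hx : |x| ≤ rx) : |x * y| ≤ rx * |y| := by
  rw [abs_mul]; exact mul_le_mul_of_nonneg_right hx (abs_nonneg _)

/-- abstract row bound -/
theorem row_abs {A B C a b c E1 E2 E3 x1 x2 x3 ra rb rc : ℝ}
    (hA : |A - a| ≤ ra) (hB : |B - b| ≤ rb) (hC : |C - c| ≤ rc)
    (h1 : |x1 - E1| ≤ 64) (h2 : |x2 - E2| ≤ 64) (h3 : |x3 - E3| ≤ 64)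
    (hs : |A| + |B| + |C| ≤ 131072) :
    |(A * x1 + B * x2 + C * x3) - (a * E1 + (b * E2 + c * E3))
        - ((A - a) * E1 + (B - b) * E2 + (C - c) * E3)| ≤ 8388608 ∧
    |(A - a) * E1 + (B - b) * E2 + (C - c) * E3| ≤ (ra * |E1| + rb * |E2|) + (rc * |E3| + 8388608) - 8388608 := by
  constructor
  · have e : (A * x1 + B * x2 + C * x3) - (a * E1 + (b * E2 + c * E3))
        - ((A - a) * E1 + (B - b) * E2 + (C - c) * E3) =
        A * (x1 - E1) + B * (x2 - E2) + C * (x3 - E3) := by ring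
    rw [e]
    have p1 : |A * (x1 - E1)| ≤ |A| * 64 := by rw [abs_mul]; exact mul_le_mul_of_nonneg_left h1 (abs_nonneg _)
    have p2 : |B * (x2 - E2)| ≤ |B| * 64 := by rw [abs_mul]; exact mul_le_mul_of_nonneg_left h2 (abs_nonneg _)
    have p3 : |C * (x3 - E3)| ≤ |C| * 64 := by rw [abs_mul]; exact mul_le_mul_of_nonneg_left h3 (abs_nonneg _)
    have q1 := abs_add_le (A * (x1 - E1) + B * (x2 - E2)) (C * (x3 - E3))
    have q2 := abs_add_le (A * (x1 - E1)) (B * (x2 - E2))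
    linarith
  · have p1 := mul_bd (y := E1) hA
    have p2 := mul_bd (y := E2) hB
    have p3 := mul_bd (y := E3) hC
    have q1 := abs_add_le ((A - a) * E1 + (B - b) * E2) ((C - c) * E3)
    have q2 := abs_add_le ((A - a) * E1) ((B - b) * E2)
    linarith

theorem cond_true' {c x y : Bool} (h : cond c x y = true) : (c = true ∧ x = true) ∨ (c = false ∧ y = true) := by
  cases c <;> simp_all

theorem cond_false_right {c x : Bool} (h : cond c x false = true) : c = true ∧ x = true := by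
  cases c <;> simp_all

theorem cond_true_left {c x : Bool} (h : cond c true x = true) : c = true ∨ x = true := by
  cases c <;> simp_all

theorem ble_real {m n : Nat} (h : Nat.ble m n = true) : (m : ℝ) ≤ n := by
  exact_mod_cast Nat.le_of_ble_eq_true h

theorem blt_real {m n : Nat} (h : Nat.blt m n = true) : (m : ℝ) < n := by
  have : m < n := by simpa [Nat.blt_eq] using h
  exact_mod_cast this

theorem toNat_ge {c : Int} {r : Nat} (h : Nat.ble r (Int.toNat c) = true) (hr : 1 ≤ r) :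
    (r : ℝ) ≤ (c : ℝ) := by
  have h1 := Nat.le_of_ble_eq_true h
  have h2 : (r : ℤ) ≤ c := by omega
  exact_mod_cast h2

/-- Soundness of `row`: `Y` the value, `lin` the linear deviation. -/
theorem row_sound {md w : Nat} {c : Int} {rad : Nat} {k : Int → Int → Bool} {Y lin : ℝ}
    (hrad : 1 ≤ rad)
    (h1 : |Y - c - lin| ≤ 8388608) (h2 : |lin| ≤ (rad : ℝ) - 8388608)
    (h : row md w c rad k = true) :
    ∃ cst mult : Int, k cst mult = true ∧ (w : ℝ) * |Y| ≤ cst + mult * lin := by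
  unfold row at h
  have hw : (0 : ℝ) ≤ w := Nat.cast_nonneg _
  rw [abs_le] at h1 h2
  rcases cond_true' h with ⟨-, h⟩ | ⟨-, h⟩
  · obtain ⟨h3, h4⟩ := cond_false_right h
    have h5 := toNat_ge h3 hrad
    refine ⟨_, _, h4, ?_⟩
    have hY : 0 ≤ Y := by linarith [h1.1, h1.2, h2.1, h2.2]
    rw [abs_of_nonneg hY]
    simp only [Int.add_def, Int.mul_def, Int.cast_add, Int.cast_mul, ofNat_cast]
    push_cast
    have : (w : ℝ) * Y ≤ w * ((c + 8388608) + lin) := mul_le_mul_of_nonneg_left (by linarith) hw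
    linarith
  rcases cond_true' h with ⟨-, h⟩ | ⟨-, h⟩
  · obtain ⟨h3, h4⟩ := cond_false_right h
    have h5 := toNat_ge h3 hrad
    have h5' : (rad : ℝ) ≤ -(c : ℝ) := by
      have e : ((Int.neg c : Int) : ℝ) = -(c : ℝ) := by
        rw [show Int.neg c = -c from rfl]; push_cast; ring
      rw [← e]; exact h5
    refine ⟨_, _, h4, ?_⟩
    have hY : Y ≤ 0 := by linarith [h1.1, h1.2, h2.1, h2.2]
    rw [abs_of_nonpos hY]
    rw [show Int.neg c = -c from rfl, show Int.neg (Int.ofNat w) = -(Int.ofNat w) from rfl]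
    simp only [Int.add_def, Int.mul_def, Int.cast_add, Int.cast_mul, Int.cast_neg, ofNat_cast]
    push_cast
    have : (w : ℝ) * (-Y) ≤ w * ((-c + 8388608) - lin) := mul_le_mul_of_nonneg_left (by linarith) hw
    linarith
  · refine ⟨_, _, h, ?_⟩
    simp only [Nat.add_eq, Nat.mul_eq]
    push_cast [Nat.cast_natAbs]
    have hY : |Y| ≤ |(c : ℝ)| + rad := by
      have := abs_le_abs_of_nonneg (a := (0:ℝ)) le_rfl (abs_nonneg (c : ℝ))
      rw [abs_le]
      have c1 := le_abs_self (c : ℝ)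
      have c2 := neg_abs_le (c : ℝ)
      constructor <;> linarith [h1.1, h1.2, h2.1, h2.2]
    have := mul_le_mul_of_nonneg_left hY hw
    simp only [Int.ofNat_eq_natCast] at *
    push_cast at *
    linarith

/-! ### the determinant -/

theorem upr_sound {x y : ℝ} {c1 c2 : Int} {r1 r2 : Nat} (hx : |x - c1| ≤ r1) (hy : |y - c2| ≤ r2) :
    x * y ≤ (upr c1 c2 r1 r2 : Int) := by
  unfold upr
  simp only [Int.add_def, Int.mul_def, Int.cast_add, Int.cast_mul, ofNat_cast, Nat.add_eq, Nat.mul_eq]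
  push_cast [Nat.cast_natAbs]
  have e : x * y = c1 * c2 + c1 * (y - c2) + (x - c1) * c2 + (x - c1) * (y - c2) := by ring
  rw [e]
  have p1 : (c1 : ℝ) * (y - c2) ≤ |(c1 : ℝ)| * r2 := by
    refine le_trans (le_abs_self _) ?_
    rw [abs_mul]; exact mul_le_mul_of_nonneg_left hy (abs_nonneg _)
  have p2 : (x - c1) * (c2 : ℝ) ≤ r1 * |(c2 : ℝ)| := by
    refine le_trans (le_abs_self _) ?_
    rw [abs_mul]; exact mul_le_mul_of_nonneg_right hx (abs_nonneg _)
  have p3 : (x - c1) * (y - c2) ≤ r1 * r2 := by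
    refine le_trans (le_abs_self _) ?_
    rw [abs_mul]; exact mul_le_mul hx hy (abs_nonneg _) (Nat.cast_nonneg _)
  linarith

theorem ub_sound {x : ℝ} {c : Int} {r : Nat} (hx : |x - c| ≤ r) : |x| ≤ ((Nat.add (Int.natAbs c) r : Nat) : ℝ) := by
  simp only [Nat.add_eq]
  push_cast [Nat.cast_natAbs]
  have := abs_add_le (x - c) c
  rw [sub_add_cancel] at this
  linarith

theorem mu3_sound {b : Box} {z : Z} (hb : Mem b z) :
    ((mu3 b : Int) : ℝ) ≤ 281474976710656 * z.D := by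
  have a0 := ub_sound hb.m0
  have a1 := ub_sound hb.m1
  have a2 := ub_sound hb.m2
  have a3 := ub_sound hb.m3
  have a4 := ub_sound hb.m4
  have a5 := ub_sound hb.m5
  have a6 := ub_sound hb.m6
  have p1 := upr_sound hb.m1 hb.m2
  have p2 := upr_sound hb.m4 hb.m6
  have p3 := upr_sound hb.m3 hb.m5
  unfold mu3
  set m0 := Nat.add (Int.natAbs b.c0) b.r0
  set m1 := Nat.add (Int.natAbs b.c1) b.r1
  set m2 := Nat.add (Int.natAbs b.c2) b.r2
  set m3 := Nat.add (Int.natAbs b.c3) b.r3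
  set m4 := Nat.add (Int.natAbs b.c4) b.r4
  set m5 := Nat.add (Int.natAbs b.c5) b.r5
  set m6 := Nat.add (Int.natAbs b.c6) b.r6
  simp only [show ∀ x : Int, Int.neg x = -x from fun _ => rfl, Int.add_def, Int.mul_def, Int.cast_add,
    Int.cast_mul, Int.cast_neg, ofNat_cast, Nat.add_eq, Nat.mul_eq, Nat.cast_add, Nat.cast_mul]
  set s := 65536 * z.s with hs
  set h := 65536 * z.h with hh
  set k := 65536 * z.k with hk
  set f1 := 65536 * z.f1 with hf1
  set f2 := 65536 * z.f2 with hf2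
  set g1 := 65536 * z.g1 with hg1
  set g2 := 65536 * z.g2 with hg2
  have e : 281474976710656 * z.D = 281474976710656 - 65536 * (s * s) - 65536 * (h * k) - 65536 * (f2 * g2)
      - 65536 * (f1 * g1) - s * (f2 * g2) + s * (f1 * g1) + h * (f2 * g1) + f1 * (k * g2) := by
    rw [hs, hh, hk, hf1, hf2, hg1, hg2]; unfold Z.D; ring
  rw [e]
  clear e
  clear_value s h k f1 f2 g1 g2
  have q0 : s * s ≤ (m0 : ℝ) * m0 := by
    rw [← abs_mul_abs_self s]; exact mul_le_mul a0 a0 (abs_nonneg _) (Nat.cast_nonneg _)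
  have q1 : |s * (f2 * g2)| ≤ (m0 : ℝ) * (m4 * m6) := by
    rw [abs_mul, abs_mul]
    exact mul_le_mul a0 (mul_le_mul a4 a6 (abs_nonneg _) (Nat.cast_nonneg _)) (by positivity) (Nat.cast_nonneg _)
  have q2 : |s * (f1 * g1)| ≤ (m0 : ℝ) * (m3 * m5) := by
    rw [abs_mul, abs_mul]
    exact mul_le_mul a0 (mul_le_mul a3 a5 (abs_nonneg _) (Nat.cast_nonneg _)) (by positivity) (Nat.cast_nonneg _)
  have q3 : |h * (f2 * g1)| ≤ (m1 : ℝ) * (m4 * m5) := by
    rw [abs_mul, abs_mul]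
    exact mul_le_mul a1 (mul_le_mul a4 a5 (abs_nonneg _) (Nat.cast_nonneg _)) (by positivity) (Nat.cast_nonneg _)
  have q4 : |f1 * (k * g2)| ≤ (m3 : ℝ) * (m2 * m6) := by
    rw [abs_mul, abs_mul]
    exact mul_le_mul a3 (mul_le_mul a2 a6 (abs_nonneg _) (Nat.cast_nonneg _)) (by positivity) (Nat.cast_nonneg _)
  rw [abs_le] at q1 q2 q3 q4
  push_cast
  linarith [q1.1, q1.2, q2.1, q2.2, q3.1, q3.2, q4.1, q4.2]

theorem mu3_nat {b : Box} {z : Z} (hb : Mem b z) (h : Nat.ble 1 (Int.toNat (mu3 b)) = true) :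
    ((Int.toNat (mu3 b) : Nat) : ℝ) ≤ 281474976710656 * z.D := by
  have h1 := Nat.le_of_ble_eq_true h
  have h2 : ((Int.toNat (mu3 b) : Nat) : ℤ) = mu3 b := by omega
  have h3 : ((Int.toNat (mu3 b) : Nat) : ℝ) = ((mu3 b : Int) : ℝ) := by exact_mod_cast h2
  rw [h3]; exact mu3_sound hb

end Run7.h774.B2
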