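import Pool.Agent.Run7.h774.B2Sound

/-! Soundness of the checker of `B2Check`, second part. -/

set_option autoImplicit false

namespace Run7.h774.B2

/-- the point of a word -/
def pt (s : Nat) : ℤ × ℤ × ℤ := (decp s, decq s, decr s)

theorem decp_eq (s : Nat) : decp s = (Nat.mod s 256 : ℤ) - 128 := by
  unfold decp; rw [Int.subNatNat_eq_coe]; push_cast; rfl
theorem decq_eq (s : Nat) : decq s = (Nat.mod (Nat.div s 256) 64 : ℤ) - 32 := by
  unfold decq; rw [Int.subNatNat_eq_coe]; push_cast; rfl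
theorem decr_eq (s : Nat) : decr s = (Nat.mod (Nat.div s 16384) 64 : ℤ) - 32 := by
  unfold decr; rw [Int.subNatNat_eq_coe]; push_cast; rfl

theorem decp_bd (s : Nat) : |decp s| ≤ 128 := by
  rw [decp_eq]
  have h1 : Nat.mod s 256 < 256 := Nat.mod_lt _ (by norm_num)
  rw [abs_le]; omega
theorem decq_bd (s : Nat) : |decq s| ≤ 32 := by
  rw [decq_eq]
  have h1 : Nat.mod (Nat.div s 256) 64 < 64 := Nat.mod_lt _ (by norm_num)
  rw [abs_le]; omega
theorem decr_bd (s : Nat) : |decr s| ≤ 32 := by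
  rw [decr_eq]
  have h1 : Nat.mod (Nat.div s 16384) 64 < 64 := Nat.mod_lt _ (by norm_num)
  rw [abs_le]; omega

theorem nz_sound {s : Nat} (h : nz s = true) :
    ¬ ((pt s).1 = 0 ∧ (pt s).2.1 = 0 ∧ (pt s).2.2 = 0) := by
  rintro ⟨h1, h2, h3⟩
  simp only [pt] at h1 h2 h3
  rw [decp_eq] at h1
  rw [decq_eq] at h2
  rw [decr_eq] at h3
  have k1 : s % 256 = 128 := by
    have : (Nat.mod s 256 : ℤ) = 128 := by linarith
    exact_mod_cast this
  have k2 : (s / 256) % 64 = 32 := by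
    have : (Nat.mod (Nat.div s 256) 64 : ℤ) = 32 := by linarith
    exact_mod_cast this
  have k3 : (s / 16384) % 64 = 32 := by
    have : (Nat.mod (Nat.div s 16384) 64 : ℤ) = 32 := by linarith
    exact_mod_cast this
  have k4 : s % 1048576 = 532608 := by omega
  unfold nz at h
  have : Nat.beq (Nat.mod s 1048576) 532608 = true := by
    rw [Nat.beq_eq]; exact k4
  rw [this] at h
  simp at h

theorem hyp_pt {z : Z} (hz : Hyp z) {s : Nat} (h : nz s = true) :
    z.D ≤ |z.y3 (pt s)| * ((|z.y1 (pt s)| + |z.y2 (pt s)|) / 2) ^ 2 :=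
  hz.hF _ (nz_sound h) (decp_bd s) (decq_bd s) (decr_bd s)

/-- values scaled by `2^40` and their rows -/
theorem rows {b : Box} {z : Z} (hb : Mem b z) (hz : Hyp z) (s : Nat) :
    (|1099511627776 * z.y1 (pt s) -
        (cen3 (Int.add (Int.ofNat 65536) b.c0) b.c1 b.c3 (ev (decp s) (decq s) (decr s) cA1 cB1)
          (ev (decp s) (decq s) (decr s) cA2 cB2) (ev (decp s) (decq s) (decr s) cA3 cB3) : Int) -
        ((65536 * z.s - b.c0) * (ev (decp s) (decq s) (decr s) cA1 cB1 : Int)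
        + (65536 * z.h - b.c1) * (ev (decp s) (decq s) (decr s) cA2 cB2 : Int)
        + (65536 * z.f1 - b.c3) * (ev (decp s) (decq s) (decr s) cA3 cB3 : Int))| ≤ 8388608 ∧
     |(65536 * z.s - b.c0) * (ev (decp s) (decq s) (decr s) cA1 cB1 : Int)
        + (65536 * z.h - b.c1) * (ev (decp s) (decq s) (decr s) cA2 cB2 : Int)
        + (65536 * z.f1 - b.c3) * (ev (decp s) (decq s) (decr s) cA3 cB3 : Int)| ≤
      ((rad3 b.r0 b.r1 b.r3 (ev (decp s) (decq s) (decr s) cA1 cB1)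
          (ev (decp s) (decq s) (decr s) cA2 cB2) (ev (decp s) (decq s) (decr s) cA3 cB3) : Nat) : ℝ) - 8388608) ∧
    (|1099511627776 * z.y2 (pt s) -
        (cen3 (Int.add (Int.ofNat 65536) (Int.neg b.c0)) b.c2 b.c4 (ev (decp s) (decq s) (decr s) cA2 cB2)
          (ev (decp s) (decq s) (decr s) cA1 cB1) (ev (decp s) (decq s) (decr s) cA3 cB3) : Int) -
        (-(65536 * z.s - b.c0) * (ev (decp s) (decq s) (decr s) cA2 cB2 : Int)
        + (65536 * z.k - b.c2) * (ev (decp s) (decq s) (decr s) cA1 cB1 : Int)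
        + (65536 * z.f2 - b.c4) * (ev (decp s) (decq s) (decr s) cA3 cB3 : Int))| ≤ 8388608 ∧
     |-(65536 * z.s - b.c0) * (ev (decp s) (decq s) (decr s) cA2 cB2 : Int)
        + (65536 * z.k - b.c2) * (ev (decp s) (decq s) (decr s) cA1 cB1 : Int)
        + (65536 * z.f2 - b.c4) * (ev (decp s) (decq s) (decr s) cA3 cB3 : Int)| ≤
      ((rad3 b.r0 b.r2 b.r4 (ev (decp s) (decq s) (decr s) cA2 cB2)
          (ev (decp s) (decq s) (decr s) cA1 cB1) (ev (decp s) (decq s) (decr s) cA3 cB3) : Nat) : ℝ) - 8388608) ∧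
    (|1099511627776 * z.y3 (pt s) -
        (cen3 (Int.ofNat 65536) b.c5 b.c6 (ev (decp s) (decq s) (decr s) cA3 cB3)
          (ev (decp s) (decq s) (decr s) cA1 cB1) (ev (decp s) (decq s) (decr s) cA2 cB2) : Int) -
        ((65536 * z.g1 - b.c5) * (ev (decp s) (decq s) (decr s) cA1 cB1 : Int)
        + (65536 * z.g2 - b.c6) * (ev (decp s) (decq s) (decr s) cA2 cB2 : Int))| ≤ 8388608 ∧
     |(65536 * z.g1 - b.c5) * (ev (decp s) (decq s) (decr s) cA1 cB1 : Int)
        + (65536 * z.g2 - b.c6) * (ev (decp s) (decq s) (decr s) cA2 cB2 : Int)| ≤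
      ((rad3 0 b.r5 b.r6 (ev (decp s) (decq s) (decr s) cA3 cB3)
          (ev (decp s) (decq s) (decr s) cA1 cB1) (ev (decp s) (decq s) (decr s) cA2 cB2) : Nat) : ℝ) - 8388608) := by
  have x1 := ev1 (p := decp s) (decq_bd s) (decr_bd s)
  have x2 := ev2 (p := decp s) (decq_bd s) (decr_bd s)
  have x3 := ev3 (p := decp s) (decq_bd s) (decr_bd s)
  have ts := abs_le.1 hz.ts
  have th := hz.th
  have tk := hz.tk
  have t1 := hz.t1
  have t2 := hz.t2
  have u1 := hz.u1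
  have u2 := hz.u2
  set E1 := ev (decp s) (decq s) (decr s) cA1 cB1
  set E2 := ev (decp s) (decq s) (decr s) cA2 cB2
  set E3 := ev (decp s) (decq s) (decr s) cA3 cB3
  have ab : ∀ {c x : ℝ}, 0 ≤ c → |c * x| = c * |x| := by
    intro c x hc; rw [abs_mul, abs_of_nonneg hc]
  refine ⟨?_, ?_, ?_⟩
  · have R := row_abs (A := 65536 + 65536 * z.s) (B := 65536 * z.h) (C := 65536 * z.f1)
      (a := 65536 + (b.c0 : ℝ)) (b := (b.c1 : ℝ)) (c := (b.c3 : ℝ)) (E1 := (E1 : ℝ)) (E2 := (E2 : ℝ)) (E3 := (E3 : ℝ))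
      (ra := (b.r0 : ℝ)) (rb := (b.r1 : ℝ)) (rc := (b.r3 : ℝ))
      (by rw [show 65536 + 65536 * z.s - (65536 + (b.c0 : ℝ)) = 65536 * z.s - b.c0 by ring]; exact hb.m0)
      hb.m1 hb.m3 x1 x2 x3
      (by rw [show (65536 : ℝ) + 65536 * z.s = 65536 * (1 + z.s) by ring, ab (by norm_num), ab (by norm_num),
            ab (by norm_num), abs_of_nonneg (by linarith [ts.1] : (0:ℝ) ≤ 1 + z.s)]
          linarith [ts.1, ts.2])
    rw [rad3_cast, cen3_cast]
    constructor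
    · have e1' : 1099511627776 * z.y1 (pt s) = (65536 + 65536 * z.s) * (16777216 * e1 (decp s, decq s, decr s))
          + (65536 * z.h) * (16777216 * e2 (decp s, decq s, decr s))
          + (65536 * z.f1) * (16777216 * e3 (decp s, decq s, decr s)) := by
        unfold Z.y1 pt; ring
      rw [e1']
      simp only [Int.add_def, Int.cast_add, ofNat_cast]
      have R1 := R.1
      rw [show (65536 + 65536 * z.s - (65536 + (b.c0 : ℝ))) = 65536 * z.s - b.c0 by ring] at R1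
      push_cast
      exact R1
    · have R2 := R.2
      rw [show (65536 + 65536 * z.s - (65536 + (b.c0 : ℝ))) = 65536 * z.s - b.c0 by ring] at R2
      exact R2
  · have R := row_abs (A := 65536 - 65536 * z.s) (B := 65536 * z.k) (C := 65536 * z.f2)
      (a := 65536 - (b.c0 : ℝ)) (b := (b.c2 : ℝ)) (c := (b.c4 : ℝ)) (E1 := (E2 : ℝ)) (E2 := (E1 : ℝ)) (E3 := (E3 : ℝ))
      (ra := (b.r0 : ℝ)) (rb := (b.r2 : ℝ)) (rc := (b.r4 : ℝ))
      (by rw [show 65536 - 65536 * z.s - (65536 - (b.c0 : ℝ)) = -(65536 * z.s - b.c0) by ring, abs_neg]; exact hb.m0)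
      hb.m2 hb.m4 x2 x1 x3
      (by rw [show (65536 : ℝ) - 65536 * z.s = 65536 * (1 - z.s) by ring, ab (by norm_num), ab (by norm_num),
            ab (by norm_num), abs_of_nonneg (by linarith [ts.2] : (0:ℝ) ≤ 1 - z.s)]
          linarith [ts.1, ts.2])
    rw [rad3_cast, cen3_cast]
    constructor
    · have e1' : 1099511627776 * z.y2 (pt s) = (65536 - 65536 * z.s) * (16777216 * e2 (decp s, decq s, decr s))
          + (65536 * z.k) * (16777216 * e1 (decp s, decq s, decr s))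
          + (65536 * z.f2) * (16777216 * e3 (decp s, decq s, decr s)) := by
        unfold Z.y2 pt; ring
      rw [e1']
      simp only [show ∀ x : Int, Int.neg x = -x from fun _ => rfl, Int.add_def, Int.cast_add, Int.cast_neg, ofNat_cast]
      have R1 := R.1
      rw [show (65536 - 65536 * z.s - (65536 - (b.c0 : ℝ))) = -(65536 * z.s - b.c0) by ring,
        show (65536 : ℝ) - (b.c0 : ℝ) = 65536 + -(b.c0 : ℝ) by ring] at R1
      push_cast
      exact R1
    · have R2 := R.2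
      rw [show (65536 - 65536 * z.s - (65536 - (b.c0 : ℝ))) = -(65536 * z.s - b.c0) by ring] at R2
      exact R2
  · have R := row_abs (A := (65536 : ℝ)) (B := 65536 * z.g1) (C := 65536 * z.g2)
      (a := (65536 : ℝ)) (b := (b.c5 : ℝ)) (c := (b.c6 : ℝ)) (E1 := (E3 : ℝ)) (E2 := (E1 : ℝ)) (E3 := (E2 : ℝ))
      (ra := (0 : ℝ)) (rb := (b.r5 : ℝ)) (rc := (b.r6 : ℝ))
      (by norm_num)
      hb.m5 hb.m6 x3 x1 x2
      (by rw [ab (by norm_num), ab (by norm_num), abs_of_pos (by norm_num : (0:ℝ) < 65536)]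
          linarith [ts.1, ts.2])
    rw [rad3_cast, cen3_cast]
    constructor
    · have e1' : 1099511627776 * z.y3 (pt s) = 65536 * (16777216 * e3 (decp s, decq s, decr s))
          + (65536 * z.g1) * (16777216 * e1 (decp s, decq s, decr s))
          + (65536 * z.g2) * (16777216 * e2 (decp s, decq s, decr s)) := by
        unfold Z.y3 pt; ring
      rw [e1']
      have R1 := R.1
      rw [sub_self, zero_mul, zero_add] at R1
      rw [ofNat_cast]
      push_cast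
      exact R1
    · have R2 := R.2
      rw [sub_self, zero_mul, zero_add] at R2
      push_cast
      exact R2

theorem abs_of_row {Y c lin rad : ℝ} (h : |Y - c - lin| ≤ 8388608 ∧ |lin| ≤ rad - 8388608) :
    |Y - c| ≤ rad := by
  obtain ⟨h1, h2⟩ := h
  rw [abs_le] at h1 h2 ⊢
  constructor <;> linarith [h1.1, h1.2, h2.1, h2.2]

theorem F_scaled {z : Z} (hz : Hyp z) {s : Nat} (h : nz s = true) :
    1329227995784915872903807060280344576 * z.D ≤
      |1099511627776 * z.y3 (pt s)| *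
        ((|1099511627776 * z.y1 (pt s)| + |1099511627776 * z.y2 (pt s)|) / 2) ^ 2 := by
  have h1 := hyp_pt hz h
  rw [abs_mul, abs_mul, abs_mul, abs_of_pos (by norm_num : (0:ℝ) < 1099511627776)]
  nlinarith

theorem fcheck_sound {b : Box} {z : Z} {s : Nat} (hb : Mem b z) (hz : Hyp z)
    (h : fcheck b s = true) : False := by
  unfold fcheck at h
  obtain ⟨h0, h⟩ := cond_false_right h
  obtain ⟨h1, h⟩ := cond_false_right h
  have hmu := mu3_nat hb h1
  obtain ⟨R1, R2, R3⟩ := rows hb hz s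
  have b1 := ub_sound (abs_of_row R1)
  have b2 := ub_sound (abs_of_row R2)
  have b3 := ub_sound (abs_of_row R3)
  have h2 := blt_real h
  simp only [ub, Nat.add_eq, Nat.mul_eq, Nat.cast_add, Nat.cast_mul] at h2 b1 b2 b3
  have hF := F_scaled hz h0
  set Y1 := |1099511627776 * z.y1 (pt s)|
  set Y2 := |1099511627776 * z.y2 (pt s)|
  set Y3 := |1099511627776 * z.y3 (pt s)|
  have n1 : 0 ≤ Y1 := abs_nonneg _
  have n2 : 0 ≤ Y2 := abs_nonneg _
  have n3 : 0 ≤ Y3 := abs_nonneg _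
  have key : Y3 * ((Y1 + Y2) * (Y1 + Y2)) ≤ _ :=
    mul_le_mul b3 (mul_le_mul (add_le_add b1 b2) (add_le_add b1 b2) (by positivity)
      (by linarith)) (by positivity) (by linarith)
  push_cast at h2 key hmu
  have e : Y3 * ((Y1 + Y2) / 2) ^ 2 = Y3 * ((Y1 + Y2) * (Y1 + Y2)) / 4 := by ring
  rw [e] at hF
  linarith

theorem amgm {P Q R u a b D : ℝ} (hP : 0 ≤ P) (hQ : 0 ≤ Q) (hu : 0 ≤ u) (ha : 0 ≤ a) (hb : 0 ≤ b)
    (h : D ≤ u * ((a + b) / 2) ^ 2) (hR : R ^ 3 ≤ 27 * P * (Q ^ 2 * D)) : R ≤ P * u + (Q * a + Q * b) := by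
  set v := (a + b) / 2 with hv
  have hv0 : 0 ≤ v := by positivity
  have key : 27 * (P * u) * (Q * v) ^ 2 ≤ (P * u + 2 * (Q * v)) ^ 3 := by
    have h1 : 0 ≤ P * u := mul_nonneg hP hu
    have h2 : 0 ≤ Q * v := by positivity
    have h3 : (P * u + 2 * (Q * v)) ^ 3 - 27 * (P * u) * (Q * v) ^ 2
        = (P * u - Q * v) ^ 2 * (P * u + 8 * (Q * v)) := by ring
    have h4 : 0 ≤ (P * u - Q * v) ^ 2 * (P * u + 8 * (Q * v)) := by positivity
    linarith
  have hPQ : 0 ≤ 27 * P * Q ^ 2 := by positivity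
  have h5 : 27 * P * Q ^ 2 * D ≤ 27 * P * Q ^ 2 * (u * v ^ 2) := mul_le_mul_of_nonneg_left h hPQ
  have h6 : R ^ 3 ≤ (P * u + 2 * (Q * v)) ^ 3 := by nlinarith
  have h7 : 0 ≤ P * u + 2 * (Q * v) := by positivity
  have := le_of_pow_le_pow_left₀ (by norm_num) h7 h6
  rw [hv] at this
  linarith

/-- value of the accumulated form at `z` -/
noncomputable def Acc.val (acc : Acc) (b : Box) (z : Z) : ℝ :=
  (acc.c : ℝ) + acc.k0 * (65536 * z.s - b.c0) + acc.k1 * (65536 * z.h - b.c1)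
  + acc.k2 * (65536 * z.k - b.c2) + acc.k3 * (65536 * z.f1 - b.c3)
  + acc.k4 * (65536 * z.f2 - b.c4) + acc.k5 * (65536 * z.g1 - b.c5)
  + acc.k6 * (65536 * z.g2 - b.c6)

theorem rad3_pos (a b c : Nat) (E1 E2 E3 : Int) : 1 ≤ rad3 a b c E1 E2 E3 := by
  unfold rad3; simp only [Nat.add_eq]; omega

theorem cstep_sound {b : Box} {z : Z} (hb : Mem b z) (hz : Hyp z)
    {mu s md1 md2 md3 P Q R : Nat} (hmu : (mu : ℝ) ≤ 281474976710656 * z.D)
    {acc : Acc} {k : Acc → Bool} (h : cstep b mu s md1 md2 md3 P Q R acc k = true) :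
    ∃ acc', k acc' = true ∧ acc.val b z ≤ acc'.val b z := by
  unfold cstep at h
  obtain ⟨h0, h⟩ := cond_false_right h
  obtain ⟨hn, hR⟩ := cond_false_right h0
  obtain ⟨R1, R2, R3⟩ := rows hb hz s
  have hF := F_scaled hz hn
  obtain ⟨cs1, m1, h, L1⟩ := row_sound (rad3_pos _ _ _ _ _ _) R1.1 R1.2 h
  obtain ⟨cs2, m2, h, L2⟩ := row_sound (rad3_pos _ _ _ _ _ _) R2.1 R2.2 h
  obtain ⟨cs3, m3, h, L3⟩ := row_sound (rad3_pos _ _ _ _ _ _) R3.1 R3.2 h
  refine ⟨_, h, ?_⟩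
  have hR' := ble_real hR
  simp only [Nat.mul_eq, Nat.cast_mul] at hR'
  have hRR : (16777216 * (R : ℝ)) ^ 3 ≤ 27 * P * ((Q : ℝ) ^ 2 * (1329227995784915872903807060280344576 * z.D)) := by
    have hPQ : 0 ≤ 27 * (P : ℝ) * (Q : ℝ) ^ 2 := by positivity
    have h1 := mul_le_mul_of_nonneg_left hmu hPQ
    push_cast at hR'
    nlinarith
  have A := amgm (R := 16777216 * (R : ℝ)) (Nat.cast_nonneg (α := ℝ) P) (Nat.cast_nonneg (α := ℝ) Q)
    (abs_nonneg _) (abs_nonneg _) (abs_nonneg _) hF hRR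
  unfold Acc.val
  simp only [show ∀ x : Int, Int.neg x = -x from fun _ => rfl, Int.add_def, Int.mul_def, Int.cast_add,
    Int.cast_mul, Int.cast_neg, ofNat_cast, Nat.mul_eq, Nat.cast_mul]
  push_cast
  linarith

theorem lin_bound (G : ℝ) {δ r : ℝ} (h : |δ| ≤ r) : G * δ ≤ |G| * r := by
  calc G * δ ≤ |G * δ| := le_abs_self _
    _ = |G| * |δ| := abs_mul _ _
    _ ≤ |G| * r := mul_le_mul_of_nonneg_left h (abs_nonneg _)

theorem fin_sound {b : Box} {z : Z} (hb : Mem b z) {acc : Acc} (h0 : 0 ≤ acc.val b z)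
    (h : fin b acc = true) : False := by
  unfold fin at h
  have h2 : Nat.blt _ _ = true := h
  have h3 := blt_real h2
  have h4 : ((Int.toNat (Int.neg acc.c) : Nat) : ℝ) ≤ -(acc.c : ℝ) ∨ ((Int.toNat (Int.neg acc.c) : Nat) : ℝ) = 0 := by
    rcases le_total 0 (Int.neg acc.c) with hc | hc
    · left
      have : ((Int.toNat (Int.neg acc.c) : Nat) : ℤ) = -acc.c := by
        rw [Int.toNat_of_nonneg hc]; rfl
      have h5 : ((Int.toNat (Int.neg acc.c) : Nat) : ℝ) = -(acc.c : ℝ) := by exact_mod_cast this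
      linarith
    · right
      rw [Int.toNat_of_nonpos hc]; simp
  simp only [Nat.add_eq, Nat.mul_eq, Nat.cast_add, Nat.cast_mul, natAbs_cast] at h3
  unfold Acc.val at h0
  have f0 := lin_bound (acc.k0 : ℝ) hb.m0
  have f1 := lin_bound (acc.k1 : ℝ) hb.m1
  have f2 := lin_bound (acc.k2 : ℝ) hb.m2
  have f3 := lin_bound (acc.k3 : ℝ) hb.m3
  have f4 := lin_bound (acc.k4 : ℝ) hb.m4
  have f5 := lin_bound (acc.k5 : ℝ) hb.m5
  have f6 := lin_bound (acc.k6 : ℝ) hb.m6
  rcases h4 with h4 | h4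
  · linarith
  · rw [h4] at h3
    have : (0 : ℝ) ≤ |(acc.k0 : ℝ)| * b.r0 + |(acc.k1 : ℝ)| * b.r1 + (|(acc.k2 : ℝ)| * b.r2 + |(acc.k3 : ℝ)| * b.r3) +
      (|(acc.k4 : ℝ)| * b.r4 + |(acc.k5 : ℝ)| * b.r5 + |(acc.k6 : ℝ)| * b.r6) := by positivity
    linarith

end Run7.h774.B2
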