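import Pool.Agent.Run7.h774.B2Sound2

/-! Soundness of the checker of `B2Check`, third part. -/

set_option autoImplicit false

namespace Run7.h774.B2

theorem sub_abs_le {x : ℝ} {c : Int} {r : Nat} (hx : |x - c| ≤ r) :
    ((Nat.sub (Int.natAbs c) r : Nat) : ℝ) ≤ |x| := by
  rcases le_total (Int.natAbs c) r with h | h
  · rw [Nat.sub_eq, Nat.sub_eq_zero_of_le h]; simp
  · rw [Nat.sub_eq, Nat.cast_sub h, natAbs_cast]
    have := abs_sub_abs_le_abs_sub (c : ℝ) x
    rw [abs_sub_comm] at this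
    linarith

theorem toNat_lower (c : Int) : (c : ℝ) ≤ ((Int.toNat c : Nat) : ℝ) := by
  have : c ≤ (Int.toNat c : ℤ) := Int.self_le_toNat c
  exact_mod_cast this

theorem outtest_sound {b : Box} {z : Z} (hb : Mem b z) (hz : Hyp z) (h : outtest b = true) : False := by
  have m0 := abs_le.1 hb.m0
  unfold outtest at h
  rcases cond_true_left h with h | h
  · have h1 := blt_real h
    simp only [Nat.mul_eq, Nat.cast_mul] at h1
    have h2 := toNat_lower (Int.add (Int.ofNat (Nat.add 65536 b.r0)) (Int.neg b.c0))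
    simp only [show ∀ x : Int, Int.neg x = -x from fun _ => rfl, Int.add_def, Int.cast_add,
      Int.cast_neg, ofNat_cast, Nat.add_eq, Nat.cast_add] at h2 h1
    have h3 := sub_abs_le hb.m1
    have h4 := hz.th
    rw [abs_mul, abs_of_pos (by norm_num : (0:ℝ) < 65536)] at h3
    push_cast at h1 h2
    linarith [m0.1, m0.2]
  rcases cond_true_left h with h | h
  · have h1 := blt_real h
    simp only [Nat.mul_eq, Nat.cast_mul] at h1
    have h2 := toNat_lower (Int.add (Int.ofNat (Nat.add 65536 b.r0)) b.c0)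
    simp only [Int.add_def, Int.cast_add, ofNat_cast, Nat.add_eq, Nat.cast_add] at h2 h1
    have h3 := sub_abs_le hb.m2
    have h4 := hz.tk
    rw [abs_mul, abs_of_pos (by norm_num : (0:ℝ) < 65536)] at h3
    push_cast at h1 h2
    linarith [m0.1, m0.2]
  rcases cond_true_left h with h | h
  · have h1 := blt_real h
    simp only [Nat.mul_eq, Nat.cast_mul] at h1
    have h2 := toNat_lower (Int.add (Int.ofNat (Nat.add 65536 b.r0)) b.c0)
    simp only [Int.add_def, Int.cast_add, ofNat_cast, Nat.add_eq, Nat.cast_add] at h2 h1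
    have h3 := sub_abs_le hb.m5
    have h4 := hz.t1
    rw [abs_mul, abs_of_pos (by norm_num : (0:ℝ) < 65536)] at h3
    push_cast at h1 h2
    linarith [m0.1, m0.2]
  rcases cond_true_left h with h | h
  · have h1 := blt_real h
    simp only [Nat.mul_eq, Nat.cast_mul] at h1
    have h2 := toNat_lower (Int.add (Int.ofNat (Nat.add 65536 b.r0)) (Int.neg b.c0))
    simp only [show ∀ x : Int, Int.neg x = -x from fun _ => rfl, Int.add_def, Int.cast_add,
      Int.cast_neg, ofNat_cast, Nat.add_eq, Nat.cast_add] at h2 h1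
    have h3 := sub_abs_le hb.m6
    have h4 := hz.t2
    rw [abs_mul, abs_of_pos (by norm_num : (0:ℝ) < 65536)] at h3
    push_cast at h1 h2
    linarith [m0.1, m0.2]
  · obtain ⟨h5, h6⟩ := cond_false_right h
    have k5 := blt_real h5
    have k6 := blt_real h6
    have b3 := ub_sound hb.m3
    have b4 := ub_sound hb.m4
    rw [abs_mul, abs_of_pos (by norm_num : (0:ℝ) < 65536)] at b3 b4
    simp only [Nat.mul_eq, Nat.cast_mul, Nat.add_eq, Nat.cast_add] at k5 k6 b3 b4
    push_cast at k5 k6 b3 b4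
    have ha := hz.ann
    rcases le_total |z.f1| |z.f2| with h | h
    · rw [max_eq_right h] at ha; linarith
    · rw [max_eq_left h] at ha; linarith

theorem half_ge (r : Nat) : (r : ℝ) ≤ 2 * (half r : Nat) := by
  have : r ≤ 2 * half r := by
    change r ≤ 2 * ((r + 1) / 2); omega
  exact_mod_cast this

theorem split_abs {X : ℝ} {c : Int} {r : Nat} (h : |X - (c : ℝ)| ≤ r) :
    |X - ((Int.add c (Int.neg (Int.ofNat (half r))) : Int) : ℝ)| ≤ (half r : Nat) ∨
      |X - ((Int.add c (Int.ofNat (half r)) : Int) : ℝ)| ≤ (half r : Nat) := by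
  have hh := half_ge r
  simp only [show ∀ x : Int, Int.neg x = -x from fun _ => rfl, Int.add_def, Int.cast_add,
      Int.cast_neg, ofNat_cast]
  rw [abs_le] at h
  rcases le_total X c with h1 | h1
  · left; rw [abs_le]; constructor <;> linarith [h.1, h.2]
  · right; rw [abs_le]; constructor <;> linarith [h.1, h.2]

theorem split_sound {b : Box} {v : Nat} {k : Box → Box → Bool} (h : split b v k = true) :
    ∃ bl br, k bl br = true ∧ ∀ z, Mem b z → Mem bl z ∨ Mem br z := by
  unfold split at h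
  rcases cond_true' h with ⟨-, h⟩ | ⟨-, h⟩
  · refine ⟨_, _, h, fun z hz => ?_⟩
    rcases split_abs hz.m0 with h2 | h2
    · exact Or.inl ⟨h2, hz.m1, hz.m2, hz.m3, hz.m4, hz.m5, hz.m6⟩
    · exact Or.inr ⟨h2, hz.m1, hz.m2, hz.m3, hz.m4, hz.m5, hz.m6⟩
  rcases cond_true' h with ⟨-, h⟩ | ⟨-, h⟩
  · refine ⟨_, _, h, fun z hz => ?_⟩
    rcases split_abs hz.m1 with h2 | h2
    · exact Or.inl ⟨hz.m0, h2, hz.m2, hz.m3, hz.m4, hz.m5, hz.m6⟩
    · exact Or.inr ⟨hz.m0, h2, hz.m2, hz.m3, hz.m4, hz.m5, hz.m6⟩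
  rcases cond_true' h with ⟨-, h⟩ | ⟨-, h⟩
  · refine ⟨_, _, h, fun z hz => ?_⟩
    rcases split_abs hz.m2 with h2 | h2
    · exact Or.inl ⟨hz.m0, hz.m1, h2, hz.m3, hz.m4, hz.m5, hz.m6⟩
    · exact Or.inr ⟨hz.m0, hz.m1, h2, hz.m3, hz.m4, hz.m5, hz.m6⟩
  rcases cond_true' h with ⟨-, h⟩ | ⟨-, h⟩
  · refine ⟨_, _, h, fun z hz => ?_⟩
    rcases split_abs hz.m3 with h2 | h2
    · exact Or.inl ⟨hz.m0, hz.m1, hz.m2, h2, hz.m4, hz.m5, hz.m6⟩
    · exact Or.inr ⟨hz.m0, hz.m1, hz.m2, h2, hz.m4, hz.m5, hz.m6⟩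
  rcases cond_true' h with ⟨-, h⟩ | ⟨-, h⟩
  · refine ⟨_, _, h, fun z hz => ?_⟩
    rcases split_abs hz.m4 with h2 | h2
    · exact Or.inl ⟨hz.m0, hz.m1, hz.m2, hz.m3, h2, hz.m5, hz.m6⟩
    · exact Or.inr ⟨hz.m0, hz.m1, hz.m2, hz.m3, h2, hz.m5, hz.m6⟩
  rcases cond_true' h with ⟨-, h⟩ | ⟨-, h⟩
  · refine ⟨_, _, h, fun z hz => ?_⟩
    rcases split_abs hz.m5 with h2 | h2
    · exact Or.inl ⟨hz.m0, hz.m1, hz.m2, hz.m3, hz.m4, h2, hz.m6⟩
    · exact Or.inr ⟨hz.m0, hz.m1, hz.m2, hz.m3, hz.m4, h2, hz.m6⟩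
  · refine ⟨_, _, h, fun z hz => ?_⟩
    rcases split_abs hz.m6 with h2 | h2
    · exact Or.inl ⟨hz.m0, hz.m1, hz.m2, hz.m3, hz.m4, hz.m5, h2⟩
    · exact Or.inr ⟨hz.m0, hz.m1, hz.m2, hz.m3, hz.m4, hz.m5, h2⟩

theorem row_ex {md w : Nat} {c : Int} {rad : Nat} {k : Int → Int → Bool}
    (h : row md w c rad k = true) : ∃ cst mult : Int, k cst mult = true := by
  unfold row at h
  rcases cond_true' h with ⟨-, h⟩ | ⟨-, h⟩
  · exact ⟨_, _, (cond_false_right h).2⟩
  rcases cond_true' h with ⟨-, h⟩ | ⟨-, h⟩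
  · exact ⟨_, _, (cond_false_right h).2⟩
  · exact ⟨_, _, h⟩

theorem cstep_ex {b : Box} {mu s md1 md2 md3 P Q R : Nat} {acc : Acc} {k : Acc → Bool}
    (h : cstep b mu s md1 md2 md3 P Q R acc k = true) : ∃ acc', k acc' = true := by
  unfold cstep at h
  obtain ⟨-, h⟩ := cond_false_right h
  obtain ⟨_, _, h⟩ := row_ex h
  obtain ⟨_, _, h⟩ := row_ex h
  obtain ⟨_, _, h⟩ := row_ex h
  exact ⟨_, h⟩

theorem lploop_ex {b : Box} {mu : Nat} (K : Nat) : ∀ (s : Nat) (acc : Acc) (k : Acc → Nat → Bool),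
    lploop b mu K s acc k = true → ∃ acc' s', k acc' s' = true := by
  induction K with
  | zero => intro s acc k h; exact ⟨_, _, h⟩
  | succ K ih =>
    intro s acc k h
    change cstep b mu s (Nat.mod (Nat.div s 1048576) 4) (Nat.mod (Nat.div s 4194304) 4)
        (Nat.mod (Nat.div s 16777216) 4) (Nat.mod (Nat.div s 67108864) 2048)
        (Nat.mod (Nat.div s 137438953472) 2048)
        (Nat.mul 2048 (Nat.mod (Nat.div s 281474976710656) 262144)) acc
        (fun acc' => lploop b mu K (Nat.div s 73786976294838206464) acc' k) = true at h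
    obtain ⟨acc', h'⟩ := cstep_ex h
    exact ih _ _ _ h'

theorem lploop_sound {b : Box} {z : Z} (hb : Mem b z) (hz : Hyp z) {mu : Nat}
    (hmu : (mu : ℝ) ≤ 281474976710656 * z.D) (K : Nat) :
    ∀ (s : Nat) (acc : Acc) (k : Acc → Nat → Bool),
    lploop b mu K s acc k = true → ∃ acc' s', k acc' s' = true ∧ acc.val b z ≤ acc'.val b z := by
  induction K with
  | zero => intro s acc k h; exact ⟨_, _, h, le_refl _⟩
  | succ K ih =>
    intro s acc k h
    change cstep b mu s (Nat.mod (Nat.div s 1048576) 4) (Nat.mod (Nat.div s 4194304) 4)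
        (Nat.mod (Nat.div s 16777216) 4) (Nat.mod (Nat.div s 67108864) 2048)
        (Nat.mod (Nat.div s 137438953472) 2048)
        (Nat.mul 2048 (Nat.mod (Nat.div s 281474976710656) 262144)) acc
        (fun acc' => lploop b mu K (Nat.div s 73786976294838206464) acc' k) = true at h
    obtain ⟨acc', h', hle⟩ := cstep_sound hb hz hmu h
    obtain ⟨acc'', s'', h'', hle'⟩ := ih _ _ _ h'
    exact ⟨acc'', s'', h'', le_trans hle hle'⟩

theorem acc0_val (b : Box) (z : Z) : acc0.val b z = 0 := by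
  unfold acc0 Acc.val; simp

/-- the box is settled -/
def BoxOK (b : Box) : Prop := ∀ z, Mem b z → Hyp z → False

theorem run_sound (fuel : Nat) :
    ∀ (b : Box) (s : Nat) (l : List Nat) (k : Nat → List Nat → Bool),
    run fuel b s l k = true → BoxOK b ∧ ∃ s' l', k s' l' = true := by
  induction fuel with
  | zero => intro b s l k h; exact absurd h (by simp [run])
  | succ fuel ih =>
    intro b s l k h
    change (fun t s1 =>
        cond (Nat.beq t 0)
          (split b (Nat.mod s1 8) (fun bl br =>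
            run fuel bl (Nat.div s1 8) l (fun s' l' => run fuel br s' l' k)))
        (cond (Nat.beq t 1)
          (cond (fcheck b s1) (k (Nat.div s1 1048576) l) false)
        (cond (Nat.beq t 2)
          (cond (outtest b) (k s1 l) false)
        ((fun e s2 =>
          cond (Nat.beq e 0)
            (List.rec (motive := fun _ => Bool) false (fun c l' _ => run fuel b c l' k) l)
            ((fun mu => cond (Nat.ble 1 mu)
              (lploop b mu (Nat.mod s2 16) (Nat.div s2 16) acc0 (fun acc s4 =>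
                cond (fin b acc) (k s4 l) false)) false) (Int.toNat (mu3 b))))
          (Nat.mod s1 2) (Nat.div s1 2)))))
        (Nat.mod s 4) (Nat.div s 4) = true at h
    beta_reduce at h
    rcases cond_true' h with ⟨-, h⟩ | ⟨-, h⟩
    · obtain ⟨bl, br, hk, hm⟩ := split_sound h
      obtain ⟨hl, s', l', hk'⟩ := ih _ _ _ _ hk
      obtain ⟨hr, s'', l'', hk''⟩ := ih _ _ _ _ hk'
      refine ⟨fun z hz hy => ?_, s'', l'', hk''⟩
      rcases hm z hz with h1 | h1
      · exact hl z h1 hy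
      · exact hr z h1 hy
    rcases cond_true' h with ⟨-, h⟩ | ⟨-, h⟩
    · obtain ⟨h1, hk⟩ := cond_false_right h
      exact ⟨fun z hz hy => fcheck_sound hz hy h1, _, _, hk⟩
    rcases cond_true' h with ⟨-, h⟩ | ⟨-, h⟩
    · obtain ⟨h1, hk⟩ := cond_false_right h
      exact ⟨fun z hz hy => outtest_sound hz hy h1, _, _, hk⟩
    rcases cond_true' h with ⟨-, h⟩ | ⟨-, h⟩
    · cases l with
      | nil => exact absurd h (by simp)
      | cons c l' => exact ih _ _ _ _ h
    · obtain ⟨hmu, h⟩ := cond_false_right h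
      constructor
      · intro z hz hy
        obtain ⟨acc', s', hk, hle⟩ := lploop_sound hz hy (mu3_nat hz hmu) _ _ _ _ h
        obtain ⟨h1, -⟩ := cond_false_right hk
        rw [acc0_val] at hle
        exact fin_sound hz hle h1
      · obtain ⟨acc', s', hk⟩ := lploop_ex _ _ _ _ h
        exact ⟨_, _, (cond_false_right hk).2⟩

/-- usable form -/
theorem piece (fuel : Nat) (b : Box) (s : Nat) (l : List Nat)
    (h : run fuel b s l (fun _ _ => true) = true) : BoxOK b :=
  (run_sound fuel b s l _ h).1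

/-- split of a box in the skeleton -/
theorem boxOK_split {b bl br : Box} {v : Nat} (hl : BoxOK bl) (hr : BoxOK br)
    (h : split b v (fun b1 b2 => (b1.c0 == bl.c0 && b1.c1 == bl.c1 && b1.c2 == bl.c2 && b1.c3 == bl.c3 &&
      b1.c4 == bl.c4 && b1.c5 == bl.c5 && b1.c6 == bl.c6 && b1.r0 == bl.r0 && b1.r1 == bl.r1 &&
      b1.r2 == bl.r2 && b1.r3 == bl.r3 && b1.r4 == bl.r4 && b1.r5 == bl.r5 && b1.r6 == bl.r6) &&
      (b2.c0 == br.c0 && b2.c1 == br.c1 && b2.c2 == br.c2 && b2.c3 == br.c3 &&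
      b2.c4 == br.c4 && b2.c5 == br.c5 && b2.c6 == br.c6 && b2.r0 == br.r0 && b2.r1 == br.r1 &&
      b2.r2 == br.r2 && b2.r3 == br.r3 && b2.r4 == br.r4 && b2.r5 == br.r5 && b2.r6 == br.r6)) = true) :
    BoxOK b := by
  obtain ⟨b1, b2, hk, hm⟩ := split_sound h
  simp only [Bool.and_eq_true, beq_iff_eq] at hk
  have e1 : b1 = bl := by cases b1; cases bl; simp_all
  have e2 : b2 = br := by cases b2; cases br; simp_all
  subst e1 e2
  intro z hz hy
  rcases hm z hz with h1 | h1
  · exact hl z h1 hy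
  · exact hr z h1 hy

end Run7.h774.B2
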