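import Pool.Agent.Run7.h774.Basic
import Pool.Agent.Run7.h774.B1Sound3

/-!
Definitions shared by the core of the upper bound `γ₂ ≤ 2/7` (MP_be9f18_nt).

A `3 × 3` real matrix `m` stands for the lattice `{m (e1 n, e2 n, e3 n) : n}` in the coordinates
`y1 = x1 + x2`, `y2 = x1 - x2`, `y3 = x3`; the form is `Gy = |y3| ((|y1| + |y2|)/2)^2`.
-/

set_option autoImplicit false

namespace Run7.h774

/-- the form in `y`-coordinates -/
noncomputable def Gy (y1 y2 y3 : ℝ) : ℝ := |y3| * ((|y1| + |y2|) / 2) ^ 2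

/-- the determinant of the matrix -/
noncomputable def det9 (m11 m12 m13 m21 m22 m23 m31 m32 m33 : ℝ) : ℝ :=
  m11 * (m22 * m33 - m23 * m32) - m12 * (m21 * m33 - m23 * m31) + m13 * (m21 * m32 - m22 * m31)

/-- scale invariant tube around the diagonal matrices -/
structure TubeP (H C E σ m11 m12 m13 m21 m22 m23 m31 m32 m33 : ℝ) : Prop where
  d1 : 0 < m11
  d2 : 0 < m22
  d3 : 0 < m33
  h21 : |m21| ≤ H * m11
  h12 : |m12| ≤ H * m22
  e1 : |m13| ≤ E * ((m11 + m22) / 2)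
  e2 : |m23| ≤ E * ((m11 + m22) / 2)
  c1 : |m31| * ((m11 + m22) / 2) ≤ C * (m11 * m33)
  c2 : |m32| * ((m11 + m22) / 2) ≤ C * (m22 * m33)
  s1 : (1 - σ) * m11 ≤ (1 + σ) * m22
  s2 : (1 - σ) * m22 ≤ (1 + σ) * m11

/-- STATEMENT of the annulus theorem (B2) -/
def AnnulusStmt : Prop :=
  ∀ m11 m12 m13 m21 m22 m23 m31 m32 m33 : ℝ,
    TubeP (135 / 1000) (83 / 1000) (2035 / 10000) (4535 / 10000) m11 m12 m13 m21 m22 m23 m31 m32 m33 →
    562 / 10000 * ((m11 + m22) / 2) ≤ max |m13| |m23| →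
    ∃ n : ℤ × ℤ × ℤ, ¬ (n.1 = 0 ∧ n.2.1 = 0 ∧ n.2.2 = 0) ∧
      (|m11 * e1 n + m12 * e2 n + m13 * e3 n| + |m21 * e1 n + m22 * e2 n + m23 * e3 n|) / 2
        ≤ 1000 * ((m11 + m22) / 2) ∧
      Gy (m11 * e1 n + m12 * e2 n + m13 * e3 n) (m21 * e1 n + m22 * e2 n + m23 * e3 n)
        (m31 * e1 n + m32 * e2 n + m33 * e3 n) < det9 m11 m12 m13 m21 m22 m23 m31 m32 m33

/-- STATEMENT of the walk (C) -/
def WalkStmt : Prop :=
  ∀ m11 m12 m13 m21 m22 m23 m31 m32 m33 κ : ℝ,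
    TubeP (135 / 1000) (83 / 1000) (2035 / 10000) (4535 / 10000) m11 m12 m13 m21 m22 m23 m31 m32 m33 →
    1 < κ →
    (∀ n : ℤ × ℤ × ℤ, ¬ (n.1 = 0 ∧ n.2.1 = 0 ∧ n.2.2 = 0) →
      (|m11 * e1 n + m12 * e2 n + m13 * e3 n| + |m21 * e1 n + m22 * e2 n + m23 * e3 n|) / 2
        ≤ 1000 * ((m11 + m22) / 2) →
      κ * det9 m11 m12 m13 m21 m22 m23 m31 m32 m33 ≤
        Gy (m11 * e1 n + m12 * e2 n + m13 * e3 n) (m21 * e1 n + m22 * e2 n + m23 * e3 n)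
        (m31 * e1 n + m32 * e2 n + m33 * e3 n)) → False

/-- STATEMENT of the branch and bound `B1` (`B1.Hyp`, `B1.Concl` in `B1Sound`, `B1Sound2`), with the
bounds on the variables as given by `reduction` -/
def B1Stmt : Prop :=
  ∀ z : B1.Z, B1.Hyp z → z.a ≤ 1 → 0 ≤ z.x3 → z.x3 ≤ 1 / 2 → |z.y3| ≤ 1 / 2 → B1.Concl z

end Run7.h774
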